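import Mathlib

set_option autoImplicit false

open scoped Topology
open Set Filter Module

noncomputable section

namespace Pool.Agent.V11106

variable {W : Type*} [AddCommGroup W] [Module ℝ W]

/-- Bilinear forms. -/
abbrev Fm (W : Type*) [AddCommGroup W] [Module ℝ W] : Type _ := W →ₗ[ℝ] W →ₗ[ℝ] ℝ

/-- Positive definite symmetric forms. -/
structure PD (P : Fm W) : Prop where
  symm : ∀ v w, P v w = P w v
  pos : ∀ v, v ≠ 0 → 0 < P v v

theorem PD.nonneg {P : Fm W} (hP : PD P) (v : W) : 0 ≤ P v v := by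
  by_cases h : v = 0
  · rw [h]; simp
  · exact (hP.pos v h).le

theorem PD.eq_zero {P : Fm W} (hP : PD P) {v : W} (h : ∀ w, P v w = 0) : v = 0 := by
  by_contra hv
  exact (hP.pos v hv).ne' (h v)

/-- Simultaneous diagonalization. -/
theorem exists_diag [FiniteDimensional ℝ W] {P D : Fm W} (hP : PD P)
    (hD : ∀ v w, D v w = D w v) :
    ∃ (b : Basis (Fin (finrank ℝ W)) ℝ W) (d : Fin (finrank ℝ W) → ℝ),
      (∀ i j, P (b i) (b j) = if i = j then 1 else 0) ∧
      ∀ i j, D (b i) (b j) = if i = j then d i else 0 := by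
  let core : InnerProductSpace.Core ℝ W :=
    { inner := fun v w => P v w
      conj_inner_symm := fun v w => by
        simp only [conj_trivial]
        exact hP.symm w v
      re_inner_nonneg := fun v => by
        simp only [RCLike.re_to_real]
        exact hP.nonneg v
      add_left := fun u v w => by simp
      smul_left := fun v w r => by simp
      definite := fun v hv => by
        by_contra h
        exact (hP.pos v h).ne' hv }
  let _ : NormedAddCommGroup W := core.toNormedAddCommGroup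
  let _ : InnerProductSpace ℝ W := InnerProductSpace.ofCore core.toCore
  have hin : ∀ v w : W, inner ℝ v w = P v w := fun v w => rfl
  let o := stdOrthonormalBasis ℝ W
  let T : W →ₗ[ℝ] W :=
    ∑ i, (LinearMap.toSpanSingleton ℝ W (o i)).comp (D.flip (o i))
  have hT0 : ∀ v, T v = ∑ i, D v (o i) • o i := by
    intro v
    simp only [T, LinearMap.sum_apply, LinearMap.comp_apply, LinearMap.flip_apply,
      LinearMap.toSpanSingleton_apply]
  have hT : ∀ v w, inner ℝ (T v) w = D v w := by
    intro v w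
    rw [hT0, sum_inner]
    conv_rhs => rw [← o.sum_repr' w]
    rw [map_sum]
    refine Finset.sum_congr rfl fun i _ => ?_
    rw [inner_smul_left, map_smul, smul_eq_mul, mul_comm]
    simp
  have hsymm : T.IsSymmetric := by
    intro v w
    rw [hT, real_inner_comm, hT, hD]
  refine ⟨(hsymm.eigenvectorBasis rfl).toBasis, hsymm.eigenvalues rfl, fun i j => ?_, fun i j => ?_⟩
  · rw [← hin, OrthonormalBasis.coe_toBasis]
    exact orthonormal_iff_ite.1 (hsymm.eigenvectorBasis rfl).orthonormal i j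
  · rw [OrthonormalBasis.coe_toBasis, ← hT, hsymm.apply_eigenvectorBasis, inner_smul_left]
    have := orthonormal_iff_ite.1 (hsymm.eigenvectorBasis rfl).orthonormal i j
    rw [this]
    simp

/-- The value of a diagonal form. -/
theorem form_expand {n : ℕ} (b : Basis (Fin n) ℝ W) {P : Fm W} {d : Fin n → ℝ}
    (h : ∀ i j, P (b i) (b j) = if i = j then d i else 0) (v w : W) :
    P v w = ∑ i, d i * (b.repr v i * b.repr w i) := by
  conv_lhs => rw [← b.sum_repr v, ← b.sum_repr w]
  simp only [map_sum, LinearMap.sum_apply, map_smul, LinearMap.smul_apply, smul_eq_mul, h]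
  refine Finset.sum_congr rfl fun i _ => ?_
  rw [Finset.sum_eq_single i]
  · simp; ring
  · intro j _ hj
    simp [hj]
  · simp

/-- The form with given diagonal values. -/
def diagForm {n : ℕ} (b : Basis (Fin n) ℝ W) (d : Fin n → ℝ) : Fm W :=
  ∑ i, d i • (b.coord i).smulRight (b.coord i)

theorem diagForm_apply {n : ℕ} (b : Basis (Fin n) ℝ W) (d : Fin n → ℝ) (v w : W) :
    diagForm b d v w = ∑ i, d i * (b.repr v i * b.repr w i) := by
  simp [diagForm, LinearMap.sum_apply]

/-- `X` is the geometric mean of `P` and `Q`. -/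
structure IsGM (P Q X : Fm W) : Prop where
  pd : PD X
  ex : ∃ A : W →ₗ[ℝ] W, (∀ v w, X v w = Q (A v) w) ∧ ∀ v w, P v w = Q (A v) (A w)

theorem exists_gm [FiniteDimensional ℝ W] {P Q : Fm W} (hP : PD P) (hQ : PD Q) :
    ∃ X, IsGM P Q X := by
  obtain ⟨b, d, h1, h2⟩ := exists_diag hQ hP.symm
  have hd : ∀ i, 0 < d i := fun i => by
    have := hP.pos (b i) (b.ne_zero i)
    rw [h2] at this
    simpa using this
  have h1' : ∀ i j, Q (b i) (b j) = if i = j then (fun _ => (1 : ℝ)) i else 0 := h1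
  refine ⟨diagForm b fun i => √(d i), ⟨fun v w => ?_, fun v hv => ?_⟩,
    b.constr ℝ fun i => √(d i) • b i, fun v w => ?_, fun v w => ?_⟩
  · rw [diagForm_apply, diagForm_apply]
    refine Finset.sum_congr rfl fun i _ => by ring
  · rw [diagForm_apply]
    have hne : ∃ i, b.repr v i ≠ 0 := by
      by_contra hc
      push Not at hc
      exact hv (b.ext_elem fun i => by rw [hc i]; simp)
    obtain ⟨i, hi⟩ := hne
    refine Finset.sum_pos' (fun j _ => ?_) ⟨i, Finset.mem_univ i, ?_⟩
    · exact mul_nonneg (Real.sqrt_nonneg _) (mul_self_nonneg _)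
    · exact mul_pos (Real.sqrt_pos.2 (hd i)) (mul_self_pos.2 hi)
  · rw [form_expand b h1', diagForm_apply]
    refine Finset.sum_congr rfl fun i _ => ?_
    have : b.repr (b.constr ℝ (fun i => √(d i) • b i) v) i = √(d i) * b.repr v i := by
      rw [Basis.constr_apply_fintype, map_sum, Finsupp.finsetSum_apply]
      rw [Finset.sum_eq_single i]
      · simp; ring
      · intro j _ hj
        simp [hj]
      · simp
    rw [this]; ring
  · rw [form_expand b h1', form_expand b h2]
    refine Finset.sum_congr rfl fun i _ => ?_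
    have : ∀ v, b.repr (b.constr ℝ (fun i => √(d i) • b i) v) i = √(d i) * b.repr v i := by
      intro v
      rw [Basis.constr_apply_fintype, map_sum, Finsupp.finsetSum_apply]
      rw [Finset.sum_eq_single i]
      · simp; ring
      · intro j _ hj
        simp [hj]
      · simp
    rw [this, this]
    have h3 := Real.mul_self_sqrt (hd i).le
    linear_combination (-(b.repr v i * b.repr w i)) * h3

/-- Cauchy-Schwarz. -/
theorem PD.cs {P : Fm W} (hP : PD P) (v w : W) : P v w ^ 2 ≤ P v v * P w w := by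
  by_cases hw : w = 0
  · rw [hw]; simp
  have h0 := hP.pos w hw
  have h1 := hP.nonneg (P w w • v - P v w • w)
  simp only [map_sub, map_smul, LinearMap.sub_apply, LinearMap.smul_apply, smul_eq_mul] at h1
  rw [hP.symm w v] at h1
  have h2 : 0 ≤ P w w * (P v v * P w w - P v w ^ 2) := by linarith
  have h3 := nonneg_of_mul_nonneg_right h2 h0
  linarith

theorem IsGM.cs {P Q X : Fm W} (hQ : PD Q) (h : IsGM P Q X) (v w : W) :
    X v w ^ 2 ≤ P v v * Q w w := by
  obtain ⟨A, h1, h2⟩ := h.ex
  rw [h1, h2]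
  exact hQ.cs _ _

/-- Maximality of the geometric mean. -/
theorem IsGM.max [FiniteDimensional ℝ W] {P Q X : Fm W} (hP : PD P) (hQ : PD Q)
    (h : IsGM P Q X) (Z : Fm W) (hZ : ∀ v w, Z v w = Z w v)
    (hcs : ∀ v w, Z v w ^ 2 ≤ P v v * Q w w) (v : W) : Z v v ≤ X v v := by
  obtain ⟨A, h1, h2⟩ := h.ex
  -- diagonalize `Z - X` with respect to `P`
  obtain ⟨b, d, hb, hd⟩ := exists_diag (P := P) (D := Z - X) hP (fun v w => by
    simp only [LinearMap.sub_apply]
    rw [hZ, h.pd.symm])
  have hb' : ∀ i j, P (b i) (b j) = if i = j then (fun _ => (1 : ℝ)) i else 0 := hb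
  have hAinj : Function.Injective A := by
    rw [injective_iff_map_eq_zero]
    intro u hu
    refine hP.eq_zero (v := u) fun w => ?_
    rw [h2, hu]; simp
  have hAsurj : Function.Surjective A := LinearMap.injective_iff_surjective.1 hAinj
  have hdi : ∀ i, d i ≤ 0 := by
    intro i
    by_contra hpos
    push Not at hpos
    obtain ⟨a, ha⟩ := hAsurj (b i)
    -- `Z (b i) w = P (a + d i • b i) w`
    have hX : ∀ w, X (b i) w = P a w := by
      intro w
      obtain ⟨w', hw'⟩ : ∃ w', w' = A w := ⟨_, rfl⟩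
      rw [h.pd.symm, h1, h2, ha, hQ.symm]
    have hZX : ∀ w, Z (b i) w = P (a + d i • b i) w := by
      intro w
      have e1 : (Z - X) (b i) w = d i * P (b i) w := by
        rw [form_expand b hd, form_expand b hb', Finset.mul_sum]
        refine Finset.sum_congr rfl fun j _ => ?_
        by_cases hij : i = j
        · subst hij; simp
        · have : b.repr (b i) j = 0 := by simp [hij]
          rw [this]; ring
      simp only [LinearMap.sub_apply] at e1
      simp only [map_add, map_smul, LinearMap.add_apply, LinearMap.smul_apply, smul_eq_mul]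
      rw [← hX]
      linarith
    set u := a + d i • b i with hu
    have e2 := hcs u (b i)
    rw [hZ, hZX] at e2
    have e3 : P u u = Q (b i) (b i) + 2 * d i * X (b i) (b i) + d i ^ 2 * P (b i) (b i) := by
      have e4 : P a a = Q (b i) (b i) := by rw [h2, ha]
      have e5 : P a (b i) = X (b i) (b i) := by rw [hX]
      simp only [hu, map_add, map_smul, LinearMap.add_apply, LinearMap.smul_apply, smul_eq_mul]
      rw [hP.symm (b i) a, e4, e5]; ring
    have e6 := h.pd.pos (b i) (b.ne_zero i)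
    have e7 := hP.pos (b i) (b.ne_zero i)
    have e8 := hQ.pos (b i) (b.ne_zero i)
    have e9 : Q (b i) (b i) < P u u := by
      rw [e3]
      have := mul_pos hpos e6
      have := mul_pos (pow_pos hpos 2) e7
      linarith
    nlinarith
  have h3 : (Z - X) v v ≤ 0 := by
    rw [form_expand b hd]
    refine Finset.sum_nonpos fun i _ => ?_
    exact mul_nonpos_of_nonpos_of_nonneg (hdi i) (mul_self_nonneg _)
  simp only [LinearMap.sub_apply] at h3
  linarith

/-- Symmetric forms are determined by their quadratic forms. -/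
theorem eq_of_quad {P Q : Fm W} (hP : ∀ v w, P v w = P w v) (hQ : ∀ v w, Q v w = Q w v)
    (h : ∀ v, P v v = Q v v) : P = Q := by
  ext v w
  have h1 := h (v + w)
  simp only [map_add, LinearMap.add_apply] at h1
  have h2 := h v
  have h3 := h w
  rw [hP w v, hQ w v] at h1
  linarith

theorem IsGM.unique [FiniteDimensional ℝ W] {P Q X Y : Fm W} (hP : PD P) (hQ : PD Q)
    (h : IsGM P Q X) (h' : IsGM P Q Y) : X = Y := by
  refine eq_of_quad h.pd.symm h'.pd.symm fun v => le_antisymm ?_ ?_
  · exact h'.max hP hQ X h.pd.symm (h.cs hQ) v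
  · exact h.max hP hQ Y h'.pd.symm (h'.cs hQ) v

open Classical in
/-- The geometric mean of two positive definite forms. -/
def gm [FiniteDimensional ℝ W] (P Q : Fm W) : Fm W :=
  if h : PD P ∧ PD Q then (exists_gm h.1 h.2).choose else 0

theorem gm_spec [FiniteDimensional ℝ W] {P Q : Fm W} (hP : PD P) (hQ : PD Q) :
    IsGM P Q (gm P Q) := by
  rw [gm, dif_pos ⟨hP, hQ⟩]
  exact (exists_gm hP hQ).choose_spec

theorem gm_pd [FiniteDimensional ℝ W] {P Q : Fm W} (hP : PD P) (hQ : PD Q) : PD (gm P Q) :=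
  (gm_spec hP hQ).pd

/-- Monotonicity, scaling and restriction, in one statement: `π` is a linear map. -/
theorem gm_mono [FiniteDimensional ℝ W] {W₂ : Type*} [AddCommGroup W₂] [Module ℝ W₂]
    [FiniteDimensional ℝ W₂] {P Q : Fm W₂} {P' Q' : Fm W} (hP : PD P) (hQ : PD Q)
    (hP' : PD P') (hQ' : PD Q') {a b c : ℝ} (habc : c ^ 2 * (a * b) ≤ 1)
    (ha : 0 ≤ a) (π : W →ₗ[ℝ] W₂)
    (h1 : ∀ v, P (π v) (π v) ≤ a * P' v v) (h2 : ∀ v, Q (π v) (π v) ≤ b * Q' v v) (v : W) :
    c * gm P Q (π v) (π v) ≤ gm P' Q' v v := by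
  let Z : Fm W := c • (gm P Q).compl₁₂ π π
  have hZ : ∀ v w, Z v w = c * gm P Q (π v) (π w) := fun v w => by
    simp [Z, LinearMap.compl₁₂_apply]
  have := (gm_spec hP' hQ').max hP' hQ' Z (fun v w => by
    rw [hZ, hZ, (gm_pd hP hQ).symm]) (fun v w => by
    rw [hZ, mul_pow]
    have e1 := (gm_spec hP hQ).cs hQ (π v) (π w)
    have e2 := h1 v
    have e3 := h2 w
    have e4 := hQ.nonneg (π w)
    have e5 := hP.nonneg (π v)
    have e6 : P (π v) (π v) * Q (π w) (π w) ≤ (a * P' v v) * (b * Q' w w) :=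
      mul_le_mul e2 e3 e4 (mul_nonneg ha (hP'.nonneg v))
    have e7 := mul_nonneg (hP'.nonneg v) (hQ'.nonneg w)
    calc c ^ 2 * (gm P Q (π v) (π w)) ^ 2 ≤ c ^ 2 * ((a * P' v v) * (b * Q' w w)) :=
          mul_le_mul_of_nonneg_left (e1.trans e6) (sq_nonneg c)
      _ = (c ^ 2 * (a * b)) * (P' v v * Q' w w) := by ring
      _ ≤ 1 * (P' v v * Q' w w) := mul_le_mul_of_nonneg_right habc e7
      _ = P' v v * Q' w w := one_mul _) v
  rwa [hZ] at this

theorem gm_comm [FiniteDimensional ℝ W] {P Q : Fm W} (hP : PD P) (hQ : PD Q) :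
    gm P Q = gm Q P := by
  refine eq_of_quad (gm_pd hP hQ).symm (gm_pd hQ hP).symm fun v => le_antisymm ?_ ?_
  · refine (gm_spec hQ hP).max hQ hP _ (gm_pd hP hQ).symm (fun v w => ?_) v
    rw [(gm_pd hP hQ).symm, mul_comm]
    exact (gm_spec hP hQ).cs hQ w v
  · refine (gm_spec hP hQ).max hP hQ _ (gm_pd hQ hP).symm (fun v w => ?_) v
    rw [(gm_pd hQ hP).symm, mul_comm]
    exact (gm_spec hQ hP).cs hP w v

theorem gm_self [FiniteDimensional ℝ W] {P : Fm W} (hP : PD P) : gm P P = P :=
  (gm_spec hP hP).unique hP hP ⟨hP, LinearMap.id, fun _ _ => rfl, fun _ _ => rfl⟩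

/-- Pull back of a form. -/
def pb {W' : Type*} [AddCommGroup W'] [Module ℝ W'] (T : W' →ₗ[ℝ] W) (P : Fm W) : Fm W' :=
  P.compl₁₂ T T

theorem pb_apply {W' : Type*} [AddCommGroup W'] [Module ℝ W'] (T : W' →ₗ[ℝ] W) (P : Fm W)
    (v w : W') : pb T P v w = P (T v) (T w) := rfl

theorem PD.pb {W' : Type*} [AddCommGroup W'] [Module ℝ W'] {T : W' →ₗ[ℝ] W}
    (hT : Function.Injective T) {P : Fm W} (hP : PD P) : PD (pb T P) where
  symm v w := hP.symm _ _
  pos v hv := hP.pos _ fun h => hv (hT (by rw [h, map_zero]))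

/-- Naturality of the geometric mean. -/
theorem gm_pb [FiniteDimensional ℝ W] {W' : Type*} [AddCommGroup W'] [Module ℝ W']
    [FiniteDimensional ℝ W'] (e : W' ≃ₗ[ℝ] W) {P Q : Fm W} (hP : PD P) (hQ : PD Q) :
    gm (pb (e : W' →ₗ[ℝ] W) P) (pb (e : W' →ₗ[ℝ] W) Q) = pb (e : W' →ₗ[ℝ] W) (gm P Q) := by
  have hP' := hP.pb (T := (e : W' →ₗ[ℝ] W)) e.injective
  have hQ' := hQ.pb (T := (e : W' →ₗ[ℝ] W)) e.injective
  refine (gm_spec hP' hQ').unique hP' hQ' ⟨(gm_pd hP hQ).pb e.injective, ?_⟩
  obtain ⟨A, h1, h2⟩ := (gm_spec hP hQ).ex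
  refine ⟨(e.symm : W →ₗ[ℝ] W').comp (A.comp (e : W' →ₗ[ℝ] W)), fun v w => ?_, fun v w => ?_⟩
  · simp only [pb_apply, LinearMap.comp_apply, LinearEquiv.coe_coe, LinearEquiv.apply_symm_apply]
    exact h1 _ _
  · simp only [pb_apply, LinearMap.comp_apply, LinearEquiv.coe_coe, LinearEquiv.apply_symm_apply]
    exact h2 _ _

end Pool.Agent.V11106
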