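import Mathlib
import Pool.Agent.V11106.GM1

set_option autoImplicit false

open scoped Topology
open Set Filter Module

noncomputable section

namespace Pool.Agent.V11106

variable {W : Type*} [AddCommGroup W] [Module ℝ W]

theorem cb_one {k n : ℕ} (B C : Matrix (Fin k) (Fin n) ℝ) :
    (B * C.transpose).det =
      ∑ φ : Fin k → Fin n, (∏ i, C i (φ i)) * (B.submatrix id φ).det := by
  rw [Matrix.det_apply']
  have h1 : ∀ σ : Equiv.Perm (Fin k), ((Equiv.Perm.sign σ : ℤ) : ℝ) *
      ∏ i, (B * C.transpose) (σ i) i =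
      ∑ φ : Fin k → Fin n, (∏ i, C i (φ i)) *
        (((Equiv.Perm.sign σ : ℤ) : ℝ) * ∏ i, B (σ i) (φ i)) := by
    intro σ
    have : ∀ i, (B * C.transpose) (σ i) i = ∑ l, B (σ i) l * C i l := fun i => by
      rw [Matrix.mul_apply]
      rfl
    simp only [this]
    rw [Finset.prod_univ_sum, Finset.mul_sum, Fintype.piFinset_univ]
    refine Finset.sum_congr rfl fun φ _ => ?_
    rw [Finset.prod_mul_distrib]
    ring
  simp only [h1]
  rw [Finset.sum_comm]
  refine Finset.sum_congr rfl fun φ _ => ?_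
  rw [← Finset.mul_sum, Matrix.det_apply']
  rfl

/-- A form of the Cauchy-Binet formula. -/
theorem cb {k n : ℕ} (B C : Matrix (Fin k) (Fin n) ℝ) :
    (k.factorial : ℝ) * (B * C.transpose).det =
      ∑ φ : Fin k → Fin n, (C.submatrix id φ).det * (B.submatrix id φ).det := by
  have h1 : ∀ φ : Fin k → Fin n, (C.submatrix id φ).det * (B.submatrix id φ).det =
      ∑ τ : Equiv.Perm (Fin k), ((Equiv.Perm.sign τ : ℤ) : ℝ) *
        ((∏ i, C (τ i) (φ i)) * (B.submatrix id φ).det) := by
    intro φ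
    rw [Matrix.det_apply', Finset.sum_mul]
    refine Finset.sum_congr rfl fun τ _ => ?_
    simp only [Matrix.submatrix_apply, id]
    ring
  simp only [h1]
  rw [Finset.sum_comm]
  have h2 : ∀ τ : Equiv.Perm (Fin k), ∑ φ : Fin k → Fin n, ((Equiv.Perm.sign τ : ℤ) : ℝ) *
        ((∏ i, C (τ i) (φ i)) * (B.submatrix id φ).det) = (B * C.transpose).det := by
    intro τ
    rw [cb_one]
    have e : (Fin k → Fin n) ≃ (Fin k → Fin n) := Equiv.arrowCongr τ (Equiv.refl _)
    refine Fintype.sum_equiv (Equiv.arrowCongr τ (Equiv.refl _)) _ _ fun φ => ?_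
    have e1 : (Equiv.arrowCongr τ (Equiv.refl (Fin n))) φ = φ ∘ τ.symm := rfl
    rw [e1]
    have e2 : (∏ i, C i ((φ ∘ τ.symm) i)) = ∏ i, C (τ i) (φ i) := by
      rw [← Equiv.prod_comp τ]
      simp
    rw [e2]
    have e3 : B.submatrix id φ = (B.submatrix id (φ ∘ τ.symm)).submatrix id τ := by
      ext i j
      simp
    rw [e3, Matrix.det_permute']
    have e4 : ((Equiv.Perm.sign τ : ℤ) : ℝ) * ((Equiv.Perm.sign τ : ℤ) : ℝ) = 1 := by
      rw [← Int.cast_mul, Int.units_coe_mul_self]
      simp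
    linear_combination (∏ i, C (τ i) (φ i)) * (B.submatrix id (φ ∘ τ.symm)).det * e4
  simp only [h2, Finset.sum_const, Finset.card_univ, Fintype.card_perm, Fintype.card_fin,
    nsmul_eq_mul]

/-- Comparison of volumes for diagonal forms. -/
theorem det_cmp {k n : ℕ} (B : Matrix (Fin k) (Fin n) ℝ) (μ ν : Fin n → ℝ) {a b : ℝ}
    (h : ∀ φ : Fin k → Fin n, Function.Injective φ →
      a * ∏ i, ν (φ i) ≤ b * ∏ i, μ (φ i)) :
    a * (B * Matrix.diagonal ν * B.transpose).det ≤
      b * (B * Matrix.diagonal μ * B.transpose).det := by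
  have hk : (0 : ℝ) < (k.factorial : ℝ) := by exact_mod_cast k.factorial_pos
  have h1 : ∀ μ : Fin n → ℝ, (k.factorial : ℝ) * (B * Matrix.diagonal μ * B.transpose).det =
      ∑ φ : Fin k → Fin n, (∏ i, μ (φ i)) * (B.submatrix id φ).det ^ 2 := by
    intro μ
    rw [cb]
    refine Finset.sum_congr rfl fun φ _ => ?_
    have e1 : (B * Matrix.diagonal μ).submatrix id φ =
        B.submatrix id φ * Matrix.diagonal (μ ∘ φ) := by
      ext i j
      simp [Matrix.mul_diagonal]
    rw [e1, Matrix.det_mul, Matrix.det_diagonal]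
    simp only [Function.comp_apply]
    ring
  have h2 : (k.factorial : ℝ) * (a * (B * Matrix.diagonal ν * B.transpose).det) ≤
      (k.factorial : ℝ) * (b * (B * Matrix.diagonal μ * B.transpose).det) := by
    have e1 := h1 μ
    have e2 := h1 ν
    have e3 : a * ∑ φ : Fin k → Fin n, (∏ i, ν (φ i)) * (B.submatrix id φ).det ^ 2 ≤
        b * ∑ φ : Fin k → Fin n, (∏ i, μ (φ i)) * (B.submatrix id φ).det ^ 2 := by
      rw [Finset.mul_sum, Finset.mul_sum]
      refine Finset.sum_le_sum fun φ _ => ?_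
      by_cases hφ : Function.Injective φ
      · have := mul_le_mul_of_nonneg_right (h φ hφ) (sq_nonneg (B.submatrix id φ).det)
        linarith
      · simp only [Function.Injective] at hφ
        push Not at hφ
        obtain ⟨i, j, hij, hne⟩ := hφ
        have : (B.submatrix id φ).det = 0 :=
          Matrix.det_zero_of_column_eq hne fun l => by simp [hij]
        rw [this]; simp
    rw [← e1, ← e2] at e3
    linarith
  exact le_of_mul_le_mul_left h2 hk

/-- The Gram matrix. -/
def gram (P : Fm W) {k : ℕ} (v : Fin k → W) : Matrix (Fin k) (Fin k) ℝ :=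
  Matrix.of fun i j => P (v i) (v j)

theorem gram_diag {k n : ℕ} (b : Basis (Fin n) ℝ W) {P : Fm W} {d : Fin n → ℝ}
    (h : ∀ i j, P (b i) (b j) = if i = j then d i else 0) (v : Fin k → W) :
    gram P v = (Matrix.of fun i l => b.repr (v i) l) * Matrix.diagonal d *
      (Matrix.of fun i l => b.repr (v i) l).transpose := by
  ext i j
  rw [Matrix.mul_apply]
  simp only [gram, Matrix.of_apply, Matrix.mul_diagonal, Matrix.transpose_apply]
  rw [form_expand b h]
  refine Finset.sum_congr rfl fun l _ => by ring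

/-- The Gram determinant of independent vectors is positive. -/
theorem gram_pos {P : Fm W} (hP : PD P) {k : ℕ} {v : Fin k → W} (hv : LinearIndependent ℝ v) :
    0 < (gram P v).det := by
  refine Matrix.PosDef.det_pos (Matrix.PosDef.of_dotProduct_mulVec_pos ?_ fun x hx => ?_)
  · ext i j
    simp only [gram, Matrix.conjTranspose_apply, Matrix.of_apply, star_trivial]
    exact hP.symm _ _
  · have e1 : star x ⬝ᵥ (gram P v).mulVec x = P (∑ i, x i • v i) (∑ i, x i • v i) := by
      simp only [map_sum, LinearMap.sum_apply, map_smul, LinearMap.smul_apply, smul_eq_mul,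
        dotProduct, Matrix.mulVec, gram, Matrix.of_apply, star_trivial, Finset.mul_sum]
      refine Finset.sum_congr rfl fun i _ => ?_
      refine Finset.sum_congr rfl fun j _ => ?_
      rw [hP.symm (v i)]
      ring
    rw [e1]
    refine hP.pos _ fun h0 => hx ?_
    ext i
    exact Fintype.linearIndependent_iff.1 hv x h0 i

/-- Nonnegativity of the Gram determinant. -/
theorem gram_nonneg {P : Fm W} (hP : PD P) {k : ℕ} (v : Fin k → W) : 0 ≤ (gram P v).det := by
  by_cases hv : LinearIndependent ℝ v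
  · exact (gram_pos hP hv).le
  · rw [Fintype.linearIndependent_iff] at hv
    push Not at hv
    obtain ⟨x, h0, i, hi⟩ := hv
    refine le_of_eq (Eq.symm ?_)
    refine Matrix.exists_mulVec_eq_zero_iff.1 ⟨x, fun h => hi (by rw [h]; rfl), ?_⟩
    ext j
    have := congrArg (P (v j)) h0
    simp only [map_sum, map_smul, smul_eq_mul, map_zero] at this
    simp only [Matrix.mulVec, dotProduct, gram, Matrix.of_apply, Pi.zero_apply]
    rw [← this]
    refine Finset.sum_congr rfl fun i _ => by ring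

/-- Monotonicity of the Gram determinant. -/
theorem gram_mono [FiniteDimensional ℝ W] {P Q : Fm W} (hP : PD P) (hQ : PD Q) {c : ℝ}
    (hc : 0 ≤ c) (h : ∀ v, c * P v v ≤ Q v v) {k : ℕ} (v : Fin k → W) :
    c ^ k * (gram P v).det ≤ (gram Q v).det := by
  obtain ⟨b, μ, h1, h2⟩ := exists_diag hP hQ.symm
  have h1' : ∀ i j, P (b i) (b j) = if i = j then (fun _ => (1 : ℝ)) i else 0 := h1
  rw [gram_diag b h1', gram_diag b h2]
  have hμ : ∀ i, c ≤ μ i := fun i => by
    have := h (b i)
    rw [h1, h2] at this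
    simpa using this
  have := det_cmp (Matrix.of fun i l => b.repr (v i) l) μ (fun _ => (1 : ℝ)) (a := c ^ k) (b := 1)
    (fun φ _ => by
      simp only [Finset.prod_const_one, mul_one, one_mul]
      calc c ^ k = ∏ _i : Fin k, c := by simp
        _ ≤ ∏ i, μ (φ i) := Finset.prod_le_prod (fun _ _ => hc) fun i _ => hμ _)
  rwa [one_mul] at this

theorem gram_restrict {F : Submodule ℝ W} (P : Fm W) {k : ℕ} (v : Fin k → F) :
    gram (pb F.subtype P) v = gram P fun i => (v i : W) := rfl

/-- The volume lemma. `p` is a projection, `F` its kernel. -/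
theorem gm_vol [FiniteDimensional ℝ W] {P Q R : Fm W} (hP : PD P) (hQ : PD Q) (hR : PD R)
    (p : W →ₗ[ℝ] W) (hpp : ∀ v, p (p v) = p v)
    (hoP : ∀ v w, p w = 0 → gm P Q (p v) w = 0) (hoR : ∀ v w, p w = 0 → gm R Q (p v) w = 0)
    {k : ℕ} {c : ℝ} (hc : 0 ≤ c)
    (h : ∀ v : Fin k → W, (∀ i, p (v i) = 0) → c ^ 2 * (gram P v).det ≤ (gram R v).det)
    (v : Fin k → W) (hv : ∀ i, p (v i) = 0) :
    c * (gram (gm P Q) v).det ≤ (gram (gm R Q) v).det := by
  have hY := gm_spec hP hQ
  have hX := gm_spec hR hQ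
  set X := gm R Q with hXdef
  set Y := gm P Q with hYdef
  obtain ⟨A, a1, a2⟩ := hX.ex
  obtain ⟨B, b1, b2⟩ := hY.ex
  let F : Submodule ℝ W := LinearMap.ker p
  have hinj : Function.Injective F.subtype := Subtype.val_injective
  have hYF : PD (pb F.subtype Y) := hY.pd.pb hinj
  have hXF : PD (pb F.subtype X) := hX.pd.pb hinj
  obtain ⟨b, μ, h1, h2⟩ := exists_diag hYF hXF.symm
  have h1' : ∀ i j, pb F.subtype Y (b i) (b j) = if i = j then (fun _ => (1 : ℝ)) i else 0 := h1
  have hμ : ∀ i, 0 < μ i := fun i => by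
    have := hXF.pos (b i) (b.ne_zero i)
    rw [h2] at this
    simpa using this
  have hAB : ∀ i, A (b i : W) = μ i • B (b i : W) := by
    intro i
    rw [← sub_eq_zero]
    refine hQ.eq_zero fun w => ?_
    rw [map_sub, map_smul, LinearMap.sub_apply, LinearMap.smul_apply, ← a1, ← b1, smul_eq_mul]
    have hw : w = p w + (w - p w) := by abel
    have hw0 : p (w - p w) = 0 := by rw [map_sub, hpp, sub_self]
    have hbi : p (b i : W) = 0 := (b i).2
    have e1 : X (b i : W) (p w) = 0 := by rw [hX.pd.symm]; exact hoR _ _ hbi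
    have e2 : Y (b i : W) (p w) = 0 := by rw [hY.pd.symm]; exact hoP _ _ hbi
    have e3 : X (b i : W) (w - p w) = μ i * Y (b i : W) (w - p w) := by
      have g1 : pb F.subtype X (b i) ⟨w - p w, hw0⟩ = μ i * b.repr ⟨w - p w, hw0⟩ i := by
        rw [form_expand b h2, Finset.sum_eq_single i]
        · simp
        · intro j _ hj
          simp [hj]
        · simp
      have g2 : pb F.subtype Y (b i) ⟨w - p w, hw0⟩ = b.repr ⟨w - p w, hw0⟩ i := by
        rw [form_expand b h1', Finset.sum_eq_single i]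
        · simp
        · intro j _ hj
          simp [hj]
        · simp
      have g1' : X (b i : W) (w - p w) = μ i * b.repr ⟨w - p w, hw0⟩ i := g1
      have g2' : Y (b i : W) (w - p w) = b.repr ⟨w - p w, hw0⟩ i := g2
      rw [g1', g2']
    rw [hw, map_add, map_add, e1, e2, e3]
    ring
  have hRP : ∀ i j, R (b i : W) (b j : W) = μ i * μ j * P (b i : W) (b j : W) := by
    intro i j
    rw [a2, b2, hAB, hAB]
    simp only [map_smul, LinearMap.smul_apply, smul_eq_mul]
    ring
  have hprod : ∀ φ : Fin k → Fin (finrank ℝ F), Function.Injective φ → c ≤ ∏ i, μ (φ i) := by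
    intro φ hφ
    have e1 : gram R (fun i => (b (φ i) : W)) =
        Matrix.diagonal (fun i => μ (φ i)) * gram P (fun i => (b (φ i) : W)) *
          Matrix.diagonal (fun i => μ (φ i)) := by
      ext i j
      rw [Matrix.mul_diagonal, Matrix.diagonal_mul]
      simp only [gram, Matrix.of_apply]
      rw [hRP]
      ring
    have e2 := h (fun i => (b (φ i) : W)) fun i => (b (φ i)).2
    have hli : LinearIndependent ℝ fun i => (b (φ i) : W) := by
      have := (b.linearIndependent.comp φ hφ).map' F.subtype (Submodule.ker_subtype F)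
      exact this
    have e3 := gram_pos hP hli
    rw [e1, Matrix.det_mul, Matrix.det_mul, Matrix.det_diagonal] at e2
    have e4 : 0 < ∏ i, μ (φ i) := Finset.prod_pos fun i _ => hμ _
    have e5 : c ^ 2 ≤ (∏ i, μ (φ i)) ^ 2 := by
      have : c ^ 2 * (gram P fun i => (b (φ i) : W)).det ≤
          (∏ i, μ (φ i)) ^ 2 * (gram P fun i => (b (φ i) : W)).det := by linarith
      exact le_of_mul_le_mul_right this e3
    exact (sq_le_sq₀ hc e4.le).1 e5
  let v' : Fin k → F := fun i => ⟨v i, hv i⟩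
  have f1 : gram Y v = gram (pb F.subtype Y) v' := rfl
  have f2 : gram X v = gram (pb F.subtype X) v' := rfl
  rw [f1, f2, gram_diag b h1', gram_diag b h2]
  have := det_cmp (Matrix.of fun i l => b.repr (v' i) l) μ (fun _ => (1 : ℝ)) (a := c) (b := 1)
    (fun φ hφ => by
      simp only [Finset.prod_const_one, mul_one, one_mul]
      exact hprod φ hφ)
  rwa [one_mul] at this

/-- Orthogonality of the splitting given by a projection. -/
def Orth (p : W →ₗ[ℝ] W) (P : Fm W) : Prop := ∀ v w, p v = v → p w = 0 → P v w = 0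

/-- The mean preserves orthogonality. -/
theorem Orth.gm [FiniteDimensional ℝ W] {p : W →ₗ[ℝ] W} (hpp : ∀ v, p (p v) = p v)
    {P Q : Fm W} (hP : PD P) (hQ : PD Q) (oP : Orth p P) (oQ : Orth p Q) :
    Orth p (Pool.Agent.V11106.gm P Q) := by
  -- the reflection
  let σ₀ : W →ₗ[ℝ] W := LinearMap.id - (2 : ℝ) • p
  have hσ : ∀ v, σ₀ v = v - (2 : ℝ) • p v := fun v => rfl
  have hσσ : ∀ v, σ₀ (σ₀ v) = v := by
    intro v
    rw [hσ, hσ, map_sub, map_smul, hpp]
    module
  let σ : W ≃ₗ[ℝ] W := LinearEquiv.ofLinearMap σ₀ σ₀ (by ext v; exact hσσ v) (by ext v; exact hσσ v)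
  have key : ∀ P : Fm W, PD P → Orth p P → pb (σ : W →ₗ[ℝ] W) P = P := by
    intro P hP oP
    refine eq_of_quad (hP.pb σ.injective).symm hP.symm fun v => ?_
    have e1 : pb (σ : W →ₗ[ℝ] W) P v v = P (v - (2 : ℝ) • p v) (v - (2 : ℝ) • p v) := rfl
    have e2 : P (p v) (v - p v) = 0 := oP _ _ (hpp v) (by rw [map_sub, hpp, sub_self])
    rw [e1]
    simp only [map_sub, map_smul, LinearMap.sub_apply, LinearMap.smul_apply, smul_eq_mul] at e2 ⊢
    rw [hP.symm v (p v)]
    linarith
  have h1 := gm_pb σ hP hQ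
  rw [key P hP oP, key Q hQ oQ] at h1
  intro v w hv hw
  have h2 : Pool.Agent.V11106.gm P Q v w = Pool.Agent.V11106.gm P Q (σ₀ v) (σ₀ w) := by
    conv_lhs => rw [h1]
    rfl
  rw [hσ, hσ, hv, hw] at h2
  simp only [map_sub, map_smul, LinearMap.sub_apply, LinearMap.smul_apply, smul_eq_mul,
    smul_zero, sub_zero] at h2
  linarith

theorem Orth.form {p : W →ₗ[ℝ] W} (hpp : ∀ v, p (p v) = p v) {P : Fm W} (oP : Orth p P)
    (hP : PD P) (v : W) : P v v = P (p v) (p v) + P (v - p v) (v - p v) := by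
  have e2 : P (p v) (v - p v) = 0 := oP _ _ (hpp v) (by rw [map_sub, hpp, sub_self])
  simp only [map_sub, LinearMap.sub_apply] at e2 ⊢
  rw [hP.symm v (p v)]
  linarith

/-- Halving for the volume: `P`, `Q`, `R` are the metric and its two pull backs. -/
theorem half_vol [FiniteDimensional ℝ W] {P Q R : Fm W} (hP : PD P) (hQ : PD Q) (hR : PD R)
    {p : W →ₗ[ℝ] W} (hpp : ∀ v, p (p v) = p v) (oP : Orth p P) (oQ : Orth p Q) (oR : Orth p R)
    {k : ℕ} {c : ℝ} (hc : 0 ≤ c)
    (h : ∀ v : Fin k → W, (∀ i, p (v i) = 0) → c ^ 2 * (gram P v).det ≤ (gram R v).det)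
    (v : Fin k → W) (hv : ∀ i, p (v i) = 0) :
    c * (gram (gm P Q) v).det ≤ (gram (gm Q R) v).det := by
  rw [gm_comm hQ hR]
  exact gm_vol hP hQ hR p hpp (fun v w hw => (oP.gm hpp hP hQ oQ) _ _ (hpp v) hw)
    (fun v w hw => (oR.gm hpp hR hQ oQ) _ _ (hpp v) hw) hc h v hv

/-- Halving for upper bounds on the range. -/
theorem half_upper [FiniteDimensional ℝ W] {P Q R : Fm W} (hP : PD P) (hQ : PD Q) (hR : PD R)
    {p : W →ₗ[ℝ] W} (hpp : ∀ v, p (p v) = p v) (oP : Orth p P) (oQ : Orth p Q)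
    {c : ℝ} (hc : 0 < c) (h : ∀ v, p v = v → R v v ≤ c ^ 2 * P v v) (v : W) (hv : p v = v) :
    gm Q R v v ≤ c * gm P Q v v := by
  have h1 := gm_mono hQ hR hQ hP (a := 1) (b := c ^ 2) (c := c⁻¹)
    (by rw [one_mul, ← mul_pow, inv_mul_cancel₀ hc.ne']; simp) zero_le_one p
    (fun v => by
      rw [oQ.form hpp hQ v, one_mul]
      have := hQ.nonneg (v - p v)
      linarith)
    (fun v => by
      have e1 := h (p v) (hpp v)
      have e2 := mul_le_mul_of_nonneg_left (a := c ^ 2) (b := P (p v) (p v)) (c := P v v) (by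
        rw [oP.form hpp hP v]
        have := hP.nonneg (v - p v)
        linarith) (sq_nonneg c)
      linarith) v
  rw [hv, gm_comm hQ hP] at h1
  rwa [inv_mul_le_iff₀ hc] at h1

/-- Halving for lower bounds on the kernel. -/
theorem half_lower [FiniteDimensional ℝ W] {P Q R : Fm W} (hP : PD P) (hQ : PD Q) (hR : PD R)
    {p : W →ₗ[ℝ] W} (hpp : ∀ v, p (p v) = p v) (oQ : Orth p Q) (oR : Orth p R)
    {c : ℝ} (hc : 0 < c) (h : ∀ v, p v = 0 → c ^ 2 * P v v ≤ R v v) (v : W) (hv : p v = 0) :
    c * gm P Q v v ≤ gm Q R v v := by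
  let q : W →ₗ[ℝ] W := LinearMap.id - p
  have hq : ∀ v, q v = v - p v := fun v => rfl
  have h1 := gm_mono hQ hP hQ hR (a := 1) (b := (c ^ 2)⁻¹) (c := c)
    (by rw [one_mul, mul_inv_cancel₀ (pow_ne_zero 2 hc.ne')]) zero_le_one q
    (fun v => by
      rw [oQ.form hpp hQ v, one_mul, hq]
      have := hQ.nonneg (p v)
      linarith)
    (fun v => by
      rw [hq, le_inv_mul_iff₀ (pow_pos hc 2)]
      have e1 := h (v - p v) (by rw [map_sub, hpp, sub_self])
      have e2 := oR.form hpp hR v
      have e3 := hR.nonneg (p v)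
      linarith) v
  rw [hq, hv, sub_zero, gm_comm hQ hP] at h1
  exact h1

end Pool.Agent.V11106
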