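import Mathlib
import Pool.Agent.V11106.GM2

set_option autoImplicit false

open scoped Topology Manifold ContDiff Bundle
open Set Filter Module Bundle

noncomputable section

namespace Pool.Agent.V11106

variable {E : Type*} [NormedAddCommGroup E] [NormedSpace ℝ E]
  {H : Type*} [TopologicalSpace H] {I : ModelWithCorners ℝ E H}
  {M : Type*} [TopologicalSpace M] [ChartedSpace H M] [IsManifold I 1 M]

instance tsFD [FiniteDimensional ℝ E] (x : M) : FiniteDimensional ℝ (TangentSpace I x) :=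
  inferInstanceAs (FiniteDimensional ℝ E)

/-- Continuous linear version of a form. -/
def toCL [FiniteDimensional ℝ E] (c : Fm E) : E →L[ℝ] E →L[ℝ] ℝ :=
  LinearMap.toContinuousLinearMap
    (((LinearMap.toContinuousLinearMap : (E →ₗ[ℝ] ℝ) ≃ₗ[ℝ] (E →L[ℝ] ℝ)) :
      (E →ₗ[ℝ] ℝ) →ₗ[ℝ] (E →L[ℝ] ℝ)).comp c)

theorem toCL_apply [FiniteDimensional ℝ E] (c : Fm E) (v w : E) : toCL c v w = c v w := rfl

theorem quad_cont [FiniteDimensional ℝ E] (c : Fm E) : Continuous fun v => c v v := by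
  have : (fun v => c v v) = fun v => toCL c v v := rfl
  rw [this]
  exact (toCL c).continuous.clm_apply continuous_id

variable (I) in
/-- The chart of the tangent bundle at `x₀`, on the fibre of `y`. -/
def tr (x₀ y : M) : TangentSpace I y →ₗ[ℝ] E :=
  ((trivializationAt E (TangentSpace I : M → Type _) x₀).continuousLinearMapAt ℝ y :
    TangentSpace I y →L[ℝ] E)

variable (I) in
/-- Its inverse. -/
def tri (x₀ y : M) : E →ₗ[ℝ] TangentSpace I y :=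
  ((trivializationAt E (TangentSpace I : M → Type _) x₀).symmL ℝ y : E →L[ℝ] TangentSpace I y)

variable (I) in
/-- Base set of the chart. -/
def bs (x₀ : M) : Set M := (trivializationAt E (TangentSpace I : M → Type _) x₀).baseSet

theorem isOpen_bs (x₀ : M) : IsOpen (bs I x₀) :=
  (trivializationAt E (TangentSpace I : M → Type _) x₀).open_baseSet

theorem mem_bs (x₀ : M) : x₀ ∈ bs I x₀ := FiberBundle.mem_baseSet_trivializationAt' x₀

theorem bs_mem (x₀ : M) : bs I x₀ ∈ 𝓝 x₀ := (isOpen_bs x₀).mem_nhds (mem_bs x₀)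

theorem tri_tr {x₀ y : M} (hy : y ∈ bs I x₀) (v : TangentSpace I y) :
    tri I x₀ y (tr I x₀ y v) = v :=
  (trivializationAt E (TangentSpace I : M → Type _) x₀).symmL_continuousLinearMapAt
    (R := ℝ) hy v

theorem tr_tri {x₀ y : M} (hy : y ∈ bs I x₀) (v : E) : tr I x₀ y (tri I x₀ y v) = v :=
  (trivializationAt E (TangentSpace I : M → Type _) x₀).continuousLinearMapAt_symmL
    (R := ℝ) hy v

theorem tri_inj {x₀ y : M} (hy : y ∈ bs I x₀) : Function.Injective (tri I x₀ y) := by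
  intro v w h
  rw [← tr_tri hy v, ← tr_tri hy w, h]

theorem tr_inj {x₀ y : M} (hy : y ∈ bs I x₀) : Function.Injective (tr I x₀ y) := by
  intro v w h
  rw [← tri_tr hy v, ← tri_tr hy w, h]

variable (I) in
/-- The chart as an equivalence. -/
def trE {x₀ y : M} (hy : y ∈ bs I x₀) : E ≃ₗ[ℝ] TangentSpace I y :=
  LinearEquiv.ofLinearMap (tri I x₀ y) (tr I x₀ y)
    (by ext v; exact tri_tr hy v) (by ext v; exact tr_tri hy v)

theorem tri_contOn (x₀ : M) :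
    ContinuousOn (fun z : M × E => (⟨z.1, tri I x₀ z.1 z.2⟩ : TangentBundle I M))
      (bs I x₀ ×ˢ univ) := by
  refine (trivializationAt E (TangentSpace I : M → Type _) x₀).continuousOn_symm.congr ?_
  rintro ⟨y, v⟩ ⟨hy, -⟩
  have : tri I x₀ y v = (trivializationAt E (TangentSpace I : M → Type _) x₀).symm y v :=
    (trivializationAt E (TangentSpace I : M → Type _) x₀).symmL_apply (R := ℝ) hy v
  show (⟨y, tri I x₀ y v⟩ : TangentBundle I M) = _
  rw [this]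

theorem tr_contOn (x₀ : M) :
    ContinuousOn (fun z : TangentBundle I M => tr I x₀ z.1 z.2)
      (TotalSpace.proj ⁻¹' (bs I x₀)) := by
  have h := (trivializationAt E (TangentSpace I : M → Type _) x₀).continuousOn
  rw [(trivializationAt E (TangentSpace I : M → Type _) x₀).source_eq] at h
  refine (continuous_snd.comp_continuousOn h).congr ?_
  rintro ⟨y, v⟩ hy
  exact (trivializationAt E (TangentSpace I : M → Type _) x₀).continuousLinearMapAt_apply_of_mem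
    (R := ℝ) hy v

/-- Continuous positive definite fields of forms over a set. -/
structure CPD (Λ : Set M) (P : ∀ x : M, Fm (TangentSpace I x)) : Prop where
  pd : ∀ x ∈ Λ, PD (P x)
  cont : ContinuousOn (fun z : TangentBundle I M => P z.1 z.2 z.2)
    (TotalSpace.proj ⁻¹' Λ)

/-- The form at `x₀`, in the chart. -/
def mf (P : ∀ x : M, Fm (TangentSpace I x)) (x₀ : M) : Fm E := pb (tri I x₀ x₀) (P x₀)

theorem CPD.mf_pd {Λ : Set M} {P : ∀ x : M, Fm (TangentSpace I x)} (h : CPD Λ P) {x₀ : M}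
    (hx₀ : x₀ ∈ Λ) : PD (mf P x₀) := (h.pd x₀ hx₀).pb (tri_inj (mem_bs x₀))

variable [FiniteDimensional ℝ E]

theorem CPD.order {Λ : Set M} {P : ∀ x : M, Fm (TangentSpace I x)} (h : CPD Λ P) {x₀ : M}
    (hx₀ : x₀ ∈ Λ) {ε : ℝ} (hε : 0 < ε) : ∀ᶠ y in 𝓝 x₀, y ∈ Λ → ∀ v : TangentSpace I y,
      (1 - ε) * mf P x₀ (tr I x₀ y v) (tr I x₀ y v) ≤ P y v v ∧
      P y v v ≤ (1 + ε) * mf P x₀ (tr I x₀ y v) (tr I x₀ y v) := by
  let Φ : M × E → ℝ := fun w => P w.1 (tri I x₀ w.1 w.2) (tri I x₀ w.1 w.2)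
  have hΦ : ContinuousOn Φ ((Λ ∩ bs I x₀) ×ˢ univ) := by
    have h0 : ContinuousOn (fun z : M × E => (⟨z.1, tri I x₀ z.1 z.2⟩ : TangentBundle I M))
        ((Λ ∩ bs I x₀) ×ˢ univ) := (tri_contOn x₀).mono (prod_mono inter_subset_right le_rfl)
    have h1 := h.cont.comp h0 (fun z (hz : z ∈ (Λ ∩ bs I x₀) ×ˢ univ) => hz.1.1)
    exact h1
  have hpd := h.mf_pd hx₀
  have key : ∀ u ∈ Metric.sphere (0 : E) 1, ∀ᶠ z : M × E in 𝓝 (x₀, u),
      z.1 ∈ Λ → (1 - ε) * mf P x₀ z.2 z.2 ≤ Φ z ∧ Φ z ≤ (1 + ε) * mf P x₀ z.2 z.2 := by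
    intro u hu
    have hu0 : u ≠ 0 := by
      rintro rfl
      simp at hu
    have c1 : ContinuousWithinAt Φ ((Λ ∩ bs I x₀) ×ˢ univ) (x₀, u) :=
      hΦ (x₀, u) ⟨⟨hx₀, mem_bs x₀⟩, mem_univ _⟩
    have c2 : ContinuousWithinAt (fun z : M × E => mf P x₀ z.2 z.2)
        ((Λ ∩ bs I x₀) ×ˢ univ) (x₀, u) :=
      ((quad_cont (mf P x₀)).comp continuous_snd).continuousWithinAt
    have hval : Φ (x₀, u) = mf P x₀ u u := rfl
    have hpos := hpd.pos u hu0
    have e1 : ∀ᶠ z in 𝓝[(Λ ∩ bs I x₀) ×ˢ univ] (x₀, u), (1 - ε) * mf P x₀ z.2 z.2 < Φ z := by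
      have c3 : ContinuousWithinAt (fun z : M × E => (1 - ε) * mf P x₀ z.2 z.2)
        ((Λ ∩ bs I x₀) ×ˢ univ) (x₀, u) := continuousWithinAt_const.mul c2
      refine Tendsto.eventually_lt c3 c1 ?_
      show (1 - ε) * mf P x₀ u u < Φ (x₀, u)
      rw [hval]
      nlinarith
    have e2 : ∀ᶠ z in 𝓝[(Λ ∩ bs I x₀) ×ˢ univ] (x₀, u), Φ z < (1 + ε) * mf P x₀ z.2 z.2 := by
      have c3 : ContinuousWithinAt (fun z : M × E => (1 + ε) * mf P x₀ z.2 z.2)
        ((Λ ∩ bs I x₀) ×ˢ univ) (x₀, u) := continuousWithinAt_const.mul c2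
      refine Tendsto.eventually_lt c1 c3 ?_
      show Φ (x₀, u) < (1 + ε) * mf P x₀ u u
      rw [hval]
      nlinarith
    have e3 := (eventually_nhdsWithin_iff.1 (e1.and e2))
    have e4 : ∀ᶠ z : M × E in 𝓝 (x₀, u), z.1 ∈ bs I x₀ :=
      continuous_fst.continuousAt.eventually (bs_mem x₀)
    filter_upwards [e3, e4] with z hz hz' hzΛ
    have := hz ⟨⟨hzΛ, hz'⟩, mem_univ _⟩
    exact ⟨this.1.le, this.2.le⟩
  have h2 := (isCompact_sphere (0 : E) 1).eventually_forall_of_forall_eventually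
    (P := fun (y : M) (u : E) => y ∈ Λ → (1 - ε) * mf P x₀ u u ≤ Φ (y, u) ∧
      Φ (y, u) ≤ (1 + ε) * mf P x₀ u u) key
  filter_upwards [h2, bs_mem (I := I) x₀] with y hy hyb hyΛ v
  set w := tr I x₀ y v with hw
  have hv : v = tri I x₀ y w := (tri_tr hyb v).symm
  rw [hv]
  by_cases hw0 : w = 0
  · rw [hw0]; simp
  have hn : 0 < ‖w‖ := norm_pos_iff.2 hw0
  have h3 := hy (‖w‖⁻¹ • w) (by
    rw [mem_sphere_zero_iff_norm, norm_smul, norm_inv, norm_norm, inv_mul_cancel₀ hn.ne']) hyΛ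
  simp only [Φ, map_smul, LinearMap.smul_apply, smul_eq_mul] at h3
  have hn2 : 0 < ‖w‖⁻¹ * ‖w‖⁻¹ := by positivity
  constructor
  · have h4 : ‖w‖⁻¹ * ‖w‖⁻¹ * ((1 - ε) * mf P x₀ w w) ≤
        ‖w‖⁻¹ * ‖w‖⁻¹ * P y (tri I x₀ y w) (tri I x₀ y w) := by
      have := h3.1
      linarith
    exact le_of_mul_le_mul_left h4 hn2
  · have h4 : ‖w‖⁻¹ * ‖w‖⁻¹ * P y (tri I x₀ y w) (tri I x₀ y w) ≤
        ‖w‖⁻¹ * ‖w‖⁻¹ * ((1 + ε) * mf P x₀ w w) := by
      have := h3.2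
      linarith
    exact le_of_mul_le_mul_left h4 hn2

/-- The converse: order continuity implies continuity. -/
theorem cpd_of_order {Λ : Set M} {P : ∀ x : M, Fm (TangentSpace I x)}
    (hpd : ∀ x ∈ Λ, PD (P x))
    (h : ∀ x₀ ∈ Λ, ∀ ε : ℝ, 0 < ε → ε < 1 → ∀ᶠ y in 𝓝 x₀, y ∈ Λ → ∀ v : TangentSpace I y,
      (1 - ε) * mf P x₀ (tr I x₀ y v) (tr I x₀ y v) ≤ P y v v ∧
      P y v v ≤ (1 + ε) * mf P x₀ (tr I x₀ y v) (tr I x₀ y v)) : CPD Λ P := by
  refine ⟨hpd, ?_⟩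
  rintro ⟨x₀, v₀⟩ hx₀
  replace hx₀ : x₀ ∈ Λ := hx₀
  let g : TangentBundle I M → ℝ := fun z => mf P x₀ (tr I x₀ z.1 z.2) (tr I x₀ z.1 z.2)
  have hg : ContinuousAt g ⟨x₀, v₀⟩ := by
    have h1 : ContinuousAt (fun z : TangentBundle I M => tr I x₀ z.1 z.2) ⟨x₀, v₀⟩ := by
      refine (tr_contOn x₀).continuousAt ?_
      exact (FiberBundle.continuous_proj E (TangentSpace I : M → Type _)).continuousAt (bs_mem x₀)
    exact ContinuousAt.comp (g := fun u : E => mf P x₀ u u) (quad_cont _).continuousAt h1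
  have hval : g ⟨x₀, v₀⟩ = P x₀ v₀ v₀ := by
    show P x₀ (tri I x₀ x₀ (tr I x₀ x₀ v₀)) (tri I x₀ x₀ (tr I x₀ x₀ v₀)) = P x₀ v₀ v₀
    rw [tri_tr (mem_bs x₀)]
  rw [ContinuousWithinAt, Metric.tendsto_nhds]
  intro δ hδ
  show ∀ᶠ z in 𝓝[TotalSpace.proj ⁻¹' Λ] (⟨x₀, v₀⟩ : TangentBundle I M),
    dist (P z.1 z.2 z.2) (P x₀ v₀ v₀) < δ
  rw [← hval]
  set G := g ⟨x₀, v₀⟩ with hG
  have hG0 : 0 ≤ G := by rw [hval]; exact (hpd x₀ hx₀).nonneg v₀
  set ε := δ / (2 * (G + δ + 1)) with hε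
  have hGd : 0 < G + δ + 1 := by positivity
  have hε0 : 0 < ε := by positivity
  have hε1 : ε < 1 := by
    rw [hε, div_lt_one (by positivity)]
    linarith
  have e1 : ∀ᶠ z in 𝓝 (⟨x₀, v₀⟩ : TangentBundle I M), dist (g z) G < δ / 2 :=
    (Metric.tendsto_nhds.1 hg) _ (half_pos hδ)
  have e2 : ∀ᶠ z in 𝓝 (⟨x₀, v₀⟩ : TangentBundle I M), z.1 ∈ Λ → (1 - ε) * g z ≤ P z.1 z.2 z.2 ∧
      P z.1 z.2 z.2 ≤ (1 + ε) * g z := by
    have := (FiberBundle.continuous_proj E (TangentSpace I : M → Type _)).continuousAt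
      (x := (⟨x₀, v₀⟩ : TangentBundle I M)) |>.eventually (h x₀ hx₀ ε hε0 hε1)
    filter_upwards [this] with z hz hzΛ
    exact hz hzΛ z.2
  filter_upwards [mem_nhdsWithin_of_mem_nhds e1, mem_nhdsWithin_of_mem_nhds e2,
    self_mem_nhdsWithin] with z h1 h2 h3
  obtain ⟨h4, h5⟩ := h2 h3
  rw [Real.dist_eq, abs_lt] at h1 ⊢
  have h6 : g z < G + δ + 1 := by linarith
  have h7 : ε * g z ≤ δ / 2 := by
    calc ε * g z ≤ ε * (G + δ + 1) := mul_le_mul_of_nonneg_left h6.le hε0.le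
      _ = δ / 2 := by rw [hε]; field_simp
  constructor <;> nlinarith

/-- The mean of two continuous fields is continuous. -/
theorem CPD.gm {Λ : Set M} {P Q : ∀ x : M, Fm (TangentSpace I x)} (hP : CPD Λ P)
    (hQ : CPD Λ Q) : CPD Λ fun x => Pool.Agent.V11106.gm (P x) (Q x) := by
  refine cpd_of_order (fun x hx => gm_pd (hP.pd x hx) (hQ.pd x hx)) fun x₀ hx₀ ε hε hε1 => ?_
  have hmf : mf (fun x => Pool.Agent.V11106.gm (P x) (Q x)) x₀ =
      Pool.Agent.V11106.gm (mf P x₀) (mf Q x₀) :=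
    (gm_pb (trE I (mem_bs x₀)) (hP.pd x₀ hx₀) (hQ.pd x₀ hx₀)).symm
  rw [hmf]
  have hP0 := hP.mf_pd hx₀
  have hQ0 := hQ.mf_pd hx₀
  filter_upwards [hP.order hx₀ hε, hQ.order hx₀ hε, bs_mem (I := I) x₀] with y hy1 hy2 hyb hyΛ v
  have hPy := hP.pd y hyΛ
  have hQy := hQ.pd y hyΛ
  have h1ε : 0 < 1 - ε := by linarith
  have h1ε' : 0 < 1 + ε := by linarith
  constructor
  · refine gm_mono hP0 hQ0 hPy hQy (a := (1 - ε)⁻¹) (b := (1 - ε)⁻¹) (c := 1 - ε) ?_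
      (by positivity) (tr I x₀ y) (fun v => ?_) (fun v => ?_) v
    · rw [pow_two]
      field_simp
      exact le_rfl
    · rw [le_inv_mul_iff₀ h1ε]
      exact (hy1 hyΛ v).1
    · rw [le_inv_mul_iff₀ h1ε]
      exact (hy2 hyΛ v).1
  · have h3 := gm_mono hPy hQy hP0 hQ0 (a := 1 + ε) (b := 1 + ε) (c := (1 + ε)⁻¹)
      (by rw [pow_two]; field_simp; exact le_rfl) (by positivity) (tri I x₀ y)
      (fun u => by
        have := (hy1 hyΛ (tri I x₀ y u)).2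
        rwa [tr_tri hyb] at this)
      (fun u => by
        have := (hy2 hyΛ (tri I x₀ y u)).2
        rwa [tr_tri hyb] at this) (tr I x₀ y v)
    rw [tri_tr hyb, inv_mul_le_iff₀ h1ε'] at h3
    exact h3

/-- Pull back of a field by a map. -/
def pbf (f : M → M) (P : ∀ x : M, Fm (TangentSpace I x)) (x : M) : Fm (TangentSpace I x) :=
  pb (mfderiv I I f x : TangentSpace I x →ₗ[ℝ] TangentSpace I (f x)) (P (f x))

omit [FiniteDimensional ℝ E] in
theorem CPD.pbf {Λ : Set M} {P : ∀ x : M, Fm (TangentSpace I x)} (hP : CPD Λ P)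
    {f : M → M} (hf : ContMDiff I I 1 f) (hΛ : MapsTo f Λ Λ)
    (hinj : ∀ x ∈ Λ, Function.Injective (mfderiv I I f x)) :
    CPD Λ (Pool.Agent.V11106.pbf f P) := by
  refine ⟨fun x hx => (hP.pd _ (hΛ hx)).pb (hinj x hx), ?_⟩
  have h1 : Continuous (tangentMap I I f) := hf.continuous_tangentMap le_rfl
  exact hP.cont.comp h1.continuousOn fun z hz => hΛ hz

end Pool.Agent.V11106
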