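import Mathlib
import Pool.Agent.V11106.GM3

set_option autoImplicit false

open scoped Topology Manifold ContDiff Bundle
open Set Filter Module Bundle

noncomputable section

namespace Pool.Agent.V11106

variable {E : Type*} [NormedAddCommGroup E] [NormedSpace ℝ E]
  {H : Type*} [TopologicalSpace H] {I : ModelWithCorners ℝ E H}
  {M : Type*} [TopologicalSpace M] [ChartedSpace H M]

/-- The algebraic form of a continuous form. -/
def toFm {x : M} (c : TangentSpace I x →L[ℝ] TangentSpace I x →L[ℝ] ℝ) :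
    Fm (TangentSpace I x) :=
  LinearMap.mk₂ ℝ (fun v w => c v w) (by intros; simp) (by intros; simp) (by intros; simp)
    (by intros; simp)

theorem toFm_apply {x : M} (c : TangentSpace I x →L[ℝ] TangentSpace I x →L[ℝ] ℝ)
    (v w : TangentSpace I x) : toFm c v w = c v w := rfl

variable [IsManifold I ∞ M]

variable (I) in
/-- Local field of forms with given coordinates. -/
def loc (x₀ : M) (C : M → E →L[ℝ] E →L[ℝ] ℝ) (y : M) :
    TangentSpace I y →L[ℝ] TangentSpace I y →L[ℝ] ℝ :=
  (ContinuousLinearMap.precomp ℝ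
    ((trivializationAt E (TangentSpace I : M → Type _) x₀).continuousLinearMapAt ℝ y)).comp
      ((C y).comp
        ((trivializationAt E (TangentSpace I : M → Type _) x₀).continuousLinearMapAt ℝ y))

theorem loc_apply (x₀ : M) (C : M → E →L[ℝ] E →L[ℝ] ℝ) (y : M) (v w : TangentSpace I y) :
    loc I x₀ C y v w = C y (tr I x₀ y v) (tr I x₀ y w) := rfl

theorem loc_smooth (n : ℕ∞) (x₀ : M) (C : M → E →L[ℝ] E →L[ℝ] ℝ) {U : Set M} (hU : IsOpen U)
    (hUb : U ⊆ bs I x₀) (hC : ContMDiffOn I 𝓘(ℝ, E →L[ℝ] E →L[ℝ] ℝ) n C U) :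
    ContMDiffOn I (I.prod 𝓘(ℝ, E →L[ℝ] E →L[ℝ] ℝ)) n
      (fun y : M => TotalSpace.mk' (E →L[ℝ] E →L[ℝ] ℝ)
        (E := fun x : M => TangentSpace I x →L[ℝ] TangentSpace I x →L[ℝ] ℝ) y (loc I x₀ C y)) U := by
  let e := trivializationAt (E →L[ℝ] E →L[ℝ] ℝ)
    (fun x : M => TangentSpace I x →L[ℝ] TangentSpace I x →L[ℝ] ℝ) x₀
  have hbase : U ⊆ e.baseSet := by
    intro y hy
    simp only [e, hom_trivializationAt_baseSet, mem_inter_iff, Trivial.fiberBundle_trivializationAt',
      Trivial.trivialization_baseSet, mem_univ, and_true]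
    exact ⟨hUb hy, hUb hy⟩
  have : IsManifold I n M := IsManifold.of_le (n := ∞) (by exact_mod_cast le_top)
  rw [e.contMDiffOn_section_iff hU hbase]
  refine hC.congr fun y hy => ?_
  show (e ⟨y, loc I x₀ C y⟩).2 = C y
  ext v w
  have h1 : y ∈ (trivializationAt E (TangentSpace I : M → Type _) x₀).baseSet := hUb hy
  rw [hom_trivializationAt_apply]
  show ContinuousLinearMap.inCoordinates E (TangentSpace I) (E →L[ℝ] ℝ)
    (fun x : M => TangentSpace I x →L[ℝ] ℝ) x₀ y x₀ y (loc I x₀ C y) v w = C y v w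
  rw [inCoordinates_apply_eq₂ h1 h1 (by simp)]
  simp only [Trivial.fiberBundle_trivializationAt', Trivial.linearMapAt_trivialization,
    LinearMap.id_coe, id_eq]
  rw [loc_apply]
  have h2 := tr_tri (I := I) (hUb hy) v
  have h3 := tr_tri (I := I) (hUb hy) w
  have h4 : tri I x₀ y v = (trivializationAt E (TangentSpace I : M → Type _) x₀).symm y v :=
    (trivializationAt E (TangentSpace I : M → Type _) x₀).symmL_apply (R := ℝ) h1 v
  have h5 : tri I x₀ y w = (trivializationAt E (TangentSpace I : M → Type _) x₀).symm y w :=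
    (trivializationAt E (TangentSpace I : M → Type _) x₀).symmL_apply (R := ℝ) h1 w
  rw [← h4, ← h5, h2, h3]

variable [FiniteDimensional ℝ E]

omit [IsManifold I ∞ M] in
theorem vonN {x : M} (c : TangentSpace I x →L[ℝ] TangentSpace I x →L[ℝ] ℝ)
    (hc : ∀ v, v ≠ 0 → 0 < c v v) :
    Bornology.IsVonNBounded ℝ {v : TangentSpace I x | c v v < 1} := by
  let c' : E →L[ℝ] E →L[ℝ] ℝ := c
  show Bornology.IsVonNBounded ℝ {v : E | c' v v < 1}
  rw [NormedSpace.isVonNBounded_iff]
  have hq : Continuous fun v : E => c' v v := c'.continuous.clm_apply continuous_id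
  by_cases hne : (Metric.sphere (0 : E) 1).Nonempty
  · obtain ⟨u, hu, hmin⟩ := (isCompact_sphere (0 : E) 1).exists_isMinOn hne hq.continuousOn
    have hu0 : u ≠ 0 := by
      rintro rfl
      simp at hu
    have hm : 0 < c' u u := hc u hu0
    rw [Metric.isBounded_iff_subset_closedBall 0]
    refine ⟨√((c' u u)⁻¹), fun v hv => ?_⟩
    replace hv : c' v v < 1 := hv
    rw [mem_closedBall_zero_iff]
    by_cases hv0 : v = 0
    · rw [hv0, norm_zero]; positivity
    have hn : 0 < ‖v‖ := norm_pos_iff.2 hv0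
    have h1 : c' u u ≤ c' (‖v‖⁻¹ • v) (‖v‖⁻¹ • v) := hmin (by
      rw [mem_sphere_zero_iff_norm, norm_smul, norm_inv, norm_norm, inv_mul_cancel₀ hn.ne'])
    simp only [map_smul, smul_apply, smul_eq_mul] at h1
    apply Real.le_sqrt_of_sq_le
    have h2 : c' u u * ‖v‖ ^ 2 ≤ c' v v := by
      have := mul_le_mul_of_nonneg_right h1 (sq_nonneg ‖v‖)
      calc c' u u * ‖v‖ ^ 2 ≤ ‖v‖⁻¹ * (‖v‖⁻¹ * c' v v) * ‖v‖ ^ 2 := this
        _ = c' v v := by field_simp
    rw [← one_div, le_div_iff₀ hm, mul_comm]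
    linarith
  · have : ∀ v : E, v = 0 := by
      intro v
      by_contra hv0
      have hn : 0 < ‖v‖ := norm_pos_iff.2 hv0
      exact hne ⟨‖v‖⁻¹ • v, by
        rw [mem_sphere_zero_iff_norm, norm_smul, norm_inv, norm_norm, inv_mul_cancel₀ hn.ne']⟩
    refine (Bornology.isBounded_singleton (x := (0 : E))).subset fun v _ => this v

variable (E) in
omit [IsManifold I ∞ M] in
theorem exists_pd : ∃ c : Fm E, PD c := by
  let e := toEuclidean (E := E)
  refine ⟨pb (e : E →ₗ[ℝ] EuclideanSpace ℝ (Fin (finrank ℝ E))) (innerₗ _), ?_⟩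
  refine PD.pb (W := EuclideanSpace ℝ (Fin (finrank ℝ E))) e.injective ⟨fun v w => ?_, fun v hv => ?_⟩
  · exact real_inner_comm w v
  · exact real_inner_self_pos.2 hv

variable [T2Space M] [SigmaCompactSpace M]

/-- Global metrics from local ones. -/
theorem exists_metric (n : ℕ∞) (t : ∀ x : M, Set (Fm (TangentSpace I x)))
    (hconv : ∀ x, Convex ℝ (t x)) (hpd : ∀ x, ∀ P ∈ t x, PD P)
    (hloc : ∀ x₀ : M, ∃ U ∈ 𝓝 x₀, ∃ C : M → E →L[ℝ] E →L[ℝ] ℝ,
      ContMDiffOn I 𝓘(ℝ, E →L[ℝ] E →L[ℝ] ℝ) n C U ∧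
      ∀ y ∈ U, y ∈ bs I x₀ → toFm (loc I x₀ C y) ∈ t y) :
    ∃ g : ContMDiffRiemannianMetric I n E (fun x : M => TangentSpace I x),
      ∀ x, toFm (g.inner x) ∈ t x := by
  have h1 := exists_contMDiffSection_forall_mem_convex_of_local (n := n) I
    (F_fiber := E →L[ℝ] E →L[ℝ] ℝ)
    (fun x : M => TangentSpace I x →L[ℝ] TangentSpace I x →L[ℝ] ℝ)
    (fun x => {c | toFm c ∈ t x})
    (fun x c hc d hd a b ha hb hab => by
      have := hconv x hc hd ha hb hab
      exact this)
    (fun x₀ => by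
      obtain ⟨U, hU, C, hC, hCt⟩ := hloc x₀
      refine ⟨interior U ∩ bs I x₀, inter_mem (interior_mem_nhds.2 hU) (bs_mem x₀),
        loc I x₀ C, ?_, fun y hy => hCt y (interior_subset hy.1) hy.2⟩
      exact loc_smooth n x₀ C (isOpen_interior.inter (isOpen_bs x₀)) inter_subset_right
        (hC.mono (inter_subset_left.trans interior_subset)))
  obtain ⟨s, hs⟩ := h1
  exact ⟨{ inner := fun x => s x
           symm := fun x v w => (hpd x _ (hs x)).symm v w
           pos := fun x v hv => (hpd x _ (hs x)).pos v hv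
           isVonNBounded := fun x => vonN _ fun v hv => (hpd x _ (hs x)).pos v hv
           contMDiff := s.contMDiff }, hs⟩

/-- Smooth approximation of a continuous field over a closed set. -/
theorem exists_smooth {Λ : Set M} (hΛ : IsClosed Λ) {P : ∀ x : M, Fm (TangentSpace I x)}
    (hP : CPD Λ P) {ε : ℝ} (hε : 0 < ε) (hε1 : ε < 1) :
    ∃ g : ContMDiffRiemannianMetric I ∞ E (fun x : M => TangentSpace I x),
      ∀ x ∈ Λ, ∀ v : TangentSpace I x, (1 - ε) * P x v v ≤ g.inner x v v ∧
        g.inner x v v ≤ (1 + ε) * P x v v := by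
  obtain ⟨g, hg⟩ := exists_metric (I := I) (M := M) (⊤ : ℕ∞)
    (fun x => {c | PD c ∧ (x ∈ Λ → ∀ v, (1 - ε) * P x v v ≤ c v v ∧ c v v ≤ (1 + ε) * P x v v)})
    (fun x c hc d hd a b ha hb hab => by
      refine ⟨⟨fun v w => ?_, fun v hv => ?_⟩, fun hx v => ?_⟩
      · simp only [LinearMap.add_apply, LinearMap.smul_apply, smul_eq_mul]
        rw [hc.1.symm v w, hd.1.symm v w]
      · simp only [LinearMap.add_apply, LinearMap.smul_apply, smul_eq_mul]
        have h1 := hc.1.pos v hv
        have h2 := hd.1.pos v hv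
        rcases ha.eq_or_lt with h0 | h0
        · have : b = 1 := by linarith
          rw [← h0, this]; linarith
        · have := mul_pos h0 h1
          have := mul_nonneg hb h2.le
          linarith
      · obtain ⟨h1, h2⟩ := hc.2 hx v
        obtain ⟨h3, h4⟩ := hd.2 hx v
        simp only [LinearMap.add_apply, LinearMap.smul_apply, smul_eq_mul]
        have e1 := mul_le_mul_of_nonneg_left h1 ha
        have e2 := mul_le_mul_of_nonneg_left h2 ha
        have e3 := mul_le_mul_of_nonneg_left h3 hb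
        have e4 := mul_le_mul_of_nonneg_left h4 hb
        have e5 : a = 1 - b := by linarith
        subst e5
        constructor <;> linarith)
    (fun x c hc => hc.1)
    (fun x₀ => by
      by_cases hx₀ : x₀ ∈ Λ
      · have hord := hP.order hx₀ (ε := ε / 2) (half_pos hε)
        have hmf := hP.mf_pd hx₀
        refine ⟨_, hord, fun _ => toCL (mf P x₀), contMDiffOn_const, fun y hy hyb =>
          ⟨hmf.pb (tr_inj hyb), fun hyΛ v => ?_⟩⟩
        obtain ⟨h1, h2⟩ := hy hyΛ v
        have h0 := (hP.pd y hyΛ).nonneg v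
        have h3 := (hmf.pb (tr_inj hyb)).nonneg v
        rw [pb_apply] at h3
        show (1 - ε) * P y v v ≤ mf P x₀ (tr I x₀ y v) (tr I x₀ y v) ∧
          mf P x₀ (tr I x₀ y v) (tr I x₀ y v) ≤ (1 + ε) * P y v v
        set m := mf P x₀ (tr I x₀ y v) (tr I x₀ y v) with hm
        constructor
        · calc (1 - ε) * P y v v ≤ (1 - ε) * ((1 + ε / 2) * m) :=
                mul_le_mul_of_nonneg_left h2 (by linarith)
            _ ≤ m := by nlinarith
        · have h4 : (1 + ε) * ((1 - ε / 2) * m) ≤ (1 + ε) * P y v v :=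
            mul_le_mul_of_nonneg_left h1 (by linarith)
          have h5 : m ≤ (1 + ε) * ((1 - ε / 2) * m) := by
            have : 0 ≤ (ε / 2 - ε ^ 2 / 2) * m := mul_nonneg (by nlinarith) h3
            linarith
          linarith
      · obtain ⟨c, hc⟩ := exists_pd E
        refine ⟨_, hΛ.isOpen_compl.mem_nhds hx₀, fun _ => toCL c, contMDiffOn_const,
          fun y hy hyb => ⟨hc.pb (tr_inj hyb), fun hyΛ => absurd hyΛ hy⟩⟩)
  exact ⟨g, fun x hx v => (hg x).2 hx v⟩

end Pool.Agent.V11106
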