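import Mathlib
import Pool.Agent.V11106.GM4

set_option autoImplicit false

open scoped Topology Manifold ContDiff Bundle
open Set Filter Module Bundle

noncomputable section

namespace Pool.Agent.V11106

variable {E : Type*} [NormedAddCommGroup E] [NormedSpace ℝ E]
  {H : Type*} [TopologicalSpace H] {I : ModelWithCorners ℝ E H}
  {M : Type*} [TopologicalSpace M] [ChartedSpace H M]

/-- The norm of `v₁ ∧ ⋯ ∧ v_k` for the inner product `g`: the square root of the determinant of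
the matrix of inner products. -/
def wedgeNorm {x : M} (g : TangentSpace I x →L[ℝ] TangentSpace I x →L[ℝ] ℝ) {k : ℕ}
    (v : Fin k → TangentSpace I x) : ℝ :=
  √(Matrix.of fun i j => g (v i) (v j)).det

/-- `f` expands the `k`-volumes in the kernel of `p`, over `Λ`, for the metric `g` and with
constants `C`, `l`. -/
def VolExp (f : M → M) (Λ : Set M) (p : ∀ x : M, TangentSpace I x →ₗ[ℝ] TangentSpace I x) (k : ℕ)
    (g : ∀ x : M, TangentSpace I x →L[ℝ] TangentSpace I x →L[ℝ] ℝ) (C l : ℝ) : Prop :=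
  ∀ n : ℕ, 1 ≤ n → ∀ x ∈ Λ, ∀ v : Fin k → TangentSpace I x, (∀ i, p x (v i) = 0) →
    C * Real.exp (l * n) * wedgeNorm (g x) v ≤
      wedgeNorm (g (f^[n] x)) fun i => mfderiv I I (f^[n]) x (v i)

/-- Good maps. -/
structure Good (Λ : Set M) (p : ∀ x : M, TangentSpace I x →ₗ[ℝ] TangentSpace I x) (F : M → M) :
    Prop where
  smooth : ContMDiff I I 1 F
  maps : MapsTo F Λ Λ
  inj : ∀ x ∈ Λ, Function.Injective (mfderiv I I F x)
  comm : ∀ x ∈ Λ, ∀ v, p (F x) (mfderiv I I F x v) = mfderiv I I F x (p x v)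

theorem Good.md {Λ : Set M} {p : ∀ x : M, TangentSpace I x →ₗ[ℝ] TangentSpace I x} {F : M → M}
    (h : Good Λ p F) (x : M) : MDifferentiableAt I I F x := h.smooth.mdifferentiable one_ne_zero x

theorem Good.comp {Λ : Set M} {p : ∀ x : M, TangentSpace I x →ₗ[ℝ] TangentSpace I x}
    {F G : M → M} (hF : Good Λ p F) (hG : Good Λ p G) : Good Λ p (G ∘ F) := by
  have hd : ∀ x v, mfderiv I I (G ∘ F) x v = mfderiv I I G (F x) (mfderiv I I F x v) := by
    intro x v
    rw [mfderiv_comp x (hG.md _) (hF.md _)]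
    rfl
  refine ⟨hG.smooth.comp hF.smooth, hG.maps.comp hF.maps, fun x hx v w h => ?_, fun x hx v => ?_⟩
  · rw [hd, hd] at h
    exact hF.inj x hx (hG.inj _ (hF.maps hx) h)
  · rw [hd, hd, ← hF.comm x hx]
    exact hG.comm _ (hF.maps hx) _

theorem Good.id (Λ : Set M) (p : ∀ x : M, TangentSpace I x →ₗ[ℝ] TangentSpace I x) :
    Good Λ p (_root_.id : M → M) := by
  refine ⟨contMDiff_id, mapsTo_id Λ, fun x hx v w h => ?_, fun x hx v => ?_⟩
  · rw [mfderiv_id] at h
    exact h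
  · rw [mfderiv_id]
    rfl

theorem Good.iterate {Λ : Set M} {p : ∀ x : M, TangentSpace I x →ₗ[ℝ] TangentSpace I x}
    {F : M → M} (hF : Good Λ p F) (n : ℕ) : Good Λ p (F^[n]) := by
  induction n with
  | zero => exact Good.id Λ p
  | succ n ih =>
    rw [Function.iterate_succ']
    exact ih.comp hF

theorem pbf_comp {F G : M → M} (hF : ContMDiff I I 1 F) (hG : ContMDiff I I 1 G)
    (P : ∀ x : M, Fm (TangentSpace I x)) (x : M) :
    pbf (G ∘ F) P x = pbf F (pbf G P) x := by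
  ext v w
  show P (G (F x)) (mfderiv I I (G ∘ F) x v) (mfderiv I I (G ∘ F) x w) =
    P (G (F x)) (mfderiv I I G (F x) (mfderiv I I F x v)) (mfderiv I I G (F x) (mfderiv I I F x w))
  rw [mfderiv_comp x (hG.mdifferentiable one_ne_zero _) (hF.mdifferentiable one_ne_zero _)]
  rfl

theorem pbf_orth {Λ : Set M} {p : ∀ x : M, TangentSpace I x →ₗ[ℝ] TangentSpace I x} {F : M → M}
    (hF : Good Λ p F) {P : ∀ x : M, Fm (TangentSpace I x)} (hP : ∀ x ∈ Λ, Orth (p x) (P x))
    (x : M) (hx : x ∈ Λ) : Orth (p x) (pbf F P x) := by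
  intro v w hv hw
  refine hP (F x) (hF.maps hx) (mfderiv I I F x v) (mfderiv I I F x w) ?_ ?_
  · rw [hF.comm x hx, hv]
  · rw [hF.comm x hx, hw, map_zero]

/-- Volume expansion of one map, in terms of Gram determinants. -/
def VE (Λ : Set M) (p : ∀ x : M, TangentSpace I x →ₗ[ℝ] TangentSpace I x) (k : ℕ)
    (P : ∀ x : M, Fm (TangentSpace I x)) (F : M → M) (c : ℝ) : Prop :=
  ∀ x ∈ Λ, ∀ v : Fin k → TangentSpace I x, (∀ i, p x (v i) = 0) →
    c * (gram (P x) v).det ≤ (gram (pbf F P x) v).det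

/-- Iteration of the expansion. -/
theorem VE.iterate {Λ : Set M} {p : ∀ x : M, TangentSpace I x →ₗ[ℝ] TangentSpace I x} {k : ℕ}
    {P : ∀ x : M, Fm (TangentSpace I x)} {F : M → M} {c : ℝ} (hc : 0 ≤ c) (hF : Good Λ p F)
    (h : VE Λ p k P F c) (n : ℕ) : VE Λ p k P (F^[n]) (c ^ n) := by
  induction n with
  | zero =>
    intro x hx v hv
    rw [pow_zero, one_mul]
    refine le_of_eq ?_
    congr 1
    ext i j
    show P x (v i) (v j) = P x (mfderiv I I (_root_.id : M → M) x (v i))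
      (mfderiv I I (_root_.id : M → M) x (v j))
    rw [mfderiv_id]
    rfl
  | succ n ih =>
    intro x hx v hv
    have h1 := ih x hx v hv
    have h2 := h (F^[n] x) ((hF.iterate n).maps hx) (fun i => mfderiv I I (F^[n]) x (v i))
      fun i => by rw [(hF.iterate n).comm x hx, hv, map_zero]
    rw [Function.iterate_succ', pbf_comp (hF.iterate n).smooth hF.smooth]
    calc c ^ (n + 1) * (gram (P x) v).det = c * (c ^ n * (gram (P x) v).det) := by ring
      _ ≤ c * (gram (pbf (F^[n]) P x) v).det := mul_le_mul_of_nonneg_left h1 hc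
      _ ≤ _ := h2

variable [IsManifold I ∞ M] [FiniteDimensional ℝ E]

omit [IsManifold I ∞ M] in
theorem gm_pbf {F : M → M} {P Q : ∀ x : M, Fm (TangentSpace I x)} {x : M}
    (hP : PD (P (F x))) (hQ : PD (Q (F x))) (hinj : Function.Injective (mfderiv I I F x)) :
    pbf F (fun x => gm (P x) (Q x)) x = gm (pbf F P x) (pbf F Q x) := by
  let e : TangentSpace I x ≃ₗ[ℝ] TangentSpace I (F x) :=
    LinearEquiv.ofInjectiveOfFinrankEq
      (mfderiv I I F x : TangentSpace I x →ₗ[ℝ] TangentSpace I (F x)) hinj rfl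
  exact (gm_pb e hP hQ).symm

/-- The halving step. -/
theorem half_step {Λ : Set M} {p : ∀ x : M, TangentSpace I x →ₗ[ℝ] TangentSpace I x}
    (hp : ∀ x ∈ Λ, ∀ v, p x (p x v) = p x v) {k : ℕ}
    {P : ∀ x : M, Fm (TangentSpace I x)} (hP : CPD Λ P) (oP : ∀ x ∈ Λ, Orth (p x) (P x))
    {F : M → M} (hF : Good Λ p F) {c : ℝ} (hc : 0 ≤ c) (h : VE Λ p k P (F ∘ F) (c ^ 2)) :
    VE Λ p k (fun x => gm (P x) (pbf F P x)) F c := by
  intro x hx v hv
  have hQ := hP.pbf hF.smooth hF.maps hF.inj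
  have hR := hQ.pbf hF.smooth hF.maps hF.inj
  rw [gm_pbf (hP.pd _ (hF.maps hx)) (hQ.pd _ (hF.maps hx)) (hF.inj x hx)]
  refine half_vol (hP.pd x hx) (hQ.pd x hx) (hR.pd x hx) (hp x hx) (oP x hx)
    (pbf_orth hF oP x hx) (pbf_orth hF (pbf_orth hF oP) x hx) hc (fun v hv => ?_) v hv
  have := h x hx v hv
  rwa [pbf_comp hF.smooth hF.smooth] at this

theorem exists_one_step {Λ : Set M} {p : ∀ x : M, TangentSpace I x →ₗ[ℝ] TangentSpace I x}
    (hp : ∀ x ∈ Λ, ∀ v, p x (p x v) = p x v) {k : ℕ} {f : M → M} (hf : Good Λ p f)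
    {c : ℝ} (hc : 0 ≤ c) (m : ℕ) : ∀ P : ∀ x : M, Fm (TangentSpace I x), CPD Λ P →
      (∀ x ∈ Λ, Orth (p x) (P x)) → VE Λ p k P (f^[2 ^ m]) (c ^ 2 ^ m) →
      ∃ P' : ∀ x : M, Fm (TangentSpace I x), CPD Λ P' ∧ VE Λ p k P' f c := by
  induction m with
  | zero =>
    intro P hP oP h
    exact ⟨P, hP, by simpa using h⟩
  | succ m ih =>
    intro P hP oP h
    have hF := hf.iterate (2 ^ m)
    refine ih _ (hP.gm (hP.pbf hF.smooth hF.maps hF.inj)) (fun x hx => ?_)
      (half_step hp hP oP hF (pow_nonneg hc _) ?_)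
    · exact (oP x hx).gm (hp x hx) (hP.pd x hx) ((hP.pbf hF.smooth hF.maps hF.inj).pd x hx)
        (pbf_orth hF oP x hx)
    · rw [← pow_mul, ← pow_succ, ← Function.iterate_add, ← two_mul, ← pow_succ']
      exact h

/-- The initial field. -/
def ini (g : ∀ x : M, TangentSpace I x →L[ℝ] TangentSpace I x →L[ℝ] ℝ)
    (p : ∀ x : M, TangentSpace I x →ₗ[ℝ] TangentSpace I x) (x : M) : Fm (TangentSpace I x) :=
  pb (p x) (toFm (g x)) + pb (LinearMap.id - p x) (toFm (g x))

omit [IsManifold I ∞ M] [FiniteDimensional ℝ E] in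
theorem ini_apply (g : ∀ x : M, TangentSpace I x →L[ℝ] TangentSpace I x →L[ℝ] ℝ)
    (p : ∀ x : M, TangentSpace I x →ₗ[ℝ] TangentSpace I x) (x : M) (v w : TangentSpace I x) :
    ini g p x v w = g x (p x v) (p x w) + g x (v - p x v) (w - p x w) := rfl

omit [FiniteDimensional ℝ E] in
theorem ini_cpd (g : ContinuousRiemannianMetric E (fun x : M => TangentSpace I x))
    {Λ : Set M} {p : ∀ x : M, TangentSpace I x →ₗ[ℝ] TangentSpace I x}
    (hpc : ContinuousOn (fun z : TangentBundle I M => (⟨z.1, p z.1 z.2⟩ : TangentBundle I M))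
      (TotalSpace.proj ⁻¹' Λ)) : CPD Λ (ini g.inner p) := by
  refine ⟨fun x hx => ⟨fun v w => ?_, fun v hv => ?_⟩, ?_⟩
  · rw [ini_apply, ini_apply, g.symm x (p x v), g.symm x (v - p x v)]
  · rw [ini_apply]
    by_cases h : p x v = 0
    · rw [h]
      simpa using g.pos x v hv
    · have h1 := g.pos x _ h
      have h2 : 0 ≤ g.inner x (v - p x v) (v - p x v) := by
        by_cases h3 : v - p x v = 0
        · rw [h3]; simp
        · exact (g.pos x _ h3).le
      linarith
  · have hid : ContinuousOn (fun z : TangentBundle I M => (⟨z.1, z.2⟩ : TangentBundle I M))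
      (TotalSpace.proj ⁻¹' Λ) := continuousOn_id
    have hg : ContinuousOn (fun z : TangentBundle I M =>
        TotalSpace.mk' (E →L[ℝ] E →L[ℝ] ℝ)
          (E := fun x : M => TangentSpace I x →L[ℝ] TangentSpace I x →L[ℝ] ℝ) z.1 (g.inner z.1))
        (TotalSpace.proj ⁻¹' Λ) :=
      (g.continuous.comp (FiberBundle.continuous_proj E (TangentSpace I : M → Type _))).continuousOn
    have key : ∀ a b : ∀ z : TangentBundle I M, TangentSpace I z.1,
        ContinuousOn (fun z : TangentBundle I M => (⟨z.1, a z⟩ : TangentBundle I M))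
          (TotalSpace.proj ⁻¹' Λ) →
        ContinuousOn (fun z : TangentBundle I M => (⟨z.1, b z⟩ : TangentBundle I M))
          (TotalSpace.proj ⁻¹' Λ) →
        ContinuousOn (fun z : TangentBundle I M => g.inner z.1 (a z) (b z))
          (TotalSpace.proj ⁻¹' Λ) := by
      intro a b ha hb
      have h := ContinuousOn.clm_bundle_apply₂ (F₁ := E) (F₂ := E) (F₃ := ℝ)
        (E₃ := fun _ : M => ℝ) hg ha hb
      intro z hz
      have h2 := h z hz
      simp only [FiberBundle.continuousWithinAt_totalSpace] at h2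
      exact h2.2
    have h1 := key (fun z => z.2) (fun z => z.2) hid hid
    have h2 := key (fun z => z.2) (fun z => p z.1 z.2) hid hpc
    have h3 := key (fun z => p z.1 z.2) (fun z => p z.1 z.2) hpc hpc
    refine ((h1.sub (h2.const_mul 2)).add (h3.const_mul 2)).congr fun z _ => ?_
    show ini g.inner p z.1 z.2 z.2 = _
    rw [ini_apply]
    simp only [map_sub, sub_apply, Pi.add_apply, Pi.sub_apply]
    rw [g.symm z.1 (p z.1 z.2) z.2]
    ring

omit [IsManifold I ∞ M] [FiniteDimensional ℝ E] in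
theorem ini_orth (g : ∀ x : M, TangentSpace I x →L[ℝ] TangentSpace I x →L[ℝ] ℝ)
    {p : ∀ x : M, TangentSpace I x →ₗ[ℝ] TangentSpace I x}
    (x : M) : Orth (p x) (ini g p x) := by
  intro v w hv hw
  rw [ini_apply, hv, hw]
  simp

omit [IsManifold I ∞ M] [FiniteDimensional ℝ E] in
theorem ini_ker (g : ∀ x : M, TangentSpace I x →L[ℝ] TangentSpace I x →L[ℝ] ℝ)
    {p : ∀ x : M, TangentSpace I x →ₗ[ℝ] TangentSpace I x}
    (x : M) {v w : TangentSpace I x} (hv : p x v = 0) (hw : p x w = 0) :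
    ini g p x v w = g x v w := by
  rw [ini_apply, hv, hw]
  simp

omit [IsManifold I ∞ M] [FiniteDimensional ℝ E] in
theorem wedge_gram {x : M} (g : TangentSpace I x →L[ℝ] TangentSpace I x →L[ℝ] ℝ) {k : ℕ}
    (v : Fin k → TangentSpace I x) : wedgeNorm g v = √(gram (toFm g) v).det := rfl

variable [T2Space M] [SigmaCompactSpace M]

/-- Adapted metrics for volume expansion: the discrete time case. -/
theorem exists_adapted {f : M → M} {Λ : Set M} (hΛ : IsClosed Λ)
    {p : ∀ x : M, TangentSpace I x →ₗ[ℝ] TangentSpace I x} (hf : Good Λ p f)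
    (hp : ∀ x ∈ Λ, ∀ v, p x (p x v) = p x v)
    (hpc : ContinuousOn (fun z : TangentBundle I M => (⟨z.1, p z.1 z.2⟩ : TangentBundle I M))
      (TotalSpace.proj ⁻¹' Λ))
    (g : ContinuousRiemannianMetric E (fun x : M => TangentSpace I x)) {k : ℕ} {C l : ℝ}
    (hC : 0 < C) (hl : 0 < l) (h : VolExp f Λ p k g.inner C l) :
    ∃ g' : ContMDiffRiemannianMetric I ∞ E (fun x : M => TangentSpace I x), ∃ l' > 0,
      VolExp f Λ p k g'.inner 1 l' := by
  -- the initial field
  have hP0 := ini_cpd g hpc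
  have oP0 : ∀ x ∈ Λ, Orth (p x) (ini g.inner p x) := fun x _ => ini_orth g.inner x
  -- number of steps
  obtain ⟨m, hm⟩ : ∃ m : ℕ, 1 ≤ C ^ 2 * Real.exp (l * 2 ^ m) := by
    have h1 : Tendsto (fun m : ℕ => C ^ 2 * Real.exp (l * 2 ^ m)) atTop atTop := by
      refine Tendsto.const_mul_atTop (by positivity) ?_
      refine Real.tendsto_exp_atTop.comp ?_
      exact Tendsto.const_mul_atTop hl (tendsto_pow_atTop_atTop_of_one_lt one_lt_two)
    obtain ⟨m, hm⟩ := (h1.eventually (eventually_ge_atTop 1)).exists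
    exact ⟨m, hm⟩
  have hVE : VE Λ p k (ini g.inner p) (f^[2 ^ m]) (Real.exp l ^ 2 ^ m) := by
    intro x hx v hv
    have h1 := h (2 ^ m) Nat.one_le_two_pow x hx v hv
    rw [wedge_gram, wedge_gram] at h1
    have hN := hf.iterate (2 ^ m)
    have e1 : gram (ini g.inner p x) v = gram (toFm (g.inner x)) v := by
      ext i j
      exact ini_ker g.inner x (hv i) (hv j)
    have e2 : gram (pbf (f^[2 ^ m]) (ini g.inner p) x) v =
        gram (toFm (g.inner (f^[2 ^ m] x))) fun i => mfderiv I I (f^[2 ^ m]) x (v i) := by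
      have h0 : ∀ i, p (f^[2 ^ m] x) (mfderiv I I (f^[2 ^ m]) x (v i)) = 0 := fun i => by
        rw [hN.comm x hx, hv, map_zero]
      ext i j
      exact ini_ker g.inner (f^[2 ^ m] x) (h0 i) (h0 j)
    have hpd : ∀ y : M, PD (toFm (g.inner y)) := fun y =>
      ⟨fun v w => g.symm y v w, fun v hv => g.pos y v hv⟩
    rw [e1, e2]
    set a := (gram (toFm (g.inner x)) v).det with ha
    set b := (gram (toFm (g.inner (f^[2 ^ m] x)))
      fun i => mfderiv I I (f^[2 ^ m]) x (v i)).det with hb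
    have ha0 : 0 ≤ a := gram_nonneg (hpd x) v
    have hb0 : 0 ≤ b := gram_nonneg (hpd _) _
    have h2 : C ^ 2 * Real.exp (2 * (l * 2 ^ m)) * a ≤ b := by
      have h3 : (C * Real.exp (l * ((2 ^ m : ℕ) : ℝ)) * √a) ^ 2 ≤ √b ^ 2 :=
        pow_le_pow_left₀ (by positivity) h1 2
      rw [Real.sq_sqrt hb0, mul_pow, mul_pow, Real.sq_sqrt ha0, ← Real.exp_nat_mul] at h3
      push_cast at h3
      exact h3
    refine le_trans (mul_le_mul_of_nonneg_right ?_ ha0) h2
    rw [← Real.exp_nat_mul]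
    push_cast
    have h4 : Real.exp (2 * (l * 2 ^ m)) = Real.exp (l * 2 ^ m) * Real.exp (l * 2 ^ m) := by
      rw [← Real.exp_add]; ring_nf
    have h5 : Real.exp (2 ^ m * l) = Real.exp (l * 2 ^ m) := by ring_nf
    rw [h4, h5]
    have h6 := mul_le_mul_of_nonneg_right hm (Real.exp_pos (l * 2 ^ m)).le
    linarith
  obtain ⟨P, hP, hPE⟩ := exists_one_step hp hf (Real.exp_pos l).le m _ hP0 oP0 hVE
  -- choice of the approximation
  obtain ⟨ε, hε, hε1, hε2⟩ : ∃ ε : ℝ, 0 < ε ∧ ε < 1 ∧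
      Real.exp (l / 2) ≤ ((1 - ε) / (1 + ε)) ^ k * Real.exp l := by
    have h1 : Tendsto (fun ε : ℝ => ((1 - ε) / (1 + ε)) ^ k * Real.exp l) (𝓝[>] 0)
        (𝓝 (((1 - 0) / (1 + 0)) ^ k * Real.exp l)) := by
      refine Tendsto.mono_left ?_ nhdsWithin_le_nhds
      refine Tendsto.mul ?_ tendsto_const_nhds
      refine Tendsto.pow ?_ k
      refine Tendsto.div ?_ ?_ (by norm_num)
      · exact tendsto_const_nhds.sub tendsto_id
      · exact tendsto_const_nhds.add tendsto_id
    have h2 : Real.exp (l / 2) < ((1 - 0) / (1 + 0)) ^ k * Real.exp l := by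
      simp only [sub_zero, add_zero, div_one, one_pow, one_mul]
      exact Real.exp_lt_exp.2 (by linarith)
    have h3 := h1.eventually (lt_mem_nhds h2)
    have h4 : ∀ᶠ ε : ℝ in 𝓝[>] 0, ε < 1 :=
      mem_nhdsWithin_of_mem_nhds (Iio_mem_nhds one_pos)
    obtain ⟨ε, h5, h6, h7⟩ := (h3.and (h4.and self_mem_nhdsWithin)).exists
    exact ⟨ε, h7, h6, h5.le⟩
  obtain ⟨g', hg'⟩ := exists_smooth hΛ hP hε hε1
  have hpd' : ∀ y : M, PD (toFm (g'.inner y)) := fun y =>
    ⟨fun v w => g'.symm y v w, fun v hv => g'.pos y v hv⟩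
  refine ⟨g', l / 4, by positivity, ?_⟩
  have hone : VE Λ p k (fun x => toFm (g'.inner x)) f (Real.exp (l / 2)) := by
    intro x hx v hv
    have hfx := hf.maps hx
    have h1 := hPE x hx v hv
    have h2 : (1 + ε)⁻¹ ^ k * (gram (toFm (g'.inner x)) v).det ≤ (gram (P x) v).det :=
      gram_mono (hpd' x) (hP.pd x hx) (by positivity) (fun w => by
        rw [inv_mul_le_iff₀ (by linarith)]
        exact (hg' x hx w).2) v
    have h3 : (1 - ε) ^ k * (gram (pbf f P x) v).det ≤
        (gram (pbf f (fun x => toFm (g'.inner x)) x) v).det :=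
      gram_mono (P := P (f x)) (Q := toFm (g'.inner (f x))) (hP.pd _ hfx) (hpd' _)
        (by linarith) (fun w => (hg' (f x) hfx w).1) fun i => mfderiv I I f x (v i)
    have h0 : 0 ≤ (gram (toFm (g'.inner x)) v).det := gram_nonneg (hpd' x) v
    calc Real.exp (l / 2) * (gram (toFm (g'.inner x)) v).det
        ≤ (((1 - ε) / (1 + ε)) ^ k * Real.exp l) * (gram (toFm (g'.inner x)) v).det :=
          mul_le_mul_of_nonneg_right hε2 h0
      _ = (1 - ε) ^ k * (Real.exp l * ((1 + ε)⁻¹ ^ k * (gram (toFm (g'.inner x)) v).det)) := by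
          rw [div_eq_mul_inv, mul_pow]; ring
      _ ≤ (1 - ε) ^ k * (Real.exp l * (gram (P x) v).det) := by
          refine mul_le_mul_of_nonneg_left ?_ (pow_nonneg (by linarith) k)
          exact mul_le_mul_of_nonneg_left h2 (Real.exp_pos l).le
      _ ≤ (1 - ε) ^ k * (gram (pbf f P x) v).det :=
          mul_le_mul_of_nonneg_left h1 (pow_nonneg (by linarith) k)
      _ ≤ _ := h3
  intro n _ x hx v hv
  have h1 := hone.iterate (Real.exp_pos _).le hf n x hx v hv
  have h1' : Real.exp (l / 2) ^ n * (gram (toFm (g'.inner x)) v).det ≤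
      (gram (toFm (g'.inner (f^[n] x))) fun i => mfderiv I I (f^[n]) x (v i)).det := h1
  rw [wedge_gram, wedge_gram, one_mul]
  have h2 : Real.exp (l / 4 * n) = √(Real.exp (l / 2) ^ n) := by
    rw [← Real.exp_nat_mul, Real.sqrt_eq_rpow, ← Real.exp_mul]
    ring_nf
  rw [h2, ← Real.sqrt_mul (by positivity)]
  exact Real.sqrt_le_sqrt h1'

end Pool.Agent.V11106
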