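import Mathlib
import Pool.Agent.V11106.GM5

set_option autoImplicit false

open scoped Topology Manifold ContDiff Bundle
open Set Filter Module Bundle

noncomputable section

namespace Pool.Agent.V11106

variable {E : Type*} [NormedAddCommGroup E] [NormedSpace ℝ E]
  {H : Type*} [TopologicalSpace H] {I : ModelWithCorners ℝ E H}
  {M : Type*} [TopologicalSpace M] [ChartedSpace H M] [IsManifold I 1 M] [FiniteDimensional ℝ E]
  [T2Space M]

/-- A positive definite form on the model controls the norm. -/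
theorem norm_le_of_pd {c : Fm E} (hc : PD c) : ∃ K : ℝ, 0 < K ∧ ∀ u, ‖u‖ ^ 2 ≤ K * c u u := by
  by_cases hne : (Metric.sphere (0 : E) 1).Nonempty
  · obtain ⟨u, hu, hmin⟩ := (isCompact_sphere (0 : E) 1).exists_isMinOn hne
      (quad_cont c).continuousOn
    have hu0 : u ≠ 0 := by
      rintro rfl
      simp at hu
    have hm : 0 < c u u := hc.pos u hu0
    refine ⟨(c u u)⁻¹, by positivity, fun v => ?_⟩
    by_cases hv0 : v = 0
    · rw [hv0]; simp
    have hn : 0 < ‖v‖ := norm_pos_iff.2 hv0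
    have h1 : c u u ≤ c (‖v‖⁻¹ • v) (‖v‖⁻¹ • v) := hmin (by
      rw [mem_sphere_zero_iff_norm, norm_smul, norm_inv, norm_norm, inv_mul_cancel₀ hn.ne'])
    simp only [map_smul, LinearMap.smul_apply, smul_eq_mul] at h1
    rw [le_inv_mul_iff₀ hm]
    have := mul_le_mul_of_nonneg_right h1 (sq_nonneg ‖v‖)
    calc c u u * ‖v‖ ^ 2 ≤ ‖v‖⁻¹ * (‖v‖⁻¹ * c v v) * ‖v‖ ^ 2 := this
      _ = c v v := by field_simp
  · refine ⟨1, one_pos, fun v => ?_⟩
    have : v = 0 := by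
      by_contra hv0
      have hn : 0 < ‖v‖ := norm_pos_iff.2 hv0
      exact hne ⟨‖v‖⁻¹ • v, by
        rw [mem_sphere_zero_iff_norm, norm_smul, norm_inv, norm_norm, inv_mul_cancel₀ hn.ne']⟩
    rw [this]; simp

/-- The unit sphere bundle over a compact set is compact. -/
theorem CPD.sphere {Λ : Set M} {P : ∀ x : M, Fm (TangentSpace I x)} (hP : CPD Λ P)
    (hΛ : IsCompact Λ) :
    IsCompact {z : TangentBundle I M | z.1 ∈ Λ ∧ P z.1 z.2 z.2 = 1} := by
  have hlc : LocallyCompactSpace M := Manifold.locallyCompact_of_finiteDimensional I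
  have hclosed : IsClosed {z : TangentBundle I M | z.1 ∈ Λ ∧ P z.1 z.2 z.2 = 1} := by
    have h1 : IsClosed ((TotalSpace.proj : TangentBundle I M → M) ⁻¹' Λ) :=
      hΛ.isClosed.preimage (FiberBundle.continuous_proj E (TangentSpace I : M → Type _))
    exact hP.cont.preimage_isClosed_of_isClosed h1 (isClosed_singleton (x := (1 : ℝ)))
  have key : ∃ T : Set (TangentBundle I M), IsCompact T ∧
      {z : TangentBundle I M | z.1 ∈ Λ ∧ z.1 ∈ Λ ∧ P z.1 z.2 z.2 = 1} ⊆ T := by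
    refine hΛ.induction_on (p := fun S => ∃ T : Set (TangentBundle I M), IsCompact T ∧
      {z : TangentBundle I M | z.1 ∈ S ∧ z.1 ∈ Λ ∧ P z.1 z.2 z.2 = 1} ⊆ T) ?_ ?_ ?_ ?_
    · exact ⟨∅, isCompact_empty, fun z hz => hz.1⟩
    · rintro S S' hSS' ⟨T, hT, h⟩
      exact ⟨T, hT, fun z hz => h ⟨hSS' hz.1, hz.2⟩⟩
    · rintro S S' ⟨T, hT, h⟩ ⟨T', hT', h'⟩
      refine ⟨T ∪ T', hT.union hT', fun z hz => ?_⟩
      rcases hz.1 with h1 | h1
      · exact Or.inl (h ⟨h1, hz.2⟩)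
      · exact Or.inr (h' ⟨h1, hz.2⟩)
    · intro x₀ hx₀
      have hord := hP.order hx₀ (ε := 1 / 2) (by norm_num)
      have hmf := hP.mf_pd hx₀
      obtain ⟨K, hK, hKb⟩ := norm_le_of_pd hmf
      obtain ⟨C, hC, hCs, hCc⟩ := (local_compact_nhds (x := x₀)
        (inter_mem hord (bs_mem (I := I) x₀)))
      have hCc' : IsCompact C := hCc
      refine ⟨C, mem_nhdsWithin_of_mem_nhds hC,
        (fun w : M × E => (⟨w.1, tri I x₀ w.1 w.2⟩ : TangentBundle I M)) ''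
          (C ×ˢ Metric.closedBall (0 : E) √(2 * K)), ?_, ?_⟩
      · refine (hCc'.prod (isCompact_closedBall _ _)).image_of_continuousOn ?_
        exact (tri_contOn x₀).mono fun w hw => ⟨(hCs hw.1).2, mem_univ _⟩
      · rintro ⟨y, v⟩ ⟨hy, hyΛ, hv⟩
        replace hy : y ∈ C := hy
        replace hyΛ : y ∈ Λ := hyΛ
        replace hv : P y v v = 1 := hv
        obtain ⟨h1, h2⟩ := hCs hy
        have h3 := (h1 hyΛ v).1
        refine ⟨(y, tr I x₀ y v), ⟨hy, ?_⟩, ?_⟩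
        · rw [mem_closedBall_zero_iff]
          apply Real.le_sqrt_of_sq_le
          have h4 := hKb (tr I x₀ y v)
          rw [hv] at h3
          have h5 : mf P x₀ (tr I x₀ y v) (tr I x₀ y v) ≤ 2 := by linarith
          have h6 := mul_le_mul_of_nonneg_left h5 hK.le
          linarith
        · show (⟨y, tri I x₀ y (tr I x₀ y v)⟩ : TangentBundle I M) = ⟨y, v⟩
          rw [tri_tr h2]
  obtain ⟨T, hT, h⟩ := key
  exact hT.of_isClosed_subset hclosed fun z hz => h ⟨hz.1, hz⟩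

/-- Comparison of two fields over a compact set, with parameters. -/
theorem CPD.compare {Λ : Set M} {P : ∀ x : M, Fm (TangentSpace I x)} (hP : CPD Λ P)
    (hΛ : IsCompact Λ) {X : Type*} [TopologicalSpace X] {S : Set X} (hS : IsCompact S)
    {Q : X → ∀ x : M, Fm (TangentSpace I x)}
    (hQ : ContinuousOn (fun w : X × TangentBundle I M => Q w.1 w.2.1 w.2.2 w.2.2)
      (S ×ˢ (TotalSpace.proj ⁻¹' Λ))) :
    ∃ K : ℝ, 0 < K ∧ ∀ s ∈ S, ∀ x ∈ Λ, ∀ v, Q s x v v ≤ K * P x v v := by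
  have hc := hS.prod (hP.sphere hΛ)
  obtain ⟨K, hK⟩ := (hc.image_of_continuousOn (hQ.mono (prod_mono le_rfl
    fun z hz => hz.1))).bddAbove
  refine ⟨max K 1, lt_max_of_lt_right one_pos, fun s hs x hx v => ?_⟩
  by_cases hv : v = 0
  · rw [hv]; simp
  have h0 := (hP.pd x hx).pos v hv
  have hr : 0 < √(P x v v) := Real.sqrt_pos.2 h0
  have hr2 : √(P x v v) ^ 2 = P x v v := Real.sq_sqrt h0.le
  set r := √(P x v v) with hrdef
  have h1 : Q s x (r⁻¹ • v) (r⁻¹ • v) ≤ K := by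
    refine hK ⟨(s, ⟨x, r⁻¹ • v⟩), ⟨hs, hx, ?_⟩, rfl⟩
    show P x (r⁻¹ • v) (r⁻¹ • v) = 1
    simp only [map_smul, LinearMap.smul_apply, smul_eq_mul]
    rw [← hr2]
    field_simp
  simp only [map_smul, LinearMap.smul_apply, smul_eq_mul] at h1
  have h2 : Q s x v v = r ^ 2 * (r⁻¹ * (r⁻¹ * Q s x v v)) := by field_simp
  rw [h2, hr2, mul_comm]
  exact mul_le_mul_of_nonneg_right (h1.trans (le_max_left _ _)) h0.le

/-- Lower comparison. -/
theorem CPD.compare' {Λ : Set M} {P : ∀ x : M, Fm (TangentSpace I x)} (hP : CPD Λ P)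
    (hΛ : IsCompact Λ) {X : Type*} [TopologicalSpace X] {S : Set X} (hS : IsCompact S)
    {Q : X → ∀ x : M, Fm (TangentSpace I x)}
    (hQpos : ∀ s ∈ S, ∀ x ∈ Λ, ∀ v, v ≠ 0 → 0 < Q s x v v)
    (hQ : ContinuousOn (fun w : X × TangentBundle I M => Q w.1 w.2.1 w.2.2 w.2.2)
      (S ×ˢ (TotalSpace.proj ⁻¹' Λ))) :
    ∃ K : ℝ, 0 < K ∧ ∀ s ∈ S, ∀ x ∈ Λ, ∀ v, P x v v ≤ K * Q s x v v := by
  have hne : ∀ w ∈ S ×ˢ {z : TangentBundle I M | z.1 ∈ Λ ∧ P z.1 z.2 z.2 = 1},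
      Q w.1 w.2.1 w.2.2 w.2.2 ≠ 0 := by
    rintro ⟨s, x, v⟩ ⟨hs, hx, hv⟩
    refine (hQpos s hs x hx v fun h => ?_).ne'
    replace hv : P x v v = 1 := hv
    rw [h] at hv
    simp at hv
  have hc := hS.prod (hP.sphere hΛ)
  have hQ' := hQ.mono (prod_mono le_rfl fun z (hz : z ∈ {z : TangentBundle I M | z.1 ∈ Λ ∧
    P z.1 z.2 z.2 = 1}) => hz.1)
  obtain ⟨K, hK⟩ := (hc.image_of_continuousOn (hQ'.inv₀ hne)).bddAbove
  refine ⟨max K 1, lt_max_of_lt_right one_pos, fun s hs x hx v => ?_⟩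
  by_cases hv : v = 0
  · rw [hv]; simp
  have h0 := (hP.pd x hx).pos v hv
  have hr : 0 < √(P x v v) := Real.sqrt_pos.2 h0
  have hr2 : √(P x v v) ^ 2 = P x v v := Real.sq_sqrt h0.le
  set r := √(P x v v) with hrdef
  have h1 : (Q s x (r⁻¹ • v) (r⁻¹ • v))⁻¹ ≤ K := by
    refine hK ⟨(s, ⟨x, r⁻¹ • v⟩), ⟨hs, hx, ?_⟩, rfl⟩
    show P x (r⁻¹ • v) (r⁻¹ • v) = 1
    simp only [map_smul, LinearMap.smul_apply, smul_eq_mul]
    rw [← hr2]
    field_simp
  have h3 := hQpos s hs x hx v hv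
  simp only [map_smul, LinearMap.smul_apply, smul_eq_mul] at h1
  have h4 : (r⁻¹ * (r⁻¹ * Q s x v v))⁻¹ = r ^ 2 / Q s x v v := by field_simp
  rw [h4, hr2, div_le_iff₀ h3] at h1
  exact h1.trans (mul_le_mul_of_nonneg_right (le_max_left _ _) h3.le)

end Pool.Agent.V11106
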