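import Mathlib
import Pool.Agent.V11106.GM6

set_option autoImplicit false

open scoped Topology Manifold ContDiff Bundle
open Set Filter Module Bundle

noncomputable section

namespace Pool.Agent.V11106

variable {E : Type*} [NormedAddCommGroup E] [NormedSpace ℝ E]
  {H : Type*} [TopologicalSpace H] {I : ModelWithCorners ℝ E H}
  {M : Type*} [TopologicalSpace M] [ChartedSpace H M] [FiniteDimensional ℝ E]

/-- Coordinates of a field. -/
def coor [IsManifold I 1 M] (P : ∀ x : M, Fm (TangentSpace I x)) (x₀ y : M) :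
    E →L[ℝ] E →L[ℝ] ℝ := toCL (pb (tri I x₀ y) (P y))

theorem coor_contOn [IsManifold I 1 M] {Λ : Set M} {P : ∀ x : M, Fm (TangentSpace I x)}
    (hP : CPD Λ P) (x₀ : M) : ContinuousOn (coor P x₀) (Λ ∩ bs I x₀) := by
  have hq : ∀ u : E, ContinuousOn (fun y => P y (tri I x₀ y u) (tri I x₀ y u))
      (Λ ∩ bs I x₀) := by
    intro u
    have h0 : ContinuousOn (fun y : M => (⟨y, tri I x₀ y u⟩ : TangentBundle I M))
        (Λ ∩ bs I x₀) :=
      (tri_contOn x₀).comp (g := fun z : M × E => (⟨z.1, tri I x₀ z.1 z.2⟩ : TangentBundle I M))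
        (f := fun y : M => (y, u))
        (by fun_prop) (fun y hy => ⟨hy.2, mem_univ _⟩)
    exact hP.cont.comp h0 fun y (hy : y ∈ Λ ∩ bs I x₀) => hy.1
  rw [continuousOn_clm_apply]
  intro u
  rw [continuousOn_clm_apply]
  intro w
  have h1 := (((hq (u + w)).sub (hq u)).sub (hq w)).div_const 2
  refine h1.congr fun y hy => ?_
  show P y (tri I x₀ y u) (tri I x₀ y w) = (P y (tri I x₀ y (u + w)) (tri I x₀ y (u + w)) -
    P y (tri I x₀ y u) (tri I x₀ y u) - P y (tri I x₀ y w) (tri I x₀ y w)) / 2
  simp only [map_add, LinearMap.add_apply]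
  rw [(hP.pd y hy.1).symm (tri I x₀ y w) (tri I x₀ y u)]
  ring

variable [IsManifold I ∞ M] [T2Space M] [SigmaCompactSpace M]

/-- Exact extension of a continuous field over a closed set to a continuous metric. -/
theorem exists_extension {Λ : Set M} (hΛ : IsClosed Λ) {P : ∀ x : M, Fm (TangentSpace I x)}
    (hP : CPD Λ P) :
    ∃ g : ContinuousRiemannianMetric E (fun x : M => TangentSpace I x),
      ∀ x ∈ Λ, toFm (g.inner x) = P x := by
  have hlc : LocallyCompactSpace M := Manifold.locallyCompact_of_finiteDimensional I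
  obtain ⟨g, hg⟩ := exists_metric (I := I) (M := M) (0 : ℕ∞)
    (fun x => {c | PD c ∧ (x ∈ Λ → c = P x)})
    (fun x c hc d hd a b ha hb hab => by
      refine ⟨⟨fun v w => ?_, fun v hv => ?_⟩, fun hx => ?_⟩
      · simp only [LinearMap.add_apply, LinearMap.smul_apply, smul_eq_mul]
        rw [hc.1.symm v w, hd.1.symm v w]
      · simp only [LinearMap.add_apply, LinearMap.smul_apply, smul_eq_mul]
        have h1 := hc.1.pos v hv
        have h2 := hd.1.pos v hv
        rcases ha.eq_or_lt with h0 | h0
        · have : b = 1 := by linarith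
          rw [← h0, this]; linarith
        · have := mul_pos h0 h1
          have := mul_nonneg hb h2.le
          linarith
      · rw [hc.2 hx, hd.2 hx, ← add_smul, hab, one_smul])
    (fun x c hc => hc.1)
    (fun x₀ => by
      by_cases hx₀ : x₀ ∈ Λ
      · obtain ⟨K, hK, hKs, hKc⟩ := local_compact_nhds (bs_mem (I := I) x₀)
        have hKc' : IsCompact K := hKc
        have hcl : IsClosed (Λ ∩ K) := hΛ.inter hKc'.isClosed
        have hc : ContinuousOn (coor P x₀) (Λ ∩ K) :=
          (coor_contOn hP x₀).mono (inter_subset_inter_right _ hKs)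
        obtain ⟨C, hC⟩ := ContinuousMap.exists_restrict_eq hcl
          (⟨(Λ ∩ K).domRestrict (coor P x₀), continuousOn_iff_continuous_domRestrict.1 hc⟩ :
            C(↥(Λ ∩ K), E →L[ℝ] E →L[ℝ] ℝ))
        have hC' : ∀ y ∈ Λ ∩ K, C y = coor P x₀ y := fun y hy =>
          congrArg (fun f : C(↥(Λ ∩ K), E →L[ℝ] E →L[ℝ] ℝ) => f ⟨y, hy⟩) hC
        let D : M → E →L[ℝ] E →L[ℝ] ℝ := fun y => (1 / 2 : ℝ) • (C y + (C y).flip)
        have hD : Continuous D := by
          let S : (E →L[ℝ] E →L[ℝ] ℝ) →L[ℝ] (E →L[ℝ] E →L[ℝ] ℝ) :=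
            (1 / 2 : ℝ) • (ContinuousLinearMap.id ℝ _ +
              (ContinuousLinearMap.flipₗᵢ ℝ E E ℝ).toContinuousLinearEquiv.toContinuousLinearMap)
          exact S.continuous.comp C.continuous
        have hDa : ∀ y v w, D y v w = (1 / 2) * (C y v w + C y w v) := fun y v w => rfl
        have hDs : ∀ y v w, D y v w = D y w v := fun y v w => by rw [hDa, hDa]; ring
        have hDΛ : ∀ y ∈ Λ ∩ K, D y = coor P x₀ y := by
          intro y hy
          ext v w
          rw [hDa, hC' y hy]
          have hs : coor P x₀ y w v = coor P x₀ y v w := (hP.pd y hy.1).symm _ _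
          rw [hs]; ring
        have hpos : ∀ᶠ y in 𝓝 x₀, ∀ u ∈ Metric.sphere (0 : E) 1, 0 < D y u u := by
          refine (isCompact_sphere (0 : E) 1).eventually_forall_of_forall_eventually
            (P := fun y u => 0 < D y u u) fun u hu => ?_
          have hu0 : u ≠ 0 := by
            rintro rfl
            simp at hu
          have h1 : Continuous fun z : M × E => D z.1 z.2 z.2 :=
            ((hD.comp continuous_fst).clm_apply continuous_snd).clm_apply continuous_snd
          refine h1.continuousAt.eventually (lt_mem_nhds ?_)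
          show 0 < D x₀ u u
          rw [hDΛ x₀ ⟨hx₀, mem_of_mem_nhds hK⟩]
          exact (hP.mf_pd hx₀).pos u hu0
        refine ⟨_, inter_mem hK hpos, D, (contMDiff_zero_iff.2 hD).contMDiffOn, fun y hy hyb => ?_⟩
        obtain ⟨hyK, hyp⟩ := hy
        refine ⟨⟨fun v w => hDs y _ _, fun v hv => ?_⟩, fun hyΛ => ?_⟩
        · show 0 < D y (tr I x₀ y v) (tr I x₀ y v)
          set w := tr I x₀ y v with hw
          have hw0 : w ≠ 0 := by
            intro h
            apply hv
            have := tri_tr hyb v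
            rw [← this, ← hw, h, map_zero]
          have hn : 0 < ‖w‖ := norm_pos_iff.2 hw0
          have h3 := hyp (‖w‖⁻¹ • w) (by
            rw [mem_sphere_zero_iff_norm, norm_smul, norm_inv, norm_norm,
              inv_mul_cancel₀ hn.ne'])
          simp only [map_smul, smul_apply, smul_eq_mul] at h3
          have h4 : 0 < ‖w‖⁻¹ := by positivity
          exact (mul_pos_iff_of_pos_left h4).1 ((mul_pos_iff_of_pos_left h4).1 h3)
        · ext v w
          show D y (tr I x₀ y v) (tr I x₀ y w) = P y v w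
          rw [hDΛ y ⟨hyΛ, hyK⟩]
          show P y (tri I x₀ y (tr I x₀ y v)) (tri I x₀ y (tr I x₀ y w)) = P y v w
          rw [tri_tr hyb, tri_tr hyb]
      · obtain ⟨c, hc⟩ := exists_pd E
        exact ⟨_, hΛ.isOpen_compl.mem_nhds hx₀, fun _ => toCL c, contMDiffOn_const,
          fun y hy hyb => ⟨hc.pb (tr_inj hyb), fun hyΛ => absurd hyΛ hy⟩⟩)
  exact ⟨g.toContinuousRiemannianMetric, fun x hx => (hg x).2 hx⟩

end Pool.Agent.V11106
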