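import Mathlib
import Pool.Agent.V11106.GM7

set_option autoImplicit false

open scoped Topology Manifold ContDiff Bundle Interval
open Set Filter Module Bundle MeasureTheory

noncomputable section

namespace Pool.Agent.V11106

variable {E : Type*} [NormedAddCommGroup E] [NormedSpace ℝ E]
  {H : Type*} [TopologicalSpace H] {I : ModelWithCorners ℝ E H}
  {M : Type*} [TopologicalSpace M] [ChartedSpace H M]

variable (I) in
/-- A flow by `C^1` maps whose derivative cocycle is jointly continuous. -/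
structure FlowC1 [IsManifold I 1 M] (φ : ℝ → M → M) : Prop where
  zero : ∀ x, φ 0 x = x
  add : ∀ s t x, φ (s + t) x = φ s (φ t x)
  smooth : ∀ t, ContMDiff I I 1 (φ t)
  cont : Continuous fun q : ℝ × TangentBundle I M => tangentMap I I (φ q.1) q.2

/-- A splitting over an invariant set of a flow. -/
structure FlowGood [IsManifold I 1 M] (φ : ℝ → M → M) (Λ : Set M)
    (p : ∀ x : M, TangentSpace I x →ₗ[ℝ] TangentSpace I x) : Prop where
  flow : FlowC1 I φ
  good : ∀ t, Good Λ p (φ t)
  proj : ∀ x ∈ Λ, ∀ v, p x (p x v) = p x v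

section

variable [IsManifold I 1 M] {φ : ℝ → M → M} {Λ : Set M}
  {p : ∀ x : M, TangentSpace I x →ₗ[ℝ] TangentSpace I x}

theorem FlowC1.add' (h : FlowC1 I φ) (s t : ℝ) : φ (s + t) = φ s ∘ φ t := funext (h.add s t)

theorem FlowC1.pb_add (h : FlowC1 I φ) (s t : ℝ) (P : ∀ x : M, Fm (TangentSpace I x)) (x : M) :
    pbf (φ (s + t)) P x = pbf (φ t) (pbf (φ s) P) x := by
  rw [h.add' s t, pbf_comp (h.smooth t) (h.smooth s)]

theorem FlowC1.pb_zero (h : FlowC1 I φ) (P : ∀ x : M, Fm (TangentSpace I x)) (x : M) :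
    pbf (φ 0) P x = P x := by
  have h0 : φ 0 = (_root_.id : M → M) := funext h.zero
  rw [h0]
  ext v w
  show P x (mfderiv I I (_root_.id : M → M) x v) (mfderiv I I (_root_.id : M → M) x w) = P x v w
  rw [mfderiv_id]
  rfl

/-- Joint continuity of the pulled back field. -/
theorem FlowGood.jcont (h : FlowGood φ Λ p) {P : ∀ x : M, Fm (TangentSpace I x)}
    (hP : CPD Λ P) : ContinuousOn (fun w : ℝ × TangentBundle I M => pbf (φ w.1) P w.2.1 w.2.2 w.2.2)
      (univ ×ˢ (TotalSpace.proj ⁻¹' Λ)) :=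
  hP.cont.comp h.flow.cont.continuousOn fun w hw => (h.good w.1).maps hw.2

theorem FlowGood.cpd (h : FlowGood φ Λ p) {P : ∀ x : M, Fm (TangentSpace I x)}
    (hP : CPD Λ P) (t : ℝ) : CPD Λ (pbf (φ t) P) :=
  hP.pbf (h.good t).smooth (h.good t).maps (h.good t).inj

/-- Polarization. -/
theorem PD.polar {W : Type*} [AddCommGroup W] [Module ℝ W] {P : Fm W} (hP : PD P) (v w : W) :
    P v w = (P (v + w) (v + w) - P v v - P w w) / 2 := by
  simp only [map_add, LinearMap.add_apply]
  rw [hP.symm w v]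
  ring

theorem FlowGood.tcont (h : FlowGood φ Λ p) {P : ∀ x : M, Fm (TangentSpace I x)}
    (hP : CPD Λ P) {x : M} (hx : x ∈ Λ) (v w : TangentSpace I x) :
    Continuous fun t => pbf (φ t) P x v w := by
  have hq : ∀ u : TangentSpace I x, Continuous fun t => pbf (φ t) P x u u := by
    intro u
    have h1 := h.jcont hP
    have h2 : Continuous fun t : ℝ => ((t, ⟨x, u⟩) : ℝ × TangentBundle I M) :=
      Continuous.prodMk_left _
    have h4 := ContinuousOn.comp_continuous
      (g := fun w : ℝ × TangentBundle I M => pbf (φ w.1) P w.2.1 w.2.2 w.2.2)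
      (f := fun t : ℝ => ((t, ⟨x, u⟩) : ℝ × TangentBundle I M)) h1 h2
      (fun t => ⟨mem_univ _, hx⟩)
    exact h4
  have h3 : (fun t => pbf (φ t) P x v w) = fun t => (pbf (φ t) P x (v + w) (v + w) -
      pbf (φ t) P x v v - pbf (φ t) P x w w) / 2 :=
    funext fun t => ((h.cpd hP t).pd x hx).polar v w
  rw [h3]
  exact (((hq _).sub (hq _)).sub (hq _)).div_const 2

open Classical in
/-- The average of the pulled back forms. -/
def avg (φ : ℝ → M → M) (P : ∀ x : M, Fm (TangentSpace I x)) (x : M) : Fm (TangentSpace I x) :=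
  if h : ∀ v w, Continuous fun t => pbf (φ t) P x v w then
    LinearMap.mk₂ ℝ (fun v w => ∫ s in (0 : ℝ)..1, pbf (φ s) P x v w)
      (fun v v' w => by
        simp only [map_add, LinearMap.add_apply]
        exact intervalIntegral.integral_add ((h v w).intervalIntegrable _ _)
          ((h v' w).intervalIntegrable _ _))
      (fun c v w => by
        simp only [map_smul, LinearMap.smul_apply, smul_eq_mul]
        exact intervalIntegral.integral_const_mul _ _)
      (fun v w w' => by
        simp only [map_add]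
        exact intervalIntegral.integral_add ((h v w).intervalIntegrable _ _)
          ((h v w').intervalIntegrable _ _))
      (fun c v w => by
        simp only [map_smul, smul_eq_mul]
        exact intervalIntegral.integral_const_mul _ _)
  else 0

theorem FlowGood.avg_apply (h : FlowGood φ Λ p) {P : ∀ x : M, Fm (TangentSpace I x)}
    (hP : CPD Λ P) {x : M} (hx : x ∈ Λ) (v w : TangentSpace I x) :
    avg φ P x v w = ∫ s in (0 : ℝ)..1, pbf (φ s) P x v w := by
  rw [avg, dif_pos (h.tcont hP hx)]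
  rfl

theorem FlowGood.avg_cpd (h : FlowGood φ Λ p) {P : ∀ x : M, Fm (TangentSpace I x)}
    (hP : CPD Λ P) : CPD Λ (avg φ P) := by
  refine ⟨fun x hx => ⟨fun v w => ?_, fun v hv => ?_⟩, ?_⟩
  · rw [h.avg_apply hP hx, h.avg_apply hP hx]
    refine intervalIntegral.integral_congr fun s _ => ?_
    exact ((h.cpd hP s).pd x hx).symm v w
  · rw [h.avg_apply hP hx]
    refine intervalIntegral.intervalIntegral_pos_of_pos
      ((h.tcont hP hx v v).intervalIntegrable _ _) (fun s => ?_) one_pos
    exact ((h.cpd hP s).pd x hx).pos v hv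
  · rw [continuousOn_iff_continuous_domRestrict]
    have h1 : Continuous (fun q : ((TotalSpace.proj : TangentBundle I M → M) ⁻¹' Λ) × ℝ =>
        pbf (φ q.2) P q.1.1.1 q.1.1.2 q.1.1.2) := by
      refine (h.jcont hP).comp_continuous (f := fun q :
        ((TotalSpace.proj : TangentBundle I M → M) ⁻¹' Λ) × ℝ =>
          ((q.2, q.1.1) : ℝ × TangentBundle I M)) (by fun_prop) fun q => ⟨mem_univ _, q.1.2⟩
    have h2 := intervalIntegral.continuous_parametric_intervalIntegral_of_continuous'
      (μ := volume) (f := fun (z : ((TotalSpace.proj : TangentBundle I M → M) ⁻¹' Λ)) (s : ℝ) =>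
        pbf (φ s) P z.1.1 z.1.2 z.1.2) h1 0 1
    refine h2.congr fun z => ?_
    exact (h.avg_apply hP z.2 z.1.2 z.1.2).symm

theorem FlowGood.avg_orth (h : FlowGood φ Λ p) {P : ∀ x : M, Fm (TangentSpace I x)}
    (hP : CPD Λ P) (oP : ∀ x ∈ Λ, Orth (p x) (P x)) (x : M) (hx : x ∈ Λ) :
    Orth (p x) (avg φ P x) := by
  intro v w hv hw
  rw [h.avg_apply hP hx]
  refine (intervalIntegral.integral_congr (g := fun _ => (0 : ℝ)) fun s _ => ?_).trans (by simp)
  exact pbf_orth (h.good s) oP x hx v w hv hw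

/-- Lipschitz bounds along the flow. -/
def Lip (φ : ℝ → M → M) (Λ : Set M) (P : ∀ x : M, Fm (TangentSpace I x)) (L : ℝ) : Prop :=
  ∀ t : ℝ, 0 ≤ t → ∀ x ∈ Λ, ∀ v, pbf (φ t) P x v v ≤ Real.exp (L * t) * P x v v ∧
    P x v v ≤ Real.exp (L * t) * pbf (φ t) P x v v

theorem lip_of_small (h : FlowGood φ Λ p) {P : ∀ x : M, Fm (TangentSpace I x)} {L : ℝ}
    (hL : ∀ t : ℝ, 0 ≤ t → t ≤ 1 → ∀ x ∈ Λ, ∀ v, pbf (φ t) P x v v ≤ Real.exp (L * t) * P x v v ∧
      P x v v ≤ Real.exp (L * t) * pbf (φ t) P x v v) : Lip φ Λ P L := by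
  have key : ∀ n : ℕ, ∀ s : ℝ, 0 ≤ s → s ≤ 1 → ∀ x ∈ Λ, ∀ v,
      pbf (φ (n * s)) P x v v ≤ Real.exp (L * (n * s)) * P x v v ∧
      P x v v ≤ Real.exp (L * (n * s)) * pbf (φ (n * s)) P x v v := by
    intro n s hs hs1
    induction n with
    | zero =>
      intro x hx v
      simp [h.flow.pb_zero]
    | succ n ih =>
      intro x hx v
      have e1 : ((n + 1 : ℕ) : ℝ) * s = s + n * s := by push_cast; ring
      rw [e1, h.flow.pb_add]
      obtain ⟨h1, h2⟩ := ih x hx v
      obtain ⟨h3, h4⟩ := hL s hs hs1 (φ (n * s) x) ((h.good _).maps hx)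
        (mfderiv I I (φ (n * s)) x v)
      have e2 : pbf (φ (n * s)) (pbf (φ s) P) x v v = pbf (φ s) P (φ (n * s) x)
        (mfderiv I I (φ (n * s)) x v) (mfderiv I I (φ (n * s)) x v) := rfl
      have e3 : pbf (φ (n * s)) P x v v = P (φ (n * s) x)
        (mfderiv I I (φ (n * s)) x v) (mfderiv I I (φ (n * s)) x v) := rfl
      rw [← e2, ← e3] at h3 h4
      have e4 : Real.exp (L * (s + n * s)) = Real.exp (L * s) * Real.exp (L * (n * s)) := by
        rw [← Real.exp_add]; ring_nf
      rw [e4]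
      constructor
      · calc _ ≤ _ := h3
          _ ≤ Real.exp (L * s) * (Real.exp (L * (n * s)) * P x v v) :=
            mul_le_mul_of_nonneg_left h1 (Real.exp_pos _).le
          _ = _ := by ring
      · calc _ ≤ _ := h2
          _ ≤ Real.exp (L * (n * s)) * (Real.exp (L * s) * pbf (φ (n * s)) (pbf (φ s) P) x v v) :=
            mul_le_mul_of_nonneg_left h4 (Real.exp_pos _).le
          _ = _ := by ring
  intro t ht x hx v
  obtain ⟨n, hn⟩ := exists_nat_gt t
  have hn0 : (0 : ℝ) < n := lt_of_le_of_lt ht hn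
  have := key n (t / n) (by positivity) ((div_le_one hn0).2 hn.le) x hx v
  rwa [mul_div_cancel₀ t hn0.ne'] at this

end

end Pool.Agent.V11106
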