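import Mathlib
import Pool.Agent.V11106.GM8

set_option autoImplicit false

open scoped Topology Manifold ContDiff Bundle Interval
open Set Filter Module Bundle MeasureTheory

noncomputable section

namespace Pool.Agent.V11106

section LinAlg

variable {W : Type*} [AddCommGroup W] [Module ℝ W]

/-- Halving for the domination. -/
theorem half_dom [FiniteDimensional ℝ W] {P Q R : Fm W} (hP : PD P) (hQ : PD Q) (hR : PD R)
    {p : W →ₗ[ℝ] W} (hpp : ∀ v, p (p v) = p v) (oP : Orth p P) (oQ : Orth p Q) (oR : Orth p R)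
    {a : ℝ} (ha : 0 < a)
    (h : ∀ u w, p u = u → p w = 0 → R u u * P w w ≤ a ^ 2 * (R w w * P u u))
    (u w : W) (hu : p u = u) (hw : p w = 0) :
    gm Q R u u * gm P Q w w ≤ a * (gm Q R w w * gm P Q u u) := by
  by_cases hu0 : u = 0
  · rw [hu0]; simp
  by_cases hw0 : w = 0
  · rw [hw0]; simp
  let S : Set ℝ := {r | ∃ w, p w = 0 ∧ w ≠ 0 ∧ r = R w w / P w w}
  have hSb : BddBelow S := by
    refine ⟨0, ?_⟩
    rintro r ⟨w, -, hw, rfl⟩
    exact (div_pos (hR.pos w hw) (hP.pos w hw)).le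
  have hSne : S.Nonempty := ⟨_, w, hw, hw0, rfl⟩
  set d := sInf S with hd
  have h1 : ∀ w, p w = 0 → d * P w w ≤ R w w := by
    intro w hw
    by_cases hw0 : w = 0
    · rw [hw0]; simp
    · have := csInf_le hSb (show R w w / P w w ∈ S from ⟨w, hw, hw0, rfl⟩)
      rwa [le_div_iff₀ (hP.pos w hw0)] at this
  have h2 : ∀ u, p u = u → R u u ≤ a ^ 2 * d * P u u := by
    intro u hu
    by_cases hu0 : u = 0
    · rw [hu0]; simp
    · have hPu := hP.pos u hu0
      have h3 : R u u / (a ^ 2 * P u u) ≤ d := by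
        refine le_csInf hSne ?_
        rintro r ⟨w, hw, hw0, rfl⟩
        rw [div_le_div_iff₀ (by positivity) (hP.pos w hw0)]
        have := h u w hu hw
        linarith
      rw [div_le_iff₀ (by positivity)] at h3
      linarith
  have hd0 : 0 < d := by
    have h3 := h2 u hu
    have h4 := hR.pos u hu0
    have h5 := hP.pos u hu0
    by_contra hc
    push Not at hc
    have : a ^ 2 * d * P u u ≤ 0 :=
      mul_nonpos_of_nonpos_of_nonneg (mul_nonpos_of_nonneg_of_nonpos (sq_nonneg a) hc) h5.le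
    linarith
  have hs : 0 < √d := Real.sqrt_pos.2 hd0
  have hs2 : √d ^ 2 = d := Real.sq_sqrt hd0.le
  have h3 := half_lower hP hQ hR hpp oQ oR hs (fun v hv => by rw [hs2]; exact h1 v hv) w hw
  have h4 := half_upper hP hQ hR hpp oP oQ (c := a * √d) (by positivity) (fun v hv => by
    rw [mul_pow, hs2]; exact h2 v hv) u hu
  have h5 := (gm_pd hP hQ).nonneg w
  have h6 := (gm_pd hP hQ).nonneg u
  calc gm Q R u u * gm P Q w w ≤ (a * √d * gm P Q u u) * gm P Q w w :=
        mul_le_mul_of_nonneg_right h4 h5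
    _ = a * gm P Q u u * (√d * gm P Q w w) := by ring
    _ ≤ a * gm P Q u u * gm Q R w w :=
        mul_le_mul_of_nonneg_left h3 (by positivity)
    _ = _ := by ring

/-- The mean with a comparable form. -/
theorem gm_close [FiniteDimensional ℝ W] {P Q : Fm W} (hP : PD P) (hQ : PD Q) {d : ℝ}
    (h1 : ∀ v, Q v v ≤ Real.exp (2 * d) * P v v) (h2 : ∀ v, P v v ≤ Real.exp (2 * d) * Q v v)
    (v : W) : gm P Q v v ≤ Real.exp d * P v v ∧ P v v ≤ Real.exp d * gm P Q v v := by
  have he : Real.exp (-d) ^ 2 * (1 * Real.exp (2 * d)) ≤ 1 := by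
    rw [one_mul, ← Real.exp_nat_mul, ← Real.exp_add]
    simp
  have he2 : Real.exp d * Real.exp (-d) = 1 := by rw [← Real.exp_add]; simp
  constructor
  · have := gm_mono hP hQ hP hP (a := 1) (b := Real.exp (2 * d)) (c := Real.exp (-d)) he
      zero_le_one LinearMap.id (fun v => by simp) (fun v => h1 v) v
    rw [gm_self hP] at this
    have h3 := mul_le_mul_of_nonneg_left this (Real.exp_pos d).le
    rw [← mul_assoc, he2, one_mul] at h3
    exact h3
  · have := gm_mono hP hP hP hQ (a := 1) (b := Real.exp (2 * d)) (c := Real.exp (-d)) he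
      zero_le_one LinearMap.id (fun v => by simp) (fun v => h2 v) v
    rw [gm_self hP] at this
    have h3 := mul_le_mul_of_nonneg_left this (Real.exp_pos d).le
    rw [← mul_assoc, he2, one_mul] at h3
    exact h3

/-- Two-sided monotonicity of the mean for a scale factor. -/
theorem gm_scale [FiniteDimensional ℝ W] {P Q P' Q' : Fm W} (hP : PD P) (hQ : PD Q)
    (hP' : PD P') (hQ' : PD Q') {d : ℝ}
    (h1 : ∀ v, P v v ≤ Real.exp d * P' v v) (h2 : ∀ v, Q v v ≤ Real.exp d * Q' v v)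
    (v : W) : gm P Q v v ≤ Real.exp d * gm P' Q' v v := by
  have he : Real.exp (-d) ^ 2 * (Real.exp d * Real.exp d) ≤ 1 := by
    rw [← Real.exp_nat_mul, ← Real.exp_add, ← Real.exp_add]
    refine le_of_eq ?_
    rw [Real.exp_eq_one_iff]
    push_cast
    ring
  have he2 : Real.exp d * Real.exp (-d) = 1 := by rw [← Real.exp_add]; simp
  have := gm_mono hP hQ hP' hQ' (a := Real.exp d) (b := Real.exp d) (c := Real.exp (-d)) he
    (Real.exp_pos d).le LinearMap.id (fun v => h1 v) (fun v => h2 v) v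
  have h3 := mul_le_mul_of_nonneg_left this (Real.exp_pos d).le
  rw [← mul_assoc, he2, one_mul] at h3
  exact h3

end LinAlg

variable {E : Type*} [NormedAddCommGroup E] [NormedSpace ℝ E]
  {H : Type*} [TopologicalSpace H] {I : ModelWithCorners ℝ E H}
  {M : Type*} [TopologicalSpace M] [ChartedSpace H M]
  [IsManifold I 1 M] {φ : ℝ → M → M} {Λ : Set M}
  {p : ∀ x : M, TangentSpace I x →ₗ[ℝ] TangentSpace I x}

/-- The averaged field is Lipschitz along the flow. -/
theorem FlowGood.avg_lip [FiniteDimensional ℝ E] [T2Space M] (h : FlowGood φ Λ p)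
    {P : ∀ x : M, Fm (TangentSpace I x)} (hP : CPD Λ P) (hΛ : IsCompact Λ) :
    ∃ L : ℝ, 0 < L ∧ Lip φ Λ (avg φ P) L := by
  have hj : ContinuousOn (fun w : ℝ × TangentBundle I M => pbf (φ w.1) P w.2.1 w.2.2 w.2.2)
      (Icc (0 : ℝ) 2 ×ˢ (TotalSpace.proj ⁻¹' Λ)) :=
    (h.jcont hP).mono (prod_mono (subset_univ _) le_rfl)
  obtain ⟨K₁, hK₁, h1⟩ := hP.compare hΛ (isCompact_Icc (a := (0 : ℝ)) (b := 2))
    (Q := fun s => pbf (φ s) P) hj
  obtain ⟨K₂, hK₂, h2⟩ := hP.compare' hΛ (isCompact_Icc (a := (0 : ℝ)) (b := 2))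
    (Q := fun s => pbf (φ s) P)
    (fun s _ x hx v hv => ((h.cpd hP s).pd x hx).pos v hv) hj
  refine ⟨K₁ * K₂, by positivity, lip_of_small h fun t ht ht1 x hx v => ?_⟩
  set K := K₁ * K₂ with hK
  have hK0 : 0 < K := by positivity
  set f : ℝ → ℝ := fun s => pbf (φ s) P x v v with hf
  have hfc : Continuous f := h.tcont hP hx v v
  have hf0 : ∀ s, 0 ≤ f s := fun s => ((h.cpd hP s).pd x hx).nonneg v
  have hKf : ∀ s ∈ Icc (0 : ℝ) 2, ∀ r ∈ Icc (0 : ℝ) 2, f s ≤ K * f r := by
    intro s hs r hr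
    calc f s ≤ K₁ * P x v v := h1 s hs x hx v
      _ ≤ K₁ * (K₂ * f r) := mul_le_mul_of_nonneg_left (h2 r hr x hx v) hK₁.le
      _ = K * f r := by rw [hK]; ring
  have hA : avg φ P x v v = ∫ s in (0 : ℝ)..1, f s := h.avg_apply hP hx v v
  have hB : pbf (φ t) (avg φ P) x v v = ∫ s in t..(1 + t), f s := by
    have e1 : pbf (φ t) (avg φ P) x v v = ∫ s in (0 : ℝ)..1, pbf (φ s) P (φ t x)
        (mfderiv I I (φ t) x v) (mfderiv I I (φ t) x v) :=
      h.avg_apply hP ((h.good t).maps hx) _ _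
    rw [e1]
    have e2 : ∀ s, pbf (φ s) P (φ t x) (mfderiv I I (φ t) x v) (mfderiv I I (φ t) x v) =
        f (s + t) := by
      intro s
      rw [hf]
      show _ = pbf (φ (s + t)) P x v v
      rw [h.flow.pb_add]
      rfl
    simp only [e2]
    rw [intervalIntegral.integral_comp_add_right, zero_add]
  have hint : ∀ a b : ℝ, IntervalIntegrable f volume a b := fun a b => hfc.intervalIntegrable a b
  set A := ∫ s in (0 : ℝ)..1, f s with hAdef
  set B := ∫ s in t..(1 + t), f s with hBdef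
  have hsum : (∫ s in (0 : ℝ)..t, f s) + B = A + ∫ s in (1 : ℝ)..(1 + t), f s := by
    rw [intervalIntegral.integral_add_adjacent_intervals (hint _ _) (hint _ _),
      intervalIntegral.integral_add_adjacent_intervals (hint _ _) (hint _ _)]
  have hfA : ∀ s ∈ Icc (0 : ℝ) 2, f s ≤ K * A := by
    intro s hs
    calc f s = ∫ _r in (0 : ℝ)..1, f s := by simp
      _ ≤ ∫ r in (0 : ℝ)..1, K * f r := by
        refine intervalIntegral.integral_mono_on zero_le_one (by simp)
          ((hint 0 1).const_mul K) fun r hr => ?_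
        exact hKf s hs r ⟨hr.1, hr.2.trans one_le_two⟩
      _ = K * A := intervalIntegral.integral_const_mul _ _
  have hfB : ∀ s ∈ Icc (0 : ℝ) 2, f s ≤ K * B := by
    intro s hs
    calc f s = ∫ _r in t..(1 + t), f s := by simp
      _ ≤ ∫ r in t..(1 + t), K * f r := by
        refine intervalIntegral.integral_mono_on (by linarith) (by simp)
          ((hint _ _).const_mul K) fun r hr => ?_
        exact hKf s hs r ⟨ht.trans hr.1, hr.2.trans (by linarith)⟩
      _ = K * B := intervalIntegral.integral_const_mul _ _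
  have i1 : ∫ s in (1 : ℝ)..(1 + t), f s ≤ t * (K * A) := by
    calc ∫ s in (1 : ℝ)..(1 + t), f s ≤ ∫ _s in (1 : ℝ)..(1 + t), K * A := by
          refine intervalIntegral.integral_mono_on (by linarith) (hint _ _) (by simp)
            fun s hs => hfA s ⟨by linarith [hs.1], by linarith [hs.2]⟩
      _ = t * (K * A) := by simp; ring
  have i2 : ∫ s in (0 : ℝ)..t, f s ≤ t * (K * B) := by
    calc ∫ s in (0 : ℝ)..t, f s ≤ ∫ _s in (0 : ℝ)..t, K * B := by
          refine intervalIntegral.integral_mono_on ht (hint _ _) (by simp)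
            fun s hs => hfB s ⟨by linarith [hs.1], by linarith [hs.2]⟩
      _ = t * (K * B) := by simp; ring
  have i3 : 0 ≤ ∫ s in (1 : ℝ)..(1 + t), f s :=
    intervalIntegral.integral_nonneg (by linarith) fun s _ => hf0 s
  have i4 : 0 ≤ ∫ s in (0 : ℝ)..t, f s := intervalIntegral.integral_nonneg ht fun s _ => hf0 s
  have hA0 : 0 ≤ A := intervalIntegral.integral_nonneg zero_le_one fun s _ => hf0 s
  have hB0 : 0 ≤ B := intervalIntegral.integral_nonneg (by linarith) fun s _ => hf0 s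
  have hexp : 1 + K * t ≤ Real.exp (K * t) := by
    have := Real.add_one_le_exp (K * t)
    linarith
  rw [hA, hB]
  constructor
  · calc B ≤ (1 + K * t) * A := by linarith
      _ ≤ _ := mul_le_mul_of_nonneg_right hexp hA0
  · calc A ≤ (1 + K * t) * B := by linarith
      _ ≤ _ := mul_le_mul_of_nonneg_right hexp hB0

/-- The estimates at one time: contraction, domination, volume expansion, with factor `a` (all
estimates are for squares). -/
structure SH (Λ : Set M) (p : ∀ x : M, TangentSpace I x →ₗ[ℝ] TangentSpace I x) (k : ℕ)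
    (P : ∀ x : M, Fm (TangentSpace I x)) (F : M → M) (a : ℝ) : Prop where
  con : ∀ x ∈ Λ, ∀ u, p x u = u → pbf F P x u u ≤ a * P x u u
  dom : ∀ x ∈ Λ, ∀ u w, p x u = u → p x w = 0 →
    pbf F P x u u * P x w w ≤ a * (pbf F P x w w * P x u u)
  vol : ∀ x ∈ Λ, ∀ v : Fin k → TangentSpace I x, (∀ i, p x (v i) = 0) →
    (gram (P x) v).det ≤ a * (gram (pbf F P x) v).det

theorem SH.comp {k : ℕ} {P : ∀ x : M, Fm (TangentSpace I x)} {F G : M → M} {a b : ℝ}
    (hP : CPD Λ P) (gF : Good Λ p F) (gG : Good Λ p G) (ha : 0 ≤ a) (hb : 0 ≤ b)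
    (hF : SH Λ p k P F a) (hG : SH Λ p k P G b) : SH Λ p k P (G ∘ F) (a * b) := by
  have hcomp := fun x => pbf_comp gF.smooth gG.smooth P x
  refine ⟨fun x hx u hu => ?_, fun x hx u w hu hw => ?_, fun x hx v hv => ?_⟩
  · rw [hcomp]
    have h1 := hF.con x hx u hu
    have h2 := hG.con (F x) (gF.maps hx) (mfderiv I I F x u) (by rw [gF.comm x hx, hu])
    calc pbf F (pbf G P) x u u ≤ b * pbf F P x u u := h2
      _ ≤ b * (a * P x u u) := mul_le_mul_of_nonneg_left h1 hb
      _ = _ := by ring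
  · rw [hcomp]
    have h1 := hF.dom x hx u w hu hw
    have h2 := hG.dom (F x) (gF.maps hx) (mfderiv I I F x u) (mfderiv I I F x w)
      (by rw [gF.comm x hx, hu]) (by rw [gF.comm x hx, hw, map_zero])
    have h2' : pbf F (pbf G P) x u u * pbf F P x w w ≤
        b * (pbf F (pbf G P) x w w * pbf F P x u u) := h2
    -- combine
    have q1 := (hP.pd _ (gF.maps hx)).nonneg (mfderiv I I F x u)
    have q1' : 0 ≤ pbf F P x u u := q1
    have q2 := (hP.pd _ (gF.maps hx)).nonneg (mfderiv I I F x w)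
    have q2' : 0 ≤ pbf F P x w w := q2
    have q3 : 0 ≤ pbf F (pbf G P) x w w :=
      (hP.pd _ (gG.maps (gF.maps hx))).nonneg _
    have q3' : 0 ≤ pbf F (pbf G P) x u u :=
      (hP.pd _ (gG.maps (gF.maps hx))).nonneg _
    have q4 := (hP.pd x hx).nonneg w
    by_cases hw0 : w = 0
    · rw [hw0]; simp
    have q5 : 0 < pbf F P x w w :=
      (hP.pd _ (gF.maps hx)).pos _ fun h => hw0 (gF.inj x hx (h.trans (map_zero (mfderiv I I F x)).symm))
    have : pbf F P x w w * (pbf F (pbf G P) x u u * P x w w) ≤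
        pbf F P x w w * (a * b * (pbf F (pbf G P) x w w * P x u u)) := by
      calc pbf F P x w w * (pbf F (pbf G P) x u u * P x w w)
          = (pbf F (pbf G P) x u u * pbf F P x w w) * P x w w := by ring
        _ ≤ (b * (pbf F (pbf G P) x w w * pbf F P x u u)) * P x w w :=
          mul_le_mul_of_nonneg_right h2' q4
        _ = b * pbf F (pbf G P) x w w * (pbf F P x u u * P x w w) := by ring
        _ ≤ b * pbf F (pbf G P) x w w * (a * (pbf F P x w w * P x u u)) :=
          mul_le_mul_of_nonneg_left h1 (by positivity)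
        _ = _ := by ring
    exact le_of_mul_le_mul_left this q5
  · rw [hcomp]
    have h1 := hF.vol x hx v hv
    have h2 := hG.vol (F x) (gF.maps hx) (fun i => mfderiv I I F x (v i))
      (fun i => by rw [gF.comm x hx, hv, map_zero])
    calc (gram (P x) v).det ≤ a * (gram (pbf F P x) v).det := h1
      _ ≤ a * (b * (gram (pbf F (pbf G P) x) v).det) := mul_le_mul_of_nonneg_left h2 ha
      _ = _ := by ring

theorem FlowGood.sh_iter (h : FlowGood φ Λ p) {k : ℕ} {P : ∀ x : M, Fm (TangentSpace I x)}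
    (hP : CPD Λ P) {a s : ℝ} (ha : 0 ≤ a) (hs : SH Λ p k P (φ s) a) (n : ℕ) :
    SH Λ p k P (φ (n * s)) (a ^ n) := by
  induction n with
  | zero =>
    have h0 : ((0 : ℕ) : ℝ) * s = 0 := by simp
    rw [h0, pow_zero]
    refine ⟨fun x hx u hu => ?_, fun x hx u w hu hw => ?_, fun x hx v hv => ?_⟩
    · rw [h.flow.pb_zero, one_mul]
    · rw [h.flow.pb_zero, one_mul, mul_comm]
    · rw [h.flow.pb_zero, one_mul]
  | succ n ih =>
    have e1 : ((n + 1 : ℕ) : ℝ) * s = s + n * s := by push_cast; ring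
    rw [e1, h.flow.add', pow_succ]
    exact SH.comp hP (h.good _) (h.good _) (pow_nonneg ha n) ha ih hs

/-- The halving step for the estimates. -/
theorem SH.half [FiniteDimensional ℝ E] (hp : ∀ x ∈ Λ, ∀ v, p x (p x v) = p x v) {k : ℕ}
    {P : ∀ x : M, Fm (TangentSpace I x)} (hP : CPD Λ P) (oP : ∀ x ∈ Λ, Orth (p x) (P x))
    {F : M → M} (hF : Good Λ p F) {a : ℝ} (ha : 0 < a) (h : SH Λ p k P (F ∘ F) (a ^ 2)) :
    SH Λ p k (fun x => gm (P x) (pbf F P x)) F a := by
  have hQ := hP.pbf hF.smooth hF.maps hF.inj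
  have hR := hQ.pbf hF.smooth hF.maps hF.inj
  have hcomp := fun x => pbf_comp hF.smooth hF.smooth P x
  have hgm : ∀ x ∈ Λ, pbf F (fun x => gm (P x) (pbf F P x)) x =
      gm (pbf F P x) (pbf F (pbf F P) x) := fun x hx =>
    gm_pbf (hP.pd _ (hF.maps hx)) (hQ.pd _ (hF.maps hx)) (hF.inj x hx)
  have oQ := pbf_orth hF oP
  have oR := pbf_orth hF oQ
  refine ⟨fun x hx u hu => ?_, fun x hx u w hu hw => ?_, fun x hx v hv => ?_⟩
  · rw [hgm x hx]
    refine half_upper (hP.pd x hx) (hQ.pd x hx) (hR.pd x hx) (hp x hx) (oP x hx) (oQ x hx) ha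
      (fun v hv => ?_) u hu
    have := h.con x hx v hv
    rwa [hcomp] at this
  · rw [hgm x hx]
    refine half_dom (hP.pd x hx) (hQ.pd x hx) (hR.pd x hx) (hp x hx) (oP x hx) (oQ x hx)
      (oR x hx) ha (fun u w hu hw => ?_) u w hu hw
    have := h.dom x hx u w hu hw
    rwa [hcomp] at this
  · rw [hgm x hx]
    have h1 := half_vol (hP.pd x hx) (hQ.pd x hx) (hR.pd x hx) (hp x hx) (oP x hx)
      (oQ x hx) (oR x hx) (k := k) (c := a⁻¹) (by positivity) (fun v hv => by
        have := h.vol x hx v hv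
        rw [hcomp] at this
        rw [inv_pow, inv_mul_le_iff₀ (by positivity)]
        exact this) v hv
    rwa [inv_mul_le_iff₀ ha] at h1

/-- Halving preserves the Lipschitz bound. -/
theorem FlowGood.lip_half [FiniteDimensional ℝ E] (h : FlowGood φ Λ p)
    {P : ∀ x : M, Fm (TangentSpace I x)} (hP : CPD Λ P) {L : ℝ} (hL : Lip φ Λ P L) (s : ℝ) :
    Lip φ Λ (fun x => gm (P x) (pbf (φ s) P x)) L := by
  intro t ht x hx v
  have hQ := h.cpd hP s
  have hPt := h.cpd hP t
  have hQt := h.cpd hQ t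
  have e1 : pbf (φ t) (fun x => gm (P x) (pbf (φ s) P x)) x =
      gm (pbf (φ t) P x) (pbf (φ t) (pbf (φ s) P) x) :=
    gm_pbf (hP.pd _ ((h.good t).maps hx)) (hQ.pd _ ((h.good t).maps hx)) ((h.good t).inj x hx)
  have e2 : pbf (φ t) (pbf (φ s) P) x = pbf (φ s) (pbf (φ t) P) x := by
    rw [← h.flow.pb_add, ← h.flow.pb_add, add_comm]
  rw [e1]
  have h1 := fun v => (hL t ht x hx v)
  have h2 : ∀ v, pbf (φ t) (pbf (φ s) P) x v v ≤ Real.exp (L * t) * pbf (φ s) P x v v ∧
      pbf (φ s) P x v v ≤ Real.exp (L * t) * pbf (φ t) (pbf (φ s) P) x v v := by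
    intro v
    rw [e2]
    exact hL t ht (φ s x) ((h.good s).maps hx) (mfderiv I I (φ s) x v)
  constructor
  · exact gm_scale (hPt.pd x hx) (hQt.pd x hx) (hP.pd x hx) (hQ.pd x hx)
      (fun v => (h1 v).1) (fun v => (h2 v).1) v
  · exact gm_scale (hP.pd x hx) (hQ.pd x hx) (hPt.pd x hx) (hQt.pd x hx)
      (fun v => (h1 v).2) (fun v => (h2 v).2) v

end Pool.Agent.V11106
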