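import Mathlib
import Pool.Agent.V11106.GM9

set_option autoImplicit false

open scoped Topology Manifold ContDiff Bundle Interval Uniformity
open Set Filter Module Bundle MeasureTheory

noncomputable section

namespace Pool.Agent.V11106

/-- Limits of forms. -/
theorem exists_lim_form {W : Type*} [AddCommGroup W] [Module ℝ W] (S : ℕ → Fm W)
    (h : ∀ v w, ∃ r, Tendsto (fun m => S m v w) atTop (𝓝 r)) :
    ∃ Q : Fm W, ∀ v w, Tendsto (fun m => S m v w) atTop (𝓝 (Q v w)) := by
  choose r hr using h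
  refine ⟨LinearMap.mk₂ ℝ r (fun v v' w => ?_) (fun c v w => ?_) (fun v w w' => ?_)
    (fun c v w => ?_), hr⟩
  · refine tendsto_nhds_unique (hr _ _) (((hr v w).add (hr v' w)).congr fun m => ?_)
    simp
  · refine tendsto_nhds_unique (hr _ _) (((hr v w).const_mul c).congr fun m => ?_)
    simp
  · refine tendsto_nhds_unique (hr _ _) (((hr v w).add (hr v w')).congr fun m => ?_)
    simp
  · refine tendsto_nhds_unique (hr _ _) (((hr v w).const_mul c).congr fun m => ?_)
    simp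

theorem gram_tendsto {W : Type*} [AddCommGroup W] [Module ℝ W] {ι : Type*} {l : Filter ι}
    {S : ι → Fm W} {Q : Fm W} (h : ∀ v w, Tendsto (fun i => S i v w) l (𝓝 (Q v w))) {k : ℕ}
    (v : Fin k → W) : Tendsto (fun i => (gram (S i) v).det) l (𝓝 (gram Q v).det) := by
  have h1 : Tendsto (fun i => gram (S i) v) l (𝓝 (gram Q v)) :=
    tendsto_pi_nhds.2 fun a => tendsto_pi_nhds.2 fun b => h (v a) (v b)
  exact ((continuous_id.matrix_det).tendsto (gram Q v)).comp h1

variable {E : Type*} [NormedAddCommGroup E] [NormedSpace ℝ E]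
  {H : Type*} [TopologicalSpace H] {I : ModelWithCorners ℝ E H}
  {M : Type*} [TopologicalSpace M] [ChartedSpace H M] {φ : ℝ → M → M} {Λ : Set M}
  {p : ∀ x : M, TangentSpace I x →ₗ[ℝ] TangentSpace I x}

theorem SH.of_tendsto {k : ℕ} {ι : Type*} {l : Filter ι} [l.NeBot]
    {S : ι → ∀ x : M, Fm (TangentSpace I x)} {F : ι → M → M} {a : ι → ℝ}
    {Q : ∀ x : M, Fm (TangentSpace I x)} {G : M → M} {b : ℝ}
    (h : ∀ᶠ i in l, SH Λ p k (S i) (F i) (a i))
    (h1 : ∀ x ∈ Λ, ∀ v w, Tendsto (fun i => S i x v w) l (𝓝 (Q x v w)))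
    (h2 : ∀ x ∈ Λ, ∀ v w, Tendsto (fun i => pbf (F i) (S i) x v w) l (𝓝 (pbf G Q x v w)))
    (h3 : Tendsto a l (𝓝 b)) : SH Λ p k Q G b := by
  refine ⟨fun x hx u hu => ?_, fun x hx u w hu hw => ?_, fun x hx v hv => ?_⟩
  · exact le_of_tendsto_of_tendsto (h2 x hx u u) (h3.mul (h1 x hx u u))
      (h.mono fun i hi => hi.con x hx u hu)
  · exact le_of_tendsto_of_tendsto ((h2 x hx u u).mul (h1 x hx w w))
      (h3.mul ((h2 x hx w w).mul (h1 x hx u u))) (h.mono fun i hi => hi.dom x hx u w hu hw)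
  · exact le_of_tendsto_of_tendsto (gram_tendsto (h1 x hx) v)
      (h3.mul (gram_tendsto (h2 x hx) v)) (h.mono fun i hi => hi.vol x hx v hv)

variable [IsManifold I 1 M] [FiniteDimensional ℝ E]

/-- The sequence of fields. -/
def hseq (φ : ℝ → M → M) (P : ∀ x : M, Fm (TangentSpace I x)) (N : ℝ) :
    ℕ → ∀ x : M, Fm (TangentSpace I x)
  | 0 => P
  | m + 1 => fun x => gm (hseq φ P N m x) (pbf (φ (N / 2 ^ (m + 1))) (hseq φ P N m) x)

theorem FlowGood.hseq_inv (h : FlowGood φ Λ p) {k : ℕ} {P : ∀ x : M, Fm (TangentSpace I x)}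
    (hP : CPD Λ P) (oP : ∀ x ∈ Λ, Orth (p x) (P x)) {L N l : ℝ} (hL : Lip φ Λ P L)
    (hS : SH Λ p k P (φ N) (Real.exp (-(l * N)))) (m : ℕ) :
    CPD Λ (hseq φ P N m) ∧ (∀ x ∈ Λ, Orth (p x) (hseq φ P N m x)) ∧
      Lip φ Λ (hseq φ P N m) L ∧
      SH Λ p k (hseq φ P N m) (φ (N / 2 ^ m)) (Real.exp (-(l * (N / 2 ^ m)))) := by
  induction m with
  | zero =>
    refine ⟨hP, oP, hL, ?_⟩
    have : N / 2 ^ 0 = N := by simp
    rw [this]
    exact hS
  | succ m ih =>
    obtain ⟨h1, h2, h3, h4⟩ := ih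
    set s := N / 2 ^ (m + 1) with hs
    have hss : N / 2 ^ m = s + s := by
      rw [hs, pow_succ]; ring
    have hQ := h.cpd h1 s
    refine ⟨h1.gm hQ, fun x hx => (h2 x hx).gm (h.proj x hx) (h1.pd x hx) (hQ.pd x hx)
      (pbf_orth (h.good s) h2 x hx), h.lip_half h1 h3 s, ?_⟩
    refine SH.half h.proj h1 h2 (h.good s) (Real.exp_pos _) ?_
    rw [← h.flow.add', ← hss]
    have : Real.exp (-(l * s)) ^ 2 = Real.exp (-(l * (N / 2 ^ m))) := by
      rw [← Real.exp_nat_mul, hss]
      congr 1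
      push_cast
      ring
    rw [this]
    exact h4

theorem FlowGood.hseq_close (h : FlowGood φ Λ p) {k : ℕ} {P : ∀ x : M, Fm (TangentSpace I x)}
    (hP : CPD Λ P) (oP : ∀ x ∈ Λ, Orth (p x) (P x)) {L N l : ℝ} (hL : Lip φ Λ P L) (hN : 0 ≤ N)
    (hS : SH Λ p k P (φ N) (Real.exp (-(l * N)))) {m n : ℕ} (hmn : m ≤ n) :
    ∀ x ∈ Λ, ∀ v, hseq φ P N n x v v ≤
        Real.exp (L * N / 2 ^ (m + 1) - L * N / 2 ^ (n + 1)) * hseq φ P N m x v v ∧
      hseq φ P N m x v v ≤
        Real.exp (L * N / 2 ^ (m + 1) - L * N / 2 ^ (n + 1)) * hseq φ P N n x v v := by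
  induction n, hmn using Nat.le_induction with
  | base =>
    intro x hx v
    simp
  | succ n hmn ih =>
    intro x hx v
    obtain ⟨h1, h2, h3, h4⟩ := h.hseq_inv hP oP hL hS n
    obtain ⟨h5, h6⟩ := ih x hx v
    set s := N / 2 ^ (n + 1) with hs
    have hs0 : 0 ≤ s := by positivity
    have hQ := h.cpd h1 s
    obtain ⟨h7, h8⟩ := gm_close (h1.pd x hx) (hQ.pd x hx) (d := L * s / 2)
      (fun v => by
        have := (h3 s hs0 x hx v).1
        rwa [show L * s = 2 * (L * s / 2) by ring] at this)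
      (fun v => by
        have := (h3 s hs0 x hx v).2
        rwa [show L * s = 2 * (L * s / 2) by ring] at this) v
    have h7' : hseq φ P N (n + 1) x v v ≤ Real.exp (L * s / 2) * hseq φ P N n x v v := h7
    have h8' : hseq φ P N n x v v ≤ Real.exp (L * s / 2) * hseq φ P N (n + 1) x v v := h8
    have e1 : L * N / 2 ^ (m + 1) - L * N / 2 ^ (n + 1 + 1) =
        L * s / 2 + (L * N / 2 ^ (m + 1) - L * N / 2 ^ (n + 1)) := by
      rw [hs, pow_succ (2 : ℝ) (n + 1)]
      ring
    rw [e1, Real.exp_add]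
    constructor
    · calc _ ≤ _ := h7'
        _ ≤ Real.exp (L * s / 2) * (Real.exp (L * N / 2 ^ (m + 1) - L * N / 2 ^ (n + 1)) *
            hseq φ P N m x v v) := mul_le_mul_of_nonneg_left h5 (Real.exp_pos _).le
        _ = _ := by ring
    · calc _ ≤ _ := h6
        _ ≤ Real.exp (L * N / 2 ^ (m + 1) - L * N / 2 ^ (n + 1)) * (Real.exp (L * s / 2) *
            hseq φ P N (n + 1) x v v) := mul_le_mul_of_nonneg_left h8' (Real.exp_pos _).le
        _ = _ := by ring

/-- The limit field. -/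
theorem FlowGood.exists_limit (h : FlowGood φ Λ p) {k : ℕ}
    {P : ∀ x : M, Fm (TangentSpace I x)}
    (hP : CPD Λ P) (oP : ∀ x ∈ Λ, Orth (p x) (P x)) {L N l : ℝ} (hL : Lip φ Λ P L) (hL0 : 0 ≤ L)
    (hN : 0 < N) (hS : SH Λ p k P (φ N) (Real.exp (-(l * N)))) :
    ∃ Q : ∀ x : M, Fm (TangentSpace I x), CPD Λ Q ∧
      ∀ t : ℝ, 0 ≤ t → SH Λ p k Q (φ t) (Real.exp (-(l * t))) := by
  set D : ℕ → ℝ := fun m => L * N / 2 ^ (m + 1) with hD
  have hD0 : ∀ m, 0 ≤ D m := fun m => by positivity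
  have hDt : Tendsto D atTop (𝓝 0) := by
    have h1 : Tendsto (fun m : ℕ => L * N * ((1 / 2 : ℝ) ^ (m + 1))) atTop (𝓝 (L * N * 0)) :=
      ((tendsto_pow_atTop_nhds_zero_of_lt_one (by norm_num) (by norm_num)).comp
        (tendsto_add_atTop_nat 1)).const_mul _
    rw [mul_zero] at h1
    refine h1.congr fun m => ?_
    rw [hD]
    simp only [one_div, inv_pow]
    rfl
  have hinv := h.hseq_inv hP oP hL hS
  have hclose : ∀ m n : ℕ, m ≤ n → ∀ x ∈ Λ, ∀ v,
      hseq φ P N n x v v ≤ Real.exp (D m) * hseq φ P N m x v v ∧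
      hseq φ P N m x v v ≤ Real.exp (D m) * hseq φ P N n x v v := by
    intro m n hmn x hx v
    have h1 := h.hseq_close hP oP hL hN.le hS hmn x hx v
    have h2 : Real.exp (L * N / 2 ^ (m + 1) - L * N / 2 ^ (n + 1)) ≤ Real.exp (D m) := by
      refine Real.exp_le_exp.2 ?_
      have := hD0 n
      rw [hD] at this ⊢
      simp only at this ⊢
      linarith
    have h3 := ((hinv m).1.pd x hx).nonneg v
    have h4 := ((hinv n).1.pd x hx).nonneg v
    exact ⟨h1.1.trans (mul_le_mul_of_nonneg_right h2 h3),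
      h1.2.trans (mul_le_mul_of_nonneg_right h2 h4)⟩
  -- absolute difference bound
  have habs : ∀ m n : ℕ, m ≤ n → ∀ x ∈ Λ, ∀ v,
      |hseq φ P N n x v v - hseq φ P N m x v v| ≤
        (Real.exp (D m) - 1) * (Real.exp (D 0) * P x v v) := by
    intro m n hmn x hx v
    obtain ⟨h1, h2⟩ := hclose m n hmn x hx v
    have h3 := (hclose 0 m (Nat.zero_le _) x hx v).1
    have h4 := (hclose 0 n (Nat.zero_le _) x hx v).1
    have h3' : hseq φ P N m x v v ≤ Real.exp (D 0) * P x v v := h3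
    have h4' : hseq φ P N n x v v ≤ Real.exp (D 0) * P x v v := h4
    have h5 : 0 ≤ Real.exp (D m) - 1 := by
      have := Real.one_le_exp (hD0 m)
      linarith
    have h6 := mul_le_mul_of_nonneg_left h3' h5
    have h7 := mul_le_mul_of_nonneg_left h4' h5
    rw [abs_le]
    constructor <;> linarith
  have hconv : ∀ x ∈ Λ, ∀ v, ∃ r, Tendsto (fun m => hseq φ P N m x v v) atTop (𝓝 r) := by
    intro x hx v
    refine cauchySeq_tendsto_of_complete ?_
    refine cauchySeq_of_le_tendsto_0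
      (fun m => 2 * ((Real.exp (D m) - 1) * (Real.exp (D 0) * P x v v))) (fun n m N' hn hm => ?_) ?_
    · have h1 := habs N' n hn x hx v
      have h2 := habs N' m hm x hx v
      rw [Real.dist_eq]
      rw [abs_le] at h1 h2 ⊢
      constructor <;> linarith [h1.1, h1.2, h2.1, h2.2]
    · have h1 : Tendsto (fun m => Real.exp (D m)) atTop (𝓝 (Real.exp 0)) :=
        (Real.continuous_exp.tendsto 0).comp hDt
      have h2 := ((h1.sub_const 1).mul_const (Real.exp (D 0) * P x v v)).const_mul 2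
      simpa using h2
  have hforms : ∀ x : M, ∃ Q : Fm (TangentSpace I x), x ∈ Λ →
      ∀ v w, Tendsto (fun m => hseq φ P N m x v w) atTop (𝓝 (Q v w)) := by
    intro x
    by_cases hx : x ∈ Λ
    · obtain ⟨Q, hQ⟩ := exists_lim_form (fun m => hseq φ P N m x) (fun v w => by
        obtain ⟨r1, h1⟩ := hconv x hx (v + w)
        obtain ⟨r2, h2⟩ := hconv x hx v
        obtain ⟨r3, h3⟩ := hconv x hx w
        refine ⟨(r1 - r2 - r3) / 2, (((h1.sub h2).sub h3).div_const 2).congr fun m => ?_⟩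
        exact (((hinv m).1.pd x hx).polar v w).symm)
      exact ⟨Q, fun _ => hQ⟩
    · exact ⟨0, fun h => absurd h hx⟩
  choose Q hQ using hforms
  have hQc : ∀ m, ∀ x ∈ Λ, ∀ v, hseq φ P N m x v v ≤ Real.exp (D m) * Q x v v := by
    intro m x hx v
    refine ge_of_tendsto ((hQ x hx v v).const_mul (Real.exp (D m))) ?_
    filter_upwards [eventually_ge_atTop m] with n hn
    exact (hclose m n hn x hx v).2
  have hQabs : ∀ m, ∀ x ∈ Λ, ∀ v, |Q x v v - hseq φ P N m x v v| ≤
      (Real.exp (D m) - 1) * (Real.exp (D 0) * P x v v) := by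
    intro m x hx v
    refine le_of_tendsto ((hQ x hx v v).sub_const _).abs ?_
    filter_upwards [eventually_ge_atTop m] with n hn
    exact habs m n hn x hx v
  have hQcpd : CPD Λ Q := by
    refine ⟨fun x hx => ⟨fun v w => ?_, fun v hv => ?_⟩, ?_⟩
    · exact tendsto_nhds_unique (hQ x hx v w) ((hQ x hx w v).congr fun m =>
        ((hinv m).1.pd x hx).symm w v)
    · have h1 := hQc 0 x hx v
      have h2 : 0 < P x v v := (hP.pd x hx).pos v hv
      have h3 : P x v v ≤ Real.exp (D 0) * Q x v v := h1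
      by_contra hc
      push Not at hc
      have := mul_nonpos_of_nonneg_of_nonpos (Real.exp_pos (D 0)).le hc
      linarith
    · refine continuousOn_of_locally_uniform_approx_of_continuousWithinAt fun z hz u hu => ?_
      obtain ⟨ε, hε, hεu⟩ := Metric.mem_uniformity_dist.1 hu
      set B := P z.1 z.2 z.2 + 1 with hB
      have hB0 : 0 < B := by
        have := (hP.pd z.1 hz).nonneg z.2
        linarith
      obtain ⟨m, hm⟩ : ∃ m, (Real.exp (D m) - 1) * (Real.exp (D 0) * B) < ε := by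
        have h1 : Tendsto (fun m => Real.exp (D m)) atTop (𝓝 (Real.exp 0)) :=
          (Real.continuous_exp.tendsto 0).comp hDt
        have h2 := (h1.sub_const 1).mul_const (Real.exp (D 0) * B)
        simp only [Real.exp_zero, sub_self, zero_mul] at h2
        exact (h2.eventually (gt_mem_nhds hε)).exists
      have h1 : ∀ᶠ y in 𝓝[TotalSpace.proj ⁻¹' Λ] z, P y.1 y.2 y.2 < B :=
        (hP.cont z hz).eventually (gt_mem_nhds (by rw [hB]; linarith))
      refine ⟨_, inter_mem h1 self_mem_nhdsWithin,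
        fun z => hseq φ P N m z.1 z.2 z.2, (hinv m).1.cont z hz, ?_⟩
      rintro y ⟨hy1, hy2⟩
      refine hεu ?_
      rw [Real.dist_eq]
      refine (hQabs m y.1 hy2 y.2).trans_lt (lt_of_le_of_lt ?_ hm)
      refine mul_le_mul_of_nonneg_left ?_ (by
        have := Real.one_le_exp (hD0 m)
        linarith)
      exact mul_le_mul_of_nonneg_left (le_of_lt hy1) (Real.exp_pos _).le
  refine ⟨Q, hQcpd, ?_⟩
  -- dyadic times
  have hdy : ∀ m, SH Λ p k Q (φ (N / 2 ^ m)) (Real.exp (-(l * (N / 2 ^ m)))) := by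
    intro m
    refine SH.of_tendsto (l := atTop) (S := fun n => hseq φ P N n)
      (F := fun _ => φ (N / 2 ^ m)) (a := fun _ => Real.exp (-(l * (N / 2 ^ m)))) ?_
      (fun x hx v w => hQ x hx v w)
      (fun x hx v w => hQ _ ((h.good _).maps hx) _ _) tendsto_const_nhds
    filter_upwards [eventually_ge_atTop m] with n hn
    have h1 := h.sh_iter (hinv n).1 (Real.exp_pos _).le (hinv n).2.2.2 (2 ^ (n - m))
    have e1 : ((2 ^ (n - m) : ℕ) : ℝ) * (N / 2 ^ n) = N / 2 ^ m := by
      have : (2 : ℝ) ^ n = 2 ^ (n - m) * 2 ^ m := by rw [← pow_add, Nat.sub_add_cancel hn]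
      rw [this]
      push_cast
      field_simp
    have e2 : Real.exp (-(l * (N / 2 ^ n))) ^ (2 ^ (n - m)) = Real.exp (-(l * (N / 2 ^ m))) := by
      rw [← Real.exp_nat_mul, ← e1]
      ring_nf
    rw [e1, e2] at h1
    exact h1
  intro t ht
  set σ : ℕ → ℝ := fun m => N / 2 ^ m with hσ
  have hσ0 : ∀ m, 0 < σ m := fun m => by positivity
  have hσt : Tendsto σ atTop (𝓝 0) := by
    have h1 : Tendsto (fun m : ℕ => N * ((1 / 2 : ℝ) ^ m)) atTop (𝓝 (N * 0)) :=
      (tendsto_pow_atTop_nhds_zero_of_lt_one (by norm_num) (by norm_num)).const_mul _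
    rw [mul_zero] at h1
    refine h1.congr fun m => ?_
    rw [hσ]
    simp only [one_div, inv_pow]
    rfl
  set s : ℕ → ℝ := fun m => (⌊t / σ m⌋₊ : ℝ) * σ m with hs
  have hst : Tendsto s atTop (𝓝 t) := by
    have h1 : ∀ m, t - σ m ≤ s m := by
      intro m
      have := Nat.lt_floor_add_one (t / σ m)
      rw [div_lt_iff₀ (hσ0 m)] at this
      simp only [hs]
      linarith
    have h2 : ∀ m, s m ≤ t := by
      intro m
      have := Nat.floor_le (div_nonneg ht (hσ0 m).le)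
      rw [le_div_iff₀ (hσ0 m)] at this
      exact this
    have h3 : Tendsto (fun m => t - σ m) atTop (𝓝 (t - 0)) := tendsto_const_nhds.sub hσt
    rw [sub_zero] at h3
    exact tendsto_of_tendsto_of_tendsto_of_le_of_le h3 tendsto_const_nhds h1 h2
  refine SH.of_tendsto (l := atTop) (S := fun _ => Q) (F := fun m => φ (s m))
    (a := fun m => Real.exp (-(l * s m))) (Eventually.of_forall fun m => ?_)
    (fun x hx v w => tendsto_const_nhds) (fun x hx v w => ?_) ?_
  · have h1 := h.sh_iter hQcpd (Real.exp_pos _).le (hdy m) ⌊t / σ m⌋₊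
    have e2 : Real.exp (-(l * (N / 2 ^ m))) ^ ⌊t / σ m⌋₊ = Real.exp (-(l * s m)) := by
      rw [← Real.exp_nat_mul]
      simp only [hs, hσ]
      ring_nf
    rw [e2] at h1
    exact h1
  · exact ((h.tcont hQcpd hx v w).tendsto t).comp hst
  · exact (Real.continuous_exp.tendsto _).comp (((hst.const_mul l)).neg)

end Pool.Agent.V11106
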