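import Mathlib
import Pool.Agent.V11106.GM10

set_option autoImplicit false

open scoped Topology Manifold ContDiff Bundle Interval Uniformity
open Set Filter Module Bundle MeasureTheory

noncomputable section

namespace Pool.Agent.V11106

variable {E : Type*} [NormedAddCommGroup E] [NormedSpace ℝ E]
  {H : Type*} [TopologicalSpace H] {I : ModelWithCorners ℝ E H}
  {M : Type*} [TopologicalSpace M] [ChartedSpace H M]

/-- The norm of a tangent vector for the inner product `g`. -/
def nrm {x : M} (g : TangentSpace I x →L[ℝ] TangentSpace I x →L[ℝ] ℝ) (v : TangentSpace I x) : ℝ :=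
  √(g v v)

/-- The estimates of a sectional-hyperbolic set of the flow `φ`, for the metric `g`, with constants
`C`, `l`: domination, contraction of the first subbundle `{p x u = u}`, expansion of the
`k`-volumes in the second subbundle `{p x w = 0}`. -/
def SecHyp (φ : ℝ → M → M) (Λ : Set M) (p : ∀ x : M, TangentSpace I x →ₗ[ℝ] TangentSpace I x)
    (k : ℕ) (g : ∀ x : M, TangentSpace I x →L[ℝ] TangentSpace I x →L[ℝ] ℝ) (C l : ℝ) : Prop :=
  ∀ t : ℝ, 0 < t → ∀ x ∈ Λ,
    (∀ u w, p x u = u → p x w = 0 →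
      nrm (g (φ t x)) (mfderiv I I (φ t) x u) * nrm (g x) w ≤
        C * Real.exp (-(l * t)) * (nrm (g x) u * nrm (g (φ t x)) (mfderiv I I (φ t) x w))) ∧
    (∀ u, p x u = u →
      nrm (g (φ t x)) (mfderiv I I (φ t) x u) ≤ C * Real.exp (-(l * t)) * nrm (g x) u) ∧
    ∀ v : Fin k → TangentSpace I x, (∀ i, p x (v i) = 0) →
      C⁻¹ * Real.exp (l * t) * wedgeNorm (g x) v ≤
        wedgeNorm (g (φ t x)) fun i => mfderiv I I (φ t) x (v i)

theorem nrm_sq {x : M} {g : TangentSpace I x →L[ℝ] TangentSpace I x →L[ℝ] ℝ}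
    {v : TangentSpace I x} (h : 0 ≤ toFm g v v) : nrm g v ^ 2 = toFm g v v := Real.sq_sqrt h

theorem nrm_nonneg {x : M} (g : TangentSpace I x →L[ℝ] TangentSpace I x →L[ℝ] ℝ)
    (v : TangentSpace I x) : 0 ≤ nrm g v := Real.sqrt_nonneg _

theorem metric_cpd [IsManifold I ∞ M]
    (g : ContinuousRiemannianMetric E (fun x : M => TangentSpace I x)) (Λ : Set M) :
    CPD Λ (fun x => toFm (g.inner x)) := by
  have h1 := ini_cpd g (Λ := Λ) (p := fun _ => LinearMap.id) continuousOn_id
  have h2 : ini g.inner (fun _ => LinearMap.id) = fun x => toFm (g.inner x) := by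
    funext x
    ext v w
    rw [ini_apply]
    simp [toFm_apply]
  rwa [h2] at h1

theorem compare_one [IsManifold I 1 M] [FiniteDimensional ℝ E] [T2Space M] {Λ : Set M}
    {P Q : ∀ x : M, Fm (TangentSpace I x)} (hP : CPD Λ P) (hQ : CPD Λ Q) (hΛ : IsCompact Λ) :
    ∃ K : ℝ, 0 < K ∧ ∀ x ∈ Λ, ∀ v, Q x v v ≤ K * P x v v := by
  obtain ⟨K, hK, h⟩ := hP.compare hΛ (X := Unit) (S := univ) isCompact_univ (Q := fun _ => Q)
    (hQ.cont.comp continuous_snd.continuousOn fun w hw => hw.2)
  exact ⟨K, hK, fun x hx v => h () (mem_univ _) x hx v⟩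

/-- Adapted metrics for sectional-hyperbolic sets of flows. -/
theorem flow_adapted [IsManifold I ∞ M] [FiniteDimensional ℝ E] [T2Space M] [SigmaCompactSpace M]
    {φ : ℝ → M → M} {Λ : Set M} (hΛ : IsCompact Λ)
    {p : ∀ x : M, TangentSpace I x →ₗ[ℝ] TangentSpace I x} (h : FlowGood φ Λ p)
    (hpc : ContinuousOn (fun z : TangentBundle I M => (⟨z.1, p z.1 z.2⟩ : TangentBundle I M))
      (TotalSpace.proj ⁻¹' Λ))
    (g : ContinuousRiemannianMetric E (fun x : M => TangentSpace I x)) {k : ℕ} {C l : ℝ}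
    (hC : 0 < C) (hl : 0 < l) (hg : SecHyp φ Λ p k g.inner C l) :
    ∃ g' : ContinuousRiemannianMetric E (fun x : M => TangentSpace I x), ∃ l' > 0,
      SecHyp φ Λ p k g'.inner 1 l' := by
  have hP0 := ini_cpd g hpc
  have oP0 : ∀ x ∈ Λ, Orth (p x) (ini g.inner p x) := fun x _ => ini_orth g.inner x
  have hP := h.avg_cpd hP0
  have oP := h.avg_orth hP0 oP0
  obtain ⟨L, hL, hLip⟩ := h.avg_lip hP0 hΛ
  set P := avg φ (ini g.inner p) with hPdef
  have hG := metric_cpd g Λ
  obtain ⟨K₁, hK₁, h1⟩ := compare_one hG hP hΛ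
  obtain ⟨K₂, hK₂, h2⟩ := compare_one hP hG hΛ
  set K := max 1 (max K₁ K₂) with hKdef
  have hK1 : 1 ≤ K := le_max_left _ _
  have hK0 : 0 < K := by linarith
  have hPG : ∀ x ∈ Λ, ∀ v, P x v v ≤ K * toFm (g.inner x) v v := fun x hx v =>
    (h1 x hx v).trans (mul_le_mul_of_nonneg_right ((le_max_left _ _).trans (le_max_right _ _))
      ((hG.pd x hx).nonneg v))
  have hGP : ∀ x ∈ Λ, ∀ v, toFm (g.inner x) v v ≤ K * P x v v := fun x hx v =>
    (h2 x hx v).trans (mul_le_mul_of_nonneg_right ((le_max_right _ _).trans (le_max_right _ _))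
      ((hP.pd x hx).nonneg v))
  obtain ⟨N, hN, hNK⟩ : ∃ N : ℝ, 0 < N ∧ K ^ (2 * k + 4) * C ^ 2 ≤ Real.exp (l * N) := by
    have h1 : Tendsto (fun N : ℝ => Real.exp (l * N)) atTop atTop :=
      Real.tendsto_exp_atTop.comp (Tendsto.const_mul_atTop hl tendsto_id)
    obtain ⟨N, hN1, hN2⟩ := ((h1.eventually (eventually_ge_atTop (K ^ (2 * k + 4) * C ^ 2))).and
      (eventually_gt_atTop 0)).exists
    exact ⟨N, hN2, hN1⟩
  have hgood := h.good N
  -- bound of the constants
  have hcst : ∀ j : ℕ, j ≤ 2 * k + 4 →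
      K ^ j * C ^ 2 * Real.exp (-(l * N)) ^ 2 ≤ Real.exp (-(l * N)) := by
    intro j hj
    have e1 : K ^ j ≤ K ^ (2 * k + 4) := pow_le_pow_right₀ hK1 hj
    have e2 : K ^ j * C ^ 2 ≤ Real.exp (l * N) :=
      (mul_le_mul_of_nonneg_right e1 (sq_nonneg C)).trans hNK
    calc K ^ j * C ^ 2 * Real.exp (-(l * N)) ^ 2
        ≤ Real.exp (l * N) * Real.exp (-(l * N)) ^ 2 :=
          mul_le_mul_of_nonneg_right e2 (sq_nonneg _)
      _ = Real.exp (-(l * N)) := by
        rw [pow_two, ← mul_assoc, ← Real.exp_add]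
        simp
  have hSH : SH Λ p k P (φ N) (Real.exp (-(l * N))) := by
    refine ⟨fun x hx u hu => ?_, fun x hx u w hu hw => ?_, fun x hx v hv => ?_⟩
    · have e1 := (hg N hN x hx).2.1 u hu
      have e2 : toFm (g.inner (φ N x)) (mfderiv I I (φ N) x u) (mfderiv I I (φ N) x u) ≤
          C ^ 2 * Real.exp (-(l * N)) ^ 2 * toFm (g.inner x) u u := by
        have e3 := pow_le_pow_left₀ (nrm_nonneg _ _) e1 2
        rw [mul_pow, mul_pow, nrm_sq ((hG.pd _ (hgood.maps hx)).nonneg _),
          nrm_sq ((hG.pd x hx).nonneg u)] at e3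
        exact e3
      have e4 := hPG _ (hgood.maps hx) (mfderiv I I (φ N) x u)
      have e5 := hGP x hx u
      have e6 : 0 ≤ P x u u := (hP.pd x hx).nonneg u
      calc pbf (φ N) P x u u
          ≤ K * toFm (g.inner (φ N x)) (mfderiv I I (φ N) x u) (mfderiv I I (φ N) x u) := e4
        _ ≤ K * (C ^ 2 * Real.exp (-(l * N)) ^ 2 * toFm (g.inner x) u u) :=
          mul_le_mul_of_nonneg_left e2 hK0.le
        _ ≤ K * (C ^ 2 * Real.exp (-(l * N)) ^ 2 * (K * P x u u)) :=
          mul_le_mul_of_nonneg_left (mul_le_mul_of_nonneg_left e5 (by positivity)) hK0.le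
        _ = (K ^ 2 * C ^ 2 * Real.exp (-(l * N)) ^ 2) * P x u u := by ring
        _ ≤ _ := mul_le_mul_of_nonneg_right (hcst 2 (by omega)) e6
    · have e1 := (hg N hN x hx).1 u w hu hw
      have q1 := (hG.pd _ (hgood.maps hx)).nonneg (mfderiv I I (φ N) x u)
      have q2 := (hG.pd _ (hgood.maps hx)).nonneg (mfderiv I I (φ N) x w)
      have q3 := (hG.pd x hx).nonneg u
      have q4 := (hG.pd x hx).nonneg w
      have e2 : toFm (g.inner (φ N x)) (mfderiv I I (φ N) x u) (mfderiv I I (φ N) x u) *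
          toFm (g.inner x) w w ≤
          C ^ 2 * Real.exp (-(l * N)) ^ 2 * (toFm (g.inner x) u u *
            toFm (g.inner (φ N x)) (mfderiv I I (φ N) x w) (mfderiv I I (φ N) x w)) := by
        have e3 := pow_le_pow_left₀ (mul_nonneg (nrm_nonneg _ _) (nrm_nonneg _ _)) e1 2
        rw [mul_pow, mul_pow, mul_pow, mul_pow, nrm_sq q1, nrm_sq q2, nrm_sq q3,
          nrm_sq q4] at e3
        exact e3
      have p1 := hPG _ (hgood.maps hx) (mfderiv I I (φ N) x u)
      have p2 := hPG x hx w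
      have p3 := hGP x hx u
      have p4 := hGP _ (hgood.maps hx) (mfderiv I I (φ N) x w)
      have n1 : 0 ≤ P x u u := (hP.pd x hx).nonneg u
      have n2 : 0 ≤ P x w w := (hP.pd x hx).nonneg w
      have n3 : 0 ≤ P (φ N x) (mfderiv I I (φ N) x w) (mfderiv I I (φ N) x w) :=
        (hP.pd _ (hgood.maps hx)).nonneg _
      have n4 : 0 ≤ P (φ N x) (mfderiv I I (φ N) x u) (mfderiv I I (φ N) x u) :=
        (hP.pd _ (hgood.maps hx)).nonneg _
      show P (φ N x) (mfderiv I I (φ N) x u) (mfderiv I I (φ N) x u) * P x w w ≤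
        Real.exp (-(l * N)) *
          (P (φ N x) (mfderiv I I (φ N) x w) (mfderiv I I (φ N) x w) * P x u u)
      calc P (φ N x) (mfderiv I I (φ N) x u) (mfderiv I I (φ N) x u) * P x w w
          ≤ (K * toFm (g.inner (φ N x)) (mfderiv I I (φ N) x u) (mfderiv I I (φ N) x u)) *
            (K * toFm (g.inner x) w w) := mul_le_mul p1 p2 n2 (by positivity)
        _ = K ^ 2 * (toFm (g.inner (φ N x)) (mfderiv I I (φ N) x u) (mfderiv I I (φ N) x u) *
            toFm (g.inner x) w w) := by ring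
        _ ≤ K ^ 2 * (C ^ 2 * Real.exp (-(l * N)) ^ 2 * (toFm (g.inner x) u u *
            toFm (g.inner (φ N x)) (mfderiv I I (φ N) x w) (mfderiv I I (φ N) x w))) :=
          mul_le_mul_of_nonneg_left e2 (by positivity)
        _ ≤ K ^ 2 * (C ^ 2 * Real.exp (-(l * N)) ^ 2 * ((K * P x u u) *
            (K * P (φ N x) (mfderiv I I (φ N) x w) (mfderiv I I (φ N) x w)))) := by
          refine mul_le_mul_of_nonneg_left (mul_le_mul_of_nonneg_left ?_ (by positivity))
            (by positivity)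
          exact mul_le_mul p3 p4 q2 (by positivity)
        _ = (K ^ 4 * C ^ 2 * Real.exp (-(l * N)) ^ 2) *
            (P (φ N x) (mfderiv I I (φ N) x w) (mfderiv I I (φ N) x w) * P x u u) := by ring
        _ ≤ _ := mul_le_mul_of_nonneg_right (hcst 4 (by omega)) (by positivity)
    · have e1 := (hg N hN x hx).2.2 v hv
      rw [wedge_gram, wedge_gram] at e1
      have q1 : 0 ≤ (gram (toFm (g.inner x)) v).det := gram_nonneg (hG.pd x hx) v
      have q2 : 0 ≤ (gram (toFm (g.inner (φ N x))) fun i => mfderiv I I (φ N) x (v i)).det :=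
        gram_nonneg (hG.pd _ (hgood.maps hx)) _
      have e2 : (gram (toFm (g.inner x)) v).det ≤ C ^ 2 * Real.exp (-(l * N)) ^ 2 *
          (gram (toFm (g.inner (φ N x))) fun i => mfderiv I I (φ N) x (v i)).det := by
        have e3 := pow_le_pow_left₀ (by positivity) e1 2
        rw [mul_pow, mul_pow, Real.sq_sqrt q1, Real.sq_sqrt q2] at e3
        have e4 : Real.exp (l * N) * Real.exp (-(l * N)) = 1 := by
          rw [← Real.exp_add]; simp
        have e5 : C * C⁻¹ = 1 := mul_inv_cancel₀ hC.ne'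
        calc (gram (toFm (g.inner x)) v).det
            = (C * C⁻¹) ^ 2 * (Real.exp (l * N) * Real.exp (-(l * N))) ^ 2 *
              (gram (toFm (g.inner x)) v).det := by rw [e4, e5]; ring
          _ = C ^ 2 * Real.exp (-(l * N)) ^ 2 *
              (C⁻¹ ^ 2 * Real.exp (l * N) ^ 2 * (gram (toFm (g.inner x)) v).det) := by ring
          _ ≤ _ := mul_le_mul_of_nonneg_left e3 (by positivity)
      have e6 : K⁻¹ ^ k * (gram (P x) v).det ≤ (gram (toFm (g.inner x)) v).det :=
        gram_mono (hP.pd x hx) (hG.pd x hx) (by positivity) (fun w => by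
          rw [inv_mul_le_iff₀ hK0]
          exact hPG x hx w) v
      have e7 : K⁻¹ ^ k * (gram (toFm (g.inner (φ N x))) fun i => mfderiv I I (φ N) x (v i)).det ≤
          (gram (P (φ N x)) fun i => mfderiv I I (φ N) x (v i)).det :=
        gram_mono (hG.pd _ (hgood.maps hx)) (hP.pd _ (hgood.maps hx)) (by positivity) (fun w => by
          rw [inv_mul_le_iff₀ hK0]
          exact hGP _ (hgood.maps hx) w) _
      have e8 : 0 ≤ (gram (P (φ N x)) fun i => mfderiv I I (φ N) x (v i)).det :=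
        gram_nonneg (hP.pd _ (hgood.maps hx)) _
      have e9 : K ^ k * K⁻¹ ^ k = 1 := by
        rw [← mul_pow, mul_inv_cancel₀ hK0.ne', one_pow]
      show (gram (P x) v).det ≤ Real.exp (-(l * N)) *
        (gram (P (φ N x)) fun i => mfderiv I I (φ N) x (v i)).det
      calc (gram (P x) v).det = K ^ k * (K⁻¹ ^ k * (gram (P x) v).det) := by
            rw [← mul_assoc, e9, one_mul]
        _ ≤ K ^ k * (gram (toFm (g.inner x)) v).det :=
          mul_le_mul_of_nonneg_left e6 (by positivity)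
        _ ≤ K ^ k * (C ^ 2 * Real.exp (-(l * N)) ^ 2 *
          (gram (toFm (g.inner (φ N x))) fun i => mfderiv I I (φ N) x (v i)).det) :=
          mul_le_mul_of_nonneg_left e2 (by positivity)
        _ = K ^ k * (C ^ 2 * Real.exp (-(l * N)) ^ 2 * (K ^ k * (K⁻¹ ^ k *
          (gram (toFm (g.inner (φ N x))) fun i => mfderiv I I (φ N) x (v i)).det))) := by
            rw [← mul_assoc (K ^ k) (K⁻¹ ^ k), e9, one_mul]
        _ ≤ K ^ k * (C ^ 2 * Real.exp (-(l * N)) ^ 2 * (K ^ k *
          (gram (P (φ N x)) fun i => mfderiv I I (φ N) x (v i)).det)) := by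
            refine mul_le_mul_of_nonneg_left (mul_le_mul_of_nonneg_left
              (mul_le_mul_of_nonneg_left e7 (by positivity)) (by positivity)) (by positivity)
        _ = (K ^ (2 * k) * C ^ 2 * Real.exp (-(l * N)) ^ 2) *
          (gram (P (φ N x)) fun i => mfderiv I I (φ N) x (v i)).det := by ring
        _ ≤ _ := mul_le_mul_of_nonneg_right (hcst (2 * k) (by omega)) e8
  obtain ⟨Q, hQ, hQS⟩ := h.exists_limit hP oP hLip hL.le hN hSH
  obtain ⟨g', hg'⟩ := exists_extension hΛ.isClosed hQ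
  refine ⟨g', l / 2, by positivity, fun t ht x hx => ?_⟩
  have hS := hQS t ht.le
  have hφx := (h.good t).maps hx
  have eg : ∀ v w, g'.inner x v w = Q x v w := fun v w => by rw [← hg' x hx]; rfl
  have eg' : ∀ v w, g'.inner (φ t x) v w = Q (φ t x) v w := fun v w => by
    rw [← hg' _ hφx]; rfl
  have hexp : Real.exp (-(l / 2 * t)) = √(Real.exp (-(l * t))) := by
    rw [Real.sqrt_eq_rpow, ← Real.exp_mul]
    ring_nf
  have hexp2 : Real.exp (l / 2 * t) * √(Real.exp (-(l * t))) = 1 := by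
    rw [← hexp, ← Real.exp_add]
    simp
  refine ⟨fun u w hu hw => ?_, fun u hu => ?_, fun v hv => ?_⟩
  · have e1 := hS.dom x hx u w hu hw
    have e1' : Q (φ t x) (mfderiv I I (φ t) x u) (mfderiv I I (φ t) x u) * Q x w w ≤
        Real.exp (-(l * t)) *
          (Q (φ t x) (mfderiv I I (φ t) x w) (mfderiv I I (φ t) x w) * Q x u u) := e1
    have n1 : 0 ≤ Q (φ t x) (mfderiv I I (φ t) x u) (mfderiv I I (φ t) x u) :=
      (hQ.pd _ hφx).nonneg _
    have n2 : 0 ≤ Q (φ t x) (mfderiv I I (φ t) x w) (mfderiv I I (φ t) x w) :=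
      (hQ.pd _ hφx).nonneg _
    simp only [nrm, eg, eg']
    rw [hexp, one_mul, ← Real.sqrt_mul n1, mul_comm √((Q x) u u), ← Real.sqrt_mul n2,
      ← Real.sqrt_mul (Real.exp_pos _).le]
    exact Real.sqrt_le_sqrt e1'
  · have e1 := hS.con x hx u hu
    have e1' : Q (φ t x) (mfderiv I I (φ t) x u) (mfderiv I I (φ t) x u) ≤
        Real.exp (-(l * t)) * Q x u u := e1
    simp only [nrm, eg, eg']
    rw [hexp, one_mul, ← Real.sqrt_mul (Real.exp_pos _).le]
    exact Real.sqrt_le_sqrt e1'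
  · have e1 := hS.vol x hx v hv
    have e1' : (gram (Q x) v).det ≤ Real.exp (-(l * t)) *
      (gram (Q (φ t x)) fun i => mfderiv I I (φ t) x (v i)).det := e1
    rw [wedge_gram, wedge_gram, hg' x hx, hg' _ hφx, inv_one, one_mul]
    have e2 := Real.sqrt_le_sqrt e1'
    rw [Real.sqrt_mul (Real.exp_pos _).le] at e2
    calc Real.exp (l / 2 * t) * √(gram (Q x) v).det
        ≤ Real.exp (l / 2 * t) * (√(Real.exp (-(l * t))) *
          √(gram (Q (φ t x)) fun i => mfderiv I I (φ t) x (v i)).det) :=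
          mul_le_mul_of_nonneg_left e2 (Real.exp_pos _).le
      _ = √(gram (Q (φ t x)) fun i => mfderiv I I (φ t) x (v i)).det := by
          rw [← mul_assoc, hexp2, one_mul]

end Pool.Agent.V11106
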