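import Mathlib
import Pool.Agent.TH264.Bridge.PW

set_option autoImplicit false
set_option linter.unusedSectionVars false
set_option linter.unusedVariables false

namespace Pool.Agent.V11106.Brg

open MeasureTheory Filter Topology
open scoped BigOperators Pointwise ComplexConjugate

universe u

section Orth

variable {K : Type u} [CommGroup K] [TopologicalSpace K] [IsTopologicalGroup K] [CompactSpace K]
  [MeasurableSpace K] [BorelSpace K] (μ : Measure K) [μ.IsMulLeftInvariant]
  [IsProbabilityMeasure μ]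

omit [MeasurableSpace K] [BorelSpace K] in
theorem char_cont (ψ : PontryaginDual K) : Continuous fun x : K => ((ψ x : Circle) : ℂ) :=
  continuous_subtype_val.comp (map_continuous ψ)

theorem cont_int {f : K → ℂ} (hf : Continuous f) : Integrable f μ :=
  hf.integrable_of_hasCompactSupport (HasCompactSupport.of_compactSpace f)

theorem cont_intR {f : K → ℝ} (hf : Continuous f) : Integrable f μ :=
  hf.integrable_of_hasCompactSupport (HasCompactSupport.of_compactSpace f)

theorem char_integral {ψ : PontryaginDual K} (h : ψ ≠ 1) :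
    ∫ x, ((ψ x : Circle) : ℂ) ∂μ = 0 := by
  obtain ⟨y, hy⟩ : ∃ y, ψ y ≠ 1 := by
    by_contra hcon
    push Not at hcon
    exact h (PontryaginDual.ext fun a => by rw [hcon a]; rfl)
  have h1 : ∫ x, ((ψ (y * x) : Circle) : ℂ) ∂μ = ∫ x, ((ψ x : Circle) : ℂ) ∂μ :=
    integral_mul_left_eq_self (fun x => ((ψ x : Circle) : ℂ)) y
  have h2 : ∫ x, ((ψ (y * x) : Circle) : ℂ) ∂μ = (ψ y : ℂ) * ∫ x, ((ψ x : Circle) : ℂ) ∂μ := by
    rw [← integral_const_mul]
    congr 1
    funext x
    rw [map_mul, Circle.coe_mul]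
  rw [h2] at h1
  have h3 : ((ψ y : ℂ) - 1) * ∫ x, ((ψ x : Circle) : ℂ) ∂μ = 0 := by
    rw [sub_mul, one_mul, h1, sub_self]
  rcases mul_eq_zero.1 h3 with h4 | h4
  · exfalso
    apply hy
    apply Circle.ext
    rw [Circle.coe_one]
    exact sub_eq_zero.1 h4
  · exact h4

open Classical in
theorem energy {P : Type*} [Fintype P] (Ψ : P → PontryaginDual K) :
    ∫ x, ‖∑ p, ((Ψ p x : Circle) : ℂ)‖ ^ 2 ∂μ
      = ((Finset.univ.filter fun pq : P × P => Ψ pq.1 = Ψ pq.2).card : ℝ) := by
  have h1 : ((∫ x, ‖∑ p, ((Ψ p x : Circle) : ℂ)‖ ^ 2 ∂μ : ℝ) : ℂ)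
      = ∫ x, (∑ pq : P × P, ((((Ψ pq.1) * (Ψ pq.2)⁻¹ : PontryaginDual K) x : Circle) : ℂ)) ∂μ := by
    rw [← integral_complex_ofReal]
    congr 1
    funext x
    have : ((‖∑ p, ((Ψ p x : Circle) : ℂ)‖ ^ 2 : ℝ) : ℂ)
        = (∑ p, ((Ψ p x : Circle) : ℂ)) * conj (∑ p, ((Ψ p x : Circle) : ℂ)) := by
      rw [Complex.mul_conj, Complex.normSq_eq_norm_sq]
    rw [this, map_sum, Finset.sum_mul_sum, ← Finset.univ_product_univ, Finset.sum_product]
    refine Finset.sum_congr rfl fun p _ => Finset.sum_congr rfl fun q _ => ?_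
    change _ = ((Ψ p x * (Ψ q x)⁻¹ : Circle) : ℂ)
    rw [Circle.coe_mul, Circle.coe_inv_eq_conj]
  have h2 : ∀ pq : P × P, ∫ x, ((((Ψ pq.1) * (Ψ pq.2)⁻¹ : PontryaginDual K) x : Circle) : ℂ) ∂μ
      = if Ψ pq.1 = Ψ pq.2 then 1 else 0 := by
    intro pq
    split_ifs with h
    · rw [h, mul_inv_cancel]
      simp
    · exact char_integral μ fun hcon => h (mul_inv_eq_one.1 hcon)
  rw [integral_finsetSum _ fun pq _ => cont_int μ (char_cont _)] at h1
  simp_rw [h2] at h1
  rw [Finset.sum_boole] at h1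
  exact_mod_cast h1

open Classical in
theorem cauchy {P Q : Type*} [Fintype P] (Ψ : P → Q) (A : Finset Q) (hA : ∀ p, Ψ p ∈ A) :
    ((Fintype.card P : ℝ)) ^ 2 ≤ (A.card : ℝ) *
      ((Finset.univ.filter fun pq : P × P => Ψ pq.1 = Ψ pq.2).card : ℝ) := by
  have h1 : (Fintype.card P : ℝ) = ∑ a ∈ A, ((Finset.univ.filter fun p : P => Ψ p = a).card : ℝ) := by
    rw [← Nat.cast_sum, ← Finset.card_eq_sum_card_fiberwise (fun p _ => hA p), Finset.card_univ]
  have h2 : ((Finset.univ.filter fun pq : P × P => Ψ pq.1 = Ψ pq.2).card : ℝ)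
      = ∑ a ∈ A, ((Finset.univ.filter fun p : P => Ψ p = a).card : ℝ) ^ 2 := by
    have : (Finset.univ.filter fun pq : P × P => Ψ pq.1 = Ψ pq.2).card
        = ∑ a ∈ A, ((Finset.univ.filter fun p : P => Ψ p = a).card) ^ 2 := by
      rw [Finset.card_eq_sum_card_fiberwise (f := fun pq : P × P => Ψ pq.1) (t := A)
        (fun pq _ => hA _)]
      refine Finset.sum_congr rfl fun a _ => ?_
      rw [sq, ← Finset.card_product]
      congr 1
      ext pq
      simp only [Finset.mem_filter, Finset.mem_univ, true_and, Finset.mem_product]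
      constructor
      · rintro ⟨h, h'⟩
        exact ⟨h', h ▸ h'⟩
      · rintro ⟨h, h'⟩
        exact ⟨h.trans h'.symm, h⟩
    rw [this]
    push_cast
    rfl
  rw [h1, h2]
  exact sq_sum_le_card_mul_sum_sq

variable {T : Type*} [Fintype T] [DecidableEq T] (γ : T → (K →ₜ* K))

/-- the trajectory set -/
noncomputable def TF (X : Finset (PontryaginDual K)) : Finset (PontryaginDual K) := by
  classical
  exact (Fintype.piFinset (fun _ : T => X)).image fun p => ∏ t, PontryaginDual.map (γ t) (p t)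

/-- averages of characters -/
noncomputable def av {P : Type*} [Fintype P] (χ : P → PontryaginDual K) (x : K) : ℂ :=
  (Fintype.card P : ℂ)⁻¹ * ∑ p, ((χ p x : Circle) : ℂ)

omit [MeasurableSpace K] [BorelSpace K] in
theorem av_cont {P : Type*} [Fintype P] (χ : P → PontryaginDual K) : Continuous (av χ) :=
  continuous_const.mul (continuous_finsetSum _ fun p _ => char_cont _)

/-- product characters -/
noncomputable def pc {P : Type*} (χ : P → PontryaginDual K) (p : T → P) : PontryaginDual K :=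
  ∏ t, PontryaginDual.map (γ t) (χ (p t))

omit [MeasurableSpace K] [BorelSpace K] in
theorem prod_coe {T : Type*} (s : Finset T) (f : T → PontryaginDual K) (x : K) :
    (((∏ t ∈ s, f t : PontryaginDual K) x : Circle) : ℂ) = ∏ t ∈ s, ((f t x : Circle) : ℂ) := by
  classical
  induction s using Finset.induction_on with
  | empty => simp
  | insert a s ha ih =>
    rw [Finset.prod_insert ha, Finset.prod_insert ha, ← ih, ← Circle.coe_mul]
    rfl

theorem prod_av {P : Type*} [Fintype P] (χ : P → PontryaginDual K) (x : K) :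
    ∏ t, av χ (γ t x) = ((Fintype.card P : ℂ)⁻¹) ^ (Fintype.card T) *
      ∑ p : T → P, ((pc γ χ p x : Circle) : ℂ) := by
  simp only [av]
  rw [Finset.prod_mul_distrib, Finset.prod_const, Finset.card_univ]
  congr 1
  rw [Finset.prod_univ_sum]
  rw [Fintype.piFinset_univ]
  refine Finset.sum_congr rfl fun p _ => ?_
  rw [pc, prod_coe]
  rfl

open Classical in
theorem av_energy {P : Type*} [Fintype P] (χ : P → PontryaginDual K) :
    ∫ x, ∏ t, ‖av χ (γ t x)‖ ^ 2 ∂μ = (((Fintype.card P : ℝ)⁻¹) ^ (Fintype.card T)) ^ 2 *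
      ((Finset.univ.filter fun pq : (T → P) × (T → P) => pc γ χ pq.1 = pc γ χ pq.2).card : ℝ) := by
  rw [← energy μ, ← integral_const_mul]
  congr 1
  funext x
  rw [Finset.prod_pow, ← norm_prod, prod_av, norm_mul, mul_pow, norm_pow, norm_inv]
  simp

theorem lemA {P : Type*} [Fintype P] [Nonempty P] (χ : P → PontryaginDual K)
    (X : Finset (PontryaginDual K)) (hX : ∀ p, χ p ∈ X) :
    1 ≤ ((TF γ X).card : ℝ) * ∫ x, ∏ t, ‖av χ (γ t x)‖ ^ 2 ∂μ := by
  classical
  have h1 := cauchy (pc γ χ) (TF γ X) (fun p => by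
    rw [TF]
    exact Finset.mem_image.2 ⟨fun t => χ (p t), Fintype.mem_piFinset.2 fun t => hX _, rfl⟩)
  rw [av_energy]
  rw [Fintype.card_fun] at h1
  have h3 : (0 : ℝ) < (Fintype.card P : ℝ) := by exact_mod_cast Fintype.card_pos
  have h2 : ((Fintype.card P : ℝ)⁻¹ ^ (Fintype.card T)) ^ 2 *
      (((Fintype.card P ^ Fintype.card T : ℕ) : ℝ)) ^ 2 = 1 := by
    push_cast
    rw [← mul_pow, ← mul_pow, inv_mul_cancel₀ h3.ne', one_pow, one_pow]
  calc (1 : ℝ) = ((Fintype.card P : ℝ)⁻¹ ^ (Fintype.card T)) ^ 2 *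
      (((Fintype.card P ^ Fintype.card T : ℕ) : ℝ)) ^ 2 := h2.symm
    _ ≤ ((Fintype.card P : ℝ)⁻¹ ^ (Fintype.card T)) ^ 2 * _ :=
        mul_le_mul_of_nonneg_left h1 (by positivity)
    _ = _ := by ring

/-- monomials in the characters of `X` -/
noncomputable def mon (X : Finset (PontryaginDual K)) (L : ℕ) (n : X → Fin L) :
    PontryaginDual K := ∏ c : X, (c : PontryaginDual K) ^ (n c : ℕ)

open Classical in
theorem lemG (X : Finset (PontryaginDual K)) (L : ℕ) :
    (TF γ X).card * (Finset.univ.filter fun pq : (T → (X → Fin L)) × (T → (X → Fin L)) =>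
      pc γ (mon X L) pq.1 = pc γ (mon X L) pq.2).card
      ≤ (((L + 1) ^ X.card) ^ (Fintype.card T)) * (((L) ^ X.card) ^ (Fintype.card T)) := by
  have hrep : ∀ a ∈ TF γ X, ∃ c : T → X, a = ∏ t, PontryaginDual.map (γ t) (c t) := by
    intro a ha
    rw [TF] at ha
    obtain ⟨p, hp, rfl⟩ := Finset.mem_image.1 ha
    exact ⟨fun t => ⟨p t, Fintype.mem_piFinset.1 hp t⟩, rfl⟩
  rcases isEmpty_or_nonempty (T → X) with hem | hne
  · have h0 : TF γ X = ∅ := by
      apply Finset.eq_empty_of_forall_notMem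
      intro a ha
      obtain ⟨c, -⟩ := hrep a ha
      exact hem.elim c
    rw [h0]
    simp
  choose! c hc using hrep
  rw [← Finset.card_product]
  have hcard : (Finset.univ : Finset ((T → (X → Fin (L + 1))) × (T → (X → Fin L)))).card
      = (((L + 1) ^ X.card) ^ (Fintype.card T)) * (((L) ^ X.card) ^ (Fintype.card T)) := by
    rw [Finset.card_univ, Fintype.card_prod, Fintype.card_fun, Fintype.card_fun, Fintype.card_fun,
      Fintype.card_fun, Fintype.card_fin, Fintype.card_fin, Fintype.card_coe]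
  rw [← hcard]
  let up : (T → (X → Fin L)) → (T → X) → (T → (X → Fin (L + 1))) := fun p d t χ =>
    ⟨(p t χ : ℕ) + if χ = d t then 1 else 0, by
      have := (p t χ).2
      split_ifs <;> omega⟩
  have hup : ∀ p d, pc γ (mon X (L + 1)) (up p d)
      = pc γ (mon X L) p * ∏ t, PontryaginDual.map (γ t) (d t) := by
    intro p d
    rw [pc, pc, ← Finset.prod_mul_distrib]
    refine Finset.prod_congr rfl fun t _ => ?_
    rw [← map_mul]
    congr 1
    rw [mon, mon]
    have : ∀ χ : X, (χ : PontryaginDual K) ^ ((up p d t χ : Fin (L + 1)) : ℕ)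
        = (χ : PontryaginDual K) ^ (p t χ : ℕ) * (if χ = d t then (χ : PontryaginDual K) else 1) := by
      intro χ
      change (χ : PontryaginDual K) ^ ((p t χ : ℕ) + if χ = d t then 1 else 0) = _
      rw [pow_add]
      congr 1
      split_ifs
      · rw [pow_one]
      · rw [pow_zero]
    rw [Finset.prod_congr rfl fun χ _ => this χ, Finset.prod_mul_distrib]
    congr 1
    rw [Finset.prod_ite_eq' Finset.univ (d t) (fun χ => (χ : PontryaginDual K))]
    simp
  apply Finset.card_le_card_of_injOn (fun z : PontryaginDual K ×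
    ((T → (X → Fin L)) × (T → (X → Fin L))) => (up z.2.1 (c z.1), z.2.2))
  · intro z _
    exact Finset.mem_coe.2 (Finset.mem_univ _)
  · rintro ⟨a, p, q⟩ hz ⟨a', p', q'⟩ hz' heq
    simp only [Finset.coe_product, Set.mem_prod, Finset.mem_coe, Finset.mem_filter,
      Finset.mem_univ, true_and] at hz hz'
    simp only [Prod.mk.injEq] at heq
    obtain ⟨h1, h2⟩ := heq
    have ha : a = a' := by
      have e1 := hup p (c a)
      have e2 := hup p' (c a')
      rw [h1, e2, ← hc a hz.1, ← hc a' hz'.1, hz.2, hz'.2, h2] at e1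
      exact (mul_left_cancel e1).symm
    subst ha
    have hp : p = p' := by
      funext t χ
      have := congrArg (fun w : Fin (L + 1) => (w : ℕ)) (congrFun (congrFun h1 t) χ)
      change (p t χ : ℕ) + (if χ = c a t then 1 else 0)
        = (p' t χ : ℕ) + (if χ = c a t then 1 else 0) at this
      exact Fin.ext (Nat.add_right_cancel this)
    rw [hp, h2]

open Classical in
theorem lemB (X : Finset (PontryaginDual K)) {L : ℕ} (hL : 0 < L) :
    ((TF γ X).card : ℝ) * ∫ x, ∏ t, ‖av (mon X L) (γ t x)‖ ^ 2 ∂μ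
      ≤ ((((L : ℝ) + 1) / L) ^ X.card) ^ (Fintype.card T) := by
  classical
  rw [av_energy]
  have h1 : (((TF γ X).card : ℝ) * ((Finset.univ.filter fun pq :
      (T → (X → Fin L)) × (T → (X → Fin L)) =>
      pc γ (mon X L) pq.1 = pc γ (mon X L) pq.2).card : ℝ))
      ≤ ((((L : ℝ) + 1) ^ X.card) ^ (Fintype.card T)) * ((((L : ℝ)) ^ X.card) ^ (Fintype.card T)) := by
    exact_mod_cast lemG γ X L
  have hL' : (0 : ℝ) < L := by exact_mod_cast hL
  have hcard : (Fintype.card (X → Fin L) : ℝ) = (L : ℝ) ^ X.card := by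
    rw [Fintype.card_fun, Fintype.card_fin, Fintype.card_coe]
    push_cast
    rfl
  rw [hcard]
  calc _ = (((((L : ℝ) ^ X.card)⁻¹) ^ (Fintype.card T)) ^ 2) * (((TF γ X).card : ℝ) *
        ((Finset.univ.filter fun pq : (T → (X → Fin L)) × (T → (X → Fin L)) =>
        pc γ (mon X L) pq.1 = pc γ (mon X L) pq.2).card : ℝ)) := by ring
    _ ≤ (((((L : ℝ) ^ X.card)⁻¹) ^ (Fintype.card T)) ^ 2) *
        (((((L : ℝ) + 1) ^ X.card) ^ (Fintype.card T)) * ((((L : ℝ)) ^ X.card) ^ (Fintype.card T))) :=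
        mul_le_mul_of_nonneg_left h1 (by positivity)
    _ = _ := by
      rw [div_pow, div_pow]
      field_simp
      rw [one_div, ← mul_pow, ← mul_pow, inv_mul_cancel₀ (by positivity), one_pow, one_pow]

end Orth

end Pool.Agent.V11106.Brg
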