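import Pool.Agent.V11106.Brg1

set_option autoImplicit false
set_option linter.unusedSectionVars false
set_option linter.unusedVariables false

namespace Pool.Agent.V11106.Brg

open MeasureTheory Filter Topology
open scoped BigOperators Pointwise ComplexConjugate

universe u

variable {K : Type u} [CommGroup K] [TopologicalSpace K] [IsTopologicalGroup K] [CompactSpace K]
  [MeasurableSpace K] [BorelSpace K] (μ : Measure K) [μ.IsMulLeftInvariant]
  [IsProbabilityMeasure μ]
  {T : Type*} [Fintype T] [DecidableEq T] (γ : T → (K →ₜ* K))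

/-- common preimage -/
def pre (W : Set K) : Set K := ⋂ t, (γ t) ⁻¹' W

theorem mem_pre {W : Set K} {x : K} : x ∈ pre γ W ↔ ∀ t, γ t x ∈ W := by
  simp [pre]

theorem pre_open {W : Set K} (hW : IsOpen W) : IsOpen (pre γ W) :=
  isOpen_iInter_of_finite fun t => hW.preimage (map_continuous (γ t))

/-- sets with small differences are small -/
theorem small_meas {W B : Set K} (h : ∀ x ∈ B, ∀ y ∈ B, ∀ t, γ t (x⁻¹ * y) ∈ W) :
    μ B ≤ μ (pre γ W) := by
  rcases B.eq_empty_or_nonempty with h0 | ⟨b, hb⟩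
  · rw [h0, measure_empty]
    exact zero_le
  · calc μ B ≤ μ ((fun x => b⁻¹ * x) ⁻¹' (pre γ W)) := measure_mono fun y hy =>
          (mem_pre γ).2 fun t => h b hb y hy t
      _ = μ (pre γ W) := measure_preimage_mul μ b⁻¹ _

theorem upper {W U : Set K} (hU : IsOpen U)
    (hUW : ∀ x ∈ U, ∀ y ∈ U, x⁻¹ * y ∈ W) {J : Finset K}
    (hJ : ∀ z, ∃ j ∈ J, j⁻¹ * z ∈ U) {f : K → ℝ} (hf : Continuous f) (hf0 : ∀ x, 0 ≤ f x)
    (hf1 : ∀ x, f x ≤ 1) {ε : ℝ} (hε : 0 ≤ ε) (hfε : ∀ x, x ∉ U → f x ≤ ε) :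
    ∫ x, ∏ t, f (γ t x) ∂μ ≤ (1 + ε * J.card) ^ (Fintype.card T) * μ.real (pre γ W) := by
  classical
  let w : Option J → ℝ := fun o => o.elim 1 fun _ => ε
  let B : Option J → Set K := fun o => o.elim U fun j => {z | (j : K)⁻¹ * z ∈ U}
  have hBo : ∀ o, IsOpen (B o) := by
    intro o
    cases o with
    | none => exact hU
    | some j => exact hU.preimage (continuous_const_mul _)
  have hw : ∀ o, 0 ≤ w o := by
    intro o
    cases o with
    | none => exact zero_le_one
    | some j => exact hε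
  have hBW : ∀ o, ∀ x ∈ B o, ∀ y ∈ B o, x⁻¹ * y ∈ W := by
    intro o x hx y hy
    cases o with
    | none => exact hUW x hx y hy
    | some j =>
      have := hUW _ hx _ hy
      have e : ((j : K)⁻¹ * x)⁻¹ * ((j : K)⁻¹ * y) = x⁻¹ * y := by group
      rwa [e] at this
  have hpt : ∀ z, f z ≤ ∑ o, w o * (B o).indicator (fun _ => (1 : ℝ)) z := by
    intro z
    rw [Fintype.sum_option]
    have hnn : ∀ j : J, 0 ≤ w (some j) * (B (some j)).indicator (fun _ => (1 : ℝ)) z := fun j =>
      mul_nonneg (hw _) (Set.indicator_nonneg (fun _ _ => zero_le_one) _)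
    by_cases hz : z ∈ U
    · have h1 : w none * (B none).indicator (fun _ => (1 : ℝ)) z = 1 := by
        change 1 * (U).indicator (fun _ => (1 : ℝ)) z = 1
        rw [Set.indicator_of_mem hz, one_mul]
      rw [h1]
      have := Finset.sum_nonneg fun (j : J) (_ : j ∈ Finset.univ) => hnn j
      linarith [hf1 z]
    · have h1 : w none * (B none).indicator (fun _ => (1 : ℝ)) z = 0 := by
        change 1 * (U).indicator (fun _ => (1 : ℝ)) z = 0
        rw [Set.indicator_of_notMem hz, mul_zero]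
      rw [h1, zero_add]
      obtain ⟨j, hj, hjz⟩ := hJ z
      have h2 : ε = w (some ⟨j, hj⟩) * (B (some ⟨j, hj⟩)).indicator (fun _ => (1 : ℝ)) z := by
        have : z ∈ B (some ⟨j, hj⟩) := hjz
        rw [Set.indicator_of_mem this, mul_one]
        rfl
      refine (hfε z hz).trans ?_
      rw [h2]
      exact Finset.single_le_sum (f := fun j : J => w (some j) *
        (B (some j)).indicator (fun _ => (1 : ℝ)) z) (fun j _ => hnn j) (Finset.mem_univ _)
  have hprod : ∀ x, ∏ t, f (γ t x) ≤ ∑ p : T → Option J, (∏ t, w (p t)) *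
      (⋂ t, (γ t) ⁻¹' (B (p t))).indicator (fun _ => (1 : ℝ)) x := by
    intro x
    calc ∏ t, f (γ t x) ≤ ∏ t, ∑ o, w o * (B o).indicator (fun _ => (1 : ℝ)) (γ t x) :=
          Finset.prod_le_prod (fun t _ => hf0 _) fun t _ => hpt _
      _ = ∑ p : T → Option J, ∏ t, (w (p t) * (B (p t)).indicator (fun _ => (1 : ℝ)) (γ t x)) := by
          rw [Finset.prod_univ_sum, Fintype.piFinset_univ]
      _ = _ := by
          refine Finset.sum_congr rfl fun p _ => ?_
          rw [Finset.prod_mul_distrib]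
          congr 1
          by_cases h : x ∈ ⋂ t, (γ t) ⁻¹' (B (p t))
          · rw [Set.indicator_of_mem h]
            refine Finset.prod_eq_one fun t _ => ?_
            have h' : γ t x ∈ B (p t) := Set.mem_iInter.1 h t
            exact Set.indicator_of_mem h' (fun _ => (1 : ℝ))
          · rw [Set.indicator_of_notMem h]
            rw [Set.mem_iInter] at h
            push Not at h
            obtain ⟨t, ht⟩ := h
            have ht' : γ t x ∉ B (p t) := ht
            exact Finset.prod_eq_zero (Finset.mem_univ t)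
              (Set.indicator_of_notMem ht' (fun _ => (1 : ℝ)))
  have hmeas : ∀ p : T → Option J, MeasurableSet (⋂ t, (γ t) ⁻¹' (B (p t))) := fun p =>
    (isOpen_iInter_of_finite fun t => (hBo (p t)).preimage (map_continuous (γ t))).measurableSet
  have hint : ∀ p : T → Option J, Integrable (fun x => (∏ t, w (p t)) *
      (⋂ t, (γ t) ⁻¹' (B (p t))).indicator (fun _ => (1 : ℝ)) x) μ := fun p =>
    ((integrable_const (1 : ℝ)).indicator (hmeas p)).const_mul _
  have hmu : ∀ p : T → Option J, μ.real (⋂ t, (γ t) ⁻¹' (B (p t))) ≤ μ.real (pre γ W) := by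
    intro p
    apply ENNReal.toReal_mono (measure_ne_top _ _)
    apply small_meas
    intro x hx y hy t
    rw [map_mul, map_inv]
    exact hBW (p t) _ (Set.mem_iInter.1 hx t) _ (Set.mem_iInter.1 hy t)
  calc ∫ x, ∏ t, f (γ t x) ∂μ ≤ ∫ x, ∑ p : T → Option J, (∏ t, w (p t)) *
      (⋂ t, (γ t) ⁻¹' (B (p t))).indicator (fun _ => (1 : ℝ)) x ∂μ := by
        apply integral_mono
        · exact cont_intR μ (continuous_finsetProd _ fun t _ => hf.comp (map_continuous (γ t)))
        · exact integrable_finsetSum _ fun p _ => hint p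
        · exact hprod
    _ = ∑ p : T → Option J, (∏ t, w (p t)) * μ.real (⋂ t, (γ t) ⁻¹' (B (p t))) := by
        rw [integral_finsetSum _ fun p _ => hint p]
        refine Finset.sum_congr rfl fun p _ => ?_
        rw [integral_const_mul, integral_indicator_const _ (hmeas p)]
        simp
    _ ≤ ∑ p : T → Option J, (∏ t, w (p t)) * μ.real (pre γ W) :=
        Finset.sum_le_sum fun p _ => mul_le_mul_of_nonneg_left (hmu p)
          (Finset.prod_nonneg fun t _ => hw _)
    _ = (∑ p : T → Option J, (∏ t, w (p t))) * μ.real (pre γ W) := by rw [Finset.sum_mul]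
    _ = _ := by
        congr 1
        have : ∏ t : T, ∑ o, w o = ∑ p : T → Option J, ∏ t, w (p t) := by
          rw [Finset.prod_univ_sum, Fintype.piFinset_univ]
        rw [← this, Finset.prod_const, Finset.card_univ, Fintype.sum_option]
        congr 1
        change 1 + ∑ i : J, ε = _
        rw [Finset.sum_const, Finset.card_univ, Fintype.card_coe, nsmul_eq_mul, mul_comm]

theorem lower {V : Set K} (hV : IsOpen V) {f : K → ℝ} (hf : Continuous f) (hf0 : ∀ x, 0 ≤ f x)
    {c : ℝ} (hc : 0 ≤ c) (hfc : ∀ x ∈ V, c ≤ f x) :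
    c ^ (Fintype.card T) * μ.real (pre γ V) ≤ ∫ x, ∏ t, f (γ t x) ∂μ := by
  have hm : MeasurableSet (pre γ V) := (pre_open γ hV).measurableSet
  have h1 : c ^ (Fintype.card T) * μ.real (pre γ V)
      = ∫ x, (pre γ V).indicator (fun _ => c ^ (Fintype.card T)) x ∂μ := by
    rw [integral_indicator_const _ hm, smul_eq_mul, mul_comm]
  rw [h1]
  apply integral_mono
  · exact (integrable_const _).indicator hm
  · exact cont_intR μ (continuous_finsetProd _ fun t _ => hf.comp (map_continuous (γ t)))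
  · intro x
    by_cases hx : x ∈ pre γ V
    · rw [Set.indicator_of_mem hx, ← Finset.card_univ, ← Finset.prod_const]
      exact Finset.prod_le_prod (fun t _ => hc) fun t _ => hfc _ ((mem_pre γ).1 hx t)
    · rw [Set.indicator_of_notMem hx]
      exact Finset.prod_nonneg fun t _ => hf0 _

/-- maximal packings -/
theorem packing {W : Set K} (hW : IsOpen W) (hW1 : (1 : K) ∈ W)
    {W' : Set K} (hWW : ∀ x ∈ W, ∀ y ∈ W, x * y⁻¹ ∈ W') (hμ : 0 < μ.real (pre γ W)) :
    ∃ t : Finset K, (t.card : ℝ) * μ.real (pre γ W) ≤ 1 ∧ ∀ z, ∃ x ∈ t, x⁻¹ * z ∈ pre γ W' := by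
  classical
  let good : Finset K → Prop := fun t => ∀ x ∈ t, ∀ y ∈ t, x ≠ y →
    Disjoint ((fun z => x⁻¹ * z) ⁻¹' (pre γ W)) ((fun z => y⁻¹ * z) ⁻¹' (pre γ W))
  have hb : ∀ t, good t → (t.card : ℝ) * μ.real (pre γ W) ≤ 1 := by
    intro t ht
    have hm : ∀ x ∈ t, MeasurableSet ((fun z => x⁻¹ * z) ⁻¹' (pre γ W)) := fun x _ =>
      ((pre_open γ hW).preimage (continuous_const_mul _)).measurableSet
    have h1 := measureReal_biUnion_finset (μ := μ) (s := t)
      (f := fun x => (fun z => x⁻¹ * z) ⁻¹' (pre γ W)) (fun x hx y hy hxy => ht x hx y hy hxy) hm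
    have h2 : ∀ x ∈ t, μ.real ((fun z => x⁻¹ * z) ⁻¹' (pre γ W)) = μ.real (pre γ W) := by
      intro x _
      rw [Measure.real, Measure.real, measure_preimage_mul]
    rw [Finset.sum_congr rfl h2, Finset.sum_const, nsmul_eq_mul] at h1
    rw [← h1]
    exact measureReal_le_one
  obtain ⟨n, hn, hmax⟩ : ∃ n : ℕ, (∃ t, good t ∧ t.card = n) ∧ ∀ t, good t → t.card ≤ n := by
    have hbd : ∀ n, (∃ t, good t ∧ t.card = n) → n ≤ ⌊(μ.real (pre γ W))⁻¹⌋₊ := by
      rintro _ ⟨t, ht, rfl⟩
      apply Nat.le_floor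
      rw [← one_div, le_div_iff₀ hμ]
      exact hb t ht
    refine ⟨Nat.findGreatest (fun n => ∃ t, good t ∧ t.card = n) ⌊(μ.real (pre γ W))⁻¹⌋₊, ?_, ?_⟩
    · apply Nat.findGreatest_spec (P := fun n => ∃ t, good t ∧ t.card = n) (Nat.zero_le _)
      exact ⟨∅, by intro x hx; simp at hx, rfl⟩
    · intro t ht
      exact Nat.le_findGreatest (hbd _ ⟨t, ht, rfl⟩) ⟨t, ht, rfl⟩
  obtain ⟨t, ht, rfl⟩ := hn
  refine ⟨t, hb t ht, ?_⟩
  intro z
  by_contra hcon
  push Not at hcon
  have hzt : z ∉ t := by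
    intro hz
    apply hcon z hz
    rw [inv_mul_cancel]
    refine (mem_pre γ).2 fun s => ?_
    rw [map_one]
    have := hWW 1 hW1 1 hW1
    simpa using this
  have hdis : ∀ x ∈ t, Disjoint ((fun w => x⁻¹ * w) ⁻¹' (pre γ W)) ((fun w => z⁻¹ * w) ⁻¹' (pre γ W)) := by
    intro x hx
    rw [Set.disjoint_left]
    intro w hw1 hw2
    apply hcon x hx
    refine (mem_pre γ).2 fun s => ?_
    have h1 := (mem_pre γ).1 hw1 s
    have h2 := (mem_pre γ).1 hw2 s
    have h3 := hWW _ h1 _ h2
    have e : γ s (x⁻¹ * w) * (γ s (z⁻¹ * w))⁻¹ = γ s (x⁻¹ * z) := by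
      rw [← map_inv, ← map_mul]
      congr 1
      group
    rwa [e] at h3
  have hgood : good (insert z t) := by
    intro x hx y hy hxy
    rcases Finset.mem_insert.1 hx with hx | hx
    · rcases Finset.mem_insert.1 hy with hy | hy
      · exact absurd (hx.trans hy.symm) hxy
      · rw [hx]; exact (hdis y hy).symm
    · rcases Finset.mem_insert.1 hy with hy | hy
      · rw [hy]; exact hdis x hx
      · exact ht x hx y hy hxy
  have := hmax _ hgood
  rw [Finset.card_insert_of_notMem hzt] at this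
  omega

end Pool.Agent.V11106.Brg
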