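import Pool.Agent.V11106.Brg2

set_option autoImplicit false
set_option linter.unusedSectionVars false
set_option linter.unusedVariables false

namespace Pool.Agent.V11106.Brg

open MeasureTheory Filter Topology
open scoped BigOperators Pointwise ComplexConjugate

universe u

section Ex

variable {K : Type u} [CommGroup K] [TopologicalSpace K] [IsTopologicalGroup K] [CompactSpace K]
  [T2Space K]

theorem circle_add_lt {z : Circle} (hz : z ≠ 1) : ‖(1 : ℂ) + (z : ℂ)‖ < 2 := by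
  have h1 : ‖(1 : ℂ) + (z : ℂ)‖ ^ 2 = 2 + 2 * (z : ℂ).re := by
    have h2 : Complex.normSq (z : ℂ) = 1 := Circle.normSq_coe z
    rw [← Complex.normSq_eq_norm_sq, Complex.normSq_add, Complex.normSq_one, h2]
    simp
    ring
  have h3 : (z : ℂ).re < 1 := by
    have h2 : Complex.normSq (z : ℂ) = 1 := Circle.normSq_coe z
    rw [Complex.normSq_apply] at h2
    by_contra hcon
    push Not at hcon
    have h4 : (z : ℂ).im = 0 := by nlinarith [sq_nonneg (z : ℂ).im]
    have h5 : (z : ℂ).re = 1 := by nlinarith [sq_nonneg (z : ℂ).im]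
    apply hz
    apply Circle.ext
    rw [Circle.coe_one]
    exact Complex.ext (by simpa using h5) (by simpa using h4)
  nlinarith [norm_nonneg ((1 : ℂ) + (z : ℂ))]

theorem av_pow {P : Type*} [Fintype P] (χ : P → PontryaginDual K) (n : ℕ) (x : K) :
    av (fun p : Fin n → P => ∏ i, χ (p i)) x = (av χ x) ^ n := by
  rw [av, av, mul_pow]
  congr 1
  · rw [Fintype.card_fun, Fintype.card_fin]
    push_cast
    rw [inv_pow]
  · have h : (∑ p, ((χ p x : Circle) : ℂ)) ^ n = ∏ _i : Fin n, ∑ p, ((χ p x : Circle) : ℂ) := by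
      rw [Finset.prod_const, Finset.card_univ, Fintype.card_fin]
    rw [h, Finset.prod_univ_sum, Fintype.piFinset_univ]
    refine Finset.sum_congr rfl fun p _ => ?_
    exact prod_coe _ _ _

theorem av_norm_le {P : Type*} [Fintype P] [Nonempty P] (χ : P → PontryaginDual K) (x : K) :
    ‖av χ x‖ ≤ 1 := by
  rw [av, norm_mul, norm_inv]
  have h1 : ‖∑ p, ((χ p x : Circle) : ℂ)‖ ≤ Fintype.card P := by
    refine (norm_sum_le _ _).trans ?_
    simp
  have h2 : (0 : ℝ) < Fintype.card P := by exact_mod_cast Fintype.card_pos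
  rw [Complex.norm_natCast, inv_mul_le_iff₀ h2, mul_one]
  exact h1

theorem exists_av {W : Set K} (hW : IsOpen W) (h1 : (1 : K) ∈ W) {ε : ℝ} (hε : 0 < ε) :
    ∃ (P : Type u) (_ : Fintype P) (_ : Nonempty P) (χ : P → PontryaginDual K),
      ∀ x ∉ W, ‖av χ x‖ ^ 2 ≤ ε := by
  classical
  have hcomp : IsCompact Wᶜ := hW.isClosed_compl.isCompact
  obtain ⟨t, ht⟩ := hcomp.elim_finite_subcover
    (fun χ : PontryaginDual K => {y : K | χ y ≠ 1})
    (fun χ => isOpen_compl_singleton.preimage (map_continuous χ)) (by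
      intro x hx
      obtain ⟨χ, hχ, hχx⟩ := Pool.Agent.TH264.Bridge.char_sep_mul K x (by
        rintro rfl
        exact hx h1)
      exact Set.mem_iUnion.2 ⟨(⟨χ, hχ⟩ : K →ₜ* Circle), hχx⟩)
  let χ₀ : Option t → PontryaginDual K := fun o => o.elim 1 fun c => c
  have hlt : ∀ x ∈ Wᶜ, ‖av χ₀ x‖ < 1 := by
    intro x hx
    obtain ⟨c, hct, hcx⟩ : ∃ c ∈ t, c x ≠ 1 := by
      have := ht hx
      simp only [Set.mem_iUnion, exists_prop] at this
      exact this
    have hcard : (Fintype.card (Option t) : ℝ) = t.card + 1 := by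
      rw [Fintype.card_option, Fintype.card_coe]
      push_cast
      rfl
    have hpos : (0 : ℝ) < t.card + 1 := by positivity
    rw [av, norm_mul, norm_inv, Complex.norm_natCast, hcard, inv_mul_lt_iff₀ hpos, mul_one,
      Fintype.sum_option, ← Finset.add_sum_erase Finset.univ _ (Finset.mem_univ (⟨c, hct⟩ : t)),
      ← add_assoc]
    refine (norm_add_le _ _).trans_lt ?_
    have e1 : ‖((χ₀ none x : Circle) : ℂ) + ((χ₀ (some ⟨c, hct⟩) x : Circle) : ℂ)‖ < 2 := by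
      have := circle_add_lt hcx
      change ‖(((1 : PontryaginDual K) x : Circle) : ℂ) + ((c x : Circle) : ℂ)‖ < 2
      rwa [PontryaginDual.one_apply, Circle.coe_one]
    have e2 : ‖∑ y ∈ Finset.univ.erase (⟨c, hct⟩ : t), ((χ₀ (some y) x : Circle) : ℂ)‖
        ≤ (t.card : ℝ) - 1 := by
      refine (norm_sum_le _ _).trans ?_
      simp only [Circle.norm_coe, Finset.sum_const, nsmul_eq_mul, mul_one]
      rw [Finset.card_erase_of_mem (Finset.mem_univ _), Finset.card_univ, Fintype.card_coe,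
        Nat.cast_sub (Finset.card_pos.2 ⟨c, hct⟩)]
      simp
    linarith
  obtain ⟨n, hn⟩ : ∃ n : ℕ, ∀ x ∈ Wᶜ, (‖av χ₀ x‖ ^ n) ^ 2 ≤ ε := by
    rcases (Wᶜ).eq_empty_or_nonempty with h0 | hne
    · exact ⟨0, by intro x hx; rw [h0] at hx; exact absurd hx (Set.notMem_empty _)⟩
    · obtain ⟨y, hy, hmax⟩ := hcomp.exists_isMaxOn hne ((av_cont χ₀).norm.continuousOn)
      obtain ⟨n, hn⟩ := exists_pow_lt_of_lt_one (show (0 : ℝ) < min ε 1 by positivity) (hlt y hy)
      refine ⟨n, fun x hx => ?_⟩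
      have hm : ‖av χ₀ x‖ ≤ ‖av χ₀ y‖ := hmax hx
      have h2 : ‖av χ₀ x‖ ^ n ≤ min ε 1 :=
        (pow_le_pow_left₀ (norm_nonneg _) hm n).trans hn.le
      have h3 : (0 : ℝ) ≤ ‖av χ₀ x‖ ^ n := by positivity
      nlinarith [min_le_left ε 1, min_le_right ε 1]
  refine ⟨Fin n → Option t, inferInstance, inferInstance, fun p => ∏ i, χ₀ (p i), ?_⟩
  intro x hx
  rw [av_pow, norm_pow]
  exact hn x hx

open Classical in
theorem mon_one (X : Finset (PontryaginDual K)) {L : ℕ} (hL : 0 < L) :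
    av (P := X → Fin L) (mon X L) (1 : K) = 1 := by
  rw [av]
  have : ∀ p : X → Fin L, ((mon X L p (1 : K) : Circle) : ℂ) = 1 := by
    intro p
    rw [map_one, Circle.coe_one]
  rw [Finset.sum_congr rfl fun p _ => this p, Finset.sum_const, Finset.card_univ, nsmul_eq_mul,
    mul_one]
  apply inv_mul_cancel₀
  have : Nonempty (Fin L) := ⟨⟨0, hL⟩⟩
  exact_mod_cast Fintype.card_ne_zero

theorem split_inv {V : Set K} (hV : V ∈ 𝓝 (1 : K)) :
    ∃ U : Set K, IsOpen U ∧ (1 : K) ∈ U ∧ (∀ x ∈ U, ∀ y ∈ U, x⁻¹ * y ∈ V) ∧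
      ∀ x ∈ U, ∀ y ∈ U, x * y⁻¹ ∈ V := by
  have hc : Filter.Tendsto (fun p : K × K => p.1⁻¹ * p.2) (𝓝 (1, 1)) (𝓝 1) := by
    have : Continuous fun p : K × K => p.1⁻¹ * p.2 := by fun_prop
    have h := this.tendsto (1, 1)
    simpa using h
  have h1 := hc hV
  rw [nhds_prod_eq, Filter.mem_map, Filter.mem_prod_iff] at h1
  obtain ⟨A, hA, B, hB, hAB⟩ := h1
  have hC : (A ∩ B) ∩ (A ∩ B)⁻¹ ∈ 𝓝 (1 : K) := by
    have h2 := Filter.inter_mem hA hB
    refine Filter.inter_mem h2 ?_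
    have := inv_mem_nhds_one K h2
    exact this
  obtain ⟨U, hU, hUo, hU1⟩ := mem_nhds_iff.1 hC
  refine ⟨U, hUo, hU1, fun x hx y hy => ?_, fun x hx y hy => ?_⟩
  · exact hAB (Set.mk_mem_prod (hU hx).1.1 (hU hy).1.2)
  · have h3 : x⁻¹ ∈ A := (hU hx).2.1
    have h4 : y⁻¹ ∈ B := (hU hy).2.2
    have := hAB (Set.mk_mem_prod h3 h4)
    simpa using this

theorem fin_translates {U : Set K} (hU : IsOpen U) (h1 : (1 : K) ∈ U) :
    ∃ J : Finset K, ∀ z, ∃ j ∈ J, j⁻¹ * z ∈ U := by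
  obtain ⟨J, hJ⟩ := isCompact_univ.elim_finite_subcover
    (fun j : K => {z | j⁻¹ * z ∈ U}) (fun j => hU.preimage (continuous_const_mul _)) (by
      intro z _
      exact Set.mem_iUnion.2 ⟨z, by simpa using h1⟩)
  refine ⟨J, fun z => ?_⟩
  have := hJ (Set.mem_univ z)
  simp only [Set.mem_iUnion, exists_prop] at this
  exact this

theorem lebesgue {𝒰 : Set (Set K)} (ho : ∀ U ∈ 𝒰, IsOpen U) (hc : ⋃₀ 𝒰 = Set.univ) :
    ∃ W : Set K, W ∈ 𝓝 (1 : K) ∧ ∀ z, ∃ U ∈ 𝒰, ∀ w ∈ W, z * w ∈ U := by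
  classical
  have h1 : ∀ z : K, ∃ U ∈ 𝒰, ∃ W : Set K, IsOpen W ∧ (1 : K) ∈ W ∧ ∀ a ∈ W, ∀ b ∈ W,
      z * a * b ∈ U := by
    intro z
    have hz : z ∈ ⋃₀ 𝒰 := by rw [hc]; trivial
    obtain ⟨U, hU, hzU⟩ := hz
    have hcont : Continuous fun p : K × K => z * p.1 * p.2 := by fun_prop
    have h2 : (fun p : K × K => z * p.1 * p.2) ⁻¹' U ∈ 𝓝 ((1, 1) : K × K) :=
      hcont.continuousAt.preimage_mem_nhds ((ho U hU).mem_nhds (by simpa using hzU))
    rw [nhds_prod_eq, Filter.mem_prod_iff] at h2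
    obtain ⟨A, hA, B, hB, hAB⟩ := h2
    obtain ⟨W, hW, hWo, hW1⟩ := mem_nhds_iff.1 (Filter.inter_mem hA hB)
    exact ⟨U, hU, W, hWo, hW1, fun a ha b hb => hAB (Set.mk_mem_prod (hW ha).1 (hW hb).2)⟩
  choose U hU W hWo hW1 hW using h1
  obtain ⟨J, hJ⟩ := isCompact_univ.elim_finite_subcover
    (fun j : K => {z | j⁻¹ * z ∈ W j}) (fun j => (hWo j).preimage (continuous_const_mul _)) (by
      intro z _
      exact Set.mem_iUnion.2 ⟨z, by simpa using hW1 z⟩)
  refine ⟨⋂ j ∈ J, W j, ?_, ?_⟩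
  · rw [Filter.biInter_finset_mem]
    exact fun j _ => (hWo j).mem_nhds (hW1 j)
  · intro z
    have := hJ (Set.mem_univ z)
    simp only [Set.mem_iUnion, exists_prop] at this
    obtain ⟨j, hj, hjz⟩ := this
    refine ⟨U j, hU j, fun w hw => ?_⟩
    have := hW j _ hjz w (Set.mem_iInter₂.1 hw j hj)
    have e : j * (j⁻¹ * z) * w = z * w := by group
    rwa [e] at this

end Ex

section Def

variable {K : Type*} [CommGroup K] [TopologicalSpace K] [IsTopologicalGroup K]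
  {S : Type*}

/-- The join `⋁_{s ∈ F} γ(s)⁻¹(𝒰)`. -/
def coverJoin (γ : S → (K →ₜ* K)) (𝒰 : Set (Set K)) (F : Finset S) : Set (Set K) :=
  {A | ∃ u : S → Set K, (∀ s ∈ F, u s ∈ 𝒰) ∧ A = ⋂ s ∈ F, (γ s) ⁻¹' (u s)}

/-- The least size of a (finite) subfamily of `𝒱` that covers `K`. -/
noncomputable def minCard (𝒱 : Set (Set K)) : ℕ :=
  sInf {n | ∃ t : Finset (Set K), (t : Set (Set K)) ⊆ 𝒱 ∧ ⋃₀ (t : Set (Set K)) = Set.univ ∧
    t.card = n}

/-- Finite open covers of `K`. -/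
def IsFiniteOpenCover (𝒰 : Set (Set K)) : Prop :=
  𝒰.Finite ∧ (∀ U ∈ 𝒰, IsOpen U) ∧ ⋃₀ 𝒰 = Set.univ

/-- The trajectory `T_F(X) = ∑_{s ∈ F} X·s` in the dual group (written multiplicatively),
where `χ·s = χ ∘ γ(s)`. -/
def traj (γ : S → (K →ₜ* K)) (X : Finset (PontryaginDual K)) (F : Finset S) :
    Set (PontryaginDual K) :=
  {ψ | ∃ x : S → PontryaginDual K, (∀ s ∈ F, x s ∈ X) ∧
    ψ = ∏ s ∈ F, PontryaginDual.map (γ s) (x s)}

end Def

section Main

variable {K : Type u} [CommGroup K] [TopologicalSpace K] [IsTopologicalGroup K] [CompactSpace K]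
  [T2Space K] {S : Type*}

open Classical in
theorem traj_ncard (γ : S → (K →ₜ* K)) (X : Finset (PontryaginDual K)) (F : Finset S) :
    (traj γ X F).ncard = (TF (fun t : F => γ t) X).card := by
  classical
  rw [← Set.ncard_coe_finset]
  congr 1
  ext ψ
  rw [TF, Finset.mem_coe, Finset.mem_image]
  constructor
  · rintro ⟨x, hx, rfl⟩
    refine ⟨fun t => x t, Fintype.mem_piFinset.2 fun t => hx t t.2, ?_⟩
    exact Finset.prod_coe_sort F fun s => PontryaginDual.map (γ s) (x s)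
  · rintro ⟨p, hp, rfl⟩
    refine ⟨fun s => if h : s ∈ F then p ⟨s, h⟩ else 1, ?_, ?_⟩
    · intro s hs
      simp only [hs, dif_pos]
      exact Fintype.mem_piFinset.1 hp ⟨s, hs⟩
    · rw [← Finset.prod_coe_sort F]
      refine Finset.prod_congr rfl fun t _ => ?_
      simp

theorem join_cover (γ : S → (K →ₜ* K)) {𝒰 : Set (Set K)} (h : IsFiniteOpenCover 𝒰)
    (F : Finset S) :
    ∃ t : Finset (Set K), (t : Set (Set K)) ⊆ coverJoin γ 𝒰 F ∧
      ⋃₀ (t : Set (Set K)) = Set.univ ∧ t.card = minCard (coverJoin γ 𝒰 F) := by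
  classical
  have hfin : (coverJoin γ 𝒰 F).Finite := by
    have h1 : (Set.univ.pi fun _ : F => 𝒰).Finite := Set.Finite.pi fun _ => h.1
    apply (h1.image fun u : F → Set K => ⋂ s : F, (γ s) ⁻¹' (u s)).subset
    rintro A ⟨u, hu, rfl⟩
    refine ⟨fun s => u s, fun s _ => hu s s.2, ?_⟩
    ext x
    simp
  have hcov : ⋃₀ coverJoin γ 𝒰 F = Set.univ := by
    apply Set.eq_univ_of_forall
    intro z
    have h2 : ∀ s : S, ∃ U ∈ 𝒰, γ s z ∈ U := by
      intro s
      have : γ s z ∈ ⋃₀ 𝒰 := by rw [h.2.2]; trivial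
      exact this
    choose u hu huz using h2
    exact ⟨⋂ s ∈ F, (γ s) ⁻¹' (u s), ⟨u, fun s _ => hu s, rfl⟩, Set.mem_iInter₂.2 fun s _ => huz s⟩
  have hne : {n | ∃ t : Finset (Set K), (t : Set (Set K)) ⊆ coverJoin γ 𝒰 F ∧
      ⋃₀ (t : Set (Set K)) = Set.univ ∧ t.card = n}.Nonempty :=
    ⟨hfin.toFinset.card, hfin.toFinset, by simp, by simpa using hcov, rfl⟩
  exact Nat.sInf_mem hne

theorem minCard_le {𝒱 : Set (Set K)} (t : Finset (Set K)) (h1 : (t : Set (Set K)) ⊆ 𝒱)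
    (h2 : ⋃₀ (t : Set (Set K)) = Set.univ) : minCard 𝒱 ≤ t.card :=
  Nat.sInf_le ⟨t, h1, h2, rfl⟩

theorem minCard_pos (γ : S → (K →ₜ* K)) {𝒰 : Set (Set K)} (h : IsFiniteOpenCover 𝒰)
    (F : Finset S) : 1 ≤ minCard (coverJoin γ 𝒰 F) := by
  obtain ⟨t, -, h2, h3⟩ := join_cover γ h F
  rw [← h3]
  apply Finset.card_pos.2
  have : (1 : K) ∈ ⋃₀ (t : Set (Set K)) := by rw [h2]; trivial
  obtain ⟨A, hA, -⟩ := this
  exact ⟨A, hA⟩

theorem traj_pos (γ : S → (K →ₜ* K)) {X : Finset (PontryaginDual K)} (hX : X.Nonempty)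
    (F : Finset S) : 1 ≤ (traj γ X F).ncard := by
  classical
  rw [traj_ncard]
  apply Finset.card_pos.2
  obtain ⟨x, hx⟩ := hX
  rw [TF]
  exact ⟨_, Finset.mem_image.2 ⟨fun _ => x, Fintype.mem_piFinset.2 fun _ => hx, rfl⟩⟩

theorem ineq_one (γ : S → (K →ₜ* K)) {𝒰 : Set (Set K)} (h : IsFiniteOpenCover 𝒰)
    {ε : ℝ} (hε : 0 < ε) :
    ∃ X : Finset (PontryaginDual K), X.Nonempty ∧ ∀ F : Finset S,
      (minCard (coverJoin γ 𝒰 F) : ℝ) ≤ (1 + ε) ^ F.card * (traj γ X F).ncard := by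
  classical
  let _ : MeasurableSpace K := borel K
  have _ : BorelSpace K := ⟨rfl⟩
  let μ : Measure K := Measure.haarMeasure ⊤
  have _ : IsProbabilityMeasure μ := ⟨by
    have := Measure.haarMeasure_self (K₀ := (⊤ : TopologicalSpace.PositiveCompacts K))
    simpa using this⟩
  obtain ⟨W, hW, hWU⟩ := lebesgue h.2.1 h.2.2
  obtain ⟨W₁, hW₁o, hW₁1, -, hW₁⟩ := split_inv hW
  obtain ⟨U, hUo, hU1, hU, -⟩ := split_inv (hW₁o.mem_nhds hW₁1)
  obtain ⟨J, hJ⟩ := fin_translates hUo hU1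
  obtain ⟨P, _, _, χ, hχ⟩ := exists_av hUo hU1 (show 0 < ε / (J.card + 1) by positivity)
  refine ⟨Finset.univ.image χ, ?_, ?_⟩
  · obtain ⟨p⟩ := (inferInstance : Nonempty P)
    exact ⟨χ p, Finset.mem_image.2 ⟨p, Finset.mem_univ _, rfl⟩⟩
  · intro F
    let γ' : F → (K →ₜ* K) := fun t => γ t
    have h1 := lemA μ γ' χ (Finset.univ.image χ) fun p =>
      Finset.mem_image.2 ⟨p, Finset.mem_univ _, rfl⟩
    have h2 := upper μ γ' (W := W₁) hUo hU hJ (f := fun x => ‖av χ x‖ ^ 2)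
      ((av_cont χ).norm.pow 2) (fun x => by positivity)
      (fun x => by
        have := av_norm_le χ x
        have h0 := norm_nonneg (av χ x)
        nlinarith) (ε := ε / (J.card + 1)) (by positivity) hχ
    rw [Fintype.card_coe] at h2
    have h3 : (1 + ε / (J.card + 1) * J.card) ^ F.card ≤ (1 + ε) ^ F.card := by
      apply pow_le_pow_left₀ (by positivity)
      have : ε / (J.card + 1) * J.card ≤ ε := by
        rw [div_mul_eq_mul_div, div_le_iff₀ (by positivity)]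
        nlinarith
      linarith
    have h4 : 1 ≤ ((TF γ' (Finset.univ.image χ)).card : ℝ) *
        ((1 + ε) ^ F.card * μ.real (pre γ' W₁)) := by
      refine h1.trans (mul_le_mul_of_nonneg_left ?_ (Nat.cast_nonneg _))
      exact h2.trans (mul_le_mul_of_nonneg_right h3 measureReal_nonneg)
    have hpos : 0 < μ.real (pre γ' W₁) := by
      rcases (measureReal_nonneg (μ := μ) (s := pre γ' W₁)).eq_or_lt with h0 | h0
      · rw [← h0] at h4
        norm_num at h4
      · exact h0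
    obtain ⟨t, ht, htc⟩ := packing μ γ' hW₁o hW₁1 hW₁ hpos
    have h5 : (minCard (coverJoin γ 𝒰 F) : ℝ) ≤ t.card := by
      choose u hu huW using hWU
      let f : K → Set K := fun x => ⋂ s ∈ F, (γ s) ⁻¹' (u (γ s x))
      have := minCard_le (𝒱 := coverJoin γ 𝒰 F) (t.image f) (by
        intro A hA
        rw [Finset.mem_coe, Finset.mem_image] at hA
        obtain ⟨x, -, rfl⟩ := hA
        exact ⟨fun s => u (γ s x), fun s _ => hu _, rfl⟩) (by
        apply Set.eq_univ_of_forall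
        intro z
        obtain ⟨x, hx, hxz⟩ := htc z
        refine ⟨f x, Finset.mem_coe.2 (Finset.mem_image.2 ⟨x, hx, rfl⟩), ?_⟩
        refine Set.mem_iInter₂.2 fun s hs => ?_
        have h6 := huW (γ s x) _ ((mem_pre γ').1 hxz ⟨s, hs⟩)
        have e : γ s x * γ' ⟨s, hs⟩ (x⁻¹ * z) = γ s z := by
          change γ s x * γ s (x⁻¹ * z) = γ s z
          rw [← map_mul]
          congr 1
          group
        rwa [e] at h6)
      exact_mod_cast this.trans Finset.card_image_le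
    rw [traj_ncard]
    refine h5.trans ?_
    have h7 : (t.card : ℝ) * μ.real (pre γ' W₁) ≤
        ((1 + ε) ^ F.card * (TF γ' (Finset.univ.image χ)).card) * μ.real (pre γ' W₁) := by
      refine ht.trans (h4.trans (le_of_eq ?_))
      ring
    exact le_of_mul_le_mul_right h7 hpos

theorem ineq_two (γ : S → (K →ₜ* K)) (X : Finset (PontryaginDual K))
    {ε : ℝ} (hε : 0 < ε) :
    ∃ 𝒰 : Set (Set K), IsFiniteOpenCover 𝒰 ∧ ∀ F : Finset S,
      ((traj γ X F).ncard : ℝ) ≤ (1 + ε) ^ F.card * minCard (coverJoin γ 𝒰 F) := by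
  classical
  let _ : MeasurableSpace K := borel K
  have _ : BorelSpace K := ⟨rfl⟩
  let μ : Measure K := Measure.haarMeasure ⊤
  have _ : IsProbabilityMeasure μ := ⟨by
    have := Measure.haarMeasure_self (K₀ := (⊤ : TopologicalSpace.PositiveCompacts K))
    simpa using this⟩
  set δ : ℝ := min (ε / 3) 1 with hδ
  have hδ0 : 0 < δ := by positivity
  have hδ2 : (1 + δ) ^ 2 ≤ 1 + ε := by
    have h1 : δ ≤ ε / 3 := min_le_left _ _
    have h2 : δ ≤ 1 := min_le_right _ _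
    nlinarith
  obtain ⟨L, hL0, hL⟩ : ∃ L : ℕ, 0 < L ∧ (((L : ℝ) + 1) / L) ^ X.card ≤ 1 + δ := by
    have h1 : Filter.Tendsto (fun L : ℕ => ((L : ℝ) + 1) / L) atTop (𝓝 1) := by
      have h2 : Filter.Tendsto (fun L : ℕ => (1 : ℝ) + 1 / (L : ℝ)) atTop (𝓝 (1 + 0)) :=
        tendsto_const_nhds.add tendsto_one_div_atTop_nhds_zero_nat
      rw [add_zero] at h2
      refine h2.congr' ?_
      filter_upwards [eventually_gt_atTop 0] with L hL
      have : (L : ℝ) ≠ 0 := by positivity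
      field_simp
    have h3 := h1.pow X.card
    rw [one_pow] at h3
    have h4 := (h3.eventually_lt_const (show (1 : ℝ) < 1 + δ by linarith)).and
      (eventually_gt_atTop 0)
    obtain ⟨L, hL1, hL2⟩ := h4.exists
    exact ⟨L, hL2, hL1.le⟩
  have _ : Nonempty (Fin L) := ⟨⟨0, hL0⟩⟩
  set c : ℝ := (1 + δ)⁻¹ with hc
  have hc1 : c < 1 := inv_lt_one_of_one_lt₀ (by linarith)
  have hc0 : 0 < c := by positivity
  let V : Set K := {z | c < ‖av (mon X L) z‖ ^ 2}
  have hVo : IsOpen V := isOpen_lt continuous_const ((av_cont _).norm.pow 2)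
  have hV1 : (1 : K) ∈ V := by
    change c < ‖av (mon X L) (1 : K)‖ ^ 2
    rw [mon_one X hL0]
    simpa using hc1
  obtain ⟨U, hUo, hU1, hU, -⟩ := split_inv (hVo.mem_nhds hV1)
  obtain ⟨J, hJ⟩ := fin_translates hUo hU1
  let g : K → Set K := fun j => {z | j⁻¹ * z ∈ U}
  have hcov : IsFiniteOpenCover ((J.image g : Finset (Set K)) : Set (Set K)) := by
    refine ⟨Finset.finite_toSet _, ?_, ?_⟩
    · intro A hA
      rw [Finset.mem_coe, Finset.mem_image] at hA
      obtain ⟨j, -, rfl⟩ := hA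
      exact hUo.preimage (continuous_const_mul _)
    · apply Set.eq_univ_of_forall
      intro z
      obtain ⟨j, hj, hjz⟩ := hJ z
      exact ⟨g j, Finset.mem_coe.2 (Finset.mem_image.2 ⟨j, hj, rfl⟩), hjz⟩
  refine ⟨_, hcov, ?_⟩
  intro F
  let γ' : F → (K →ₜ* K) := fun t => γ t
  have h1 := lemB μ γ' X hL0
  have h2 := lower μ γ' hVo (f := fun x => ‖av (mon X L) x‖ ^ 2)
    ((av_cont _).norm.pow 2) (fun x => by positivity) hc0.le (fun x hx => le_of_lt hx)
  rw [Fintype.card_coe] at h1 h2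
  obtain ⟨t, ht1, ht2, ht3⟩ := join_cover γ hcov F
  have h3 : (1 : ℝ) ≤ t.card * μ.real (pre γ' V) := by
    have h4 : (1 : ℝ) = μ.real Set.univ := by simp
    rw [h4, ← ht2]
    have h5 : μ.real (⋃₀ (t : Set (Set K))) ≤ ∑ A ∈ t, μ.real A := by
      rw [Set.sUnion_eq_biUnion]
      exact measureReal_biUnion_finset_le t fun A => A
    refine h5.trans ?_
    rw [← nsmul_eq_mul, ← Finset.sum_const]
    refine Finset.sum_le_sum fun A hA => ?_
    apply ENNReal.toReal_mono (measure_ne_top _ _)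
    apply small_meas
    intro x hx y hy s
    obtain ⟨u, hu, rfl⟩ := ht1 hA
    have hs := hu s s.2
    rw [Finset.mem_coe, Finset.mem_image] at hs
    obtain ⟨j, -, hj⟩ := hs
    have hx' : γ s x ∈ u s := Set.mem_iInter₂.1 hx s s.2
    have hy' : γ s y ∈ u s := Set.mem_iInter₂.1 hy s s.2
    rw [← hj] at hx' hy'
    have := hU _ hx' _ hy'
    have e : (j⁻¹ * γ s x)⁻¹ * (j⁻¹ * γ s y) = γ' s (x⁻¹ * y) := by
      change _ = γ s (x⁻¹ * y)
      rw [map_mul, map_inv]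
      group
    rwa [e] at this
  rw [ht3] at h3
  have hT : (0 : ℝ) ≤ (TF γ' X).card := Nat.cast_nonneg _
  have h6 : ((TF γ' X).card : ℝ) * (c ^ F.card * μ.real (pre γ' V)) ≤ (1 + δ) ^ F.card :=
    (mul_le_mul_of_nonneg_left h2 hT).trans (h1.trans (pow_le_pow_left₀ (by positivity) hL _))
  have h7 : ((TF γ' X).card : ℝ) * μ.real (pre γ' V) ≤ (1 + ε) ^ F.card := by
    have e : c ^ F.card * (1 + δ) ^ F.card = 1 := by
      rw [← mul_pow, hc, inv_mul_cancel₀ (by positivity), one_pow]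
    calc ((TF γ' X).card : ℝ) * μ.real (pre γ' V)
        = (((TF γ' X).card : ℝ) * (c ^ F.card * μ.real (pre γ' V))) * (1 + δ) ^ F.card := by
          rw [show ((TF γ' X).card : ℝ) * (c ^ F.card * μ.real (pre γ' V)) * (1 + δ) ^ F.card
            = ((TF γ' X).card : ℝ) * μ.real (pre γ' V) * (c ^ F.card * (1 + δ) ^ F.card) by ring,
            e, mul_one]
      _ ≤ (1 + δ) ^ F.card * (1 + δ) ^ F.card :=
          mul_le_mul_of_nonneg_right h6 (by positivity)
      _ = ((1 + δ) ^ 2) ^ F.card := by rw [← mul_pow]; ring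
      _ ≤ _ := pow_le_pow_left₀ (by positivity) hδ2 _
  rw [traj_ncard]
  calc ((TF γ' X).card : ℝ) ≤ ((TF γ' X).card : ℝ) *
        ((minCard (coverJoin γ ((J.image g : Finset (Set K)) : Set (Set K)) F) : ℝ) *
          μ.real (pre γ' V)) := le_mul_of_one_le_right hT h3
    _ = (((TF γ' X).card : ℝ) * μ.real (pre γ' V)) *
        (minCard (coverJoin γ ((J.image g : Finset (Set K)) : Set (Set K)) F) : ℝ) := by ring
    _ ≤ _ := mul_le_mul_of_nonneg_right h7 (Nat.cast_nonneg _)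

end Main

end Pool.Agent.V11106.Brg
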