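import Mathlib

/-! Limit-periodic cocycles with prescribed values along a sequence with gaps tending to infinity. -/

set_option autoImplicit false

open Filter Topology

namespace Pool.Agent.V11106.Dis

/-- the block containing `i` -/
def blk (n : ℕ → ℕ) (i : ℕ) : ℕ := Nat.findGreatest (fun k => n k ≤ i) i

theorem blk_eq {n : ℕ → ℕ} (hn : StrictMono n) {i k : ℕ} (h1 : n k ≤ i) (h2 : i < n (k + 1)) :
    blk n i = k := by
  have hk : k ≤ i := le_trans (hn.id_le k) h1
  have h3 : k ≤ blk n i := Nat.le_findGreatest hk h1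
  have h4 : n (blk n i) ≤ i := Nat.findGreatest_spec (P := fun k => n k ≤ i) hk h1
  have h5 : n (blk n i) < n (k + 1) := lt_of_le_of_lt h4 h2
  have h6 := hn.lt_iff_lt.1 h5
  omega

/-- the correction on block `k` -/
noncomputable def corr (n : ℕ → ℕ) (t : ℕ → ℝ) (b : ℕ → ℝ) (k : ℕ) : ℝ :=
  Complex.arg (Circle.exp (t (k + 1) - t k - ∑ i ∈ Finset.Ico (n k) (n (k + 1)), b i) : Circle)

/-- the correction function at stage `j` -/
noncomputable def del (n : ℕ → ℕ) (t : ℕ → ℝ) (K : ℕ → ℕ) (j : ℕ) (b : ℕ → ℝ) (i : ℕ) : ℝ :=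
  if n (K j) ≤ i ∧ i < n (K (j + 1)) then
    corr n t b (blk n i) / ((n (blk n i + 1) - n (blk n i) : ℕ) : ℝ) else 0

/-- the partial sums -/
noncomputable def B (n : ℕ → ℕ) (t : ℕ → ℝ) (K : ℕ → ℕ) : ℕ → ℕ → ℝ
  | 0 => fun _ => 0
  | j + 1 => fun i => B n t K j i + del n t K j (B n t K j) (i % n (K (j + 1)))

/-- the stage functions -/
noncomputable def st (n : ℕ → ℕ) (t : ℕ → ℝ) (K : ℕ → ℕ) (j i : ℕ) : ℝ :=
  del n t K j (B n t K j) i

theorem B_eq (n : ℕ → ℕ) (t : ℕ → ℝ) (K : ℕ → ℕ) (j i : ℕ) :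
    B n t K j i = ∑ l ∈ Finset.range j, st n t K l (i % n (K (l + 1))) := by
  induction j with
  | zero => simp [B]
  | succ j ih => rw [Finset.sum_range_succ, ← ih]; rfl

theorem st_bound {n : ℕ → ℕ} (hn : StrictMono n) (t : ℕ → ℝ) {K : ℕ → ℕ}
    (hK : ∀ j k, K j ≤ k → 2 ^ j ≤ n (k + 1) - n k) (j i : ℕ) :
    |st n t K j i| ≤ Real.pi * (1 / 2) ^ j := by
  unfold st del
  split_ifs with h
  · obtain ⟨h1, h2⟩ := h
    have hb : K j ≤ blk n i :=
      Nat.le_findGreatest (le_trans (hn.id_le _) h1) h1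
    have h3 := hK j _ hb
    have h4 : (2 : ℝ) ^ j ≤ ((n (blk n i + 1) - n (blk n i) : ℕ) : ℝ) := by exact_mod_cast h3
    rw [abs_div, Nat.abs_cast]
    have h5 : |corr n t (B n t K j) (blk n i)| ≤ Real.pi := Complex.abs_arg_le_pi _
    calc |corr n t (B n t K j) (blk n i)| / ((n (blk n i + 1) - n (blk n i) : ℕ) : ℝ)
        ≤ Real.pi / 2 ^ j := by
          refine div_le_div₀ Real.pi_pos.le h5 (by positivity) h4
      _ = Real.pi * (1 / 2) ^ j := by rw [one_div, inv_pow]; rfl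
  · simp only [abs_zero]
    positivity

/-- the limit-periodic function -/
noncomputable def Gf (n : ℕ → ℕ) (t : ℕ → ℝ) (K : ℕ → ℕ) (i : ℕ) : ℝ :=
  ∑' l, st n t K l (i % n (K (l + 1)))

theorem Gf_eq {n : ℕ → ℕ} (hn : StrictMono n) (t : ℕ → ℝ) {K : ℕ → ℕ} (hKm : StrictMono K)
    {j i : ℕ} (hi : i < n (K (j + 1))) :
    Gf n t K i = ∑ l ∈ Finset.range (j + 1), st n t K l (i % n (K (l + 1))) := by
  unfold Gf
  refine tsum_eq_sum fun l hl => ?_
  have hl' : j + 1 ≤ l := by simpa using hl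
  have h1 : n (K (j + 1)) ≤ n (K l) := hn.monotone (hKm.monotone hl')
  have h2 : i < n (K (l + 1)) := lt_of_lt_of_le (lt_of_lt_of_le hi h1)
    (hn.monotone (hKm.monotone (Nat.le_succ l)))
  rw [Nat.mod_eq_of_lt h2]
  unfold st del
  rw [if_neg]
  rintro ⟨h3, -⟩
  omega

theorem exists_stage {K : ℕ → ℕ} (hKm : StrictMono K) (hK0 : K 0 = 0) (k : ℕ) :
    ∃ j, K j ≤ k ∧ k < K (j + 1) := by
  refine ⟨blk K k, ?_, ?_⟩
  · exact Nat.findGreatest_spec (P := fun j => K j ≤ k) (Nat.zero_le k) (by rw [hK0]; exact Nat.zero_le k)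
  · by_contra hcon
    push Not at hcon
    have h1 : blk K k + 1 ≤ k := le_trans (hKm.id_le _) hcon
    have h2 : blk K k + 1 ≤ blk K k := Nat.le_findGreatest (P := fun j => K j ≤ k) h1 hcon
    omega

theorem block_sum {n : ℕ → ℕ} (hn : StrictMono n) (t : ℕ → ℝ) {K : ℕ → ℕ} (hKm : StrictMono K)
    (hK0 : K 0 = 0) (k : ℕ) :
    Circle.exp (∑ i ∈ Finset.Ico (n k) (n (k + 1)), Gf n t K i) = Circle.exp (t (k + 1) - t k) := by
  obtain ⟨j, hj1, hj2⟩ := exists_stage hKm hK0 k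
  have hlo : n (K j) ≤ n k := hn.monotone hj1
  have hhi : n (k + 1) ≤ n (K (j + 1)) := hn.monotone hj2
  have hlt : n k < n (k + 1) := hn (Nat.lt_succ_self k)
  have hG : ∀ i ∈ Finset.Ico (n k) (n (k + 1)), Gf n t K i = B n t K j i +
      corr n t (B n t K j) k / ((n (k + 1) - n k : ℕ) : ℝ) := by
    intro i hi
    rw [Finset.mem_Ico] at hi
    have hi2 : i < n (K (j + 1)) := lt_of_lt_of_le hi.2 hhi
    rw [Gf_eq hn t hKm hi2, Finset.sum_range_succ, ← B_eq, Nat.mod_eq_of_lt hi2]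
    congr 1
    unfold st del
    rw [if_pos ⟨le_trans hlo hi.1, hi2⟩, blk_eq hn hi.1 hi.2]
  rw [Finset.sum_congr rfl hG, Finset.sum_add_distrib, Finset.sum_const, Nat.card_Ico, nsmul_eq_mul]
  have hne : ((n (k + 1) - n k : ℕ) : ℝ) ≠ 0 := by
    have : 0 < n (k + 1) - n k := by omega
    exact_mod_cast this.ne'
  rw [mul_div_cancel₀ _ hne, Circle.exp_add]
  unfold corr
  rw [Circle.exp_arg, ← Circle.exp_add]
  congr 1
  ring

theorem init_sum {n : ℕ → ℕ} (hn : StrictMono n) (t : ℕ → ℝ) {K : ℕ → ℕ} (hKm : StrictMono K)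
    (hK0 : K 0 = 0) : ∑ i ∈ Finset.range (n 0), Gf n t K i = 0 := by
  refine Finset.sum_eq_zero fun i hi => ?_
  rw [Finset.mem_range] at hi
  have h1 : n (K 0) ≤ n (K (0 + 1)) := hn.monotone (hKm.monotone (Nat.zero_le _))
  have h2 : i < n (K (0 + 1)) := by
    rw [hK0] at h1; omega
  rw [Gf_eq hn t hKm h2, Finset.sum_range_succ, Finset.sum_range_zero, zero_add,
    Nat.mod_eq_of_lt h2]
  unfold st del
  rw [if_neg]
  rintro ⟨h3, -⟩
  rw [hK0] at h3
  omega

theorem total_sum {n : ℕ → ℕ} (hn : StrictMono n) (t : ℕ → ℝ) {K : ℕ → ℕ} (hKm : StrictMono K)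
    (hK0 : K 0 = 0) (k : ℕ) :
    Circle.exp (∑ i ∈ Finset.range (n k), Gf n t K i) = Circle.exp (t k - t 0) := by
  induction k with
  | zero => rw [init_sum hn t hKm hK0, sub_self]
  | succ k ih =>
    have h1 : n k ≤ n (k + 1) := hn.monotone (Nat.le_succ k)
    rw [← Finset.sum_range_add_sum_Ico _ h1, Circle.exp_add, ih, block_sum hn t hKm hK0,
      ← Circle.exp_add]
    congr 1
    ring

theorem exists_K {n : ℕ → ℕ} (hn : StrictMono n)
    (ht : Tendsto (fun k : ℕ => n (k + 1) - n k) atTop atTop) :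
    ∃ K : ℕ → ℕ, StrictMono K ∧ K 0 = 0 ∧ ∀ j k, K j ≤ k → 2 ^ j ≤ n (k + 1) - n k := by
  have h1 : ∀ j : ℕ, ∃ κ, ∀ k, κ ≤ k → 2 ^ j ≤ n (k + 1) - n k := fun j =>
    eventually_atTop.1 (ht.eventually_ge_atTop (2 ^ j))
  choose κ hκ using h1
  let K : ℕ → ℕ := fun j => Nat.rec 0 (fun j r => max (r + 1) (κ (j + 1))) j
  have hKs : ∀ j, K (j + 1) = max (K j + 1) (κ (j + 1)) := fun j => rfl
  refine ⟨K, strictMono_nat_of_lt_succ fun j => ?_, rfl, fun j k hk => ?_⟩
  · rw [hKs]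
    exact lt_of_lt_of_le (Nat.lt_succ_self _) (le_max_left _ _)
  · cases j with
    | zero =>
      have h5 : n k < n (k + 1) := hn (Nat.lt_succ_self k)
      simp only [pow_zero]
      omega
    | succ j =>
      refine hκ (j + 1) k (le_trans ?_ hk)
      rw [hKs]
      exact le_max_right _ _

/-! ### The distal system -/

/-- The phase space. -/
abbrev XX (P : ℕ → ℕ) : Type := (∀ j, ZMod (P j)) × Circle

/-- the continuous cocycle -/
noncomputable def coc (P : ℕ → ℕ) (a : ℕ → ℕ → ℝ) (z : ∀ j, ZMod (P j)) : ℝ :=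
  ∑' j, a j (z j).val

theorem continuous_coc (P : ℕ → ℕ) {a : ℕ → ℕ → ℝ} {C : ℝ}
    (ha : ∀ j i, |a j i| ≤ C * (1 / 2) ^ j) : Continuous (coc P a) := by
  refine continuous_tsum (u := fun j => C * (1 / 2) ^ j) (fun j => ?_)
    (summable_geometric_two.mul_left C) (fun j z => by simpa using ha j _)
  exact (continuous_of_discreteTopology (f := fun x : ZMod (P j) => a j x.val)).comp
    (continuous_apply j)

/-- the skew product -/
noncomputable def TT (P : ℕ → ℕ) (a : ℕ → ℕ → ℝ) {C : ℝ}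
    (ha : ∀ j i, |a j i| ≤ C * (1 / 2) ^ j) : XX P ≃ₜ XX P where
  toFun x := (x.1 + 1, Circle.exp (coc P a x.1) * x.2)
  invFun x := (x.1 - 1, (Circle.exp (coc P a (x.1 - 1)))⁻¹ * x.2)
  left_inv x := by
    refine Prod.ext ?_ ?_
    · simp
    · simp
  right_inv x := by
    refine Prod.ext ?_ ?_
    · simp
    · simp
  continuous_toFun := by
    have h1 : Continuous (fun x : XX P => coc P a x.1) := (continuous_coc P ha).comp continuous_fst
    have h2 : Continuous (fun x : XX P => x.1 + 1) := by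
      refine continuous_pi fun j => ?_
      exact (continuous_of_discreteTopology (f := fun y : ZMod (P j) => y + 1)).comp
        ((continuous_apply j).comp continuous_fst)
    exact h2.prodMk ((Circle.exp.continuous.comp h1).mul continuous_snd)
  continuous_invFun := by
    have h2 : Continuous (fun x : XX P => x.1 - 1) := by
      refine continuous_pi fun j => ?_
      exact (continuous_of_discreteTopology (f := fun y : ZMod (P j) => y - 1)).comp
        ((continuous_apply j).comp continuous_fst)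
    have h1 : Continuous (fun x : XX P => coc P a (x.1 - 1)) := (continuous_coc P ha).comp h2
    exact h2.prodMk ((Circle.exp.continuous.comp h1).inv.mul continuous_snd)

theorem TT_iter (P : ℕ → ℕ) (a : ℕ → ℕ → ℝ) {C : ℝ}
    (ha : ∀ j i, |a j i| ≤ C * (1 / 2) ^ j) (y : Circle) (m : ℕ) :
    (⇑(TT P a ha))^[m] ((fun _ => 0), y) =
      ((fun _ => (m : ZMod _)), Circle.exp (∑ i ∈ Finset.range m, ∑' j, a j (i % P j)) * y) := by
  induction m with
  | zero => simp
  | succ m ih =>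
    rw [Function.iterate_succ_apply', ih]
    refine Prod.ext ?_ ?_
    · funext j
      change ((m : ZMod (P j)) + 1) = ((m + 1 : ℕ) : ZMod (P j))
      push_cast; rfl
    · change Circle.exp (coc P a fun j => (m : ZMod (P j))) * _ = _
      rw [Finset.sum_range_succ, ← mul_assoc, ← Circle.exp_add, add_comm (coc P a _)]
      have : coc P a (fun j => (m : ZMod (P j))) = ∑' j, a j (m % P j) := by
        unfold coc
        simp only [ZMod.val_natCast]
      rw [this]

theorem distal_of_inv {X : Type} [MetricSpace X] [CompactSpace X] (T S : X → X)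
    (A : Set (X × X)) (hA : IsClosed A) (hAd : ∀ p ∈ A, p.1 ≠ p.2)
    (hT : ∀ p ∈ A, (T p.1, T p.2) ∈ A) (hS : ∀ p ∈ A, (S p.1, S p.2) ∈ A) (x y : X)
    (hxy : (x, y) ∈ A) :
    ∃ ε : ℝ, 0 < ε ∧ ∀ m : ℕ, ε ≤ dist (T^[m] x) (T^[m] y) ∧ ε ≤ dist (S^[m] x) (S^[m] y) := by
  obtain ⟨p, hp, hmin⟩ := hA.isCompact.exists_isMinOn ⟨_, hxy⟩
    (continuous_dist (α := X)).continuousOn
  have hiter : ∀ (R : X → X), (∀ p ∈ A, (R p.1, R p.2) ∈ A) → ∀ m : ℕ, (R^[m] x, R^[m] y) ∈ A := by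
    intro R hR m
    induction m with
    | zero => exact hxy
    | succ m ih =>
      rw [Function.iterate_succ_apply', Function.iterate_succ_apply']
      exact hR _ ih
  refine ⟨dist p.1 p.2, dist_pos.2 (hAd p hp), fun m => ⟨?_, ?_⟩⟩
  · exact hmin (hiter T hT m)
  · exact hmin (hiter S hS m)

end Pool.Agent.V11106.Dis
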