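import Mathlib

/-! Finite decomposition complexity relative to a countable family of subsets, and its dynamical
counterpart. -/

set_option autoImplicit false

open Set Filter Topology

namespace Pool.Agent.V11106.Fdc

variable {Γ : Type} [Group Γ]

/-- `a` and `b` lie in a common member of `𝒴`. -/
def rel (𝒴 : Set (Set Γ)) (a b : Γ) : Prop := ∃ Y ∈ 𝒴, a ∈ Y ∧ b ∈ Y

/-- The set of `a` with `a` and `a g⁻¹` in a common member of `𝒴`. -/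
def D (𝒴 : Set (Set Γ)) (g : Γ) : Set Γ := {a | rel 𝒴 a (a * g⁻¹)}

/-- Finite decomposition complexity certified by a family `S` of subsets of `Γ`. -/
inductive FD (ℓ : Γ → ℝ) (S : Set (Set Γ)) : Set (Set Γ) → Prop
  | bdd (𝒴 : Set (Set Γ)) (hd : 𝒴.PairwiseDisjoint id) (hS : ∀ g, D 𝒴 g ∈ S) (R : ℝ)
      (hb : ∀ g, (D 𝒴 g).Nonempty → ℓ g ≤ R) : FD ℓ S 𝒴
  | dec (𝒴 : Set (Set Γ)) (hd : 𝒴.PairwiseDisjoint id) (hS : ∀ g, D 𝒴 g ∈ S)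
      (Z₀ Z₁ : ℕ → Set (Set Γ)) (V₀ V₁ : ℕ → Set Γ)
      (hV₀ : ∀ n, V₀ n ∈ S) (hV₁ : ∀ n, V₁ n ∈ S)
      (hcov : ∀ n, D 𝒴 1 ⊆ V₀ n ∪ V₁ n)
      (h₀ : ∀ n g, ℓ g < (n : ℕ) → D 𝒴 g ∩ V₀ n ⊆ D (Z₀ n) g)
      (h₁ : ∀ n g, ℓ g < (n : ℕ) → D 𝒴 g ∩ V₁ n ⊆ D (Z₁ n) g)
      (hF₀ : ∀ n, FD ℓ S (Z₀ n)) (hF₁ : ∀ n, FD ℓ S (Z₁ n)) : FD ℓ S 𝒴

theorem FD.mono {ℓ : Γ → ℝ} {S S' : Set (Set Γ)} (h : S ⊆ S') {𝒴 : Set (Set Γ)}
    (hF : FD ℓ S 𝒴) : FD ℓ S' 𝒴 := by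
  induction hF with
  | bdd 𝒴 hd hS R hb => exact FD.bdd 𝒴 hd (fun g => h (hS g)) R hb
  | dec 𝒴 hd hS Z₀ Z₁ V₀ V₁ hV₀ hV₁ hcov h₀ h₁ _ _ ih₀ ih₁ =>
    exact FD.dec 𝒴 hd (fun g => h (hS g)) Z₀ Z₁ V₀ V₁ (fun n => h (hV₀ n)) (fun n => h (hV₁ n))
      hcov h₀ h₁ ih₀ ih₁

theorem FD.mem {ℓ : Γ → ℝ} {S : Set (Set Γ)} {𝒴 : Set (Set Γ)}
    (hF : FD ℓ S 𝒴) (g : Γ) : D 𝒴 g ∈ S := by
  cases hF with
  | bdd _ hd hS R hb => exact hS g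
  | dec _ hd hS => exact hS g

theorem FD.disj {ℓ : Γ → ℝ} {S : Set (Set Γ)} {𝒴 : Set (Set Γ)}
    (hF : FD ℓ S 𝒴) : 𝒴.PairwiseDisjoint id := by
  cases hF with
  | bdd _ hd hS R hb => exact hd
  | dec _ hd hS => exact hd

theorem rel_trans {𝒴 : Set (Set Γ)} (hd : 𝒴.PairwiseDisjoint id) {a b c : Γ} (h1 : rel 𝒴 a b)
    (h2 : rel 𝒴 b c) : rel 𝒴 a c := by
  obtain ⟨Y, hY, ha, hb⟩ := h1
  obtain ⟨Y', hY', hb', hc⟩ := h2
  have : Y = Y' := by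
    by_contra hne
    exact Set.disjoint_left.1 (hd hY hY' hne) hb hb'
  subst this
  exact ⟨Y, hY, ha, hc⟩

theorem rel_symm {𝒴 : Set (Set Γ)} {a b : Γ} (h1 : rel 𝒴 a b) : rel 𝒴 b a := by
  obtain ⟨Y, hY, ha, hb⟩ := h1
  exact ⟨Y, hY, hb, ha⟩

/-- Finite decomposition complexity is certified by countably many subsets. -/
theorem exists_countable [Countable Γ] {ℓ : Γ → ℝ} (hnn : ∀ g, 0 ≤ ℓ g) (hone : ℓ 1 = 0) (hinv : ∀ g, ℓ g⁻¹ = ℓ g)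
    (hyp : ∀ 𝒞 : Set (Set (Set Γ)),
          (∀ 𝒴 : Set (Set Γ), 𝒴.PairwiseDisjoint id →
            (∃ R : ℝ, ∀ Y ∈ 𝒴, ∀ a ∈ Y, ∀ b ∈ Y, ℓ (a⁻¹ * b) ≤ R) → 𝒴 ∈ 𝒞) →
          (∀ 𝒴 : Set (Set Γ), 𝒴.PairwiseDisjoint id →
            (∀ r : ℝ, 0 ≤ r → ∃ 𝒵₀ ∈ 𝒞, ∃ 𝒵₁ ∈ 𝒞, ∀ Y ∈ 𝒴, ∃ Y₀ Y₁ : Set Γ, Y = Y₀ ∪ Y₁ ∧
              ∃ P₀ P₁ : Set (Set Γ), ⋃₀ P₀ = Y₀ ∧ ⋃₀ P₁ = Y₁ ∧
                (∀ A ∈ P₀, ∀ B ∈ P₀, A ≠ B → ∀ a ∈ A, ∀ b ∈ B, 2 * r < ℓ (a⁻¹ * b)) ∧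
                (∀ A ∈ P₁, ∀ B ∈ P₁, A ≠ B → ∀ a ∈ A, ∀ b ∈ B, 2 * r < ℓ (a⁻¹ * b)) ∧
                (∀ A ∈ P₀, {y ∈ Y | ∃ z ∈ A, ℓ (y⁻¹ * z) < r} ∈ 𝒵₀) ∧
                (∀ A ∈ P₁, {y ∈ Y | ∃ z ∈ A, ℓ (y⁻¹ * z) < r} ∈ 𝒵₁)) → 𝒴 ∈ 𝒞) →
          ({Set.univ} : Set (Set Γ)) ∈ 𝒞) :
    ∃ S : Set (Set Γ), S.Countable ∧ FD ℓ S {Set.univ} := by
  have key := hyp {𝒴 | ∃ S : Set (Set Γ), S.Countable ∧ FD ℓ S 𝒴} ?_ ?_
  · exact key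
  · rintro 𝒴 hd ⟨R, hR⟩
    refine ⟨range (D 𝒴), countable_range _, FD.bdd 𝒴 hd (fun g => mem_range_self g) R ?_⟩
    rintro g ⟨a, Y, hY, ha, hb⟩
    have := hR Y hY a ha _ hb
    rwa [inv_mul_cancel_left, hinv] at this
  · intro 𝒴 hd h
    have h' := fun n : ℕ => h (n : ℝ) (Nat.cast_nonneg n)
    choose Z₀ hZ₀ Z₁ hZ₁ hY using h'
    choose S₀ hS₀ hF₀ using hZ₀
    choose S₁ hS₁ hF₁ using hZ₁
    choose! Y₀ Y₁ hY' using hY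
    set V₀ : ℕ → Set Γ := fun n => {a | ∃ Y ∈ 𝒴, a ∈ Y₀ n Y} with hV₀
    set V₁ : ℕ → Set Γ := fun n => {a | ∃ Y ∈ 𝒴, a ∈ Y₁ n Y} with hV₁
    set S : Set (Set Γ) := ((⋃ n, S₀ n) ∪ (⋃ n, S₁ n)) ∪ (range (D 𝒴) ∪ (range V₀ ∪ range V₁))
      with hS
    have hSc : S.Countable := ((countable_iUnion hS₀).union (countable_iUnion hS₁)).union
      ((countable_range _).union ((countable_range _).union (countable_range _)))
    have hclose : ∀ (n : ℕ) (g : Γ), ℓ g < n → ∀ (Z : Set (Set Γ)) (Yi : Set Γ → Set Γ),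
        (∀ Y ∈ 𝒴, Yi Y ⊆ Y) →
        (∀ Y ∈ 𝒴, ∃ P : Set (Set Γ), ⋃₀ P = Yi Y ∧
          ∀ A ∈ P, {y ∈ Y | ∃ z ∈ A, ℓ (y⁻¹ * z) < (n : ℝ)} ∈ Z) →
        D 𝒴 g ∩ {a | ∃ Y ∈ 𝒴, a ∈ Yi Y} ⊆ D Z g := by
      rintro n g hg Z Yi hsub hP a ⟨⟨Y, hY, haY, hagY⟩, Y', hY', haY'⟩
      have hYY : Y = Y' := by
        by_contra hne
        exact Set.disjoint_left.1 (hd hY hY' hne) haY (hsub Y' hY' haY')
      subst hYY
      obtain ⟨P, hP1, hP2⟩ := hP Y hY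
      rw [← hP1] at haY'
      obtain ⟨A, hA, haA⟩ := haY'
      refine ⟨_, hP2 A hA, ⟨haY, a, haA, ?_⟩, ⟨hagY, a, haA, ?_⟩⟩
      · rw [inv_mul_cancel, hone]
        exact lt_of_le_of_lt (hnn g) hg
      · have : (a * g⁻¹)⁻¹ * a = g := by group
        rw [this]; exact hg
    have hsub₀ : ∀ n, S₀ n ⊆ S := fun n =>
      (subset_iUnion S₀ n).trans (subset_union_left.trans subset_union_left)
    have hsub₁ : ∀ n, S₁ n ⊆ S := fun n =>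
      (subset_iUnion S₁ n).trans (subset_union_right.trans subset_union_left)
    refine ⟨S, hSc, FD.dec 𝒴 hd (fun g => Or.inr (Or.inl (mem_range_self g))) Z₀ Z₁ V₀ V₁
      (fun n => Or.inr (Or.inr (Or.inl (mem_range_self n))))
      (fun n => Or.inr (Or.inr (Or.inr (mem_range_self n)))) ?_ ?_ ?_
      (fun n => (hF₀ n).mono (hsub₀ n)) (fun n => (hF₁ n).mono (hsub₁ n))⟩
    · rintro n a ⟨Y, hY, ha, -⟩
      have h1 := (hY' n Y hY).1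
      rw [h1] at ha
      rcases ha with ha | ha
      · exact Or.inl ⟨Y, hY, ha⟩
      · exact Or.inr ⟨Y, hY, ha⟩
    · intro n g hg
      refine hclose n g hg (Z₀ n) (Y₀ n) (fun Y hY => ?_) (fun Y hY => ?_)
      · have h1 := (hY' n Y hY).1
        intro a ha
        rw [h1]; exact Or.inl ha
      · obtain ⟨-, P₀, P₁, hP₀, hP₁, -, -, h2, h3⟩ := hY' n Y hY
        exact ⟨P₀, hP₀, h2⟩
    · intro n g hg
      refine hclose n g hg (Z₁ n) (Y₁ n) (fun Y hY => ?_) (fun Y hY => ?_)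
      · have h1 := (hY' n Y hY).1
        intro a ha
        rw [h1]; exact Or.inr ha
      · obtain ⟨-, P₀, P₁, hP₀, hP₁, -, -, h2, h3⟩ := hY' n Y hY
        exact ⟨P₁, hP₁, h3⟩

/-! ### The dynamical side -/

/-- The orbit map into the Cantor-type space. -/
noncomputable def phi (σ : ℕ → Set Γ) (a : Γ) : ℕ × Γ → Bool := fun p =>
  @decide (a * p.2 ∈ σ p.1) (Classical.propDecidable _)

theorem phi_apply (σ : ℕ → Set Γ) (a : Γ) (p : ℕ × Γ) :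
    phi σ a p = true ↔ a * p.2 ∈ σ p.1 := by
  unfold phi
  exact @decide_eq_true_iff _ (Classical.propDecidable _)

/-- The shift action. -/
def sh (h : Γ) (x : ℕ × Γ → Bool) : ℕ × Γ → Bool := fun p => x (p.1, h⁻¹ * p.2)

theorem sh_one (x : ℕ × Γ → Bool) : sh 1 x = x := by
  funext p; simp [sh]

theorem sh_mul (g h : Γ) (x : ℕ × Γ → Bool) : sh (g * h) x = sh g (sh h x) := by
  funext p; simp [sh, mul_assoc]

theorem continuous_sh (h : Γ) : Continuous (sh h) :=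
  continuous_pi fun _ => continuous_apply _

theorem sh_phi (σ : ℕ → Set Γ) (h a : Γ) : sh h (phi σ a) = phi σ (a * h⁻¹) := by
  funext p
  rw [Bool.eq_iff_iff, phi_apply]
  unfold sh
  rw [phi_apply]
  simp [mul_assoc]

/-- Closures of orbit pieces. -/
def hat (σ : ℕ → Set Γ) (s : Set Γ) : Set (ℕ × Γ → Bool) := closure (phi σ '' s)

theorem hat_mono (σ : ℕ → Set Γ) {s t : Set Γ} (h : s ⊆ t) : hat σ s ⊆ hat σ t :=
  closure_mono (image_mono h)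

theorem hat_union (σ : ℕ → Set Γ) (s t : Set Γ) : hat σ (s ∪ t) = hat σ s ∪ hat σ t := by
  unfold hat
  rw [image_union, closure_union]

theorem isOpen_coord (n : ℕ) : IsOpen {x : ℕ × Γ → Bool | x (n, 1) = true} := by
  have hc : Continuous (fun x : ℕ × Γ → Bool => x (n, 1)) := continuous_apply _
  exact (isOpen_discrete ({true} : Set Bool)).preimage hc

theorem isClosed_coord (n : ℕ) : IsClosed {x : ℕ × Γ → Bool | x (n, 1) = true} := by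
  have hc : Continuous (fun x : ℕ × Γ → Bool => x (n, 1)) := continuous_apply _
  exact (isClosed_discrete ({true} : Set Bool)).preimage hc

theorem hat_sub_coord (σ : ℕ → Set Γ) (n : ℕ) : hat σ (σ n) ⊆ {x | x (n, 1) = true} := by
  refine closure_minimal ?_ (isClosed_coord n)
  rintro _ ⟨a, ha, rfl⟩
  have := (phi_apply σ a (n, 1)).2 (by simpa using ha)
  exact this

/-- shifted intersections -/
theorem hat_inter_shift (σ : ℕ → Set Γ) (s : Set Γ) (n : ℕ) (h : Γ) {x : ℕ × Γ → Bool}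
    (hx : x ∈ hat σ s) (hx' : sh h x ∈ hat σ (σ n)) :
    x ∈ hat σ (s ∩ {a | a * h⁻¹ ∈ σ n}) := by
  have hO : IsOpen {y : ℕ × Γ → Bool | sh h y ∈ {x | x (n, (1 : Γ)) = true}} :=
    (isOpen_coord n).preimage (continuous_sh h)
  have h1 : x ∈ {y : ℕ × Γ → Bool | sh h y ∈ {x | x (n, (1 : Γ)) = true}} ∩ closure (phi σ '' s) :=
    ⟨hat_sub_coord σ n hx', hx⟩
  have h2 := hO.inter_closure h1
  refine closure_mono ?_ h2
  rintro _ ⟨h3, a, ha, rfl⟩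
  refine ⟨a, ⟨ha, ?_⟩, rfl⟩
  have h4 : sh h (phi σ a) (n, 1) = true := h3
  rw [sh_phi, phi_apply] at h4
  simpa using h4

theorem hat_inter (σ : ℕ → Set Γ) (s : Set Γ) (n : ℕ) {x : ℕ × Γ → Bool}
    (hx : x ∈ hat σ s) (hx' : x ∈ hat σ (σ n)) : x ∈ hat σ (s ∩ σ n) := by
  have := hat_inter_shift σ s n 1 hx (by rwa [sh_one])
  simpa using this

theorem isOpen_hat (σ : ℕ → Set Γ) {C : Type} [TopologicalSpace C] (p : C → (ℕ × Γ → Bool))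
    (hp : Continuous p) (hpX : ∀ c, p c ∈ hat σ univ) (n : ℕ) : IsOpen {c | p c ∈ hat σ (σ n)} := by
  have : {c | p c ∈ hat σ (σ n)} = p ⁻¹' {x | x (n, (1 : Γ)) = true} := by
    ext c
    constructor
    · intro h; exact hat_sub_coord σ n h
    · intro h
      have h1 : p c ∈ {x : ℕ × Γ → Bool | x (n, (1 : Γ)) = true} ∩ closure (phi σ '' univ) :=
        ⟨h, hpX c⟩
      have h2 := (isOpen_coord n).inter_closure h1
      refine closure_mono ?_ h2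
      rintro _ ⟨h3, a, ha, rfl⟩
      refine ⟨a, ?_, rfl⟩
      have h4 : phi σ a (n, 1) = true := h3
      rw [phi_apply] at h4
      simpa using h4
  rw [this]
  exact (isOpen_coord n).preimage hp

section main

variable {C : Type} [TopologicalSpace C] (act : Γ → C → C) (hact : ∀ g, Continuous (act g))
  (hone : ∀ x, act 1 x = x) (hmul : ∀ (g h : Γ) (x : C), act (g * h) x = act g (act h x))

/-- Subgroupoids of the transformation groupoid. -/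
def Sub (act : Γ → C → C) (H : Set (Γ × C)) : Prop :=
  (∀ (g h : Γ) (x : C), (g, act h x) ∈ H → (h, x) ∈ H → (g * h, x) ∈ H) ∧
    (∀ (g : Γ) (x : C), (g, x) ∈ H → (g⁻¹, act g x) ∈ H)

/-- The subgroupoid of the family `𝒴`. -/
def HY (σ : ℕ → Set Γ) (p : C → (ℕ × Γ → Bool)) (𝒴 : Set (Set Γ)) : Set (Γ × C) :=
  {q | p q.2 ∈ hat σ (D 𝒴 q.1)}

omit [TopologicalSpace C] in
theorem sub_HY (σ : ℕ → Set Γ) (p : C → (ℕ × Γ → Bool)) (hp : ∀ g c, p (act g c) = sh g (p c))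
    (𝒴 : Set (Set Γ)) (hd : 𝒴.PairwiseDisjoint id) (hS : ∀ g, D 𝒴 g ∈ range σ) :
    Sub act (HY σ p 𝒴) := by
  constructor
  · intro g h x h1 h2
    change p x ∈ hat σ (D 𝒴 (g * h))
    have h1' : sh h (p x) ∈ hat σ (D 𝒴 g) := by rw [← hp]; exact h1
    obtain ⟨n, hn⟩ := hS g
    rw [← hn] at h1'
    have h3 := hat_inter_shift σ (D 𝒴 h) n h h2 h1'
    refine hat_mono σ ?_ h3
    rintro a ⟨ha1, ha2⟩
    rw [mem_ofPred_eq, hn] at ha2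
    have ha2' : rel 𝒴 (a * h⁻¹) (a * h⁻¹ * g⁻¹) := ha2
    have h4 := rel_trans hd ha1 ha2'
    change rel 𝒴 a (a * (g * h)⁻¹)
    rwa [mul_inv_rev, ← mul_assoc]
  · intro g x h1
    change p (act g x) ∈ hat σ (D 𝒴 g⁻¹)
    rw [hp]
    refine map_mem_closure (continuous_sh g) h1 ?_
    rintro _ ⟨a, ha, rfl⟩
    refine ⟨a * g⁻¹, ?_, (sh_phi σ g a).symm⟩
    have ha' : rel 𝒴 a (a * g⁻¹) := ha
    change rel 𝒴 (a * g⁻¹) (a * g⁻¹ * g⁻¹⁻¹)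
    rw [inv_inv, inv_mul_cancel_right]
    exact rel_symm ha'

/-- The generated subgroupoid. -/
def gen (act : Γ → C → C) (K : Set (Γ × C)) (U : Set C) : Set (Γ × C) :=
  ⋂₀ {S : Set (Γ × C) | Sub act S ∧ {k ∈ K | k.2 ∈ U} ⊆ S}

omit [TopologicalSpace C] in
theorem sub_gen (K : Set (Γ × C)) (U : Set C) : Sub act (gen act K U) := by
  constructor
  · intro g h x h1 h2 S hS
    exact hS.1.1 g h x (h1 S hS) (h2 S hS)
  · intro g x h1 S hS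
    exact hS.1.2 g x (h1 S hS)

include hact hone hmul in
theorem isOpen_gen {K : Set (Γ × C)} {U : Set C} (hK : ∀ g : Γ, IsOpen {x : C | (g, x) ∈ K})
    (hU : IsOpen U) (g : Γ) : IsOpen {x : C | (g, x) ∈ gen act K U} := by
  set I : Set (Γ × C) := {q | ∀ᶠ y in 𝓝 q.2, (q.1, y) ∈ gen act K U} with hI
  have hIsub : Sub act I := by
    constructor
    · intro g h x h1 h2
      have h1' : ∀ᶠ y in 𝓝 (act h x), (g, y) ∈ gen act K U := h1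
      have h2' : ∀ᶠ y in 𝓝 x, (h, y) ∈ gen act K U := h2
      have h3 := (hact h).continuousAt.eventually h1'
      change ∀ᶠ y in 𝓝 x, (g * h, y) ∈ gen act K U
      filter_upwards [h3, h2'] with y hy1 hy2
      exact (sub_gen act K U).1 g h y hy1 hy2
    · intro g x h1
      have h1' : ∀ᶠ y in 𝓝 x, (g, y) ∈ gen act K U := h1
      have hx : act g⁻¹ (act g x) = x := by rw [← hmul, inv_mul_cancel, hone]
      have h3 : ∀ᶠ y in 𝓝 (act g x), (g, act g⁻¹ y) ∈ gen act K U := by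
        have h4 : ∀ᶠ y in 𝓝 (act g⁻¹ (act g x)), (g, y) ∈ gen act K U := by rw [hx]; exact h1'
        exact (hact g⁻¹).continuousAt.eventually h4
      change ∀ᶠ y in 𝓝 (act g x), (g⁻¹, y) ∈ gen act K U
      filter_upwards [h3] with y hy
      have := (sub_gen act K U).2 g _ hy
      rwa [← hmul, mul_inv_cancel, hone] at this
  have hIK : {k ∈ K | k.2 ∈ U} ⊆ I := by
    rintro ⟨g, x⟩ ⟨h1, h2⟩
    change ∀ᶠ y in 𝓝 x, (g, y) ∈ gen act K U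
    filter_upwards [(hK g).mem_nhds h1, hU.mem_nhds h2] with y hy1 hy2
    exact fun S hS => hS.2 ⟨hy1, hy2⟩
  rw [isOpen_iff_mem_nhds]
  intro x hx
  exact hx I ⟨hIsub, hIK⟩

include hact hone hmul in
/-- The induction. -/
theorem main_ind [Countable Γ] (σ : ℕ → Set Γ) (p : C → (ℕ × Γ → Bool)) (hpc : Continuous p)
    (hpX : ∀ c, p c ∈ hat σ univ) (hp : ∀ g c, p (act g c) = sh g (p c))
    (ℓ : Γ → ℝ) (hfin : ∀ R : ℝ, Set.Finite {g | ℓ g ≤ R})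
    (𝒞 : Set (Set (Γ × C)))
    (hbase : ∀ H : Set (Γ × C), Sub act H → (∀ g : Γ, IsOpen {x : C | (g, x) ∈ H}) →
      Set.Finite {g : Γ | ∃ x : C, (g, x) ∈ H} → H ∈ 𝒞)
    (hdec : ∀ H : Set (Γ × C), Sub act H → (∀ g : Γ, IsOpen {x : C | (g, x) ∈ H}) →
      (∀ K : Set (Γ × C), K ⊆ H → (∀ g : Γ, IsOpen {x : C | (g, x) ∈ K}) →
        Set.Finite {g : Γ | ∃ x : C, (g, x) ∈ K} →
        ∃ U₀ U₁ : Set C, IsOpen U₀ ∧ IsOpen U₁ ∧ {x : C | ((1 : Γ), x) ∈ H} ⊆ U₀ ∪ U₁ ∧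
          gen act K U₀ ∈ 𝒞 ∧ gen act K U₁ ∈ 𝒞) → H ∈ 𝒞)
    (𝒴 : Set (Set Γ)) (hF : FD ℓ (range σ) 𝒴) :
    ∀ H : Set (Γ × C), Sub act H → (∀ g : Γ, IsOpen {x : C | (g, x) ∈ H}) →
      H ⊆ HY σ p 𝒴 → H ∈ 𝒞 := by
  induction hF with
  | bdd 𝒴 hd hS R hb =>
    intro H hH1 hH2 hH3
    refine hbase H hH1 hH2 ((hfin R).subset ?_)
    rintro g ⟨x, hx⟩
    refine hb g ?_
    have h1 : p x ∈ hat σ (D 𝒴 g) := hH3 hx
    have h2 : (hat σ (D 𝒴 g)).Nonempty := ⟨_, h1⟩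
    unfold hat at h2
    rw [closure_nonempty_iff] at h2
    exact h2.of_image
  | dec 𝒴 hd hS Z₀ Z₁ V₀ V₁ hV₀ hV₁ hcov h₀ h₁ hF₀ hF₁ ih₀ ih₁ =>
    intro H hH1 hH2 hH3
    refine hdec H hH1 hH2 ?_
    intro K hKH hKo hKf
    obtain ⟨n, hn⟩ : ∃ n : ℕ, ∀ g, (∃ x : C, (g, x) ∈ K) → ℓ g < n := by
      obtain ⟨B, hB⟩ := (hKf.image ℓ).bddAbove
      obtain ⟨n, hn⟩ := exists_nat_gt B
      exact ⟨n, fun g hg => lt_of_le_of_lt (hB ⟨g, hg, rfl⟩) hn⟩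
    have hUo : ∀ V ∈ range σ, IsOpen {c | p c ∈ hat σ V} := by
      rintro _ ⟨m, rfl⟩
      exact isOpen_hat σ p hpc hpX m
    have hgen : ∀ (V : Set Γ) (Z : Set (Set Γ)), V ∈ range σ → FD ℓ (range σ) Z →
        (∀ g, ℓ g < n → D 𝒴 g ∩ V ⊆ D Z g) → gen act K {c | p c ∈ hat σ V} ⊆ HY σ p Z := by
      rintro V Z hV hZ hDV
      refine sInter_subset_of_mem ⟨sub_HY act σ p hp Z hZ.disj hZ.mem, ?_⟩
      rintro ⟨g, x⟩ ⟨h1, h2⟩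
      obtain ⟨m, rfl⟩ := hV
      change p x ∈ hat σ (D Z g)
      have h3 : p x ∈ hat σ (D 𝒴 g) := hH3 (hKH h1)
      exact hat_mono σ (hDV g (hn g ⟨x, h1⟩)) (hat_inter σ (D 𝒴 g) m h3 h2)
    refine ⟨{c | p c ∈ hat σ (V₀ n)}, {c | p c ∈ hat σ (V₁ n)}, hUo _ (hV₀ n), hUo _ (hV₁ n),
      ?_, ?_, ?_⟩
    · intro x hx
      have h1 : p x ∈ hat σ (D 𝒴 1) := hH3 hx
      have h2 := hat_mono σ (hcov n) h1
      rw [hat_union] at h2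
      exact h2
    · exact ih₀ n _ (sub_gen act _ _) (isOpen_gen act hact hone hmul hKo (hUo _ (hV₀ n)))
        (hgen _ _ (hV₀ n) (hF₀ n) (h₀ n))
    · exact ih₁ n _ (sub_gen act _ _) (isOpen_gen act hact hone hmul hKo (hUo _ (hV₁ n)))
        (hgen _ _ (hV₁ n) (hF₁ n) (h₁ n))

end main

end Pool.Agent.V11106.Fdc
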