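import Pool.Agent.V11106.Fdc1
import Pool.Agent.H812R3.CantorChar

/-! The action on the Cantor space. -/

set_option autoImplicit false

open Set Filter Topology

namespace Pool.Agent.V11106.Fdc

variable {Γ : Type} [Group Γ]

theorem sh_mem (σ : ℕ → Set Γ) (h : Γ) {x : ℕ × Γ → Bool} (hx : x ∈ hat σ univ) :
    sh h x ∈ hat σ univ := by
  refine map_mem_closure (continuous_sh h) hx ?_
  rintro _ ⟨a, -, rfl⟩
  exact ⟨a * h⁻¹, mem_univ _, (sh_phi σ h a).symm⟩

/-- The phase space: the orbit closure times a Cantor set. -/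
abbrev W (σ : ℕ → Set Γ) : Type := (hat σ (univ : Set Γ)) × (ℕ → Bool)

/-- The action on the phase space. -/
def actW (σ : ℕ → Set Γ) (g : Γ) (w : W σ) : W σ := (⟨sh g w.1.1, sh_mem σ g w.1.2⟩, w.2)

theorem continuous_actW (σ : ℕ → Set Γ) (g : Γ) : Continuous (actW σ g) := by
  refine Continuous.prodMk ?_ continuous_snd
  exact ((continuous_sh g).comp (continuous_subtype_val.comp continuous_fst)).subtype_mk _

instance compactW (σ : ℕ → Set Γ) : CompactSpace (hat σ (univ : Set Γ)) :=
  isCompact_iff_compactSpace.1 isClosed_closure.isCompact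

theorem exists_homeoW [Countable Γ] (σ : ℕ → Set Γ) : Nonempty (W σ ≃ₜ (ℕ → Bool)) := by
  let _ : Encodable ((ℕ × Γ) ⊕ ℕ) := Encodable.ofCountable _
  have hne : Nonempty (W σ) :=
    ⟨(⟨phi σ 1, subset_closure ⟨1, mem_univ _, rfl⟩⟩, fun _ => false)⟩
  let e : W σ → (ℕ → Bool) := fun w n => match Encodable.decode (α := (ℕ × Γ) ⊕ ℕ) n with
    | some (Sum.inl i) => w.1.1 i
    | some (Sum.inr k) => w.2 k
    | none => false
  refine Pool.Agent.H812R3.CantorChar.cantor_char e ?_ ?_ ?_
  · refine continuous_pi fun n => ?_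
    change Continuous fun w : W σ => (match Encodable.decode (α := (ℕ × Γ) ⊕ ℕ) n with
      | some (Sum.inl i) => w.1.1 i
      | some (Sum.inr k) => w.2 k
      | none => false)
    rcases Encodable.decode (α := (ℕ × Γ) ⊕ ℕ) n with _ | (i | k)
    · exact continuous_const
    · exact (continuous_apply i).comp (continuous_subtype_val.comp continuous_fst)
    · exact (continuous_apply k).comp continuous_snd
  · intro z w hzw
    refine Prod.ext (Subtype.ext (funext fun i => ?_)) (funext fun k => ?_)
    · have := congrFun hzw (Encodable.encode (Sum.inl i : (ℕ × Γ) ⊕ ℕ))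
      simp only [e, Encodable.encodek] at this
      exact this
    · have := congrFun hzw (Encodable.encode (Sum.inr k : (ℕ × Γ) ⊕ ℕ))
      simp only [e, Encodable.encodek] at this
      exact this
  · intro z U hU hz
    let y : ℕ → W σ := fun n => (z.1, Function.update z.2 n (!(z.2 n)))
    have hy : Tendsto y atTop (𝓝 z) := by
      have h2 : Tendsto (fun n => Function.update z.2 n (!(z.2 n))) atTop (𝓝 z.2) := by
        rw [tendsto_pi_nhds]
        intro m
        refine tendsto_const_nhds.congr' ?_
        filter_upwards [eventually_gt_atTop m] with n hn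
        rw [Function.update_of_ne (ne_of_lt hn)]
      exact (tendsto_const_nhds (x := z.1)).prodMk_nhds h2
    obtain ⟨n, hn⟩ := (hy.eventually (hU.mem_nhds hz)).exists
    refine ⟨y n, hn, fun h => ?_⟩
    have h1 := congrFun (congrArg Prod.snd h) n
    simp [y] at h1

end Pool.Agent.V11106.Fdc
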