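import Mathlib

/-! Lower central series calculus: commutators modulo the next term. -/

namespace Pool.Agent.V11106

open Subgroup commutatorElement

variable {G : Type*} [Group G]

/-- `L m` : the lower central series, `L 0 = ⊤`. -/
abbrev LC (G : Type*) [Group G] (m : ℕ) : Subgroup G := (⊤ : Subgroup G).lowerCentralSeries m

theorem LC_zero : LC G 0 = ⊤ := rfl

theorem LC_succ (m : ℕ) : LC G (m + 1) = ⁅LC G m, (⊤ : Subgroup G)⁆ := rfl

theorem LC_anti {m n : ℕ} (h : m ≤ n) : LC G n ≤ LC G m := Subgroup.lowerCentralSeries_antitone _ h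

/-- The quotient map modulo `L m`. -/
abbrev q (m : ℕ) : G →* G ⧸ LC G m := QuotientGroup.mk' (LC G m)

theorem q_eq_one {m : ℕ} {x : G} : q m x = 1 ↔ x ∈ LC G m := by
  rw [QuotientGroup.mk'_apply, QuotientGroup.eq_one_iff]

theorem q_eq {m : ℕ} {x y : G} : q m x = q m y ↔ x * y⁻¹ ∈ LC G m := by
  rw [← q_eq_one, map_mul, map_inv, mul_inv_eq_one]

theorem comm_mem {m : ℕ} {x : G} (hx : x ∈ LC G m) (g : G) : ⁅g, x⁆ ∈ LC G (m + 1) := by
  rw [← commutatorElement_inv]
  exact inv_mem (commutator_mem_commutator hx (mem_top g))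

theorem comm_mem' {m : ℕ} {x : G} (hx : x ∈ LC G m) (g : G) : ⁅x, g⁆ ∈ LC G (m + 1) :=
  commutator_mem_commutator hx (mem_top g)

/-- Elements of `L m` are central modulo `L (m+1)`. -/
theorem q_comm {m : ℕ} {x : G} (hx : x ∈ LC G m) (g : G) :
    q (m + 1) g * q (m + 1) x = q (m + 1) x * q (m + 1) g := by
  have h := q_eq_one.2 (comm_mem hx g)
  rw [commutatorElement_def, map_mul, map_mul, map_mul, map_inv, map_inv] at h
  rw [mul_inv_eq_one] at h
  exact mul_inv_eq_iff_eq_mul.1 h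

theorem q_le {m n : ℕ} (h : m ≤ n) {x y : G} (hxy : q n x = q n y) : q m x = q m y :=
  q_eq.2 (LC_anti h (q_eq.1 hxy))

/-- left multiplicativity of the commutator -/
theorem q_comm_mul_left {m : ℕ} {u : G} (hu : u ∈ LC G m) (g g' : G) :
    q (m + 2) ⁅g * g', u⁆ = q (m + 2) ⁅g, u⁆ * q (m + 2) ⁅g', u⁆ := by
  have h1 : ⁅g * g', u⁆ = g * ⁅g', u⁆ * g⁻¹ * ⁅g, u⁆ := by
    simp only [commutatorElement_def]; group
  have hc : q (m + 2) g * q (m + 2) ⁅g', u⁆ = q (m + 2) ⁅g', u⁆ * q (m + 2) g :=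
    q_comm (comm_mem hu g') g
  have hc2 : q (m + 2) ⁅g, u⁆ * q (m + 2) ⁅g', u⁆ = q (m + 2) ⁅g', u⁆ * q (m + 2) ⁅g, u⁆ :=
    q_comm (comm_mem hu g') ⁅g, u⁆
  rw [h1, map_mul, map_mul, map_mul, hc, hc2]
  simp only [mul_assoc, map_inv]
  rw [mul_inv_cancel_left]

/-- right multiplicativity of the commutator -/
theorem q_comm_mul_right {m : ℕ} {x y : G} (_hx : x ∈ LC G m) (hy : y ∈ LC G m) (g : G) :
    q (m + 2) ⁅g, x * y⁆ = q (m + 2) ⁅g, x⁆ * q (m + 2) ⁅g, y⁆ := by
  have h1 : ⁅g, x * y⁆ = ⁅g, x⁆ * (x * ⁅g, y⁆ * x⁻¹) := by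
    simp only [commutatorElement_def]; group
  have hc : q (m + 2) x * q (m + 2) ⁅g, y⁆ = q (m + 2) ⁅g, y⁆ * q (m + 2) x :=
    q_comm (comm_mem hy g) x
  rw [h1, map_mul, map_mul, map_mul, hc]
  simp only [mul_assoc, map_inv, mul_inv_cancel, mul_one]

theorem q_comm_one_left (m : ℕ) (u : G) : q m ⁅(1 : G), u⁆ = 1 := by
  simp [commutatorElement_def]

theorem q_comm_one_right (m : ℕ) (u : G) : q m ⁅u, (1 : G)⁆ = 1 := by
  simp [commutatorElement_def]

theorem q_comm_pow_left {m : ℕ} {u : G} (hu : u ∈ LC G m) (g : G) (n : ℕ) :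
    q (m + 2) ⁅g ^ n, u⁆ = q (m + 2) ⁅g, u⁆ ^ n := by
  induction n with
  | zero => rw [pow_zero, q_comm_one_left, pow_zero]
  | succ n ih => rw [pow_succ, q_comm_mul_left hu, ih, pow_succ]

theorem q_comm_pow_right {m : ℕ} {u : G} (hu : u ∈ LC G m) (g : G) (n : ℕ) :
    q (m + 2) ⁅g, u ^ n⁆ = q (m + 2) ⁅g, u⁆ ^ n := by
  induction n with
  | zero => rw [pow_zero, q_comm_one_right, pow_zero]
  | succ n ih => rw [pow_succ, q_comm_mul_right (pow_mem hu n) hu, ih, pow_succ]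

theorem q_comm_inv_left {m : ℕ} {u : G} (hu : u ∈ LC G m) (g : G) :
    q (m + 2) ⁅g⁻¹, u⁆ = (q (m + 2) ⁅g, u⁆)⁻¹ := by
  rw [eq_inv_iff_mul_eq_one, ← q_comm_mul_left hu, inv_mul_cancel, q_comm_one_left]

theorem q_comm_inv_right {m : ℕ} {u : G} (hu : u ∈ LC G m) (g : G) :
    q (m + 2) ⁅g, u⁻¹⁆ = (q (m + 2) ⁅g, u⁆)⁻¹ := by
  rw [eq_inv_iff_mul_eq_one, ← q_comm_mul_right (inv_mem hu) hu, inv_mul_cancel,
    q_comm_one_right]

/-- congruence in the right variable -/
theorem q_comm_congr {m : ℕ} {x y : G} (hy : y ∈ LC G m)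
    (h : q (m + 1) x = q (m + 1) y) (g : G) : q (m + 2) ⁅g, x⁆ = q (m + 2) ⁅g, y⁆ := by
  have h1 : x * y⁻¹ ∈ LC G (m + 1) := q_eq.1 h
  have h2 : x = (x * y⁻¹) * y := by group
  rw [h2, q_comm_mul_right (LC_anti (Nat.le_succ m) h1) hy, q_eq_one.2 (comm_mem h1 g), one_mul]

/-- Nested commutators `⁅h₁, ⁅h₂, … ⁅h_k, x⁆⁆⁆`. -/
def nest (hs : List G) (x : G) : G := hs.foldr (fun h y => ⁅h, y⁆) x

@[simp] theorem nest_nil (x : G) : nest [] x = x := rfl

@[simp] theorem nest_cons (h : G) (hs : List G) (x : G) : nest (h :: hs) x = ⁅h, nest hs x⁆ := rfl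

theorem nest_append (hs : List G) (h x : G) : nest (hs ++ [h]) x = nest hs ⁅h, x⁆ := by
  induction hs with
  | nil => rfl
  | cons g gs ih => rw [List.cons_append, nest_cons, nest_cons, ih]

theorem nest_mem {m : ℕ} {x : G} (hx : x ∈ LC G m) (hs : List G) :
    nest hs x ∈ LC G (m + hs.length) := by
  induction hs with
  | nil => exact hx
  | cons g gs ih => exact comm_mem ih g

theorem nest_mul {m : ℕ} {x y z : G} (hx : x ∈ LC G m) (hy : y ∈ LC G m)
    (h : q (m + 1) z = q (m + 1) (x * y)) (hs : List G) :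
    q (m + hs.length + 1) (nest hs z) =
      q (m + hs.length + 1) (nest hs x * nest hs y) := by
  induction hs with
  | nil => exact h
  | cons g gs ih =>
    have hx' := nest_mem hx gs
    have hy' := nest_mem hy gs
    have h1 := q_comm_congr (mul_mem hx' hy') ih g
    rw [q_comm_mul_right hx' hy', ← map_mul] at h1
    exact h1

theorem nest_one (hs : List G) : nest hs (1 : G) = 1 := by
  induction hs with
  | nil => rfl
  | cons g gs ih => rw [nest_cons, ih]; simp [commutatorElement_def]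

theorem continuous_nest [TopologicalSpace G] [IsTopologicalGroup G] (hs : List G) :
    Continuous (nest hs) := by
  induction hs with
  | nil => exact continuous_id
  | cons g gs ih =>
    have : nest (g :: gs) = fun x => g * nest gs x * g⁻¹ * (nest gs x)⁻¹ := by
      funext x; rw [nest_cons, commutatorElement_def]
    rw [this]
    fun_prop

end Pool.Agent.V11106
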