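import Pool.Agent.V11106.Nil1

/-! Elements with arbitrarily small roots, and quasi-roots along the lower central series. -/

namespace Pool.Agent.V11106

open commutatorElement Filter Topology

variable {G : Type*} [Group G] [TopologicalSpace G] [IsTopologicalGroup G]

/-- `c` has an `n`-th root for all large `n`, and these roots tend to `1`. -/
def Rooted (c : G) : Prop :=
  ∃ f : ℕ → G, Tendsto f atTop (𝓝 1) ∧ ∀ᶠ n in atTop, f n ^ n = c

/-- Quasi-roots: `⁅a, u_n⁆ ^ n = ⁅a, u⁆` modulo `L (m+2)` with `u_n → 1` in `L m`. -/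
def QR (a : G) (m : ℕ) (u : G) : Prop :=
  ∃ f : ℕ → G, (∀ n, f n ∈ LC G m) ∧ Tendsto f atTop (𝓝 1) ∧
    ∀ᶠ n in atTop, q (m + 2) ⁅a, f n⁆ ^ n = q (m + 2) ⁅a, u⁆

theorem QR.one (a : G) (m : ℕ) : QR a m (1 : G) :=
  ⟨fun _ => 1, fun _ => one_mem _, tendsto_const_nhds,
    Eventually.of_forall fun n => by rw [q_comm_one_right, one_pow]⟩

theorem QR.mul {a : G} {m : ℕ} {u v : G} (hu : u ∈ LC G m) (hv : v ∈ LC G m)
    (h1 : QR a m u) (h2 : QR a m v) : QR a m (u * v) := by
  obtain ⟨f, hf, hf1, hf2⟩ := h1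
  obtain ⟨g, hg, hg1, hg2⟩ := h2
  refine ⟨fun n => f n * g n, fun n => mul_mem (hf n) (hg n), ?_, ?_⟩
  · simpa using hf1.mul hg1
  · filter_upwards [hf2, hg2] with n h1 h2
    rw [q_comm_mul_right (hf n) (hg n), q_comm_mul_right hu hv, ← h1, ← h2]
    refine Commute.mul_pow ?_ n
    exact q_comm (comm_mem (hg n) a) ⁅a, f n⁆

theorem QR.inv {a : G} {m : ℕ} {u : G} (hu : u ∈ LC G m)
    (h1 : QR a m u) : QR a m (u⁻¹) := by
  obtain ⟨f, hf, hf1, hf2⟩ := h1
  refine ⟨fun n => (f n)⁻¹, fun n => inv_mem (hf n), ?_, ?_⟩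
  · simpa using hf1.inv
  · filter_upwards [hf2] with n h1
    rw [q_comm_inv_right (hf n), q_comm_inv_right hu, inv_pow, h1]

theorem QR.congr {a : G} {m : ℕ} {u v : G} (hv : v ∈ LC G m)
    (h : q (m + 1) u = q (m + 1) v) (h1 : QR a m v) : QR a m u := by
  obtain ⟨f, hf, hf1, hf2⟩ := h1
  refine ⟨f, hf, hf1, ?_⟩
  filter_upwards [hf2] with n h1
  rw [h1, q_comm_congr hv h]

theorem tendsto_comm {p : G} (a : G) {f : ℕ → G} (hf : Tendsto f atTop (𝓝 p)) :
    Tendsto (fun n => ⁅a, f n⁆) atTop (𝓝 ⁅a, p⁆) := by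
  simp only [commutatorElement_def]
  exact ((tendsto_const_nhds.mul hf).mul tendsto_const_nhds).mul hf.inv

theorem tendsto_comm' {p : G} (a : G) {f : ℕ → G} (hf : Tendsto f atTop (𝓝 p)) :
    Tendsto (fun n => ⁅f n, a⁆) atTop (𝓝 ⁅p, a⁆) := by
  simp only [commutatorElement_def]
  exact ((hf.mul tendsto_const_nhds).mul hf.inv).mul tendsto_const_nhds

theorem qr_of_gen {a : G} (hgen : Subgroup.closure ({a} ∪ {c | Rooted c}) = (⊤ : Subgroup G)) :
    ∀ (m : ℕ) (u : G), u ∈ LC G m → QR a m u := by
  intro m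
  induction m with
  | zero =>
    intro u _
    have hu : u ∈ Subgroup.closure ({a} ∪ {c : G | Rooted c}) := by rw [hgen]; exact Subgroup.mem_top u
    induction hu using Subgroup.closure_induction with
    | mem x hx =>
      rcases hx with hx | hx
      · rw [Set.mem_singleton_iff] at hx
        subst hx
        refine ⟨fun _ => 1, fun _ => one_mem _, tendsto_const_nhds,
          Eventually.of_forall fun n => ?_⟩
        rw [q_comm_one_right, one_pow, commutatorElement_self, map_one]
      · obtain ⟨f, hf, hf2⟩ := hx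
        refine ⟨f, fun _ => Subgroup.mem_top _, hf, ?_⟩
        filter_upwards [hf2] with n hn
        rw [← q_comm_pow_right (Subgroup.mem_top (f n)) a n, hn]
    | one => exact QR.one a 0
    | mul x y _ _ hx hy => exact QR.mul (Subgroup.mem_top x) (Subgroup.mem_top y) (hx (Subgroup.mem_top _)) (hy (Subgroup.mem_top _))
    | inv x _ hx => exact QR.inv (Subgroup.mem_top x) (hx (Subgroup.mem_top _))
  | succ m ihm =>
    -- first: commutators
    have key : ∀ (p : G), p ∈ LC G m → ∀ g : G, QR a (m + 1) ⁅g, p⁆ := by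
      intro p hp g
      have hg : g ∈ Subgroup.closure ({a} ∪ {c : G | Rooted c}) := by rw [hgen]; exact Subgroup.mem_top g
      induction hg using Subgroup.closure_induction with
      | mem x hx =>
        rcases hx with hx | hx
        · rw [Set.mem_singleton_iff] at hx
          subst hx
          obtain ⟨f, hf, hf1, hf2⟩ := ihm p hp
          refine ⟨fun n => ⁅x, f n⁆, fun n => comm_mem (hf n) x, ?_, ?_⟩
          · have := tendsto_comm x hf1
            simpa [commutatorElement_def] using this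
          · filter_upwards [hf2] with n hn
            rw [← q_comm_pow_right (comm_mem (hf n) x) x n]
            refine q_comm_congr (comm_mem hp x) ?_ x
            rw [map_pow]; exact hn
        · obtain ⟨f, hf, hf2⟩ := hx
          refine ⟨fun n => ⁅f n, p⁆, fun n => comm_mem hp (f n), ?_, ?_⟩
          · have := tendsto_comm' p hf
            simpa [commutatorElement_def] using this
          · filter_upwards [hf2] with n hn
            rw [← q_comm_pow_right (comm_mem hp (f n)) a n]
            refine q_comm_congr (comm_mem hp x) ?_ a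
            rw [map_pow, ← q_comm_pow_left hp, hn]
      | one =>
        have : ⁅(1 : G), p⁆ = 1 := by simp [commutatorElement_def]
        rw [this]; exact QR.one a _
      | mul x y _ _ hx hy =>
        refine QR.congr (mul_mem (comm_mem hp x) (comm_mem hp y)) ?_
          (QR.mul (comm_mem hp x) (comm_mem hp y) hx hy)
        rw [q_comm_mul_left hp, map_mul]
      | inv x _ hx =>
        refine QR.congr (inv_mem (comm_mem hp x)) ?_ (QR.inv (comm_mem hp x) hx)
        rw [q_comm_inv_left hp, map_inv]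
    intro u hu
    have hu' : u ∈ Subgroup.closure {x | ∃ p ∈ LC G m, ∃ g ∈ (⊤ : Subgroup G), ⁅p, g⁆ = x} :=
      (Subgroup.mem_lowerCentralSeries_succ_iff (⊤ : Subgroup G) m u).1 hu
    have hle : Subgroup.closure {x | ∃ p ∈ LC G m, ∃ g ∈ (⊤ : Subgroup G), ⁅p, g⁆ = x} = LC G (m + 1) := rfl
    clear hu
    induction hu' using Subgroup.closure_induction with
    | mem x hx =>
      obtain ⟨p, hp, g, -, rfl⟩ := hx
      have h := QR.inv (comm_mem hp g) (key p hp g)
      rwa [commutatorElement_inv] at h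
    | one => exact QR.one a _
    | mul x y hx hy h1 h2 => exact QR.mul (hle ▸ hx) (hle ▸ hy) h1 h2
    | inv x hx h1 => exact QR.inv (hle ▸ hx) h1

end Pool.Agent.V11106
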