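import Pool.Agent.V11106.Nil2

/-! Density of the image of the commutator map with `a`, in the lower central series. -/

namespace Pool.Agent.V11106

open commutatorElement Filter Topology

section alg

variable {G : Type*} [Group G]

/-- Elements of the form `⁅a, u⁆` modulo `L (m+2)`, with `u ∈ L m`. -/
def Kg (a : G) (m : ℕ) : Subgroup G where
  carrier := {x | ∃ u ∈ LC G m, q (m + 2) x = q (m + 2) ⁅a, u⁆}
  mul_mem' := by
    rintro x y ⟨u, hu, hx⟩ ⟨v, hv, hy⟩
    exact ⟨u * v, mul_mem hu hv, by rw [q_comm_mul_right hu hv, map_mul, hx, hy]⟩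
  one_mem' := ⟨1, one_mem _, by rw [q_comm_one_right, map_one]⟩
  inv_mem' := by
    rintro x ⟨u, hu, hx⟩
    exact ⟨u⁻¹, inv_mem hu, by rw [q_comm_inv_right hu, map_inv, hx]⟩

theorem mem_Kg {a : G} {m : ℕ} {x : G} :
    x ∈ Kg a m ↔ ∃ u ∈ LC G m, q (m + 2) x = q (m + 2) ⁅a, u⁆ := Iff.rfl

theorem comm_mem_Kg {a : G} {m : ℕ} {u : G} (hu : u ∈ LC G m) : ⁅a, u⁆ ∈ Kg a m :=
  ⟨u, hu, rfl⟩

theorem LC_le_Kg (a : G) (m : ℕ) : LC G (m + 2) ≤ Kg a m := fun x hx =>
  ⟨1, one_mem _, by rw [q_comm_one_right]; exact q_eq_one.2 hx⟩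

theorem Kg_le (a : G) (m : ℕ) : Kg a m ≤ LC G (m + 1) := by
  rintro x ⟨u, hu, hx⟩
  have h1 := LC_anti (Nat.le_succ (m + 1)) (q_eq.1 hx)
  have h2 : x = (x * ⁅a, u⁆⁻¹) * ⁅a, u⁆ := by group
  rw [h2]
  exact mul_mem h1 (comm_mem hu a)

instance Kg_normal (a : G) (m : ℕ) : (Kg a m).Normal := by
  constructor
  intro x hx g
  have h1 : g * x * g⁻¹ = ⁅g, x⁆ * x := by simp only [commutatorElement_def]; group
  rw [h1]
  exact mul_mem (LC_le_Kg a m (comm_mem (Kg_le a m hx) g)) hx

end alg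

section top

variable {G : Type*} [Group G] [TopologicalSpace G] [IsTopologicalGroup G]
variable {Y : Type*} [TopologicalSpace Y] [MulAction G Y] [ContinuousSMul G Y] [CompactSpace Y]

/-- The closed subgroup generated by `Kg a m` and the stabiliser. -/
def Mg (a : G) (m : ℕ) (v : Y) : Subgroup G :=
  (Kg a m ⊔ MulAction.stabilizer G v).topologicalClosure

omit [ContinuousSMul G Y] [CompactSpace Y] [TopologicalSpace Y] in
theorem Kg_le_Mg (a : G) (m : ℕ) (v : Y) : Kg a m ≤ Mg a m v :=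
  le_trans le_sup_left (Subgroup.le_topologicalClosure _)

omit [ContinuousSMul G Y] [CompactSpace Y] [TopologicalSpace Y] in
theorem stab_le_Mg (a : G) (m : ℕ) (v : Y) : MulAction.stabilizer G v ≤ Mg a m v :=
  le_trans le_sup_right (Subgroup.le_topologicalClosure _)

omit [ContinuousSMul G Y] [CompactSpace Y] [TopologicalSpace Y] in
theorem isClosed_Mg (a : G) (m : ℕ) (v : Y) : IsClosed (Mg a m v : Set G) :=
  Subgroup.isClosed_topologicalClosure _

omit [ContinuousSMul G Y] [CompactSpace Y] [TopologicalSpace Y] in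
theorem Mg_congr {a : G} {m : ℕ} {v : Y} {x y : G} (h : q (m + 2) x = q (m + 2) y)
    (hy : y ∈ Mg a m v) : x ∈ Mg a m v := by
  have h2 : x = (x * y⁻¹) * y := by group
  rw [h2]
  exact mul_mem (Kg_le_Mg a m v (LC_le_Kg a m (q_eq.1 h))) hy

/-- The key extension lemma. -/
theorem key_ext {a : G} (hgen : Subgroup.closure ({a} ∪ {c | Rooted c}) = (⊤ : Subgroup G))
    (hopen : ∀ y : Y, IsOpenMap (fun g : G => g • y)) (htr : ∀ x y : Y, ∃ g : G, g • x = y)
    (v : Y) (m : ℕ) (θ : G → G → G)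
    (h1 : ∀ g g' h, q (m + 2) (θ (g * g') h) = q (m + 2) (θ g h) * q (m + 2) (θ g' h))
    (h2 : ∀ g h h', q (m + 2) (θ g (h * h')) = q (m + 2) (θ g h) * q (m + 2) (θ g h'))
    (h3 : ∀ h, θ a h ∈ Mg a m v) (h3' : ∀ g, ∀ γ ∈ MulAction.stabilizer G v, θ g γ ∈ Mg a m v)
    (h4 : Continuous (fun p : G × G => θ p.1 p.2)) (h5 : ∀ h, θ 1 h = 1) :
    ∀ g h, θ g h ∈ Mg a m v := by
  have hpow1 : ∀ g h (n : ℕ), q (m + 2) (θ (g ^ n) h) = q (m + 2) (θ g h) ^ n := by
    intro g h n
    induction n with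
    | zero => rw [pow_zero, pow_zero, h5, map_one]
    | succ n ih => rw [pow_succ, pow_succ, h1, ih]
  have hone : ∀ g, q (m + 2) (θ g 1) = 1 := by
    intro g
    have := h2 g 1 1
    rw [mul_one] at this
    exact (mul_eq_left.1 this.symm)
  have hpow2 : ∀ g h (n : ℕ), q (m + 2) (θ g (h ^ n)) = q (m + 2) (θ g h) ^ n := by
    intro g h n
    induction n with
    | zero => rw [pow_zero, pow_zero, hone]
    | succ n ih => rw [pow_succ, pow_succ, h2, ih]
  have hroot : ∀ c, Rooted c → ∀ h, θ c h ∈ Mg a m v := by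
    rintro c ⟨f, hf, hf2⟩ h
    by_contra hcon
    -- open neighbourhood of one
    have hN : {ν : G | ν⁻¹ * θ c h ∉ Mg a m v} ∈ 𝓝 (1 : G) := by
      have ho : IsOpen {ν : G | ν⁻¹ * θ c h ∉ Mg a m v} := by
        have hc : Continuous (fun ν : G => ν⁻¹ * θ c h) := by fun_prop
        exact (isClosed_Mg a m v).isOpen_compl.preimage hc
      refine ho.mem_nhds ?_
      simpa using hcon
    have hcov : ∃ A ∈ 𝓝 (1 : G), ∀ z : Y, z ∈ (Set.univ : Set Y) →
        ∃ b : G, b • v = z ∧ ∀ g ∈ A, θ g b ∈ {ν : G | ν⁻¹ * θ c h ∉ Mg a m v} := by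
      refine isCompact_univ.induction_on (p := fun S : Set Y => ∃ A ∈ 𝓝 (1 : G), ∀ z : Y, z ∈ S →
        ∃ b : G, b • v = z ∧ ∀ g ∈ A, θ g b ∈ {ν : G | ν⁻¹ * θ c h ∉ Mg a m v}) ?_ ?_ ?_ ?_
      · exact ⟨Set.univ, Filter.univ_mem, fun z hz => absurd hz (Set.notMem_empty z)⟩
      · rintro s t hst ⟨A, hA, h⟩
        exact ⟨A, hA, fun z hz => h z (hst hz)⟩
      · rintro s t ⟨A, hA, h⟩ ⟨A', hA', h'⟩
        refine ⟨A ∩ A', inter_mem hA hA', fun z hz => ?_⟩
        rcases hz with hz | hz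
        · obtain ⟨b, hb, hb2⟩ := h z hz
          exact ⟨b, hb, fun g hg => hb2 g hg.1⟩
        · obtain ⟨b, hb, hb2⟩ := h' z hz
          exact ⟨b, hb, fun g hg => hb2 g hg.2⟩
      · intro y _
        obtain ⟨h0, hh0⟩ := htr v y
        have hc : ContinuousAt (fun p : G × G => θ p.1 p.2) (1, h0) := h4.continuousAt
        have hN' : {ν : G | ν⁻¹ * θ c h ∉ Mg a m v} ∈ 𝓝 ((fun p : G × G => θ p.1 p.2) (1, h0)) := by
          simpa [h5] using hN
        have := hc.preimage_mem_nhds hN'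
        rw [nhds_prod_eq, mem_prod_iff] at this
        obtain ⟨A, hA, B, hB, hAB⟩ := this
        refine ⟨(fun g : G => g • v) '' B, ?_, A, hA, ?_⟩
        · rw [nhdsWithin_univ, ← hh0]
          exact (hopen v).image_mem_nhds hB
        · rintro z ⟨b, hb, rfl⟩
          exact ⟨b, rfl, fun g hg => hAB (Set.mk_mem_prod hg hb)⟩
    obtain ⟨A, hA, hA2⟩ := hcov
    obtain ⟨n, hn1, hn2⟩ := ((hf.eventually hA).and hf2).exists
    obtain ⟨b, hb, hb2⟩ := hA2 (h ^ n • v) (Set.mem_univ _)
    have hγ : b⁻¹ * h ^ n ∈ MulAction.stabilizer G v := by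
      rw [MulAction.mem_stabilizer_iff, mul_smul, ← hb, inv_smul_smul]
    have hm := hb2 (f n) hn1
    refine hm ?_
    refine Mg_congr ?_ (h3' (f n) _ hγ)
    have e1 : q (m + 2) (θ c h) = q (m + 2) (θ (f n) b) * q (m + 2) (θ (f n) (b⁻¹ * h ^ n)) := by
      rw [← h2, mul_inv_cancel_left, hpow2, ← hpow1, hn2]
    rw [map_mul, map_inv, e1, inv_mul_cancel_left]
  intro g
  have hg : g ∈ Subgroup.closure ({a} ∪ {c : G | Rooted c}) := by rw [hgen]; exact Subgroup.mem_top g
  induction hg using Subgroup.closure_induction with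
  | mem x hx =>
    rcases hx with hx | hx
    · rw [Set.mem_singleton_iff] at hx
      subst hx; exact h3
    · exact hroot x hx
  | one => intro h; rw [h5]; exact one_mem _
  | mul x y _ _ hx hy =>
    intro h
    exact Mg_congr (by rw [h1, map_mul]) (mul_mem (hx h) (hy h))
  | inv x _ hx =>
    intro h
    refine Mg_congr (y := (θ x h)⁻¹) ?_ (inv_mem (hx h))
    rw [map_inv, eq_inv_iff_mul_eq_one, ← h1, inv_mul_cancel, h5, map_one]

omit [ContinuousSMul G Y] [CompactSpace Y] in
/-- the set of `a ^ n * γ` is dense -/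
theorem dense_pow_stab {a : G} (hopen : ∀ y : Y, IsOpenMap (fun g : G => g • y)) (v : Y)
    (hmin : Dense {z : Y | ∃ n : ℕ, 1 ≤ n ∧ z = a ^ n • v}) :
    Dense {x : G | ∃ n : ℕ, ∃ γ ∈ MulAction.stabilizer G v, x = a ^ n * γ} := by
  rw [dense_iff_inter_open]
  rintro O hO ⟨o, ho⟩
  obtain ⟨z, ⟨g, hg, hgz⟩, n, hn, hz⟩ := hmin.inter_open_nonempty _ (hopen v O hO)
    ⟨_, Set.mem_image_of_mem _ ho⟩
  refine ⟨g, hg, n, (a ^ n)⁻¹ * g, ?_, by group⟩
  rw [MulAction.mem_stabilizer_iff, mul_smul]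
  simp only at hgz
  rw [hgz, hz, inv_smul_smul]

theorem LC_le_Mg {a : G} (hgen : Subgroup.closure ({a} ∪ {c | Rooted c}) = (⊤ : Subgroup G))
    (hopen : ∀ y : Y, IsOpenMap (fun g : G => g • y)) (htr : ∀ x y : Y, ∃ g : G, g • x = y)
    (v : Y) (hmin : Dense {z : Y | ∃ n : ℕ, 1 ≤ n ∧ z = a ^ n • v}) (m : ℕ) :
    LC G (m + 1) ≤ Mg a m v := by
  have hcontc : ∀ γ : G, Continuous (fun g : G => ⁅g, γ⁆) := by
    intro γ
    simp only [commutatorElement_def]
    fun_prop
  -- base claim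
  have base : ∀ g : G, ∀ γ ∈ MulAction.stabilizer G v, γ ∈ LC G m → ⁅g, γ⁆ ∈ Mg a m v := by
    intro g γ hγ hγm
    have hcl : IsClosed {g : G | ⁅g, γ⁆ ∈ Mg a m v} := (isClosed_Mg a m v).preimage (hcontc γ)
    have hd := dense_pow_stab hopen v hmin
    have hsub : {x : G | ∃ n : ℕ, ∃ γ ∈ MulAction.stabilizer G v, x = a ^ n * γ} ⊆
        {g : G | ⁅g, γ⁆ ∈ Mg a m v} := by
      rintro x ⟨n, γ', hγ', rfl⟩
      refine Mg_congr (y := ⁅a, γ⁆ ^ n * ⁅γ', γ⁆) ?_ ?_
      · rw [q_comm_mul_left hγm, q_comm_pow_left hγm, map_mul, map_pow]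
      · refine mul_mem (pow_mem (Kg_le_Mg a m v (comm_mem_Kg hγm)) n) (stab_le_Mg a m v ?_)
        rw [commutatorElement_def]
        exact mul_mem (mul_mem (mul_mem hγ' hγ) (inv_mem hγ')) (inv_mem hγ)
    have := hcl.closure_subset_iff.2 hsub
    rw [hd.closure_eq] at this
    exact this (Set.mem_univ g)
  have claim : ∀ k j, k + j = m → ∀ hs : List G, hs.length = k → ∀ g, ∀ γ ∈
      MulAction.stabilizer G v, γ ∈ LC G j → nest (g :: hs) γ ∈ Mg a m v := by
    intro k
    induction k with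
    | zero =>
      intro j hj hs hhs g γ hγ hγj
      rw [List.length_eq_zero_iff] at hhs
      subst hhs
      rw [nest_cons, nest_nil]
      have : j = m := by omega
      subst this
      exact base g γ hγ hγj
    | succ k ih =>
      intro j hj hs hhs g γ hγ hγj
      obtain ⟨hs', h, rfl⟩ : ∃ hs' h, hs = hs' ++ [h] := by
        rcases List.eq_nil_or_concat hs with h0 | ⟨hs', h, h0⟩
        · rw [h0] at hhs; simp at hhs
        · exact ⟨hs', h, by simpa using h0⟩
      have hlen : hs'.length = k := by simpa using hhs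
      rw [← List.cons_append, nest_append]
      refine key_ext hgen hopen htr v m (fun g h => nest (g :: hs') ⁅h, γ⁆) ?_ ?_ ?_ ?_ ?_ ?_ g h
      · intro g g' h
        simp only [nest_cons]
        have h1 : nest hs' ⁅h, γ⁆ ∈ LC G m := by
          have := nest_mem (comm_mem hγj h) hs'
          rwa [show j + 1 + hs'.length = m by omega] at this
        exact q_comm_mul_left h1 g g'
      · intro g h h'
        have h1 : q (j + 1 + 1) ⁅h * h', γ⁆ = q (j + 1 + 1) (⁅h, γ⁆ * ⁅h', γ⁆) := by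
          rw [map_mul]; exact q_comm_mul_left hγj h h'
        have h2 := nest_mul (comm_mem hγj h) (comm_mem hγj h') h1 (g :: hs')
        rw [List.length_cons, show j + 1 + (hs'.length + 1) + 1 = m + 2 by omega, map_mul] at h2
        exact h2
      · intro h
        simp only [nest_cons]
        have h1 : nest hs' ⁅h, γ⁆ ∈ LC G m := by
          have := nest_mem (comm_mem hγj h) hs'
          rwa [show j + 1 + hs'.length = m by omega] at this
        exact Kg_le_Mg a m v (comm_mem_Kg h1)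
      · intro g γ' hγ'
        refine ih (j + 1) (by omega) hs' hlen g _ ?_ (comm_mem hγj γ')
        rw [commutatorElement_def]
        exact mul_mem (mul_mem (mul_mem hγ' hγ) (inv_mem hγ')) (inv_mem hγ)
      · simp only [nest_cons]
        have hc : Continuous (fun p : G × G => nest hs' ⁅p.2, γ⁆) :=
          (continuous_nest hs').comp ((hcontc γ).comp continuous_snd)
        have e : (fun p : G × G => ⁅p.1, nest hs' ⁅p.2, γ⁆⁆) = fun p : G × G =>
            p.1 * nest hs' ⁅p.2, γ⁆ * p.1⁻¹ * (nest hs' ⁅p.2, γ⁆)⁻¹ := by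
          funext p; rw [commutatorElement_def p.1]
        rw [e]
        fun_prop
      · intro h
        simp only [nest_cons]
        simp [commutatorElement_def (g₁ := (1 : G))]
  have claim2 : ∀ hs : List G, hs.length = m → ∀ g h, nest (g :: hs) h ∈ Mg a m v := by
    intro hs hhs g h
    refine key_ext hgen hopen htr v m (fun g h => nest (g :: hs) h) ?_ ?_ ?_ ?_ ?_ ?_ g h
    · intro g g' h
      simp only [nest_cons]
      have h1 : nest hs h ∈ LC G m := by
        have := nest_mem (m := 0) (Subgroup.mem_top h) hs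
        rwa [show 0 + hs.length = m by omega] at this
      exact q_comm_mul_left h1 g g'
    · intro g h h'
      have h2 := nest_mul (m := 0) (Subgroup.mem_top h) (Subgroup.mem_top h') rfl (g :: hs)
      rw [List.length_cons, show 0 + (hs.length + 1) + 1 = m + 2 by omega, map_mul] at h2
      exact h2
    · intro h
      simp only [nest_cons]
      have h1 : nest hs h ∈ LC G m := by
        have := nest_mem (m := 0) (Subgroup.mem_top h) hs
        rwa [show 0 + hs.length = m by omega] at this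
      exact Kg_le_Mg a m v (comm_mem_Kg h1)
    · intro g γ hγ
      exact claim m 0 (by omega) hs hhs g γ hγ (Subgroup.mem_top γ)
    · simp only [nest_cons]
      have hc : Continuous (fun p : G × G => nest hs p.2) :=
        (continuous_nest hs).comp continuous_snd
      have e : (fun p : G × G => ⁅p.1, nest hs p.2⁆) = fun p : G × G =>
          p.1 * nest hs p.2 * p.1⁻¹ * (nest hs p.2)⁻¹ := by
        funext p; rw [commutatorElement_def p.1]
      rw [e]
      fun_prop
    · intro h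
      simp only [nest_cons]
      simp [commutatorElement_def (g₁ := (1 : G))]
  have claim3 : ∀ j k, k + j = m → ∀ hs : List G, hs.length = k → ∀ g, ∀ x ∈ LC G j,
      nest (g :: hs) x ∈ Mg a m v := by
    intro j
    induction j with
    | zero =>
      intro k hk hs hhs g x _
      exact claim2 hs (by omega) g x
    | succ j ih =>
      intro k hk hs hhs g x hx
      have hx' : x ∈ Subgroup.closure {x | ∃ p ∈ LC G j, ∃ g ∈ (⊤ : Subgroup G), ⁅p, g⁆ = x} :=
        (Subgroup.mem_lowerCentralSeries_succ_iff (⊤ : Subgroup G) j x).1 hx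
      have hle : Subgroup.closure {x | ∃ p ∈ LC G j, ∃ g ∈ (⊤ : Subgroup G), ⁅p, g⁆ = x} =
        LC G (j + 1) := rfl
      have hinv : ∀ y ∈ LC G (j + 1), nest (g :: hs) y ∈ Mg a m v →
          nest (g :: hs) y⁻¹ ∈ Mg a m v := by
        intro y hy h1
        have h2 := nest_mul (inv_mem hy) hy (z := 1) (by rw [inv_mul_cancel]) (g :: hs)
        rw [List.length_cons, show j + 1 + (hs.length + 1) + 1 = m + 2 by omega, map_mul,
          nest_one, map_one] at h2
        refine Mg_congr (y := (nest (g :: hs) y)⁻¹) ?_ (inv_mem h1)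
        rw [map_inv, eq_inv_iff_mul_eq_one, ← h2]
      clear hx
      induction hx' using Subgroup.closure_induction with
      | mem x hx =>
        obtain ⟨p, hp, h, -, rfl⟩ := hx
        rw [← commutatorElement_inv]
        refine hinv _ (comm_mem hp h) ?_
        rw [← nest_append]
        exact ih (k + 1) (by omega) (hs ++ [h]) (by simp [hhs]) g p hp
      | one => rw [nest_one]; exact one_mem _
      | mul x y hx hy h1 h2 =>
        have h3 := nest_mul (hle ▸ hx) (hle ▸ hy) rfl (g :: hs)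
        rw [List.length_cons, show j + 1 + (hs.length + 1) + 1 = m + 2 by omega] at h3
        exact Mg_congr h3 (mul_mem h1 h2)
      | inv x hx h1 => exact hinv x (hle ▸ hx) h1
  intro x hx
  have hx' : x ∈ Subgroup.closure {x | ∃ p ∈ LC G m, ∃ g ∈ (⊤ : Subgroup G), ⁅p, g⁆ = x} :=
    (Subgroup.mem_lowerCentralSeries_succ_iff (⊤ : Subgroup G) m x).1 hx
  clear hx
  induction hx' using Subgroup.closure_induction with
  | mem x hx =>
    obtain ⟨p, hp, h, -, rfl⟩ := hx
    rw [← commutatorElement_inv]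
    exact inv_mem (claim3 m 0 (by omega) [] rfl h p hp)
  | one => exact one_mem _
  | mul x y hx hy h1 h2 => exact mul_mem h1 h2
  | inv x hx h1 => exact inv_mem h1

end top

end Pool.Agent.V11106
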