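import Pool.Agent.V11106.Nil3

/-! The dynamical step: return times along the lower central series. -/

namespace Pool.Agent.V11106

open commutatorElement Filter Topology

variable {G : Type*} [Group G] [TopologicalSpace G] [IsTopologicalGroup G]
variable {Y : Type*} [TopologicalSpace Y] [MulAction G Y] [ContinuousSMul G Y] [CompactSpace Y]

omit [CompactSpace Y] in
theorem reach {a : G} {m : ℕ} {v : Y} {V : Set Y} (hV : IsOpen V) (hv : v ∈ V) {h : G}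
    (hh : h ∈ Mg a m v) : ∃ k ∈ Kg a m, k • h • v ∈ V := by
  set Ω : Set G := {x | ∃ k ∈ Kg a m, k • x • v ∈ V} with hΩ
  have hΩo : IsOpen Ω := by
    have : Ω = ⋃ k ∈ Kg a m, {x : G | k • x • v ∈ V} := by
      ext x; simp [hΩ]
    rw [this]
    refine isOpen_biUnion fun k _ => ?_
    have hc : Continuous (fun x : G => k • x • v) := by fun_prop
    exact hV.preimage hc
  have h1 : (1 : G) ∈ Ω := ⟨1, one_mem _, by simpa using hv⟩
  have hinv : ∀ x ∈ Ω, ∀ s ∈ Kg a m ⊔ MulAction.stabilizer G v, x * s ∈ Ω := by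
    rintro x ⟨k, hk, hx⟩ s hs
    rw [← SetLike.mem_coe, Subgroup.normal_mul] at hs
    obtain ⟨k', hk', γ, hγ, rfl⟩ := Set.mem_mul.1 hs
    refine ⟨k * (x * k'⁻¹ * x⁻¹), mul_mem hk ((Kg_normal a m).conj_mem _ (inv_mem hk') x), ?_⟩
    have e : (k * (x * k'⁻¹ * x⁻¹)) • (x * (k' * γ)) • v = k • x • γ • v := by
      simp only [← mul_smul]; congr 1; group
    rw [e, MulAction.mem_stabilizer_iff.1 hγ]
    exact hx
  have hcl : h ∈ closure ((Kg a m ⊔ MulAction.stabilizer G v : Subgroup G) : Set G) := hh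
  have ho : IsOpen {y : G | h * y⁻¹ ∈ Ω} := by
    have hc : Continuous (fun y : G => h * y⁻¹) := by fun_prop
    exact hΩo.preimage hc
  obtain ⟨s, hs1, hs2⟩ := mem_closure_iff.1 hcl _ ho (by simpa using h1)
  have := hinv _ hs1 s hs2
  rwa [inv_mul_cancel_right] at this

theorem isClosed_orbit {a : G} {m : ℕ} {v : Y}
    (hopen : ∀ y : Y, IsOpenMap (fun g : G => g • y)) (htr : ∀ x y : Y, ∃ g : G, g • x = y) :
    IsClosed ((fun g : G => g • v) '' (Mg a m v : Set G)) := by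
  rw [← isOpen_compl_iff]
  have : ((fun g : G => g • v) '' (Mg a m v : Set G))ᶜ =
      (fun g : G => g • v) '' ((Mg a m v : Set G)ᶜ) := by
    ext y
    constructor
    · intro hy
      obtain ⟨g, hg⟩ := htr v y
      refine ⟨g, fun hgm => hy ⟨g, hgm, hg⟩, hg⟩
    · rintro ⟨g, hg, rfl⟩ ⟨g', hg', h⟩
      refine hg ?_
      have h2 : g'⁻¹ * g ∈ MulAction.stabilizer G v := by
        rw [MulAction.mem_stabilizer_iff, mul_smul]
        simp only at h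
        rw [← h, inv_smul_smul]
      have := mul_mem hg' (stab_le_Mg a m v h2)
      rwa [mul_inv_cancel_left] at this
  rw [this]
  exact hopen v _ (isClosed_Mg a m v).isOpen_compl

/-- One step down the lower central series. -/
theorem step {a : G} (hgen : Subgroup.closure ({a} ∪ {c | Rooted c}) = (⊤ : Subgroup G))
    (hopen : ∀ y : Y, IsOpenMap (fun g : G => g • y)) (htr : ∀ x y : Y, ∃ g : G, g • x = y)
    (hmin : ∀ v : Y, Dense {z : Y | ∃ n : ℕ, 1 ≤ n ∧ z = a ^ n • v}) (m : ℕ)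
    {U V : Set Y} (hU : IsOpen U) (hV : IsOpen V) (hU0 : U.Nonempty) (hV0 : V.Nonempty) :
    ∃ U' V' : Set Y, IsOpen U' ∧ IsOpen V' ∧ U'.Nonempty ∧ V'.Nonempty ∧ ∃ n₀ : ℕ, ∀ n, n₀ ≤ n →
      (∃ x ∈ U', ∃ g ∈ LC G (m + 1), ∃ w ∈ V', a ^ n • x = g • w) →
      (∃ x ∈ U, ∃ g ∈ LC G (m + 2), ∃ w ∈ V, a ^ n • x = g • w) := by
  obtain ⟨x₀, hx₀⟩ := hU0
  obtain ⟨v, hv⟩ := hV0
  have hsm : ∀ (y : Y) (S : Set Y), IsOpen S → y ∈ S → ∃ W ∈ 𝓝 (1 : G), ∃ T : Set Y, IsOpen T ∧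
      y ∈ T ∧ ∀ g ∈ W, ∀ z ∈ T, g • z ∈ S := by
    intro y S hS hy
    have hc : ContinuousAt (fun p : G × Y => p.1 • p.2) (1, y) := continuous_smul.continuousAt
    have : S ∈ 𝓝 ((fun p : G × Y => p.1 • p.2) (1, y)) := by
      simpa using hS.mem_nhds hy
    have h2 := hc.preimage_mem_nhds this
    rw [nhds_prod_eq, mem_prod_iff] at h2
    obtain ⟨W, hW, T, hT, hWT⟩ := h2
    obtain ⟨T', hT', hT'o, hyT'⟩ := mem_nhds_iff.1 hT
    exact ⟨W, hW, T', hT'o, hyT', fun g hg z hz => hWT (Set.mk_mem_prod hg (hT' hz))⟩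
  obtain ⟨W₁, hW₁, V₀, hV₀o, hvV₀, hWV⟩ := hsm v V hV hv
  obtain ⟨W₂, hW₂, U'', hU''o, hxU'', hWU⟩ := hsm x₀ U hU hx₀
  have hW : W₁ ∩ W₂ ∈ 𝓝 (1 : G) := inter_mem hW₁ hW₂
  set C : Set Y := (fun g : G => g • v) '' (Mg a m v : Set G) with hC
  have hCc : IsCompact C := (isClosed_orbit hopen htr).isCompact
  have hcov : ∃ O : Set Y, IsOpen O ∧ C ⊆ O ∧ ∃ n₁ : ℕ, ∀ n, n₁ ≤ n → ∀ z ∈ O,
      ∃ u ∈ LC G m, u ∈ W₁ ∩ W₂ ∧ ∃ k ∈ LC G (m + 1), k • z ∈ V₀ ∧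
        q (m + 2) ⁅a, u⁆ ^ n = q (m + 2) k := by
    refine hCc.induction_on (p := fun S : Set Y => ∃ O : Set Y, IsOpen O ∧ S ⊆ O ∧ ∃ n₁ : ℕ,
      ∀ n, n₁ ≤ n → ∀ z ∈ O, ∃ u ∈ LC G m, u ∈ W₁ ∩ W₂ ∧ ∃ k ∈ LC G (m + 1), k • z ∈ V₀ ∧
        q (m + 2) ⁅a, u⁆ ^ n = q (m + 2) k) ?_ ?_ ?_ ?_
    · exact ⟨∅, isOpen_empty, Set.Subset.rfl, 0, fun n _ z hz => absurd hz (Set.notMem_empty z)⟩
    · rintro s t hst ⟨O, hO, htO, h⟩
      exact ⟨O, hO, hst.trans htO, h⟩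
    · rintro s t ⟨O, hO, htO, n₁, h⟩ ⟨O', hO', htO', n₁', h'⟩
      refine ⟨O ∪ O', hO.union hO', Set.union_subset_union htO htO', max n₁ n₁',
        fun n hn z hz => ?_⟩
      rcases hz with hz | hz
      · exact h n (le_trans (le_max_left _ _) hn) z hz
      · exact h' n (le_trans (le_max_right _ _) hn) z hz
    · rintro y ⟨h, hh, rfl⟩
      obtain ⟨k, hk, hkV⟩ := reach hV₀o hvV₀ hh
      obtain ⟨u, hu, hku⟩ := hk
      obtain ⟨f, hf, hf1, hf2⟩ := qr_of_gen hgen m u hu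
      obtain ⟨n₁, hn₁⟩ := eventually_atTop.1 ((hf1.eventually hW).and hf2)
      have ho : IsOpen {z : Y | k • z ∈ V₀} := hV₀o.preimage (continuous_const_smul k)
      refine ⟨{z : Y | k • z ∈ V₀}, mem_nhdsWithin_of_mem_nhds (ho.mem_nhds hkV),
        {z : Y | k • z ∈ V₀}, ho, Set.Subset.rfl, n₁, fun n hn z hz => ?_⟩
      exact ⟨f n, hf n, (hn₁ n hn).1, k, Kg_le a m ⟨u, hu, hku⟩, hz, by rw [(hn₁ n hn).2, hku]⟩
  obtain ⟨O, hO, hCO, n₁, hn₁⟩ := hcov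
  have htube : ∃ H : Set G, IsOpen H ∧ (1 : G) ∈ H ∧ ∀ g ∈ H, ∀ y ∈ C, g • y ∈ O := by
    have ho : IsOpen {p : G × Y | p.1 • p.2 ∈ O} := hO.preimage continuous_smul
    obtain ⟨H, T, hH, hT, h1H, hCT, hHT⟩ := generalized_tube_lemma (isCompact_singleton (x := (1 : G)))
      hCc ho (by
        rintro ⟨g, y⟩ ⟨hg, hy⟩
        simp only [Set.mem_singleton_iff] at hg
        subst hg
        simpa using hCO hy)
    exact ⟨H, hH, h1H (Set.mem_singleton _), fun g hg y hy => hHT (Set.mk_mem_prod hg (hCT hy))⟩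
  obtain ⟨H, hH, h1H, hHC⟩ := htube
  refine ⟨U'', (fun g : G => g • v) '' H, hU''o, hopen v H hH, ⟨x₀, hxU''⟩,
    ⟨_, Set.mem_image_of_mem _ h1H⟩, n₁, ?_⟩
  rintro n hn ⟨x, hx, g, hg, w, ⟨h, hhH, rfl⟩, hxw⟩
  simp only at hxw
  have hconj : h⁻¹ * g * h ∈ LC G (m + 1) := by
    have := (inferInstance : (LC G (m + 1)).Normal).conj_mem g hg h⁻¹
    simpa using this
  have hzO : g • h • v ∈ O := by
    have e : g • h • v = h • (h⁻¹ * g * h) • v := by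
      simp only [← mul_smul]; congr 1; group
    rw [e]
    exact hHC h hhH _ ⟨_, LC_le_Mg hgen hopen htr v (hmin v) m hconj, rfl⟩
  obtain ⟨u, hu, huW, k, hk, hkz, huk⟩ := hn₁ n hn _ hzO
  refine ⟨u • x, hWU u huW.2 x hx, (⁅a ^ n, u⁆ * k⁻¹) * ⁅k, u⁆, ?_, u • k • g • h • v,
    hWV u huW.1 _ hkz, ?_⟩
  · refine mul_mem ?_ (comm_mem' hk u)
    rw [← q_eq, q_comm_pow_left hu, huk]
  · have e : a ^ n • u • x = (⁅a ^ n, u⁆ * u) • a ^ n • x := by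
      simp only [← mul_smul, commutatorElement_def]; congr 1; group
    rw [e, hxw]
    simp only [← mul_smul, commutatorElement_def]; congr 1; group

/-- Return times of a minimal nilsystem are controlled by the maximal abelian factor. -/
theorem descend {a : G} (hgen : Subgroup.closure ({a} ∪ {c | Rooted c}) = (⊤ : Subgroup G))
    (hopen : ∀ y : Y, IsOpenMap (fun g : G => g • y)) (htr : ∀ x y : Y, ∃ g : G, g • x = y)
    (hmin : ∀ v : Y, Dense {z : Y | ∃ n : ℕ, 1 ≤ n ∧ z = a ^ n • v})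
    (s : ℕ) (hs : LC G (s + 1) = ⊥)
    {U V : Set Y} (hU : IsOpen U) (hV : IsOpen V) (hU0 : U.Nonempty) (hV0 : V.Nonempty) :
    ∃ U' V' : Set Y, IsOpen U' ∧ IsOpen V' ∧ U'.Nonempty ∧ V'.Nonempty ∧ ∃ n₀ : ℕ, ∀ n, n₀ ≤ n →
      (∃ x ∈ U', ∃ g ∈ LC G 1, ∃ w ∈ V', a ^ n • x = g • w) → (∃ x ∈ U, a ^ n • x ∈ V) := by
  have main : ∀ j i, i + j = s → ∃ U' V' : Set Y, IsOpen U' ∧ IsOpen V' ∧ U'.Nonempty ∧
      V'.Nonempty ∧ ∃ n₀ : ℕ, ∀ n, n₀ ≤ n →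
      (∃ x ∈ U', ∃ g ∈ LC G (i + 1), ∃ w ∈ V', a ^ n • x = g • w) → (∃ x ∈ U, a ^ n • x ∈ V) := by
    intro j
    induction j with
    | zero =>
      intro i hi
      refine ⟨U, V, hU, hV, hU0, hV0, 0, ?_⟩
      rintro n - ⟨x, hx, g, hg, w, hw, h⟩
      rw [show i + 1 = s + 1 by omega, hs, Subgroup.mem_bot] at hg
      subst hg
      exact ⟨x, hx, by rw [h, one_smul]; exact hw⟩
    | succ j ih =>
      intro i hi
      obtain ⟨U', V', hU', hV', hU'0, hV'0, n₀, h⟩ := ih (i + 1) (by omega)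
      obtain ⟨U'', V'', hU'', hV'', hU''0, hV''0, n₁, h'⟩ :=
        step hgen hopen htr hmin i hU' hV' hU'0 hV'0
      exact ⟨U'', V'', hU'', hV'', hU''0, hV''0, max n₀ n₁, fun n hn hh =>
        h n (le_trans (le_max_left _ _) hn) (h' n (le_trans (le_max_right _ _) hn) hh)⟩
  exact main s 0 (by omega)

end Pool.Agent.V11106
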