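import Pool.Agent.V11106.Nil4

/-! Rotations on compact groups and `R_e`-sequences. -/

namespace Pool.Agent.V11106

open Filter Topology

/-- A self-map is minimal if all forward orbits `{T^n x : n ≥ 1}` are dense. -/
def IsMinimalMap {X : Type*} [TopologicalSpace X] (T : X → X) : Prop :=
  ∀ x : X, Dense {y : X | ∃ n : ℕ, 1 ≤ n ∧ y = T^[n] x}

/-- `A` is an `R_e`-sequence: every (nonempty) minimal equicontinuous system on a compact metric
space has a point whose orbit along `A` is dense. -/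
def IsReSequence (A : Set ℕ) : Prop :=
  ∀ (X : Type) [MetricSpace X] [CompactSpace X] [Nonempty X] (T : X → X),
    Continuous T → Function.Surjective T → IsMinimalMap T →
    Equicontinuous (fun n : ℕ => T^[n]) →
    ∃ x : X, Dense {y : X | ∃ n ∈ A, y = T^[n] x}

section rot

variable {P : Type*} [Group P] [TopologicalSpace P] [IsTopologicalGroup P] [CompactSpace P]
  [T2Space P]

theorem one_mem_closure_pow (t : P) (N : ℕ) : (1 : P) ∈ closure {x : P | ∃ n : ℕ, N ≤ n ∧ x = t ^ n} := by
  have hc : IsCompact (closure {x : P | ∃ n : ℕ, N ≤ n ∧ x = t ^ n}) := isClosed_closure.isCompact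
  have hmul : ∀ x ∈ closure {x : P | ∃ n : ℕ, N ≤ n ∧ x = t ^ n},
      ∀ y ∈ closure {x : P | ∃ n : ℕ, N ≤ n ∧ x = t ^ n},
      x * y ∈ closure {x : P | ∃ n : ℕ, N ≤ n ∧ x = t ^ n} := by
    intro x hx y hy
    refine map_mem_closure₂ continuous_mul hx hy ?_
    rintro _ ⟨n, hn, rfl⟩ _ ⟨m, hm, rfl⟩
    exact ⟨n + m, by omega, by rw [pow_add]⟩
  obtain ⟨m, hm, hmm⟩ := exists_idempotent_in_compact_subsemigroup
    (fun r : P => continuous_mul_const r) (closure {x : P | ∃ n : ℕ, N ≤ n ∧ x = t ^ n})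
    ⟨t ^ N, subset_closure ⟨N, le_rfl, rfl⟩⟩ hc hmul
  have : m = 1 := mul_eq_left.1 hmm
  rwa [this] at hm

theorem zpow_mem_closure_pow (t : P) (k : ℤ) :
    t ^ k ∈ closure {x : P | ∃ n : ℕ, 1 ≤ n ∧ x = t ^ n} := by
  have h := one_mem_closure_pow t (k.natAbs + 1)
  have h2 : t ^ k * 1 ∈ closure {x : P | ∃ n : ℕ, 1 ≤ n ∧ x = t ^ n} := by
    refine map_mem_closure (continuous_const_mul (t ^ k)) h ?_
    rintro _ ⟨n, hn, rfl⟩
    refine ⟨(k + n).toNat, by omega, ?_⟩
    rw [← zpow_natCast, ← zpow_natCast, ← zpow_add]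
    congr 1
    omega
  rwa [mul_one] at h2

theorem dense_pow_of_dense_zpow {t : P} (ht : Dense (Subgroup.zpowers t : Set P)) (x : P) :
    Dense {y : P | ∃ n : ℕ, 1 ≤ n ∧ y = t ^ n * x} := by
  have h1 : Dense {x : P | ∃ n : ℕ, 1 ≤ n ∧ x = t ^ n} := by
    rw [dense_iff_closure_eq, ← Set.univ_subset_iff, ← ht.closure_eq]
    refine closure_minimal ?_ isClosed_closure
    rintro _ ⟨k, rfl⟩
    exact zpow_mem_closure_pow t k
  have h2 : {y : P | ∃ n : ℕ, 1 ≤ n ∧ y = t ^ n * x} =
      (Homeomorph.mulRight x) '' {x : P | ∃ n : ℕ, 1 ≤ n ∧ x = t ^ n} := by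
    ext y
    constructor
    · rintro ⟨n, hn, rfl⟩
      exact ⟨t ^ n, ⟨n, hn, rfl⟩, rfl⟩
    · rintro ⟨_, ⟨n, hn, rfl⟩, rfl⟩
      exact ⟨n, hn, rfl⟩
  rw [h2]
  exact (Homeomorph.mulRight x).surjective.denseRange.dense_image
    (Homeomorph.mulRight x).continuous h1

omit [TopologicalSpace P] [IsTopologicalGroup P] [CompactSpace P] [T2Space P] in
theorem iterate_mul_left (t x : P) (n : ℕ) : (fun y : P => t * y)^[n] x = t ^ n * x := by
  rw [mul_left_iterate]

end rot

/-- An `R_e`-sequence is dense along rotations of compact metrizable groups. -/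
theorem re_rotation {A : Set ℕ} (hA : IsReSequence A) {P : Type} [Group P] [TopologicalSpace P]
    [IsTopologicalGroup P] [CompactSpace P] [T2Space P] [SecondCountableTopology P] {t : P}
    (ht : Dense (Subgroup.zpowers t : Set P)) :
    ∃ x : P, Dense {y : P | ∃ n ∈ A, y = t ^ n * x} := by
  let _ : MetricSpace P := TopologicalSpace.metrizableSpaceMetric P
  have hc : Continuous (fun y : P => t * y) := continuous_const_mul t
  have hs : Function.Surjective (fun y : P => t * y) := fun y => ⟨t⁻¹ * y, by simp⟩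
  have hm : IsMinimalMap (fun y : P => t * y) := by
    intro x
    simp only [iterate_mul_left]
    exact dense_pow_of_dense_zpow ht x
  have he : Equicontinuous (fun n : ℕ => (fun y : P => t * y)^[n]) := by
    have huc : UniformContinuous (fun p : P × P => p.1 * p.2) :=
      CompactSpace.uniformContinuous_of_continuous continuous_mul
    rw [Metric.uniformContinuous_iff] at huc
    intro x
    rw [Metric.equicontinuousAt_iff]
    intro ε hε
    obtain ⟨δ, hδ, h⟩ := huc ε hε
    refine ⟨δ, hδ, fun y hy n => ?_⟩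
    simp only [iterate_mul_left]
    refine h (a := (t ^ n, x)) (b := (t ^ n, y)) ?_
    rw [Prod.dist_eq, dist_self, dist_comm x y]
    exact max_lt hδ hy
  obtain ⟨x, hx⟩ := hA P (fun y : P => t * y) hc hs hm he
  refine ⟨x, ?_⟩
  simpa only [iterate_mul_left] using hx

end Pool.Agent.V11106
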