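import Pool.Agent.V11106.Nil5

/-! The maximal abelian factor and the Baire argument. -/

namespace Pool.Agent.V11106

open commutatorElement Filter Topology

variable {G : Type} [Group G] [TopologicalSpace G] [IsTopologicalGroup G]
variable {Y : Type*} [TopologicalSpace Y] [MulAction G Y] [ContinuousSMul G Y] [CompactSpace Y]

/-- The closed normal subgroup generated by the commutators and the stabiliser of `v`. -/
def Nab (G : Type) [Group G] [TopologicalSpace G] [IsTopologicalGroup G] {Y : Type*}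
    [MulAction G Y] (v : Y) : Subgroup G :=
  (LC G 1 ⊔ MulAction.stabilizer G v).topologicalClosure

omit [TopologicalSpace Y] [ContinuousSMul G Y] [CompactSpace Y] in
theorem LC_le_Nab (v : Y) : LC G 1 ≤ Nab G v :=
  le_trans le_sup_left (Subgroup.le_topologicalClosure _)

omit [TopologicalSpace Y] [ContinuousSMul G Y] [CompactSpace Y] in
theorem stab_le_Nab (v : Y) : MulAction.stabilizer G v ≤ Nab G v :=
  le_trans le_sup_right (Subgroup.le_topologicalClosure _)

instance Nab_normal (v : Y) : (Nab G v).Normal := by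
  constructor
  intro x hx g
  have h1 : g * x * g⁻¹ = ⁅g, x⁆ * x := by simp only [commutatorElement_def]; group
  rw [h1]
  exact mul_mem (LC_le_Nab v (comm_mem (m := 0) (Subgroup.mem_top x) g)) hx

instance Nab_closed (v : Y) : IsClosed (Nab G v : Set G) :=
  Subgroup.isClosed_topologicalClosure _

/-- the factor map to the maximal abelian factor -/
theorem exists_factor (hopen : ∀ y : Y, IsOpenMap (fun g : G => g • y))
    (htr : ∀ x y : Y, ∃ g : G, g • x = y) (v : Y) :
    ∃ φ : Y → G ⧸ Nab G v, Continuous φ ∧ IsOpenMap φ ∧ Function.Surjective φ ∧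
      ∀ g : G, φ (g • v) = QuotientGroup.mk g := by
  choose c hc using htr v
  have key : ∀ g : G, (QuotientGroup.mk (c (g • v)) : G ⧸ Nab G v) = QuotientGroup.mk g := by
    intro g
    rw [QuotientGroup.eq]
    refine stab_le_Nab v ?_
    rw [MulAction.mem_stabilizer_iff, mul_smul, ← hc (g • v), hc (g • v), inv_smul_eq_iff, hc]
  refine ⟨fun y => QuotientGroup.mk (c y), ?_, ?_, ?_, key⟩
  · rw [continuous_def]
    intro O hO
    have : (fun y => (QuotientGroup.mk (c y) : G ⧸ Nab G v)) ⁻¹' O =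
        (fun g : G => g • v) '' ((fun g : G => (QuotientGroup.mk g : G ⧸ Nab G v)) ⁻¹' O) := by
      ext y
      constructor
      · intro hy
        exact ⟨c y, hy, hc y⟩
      · rintro ⟨g, hg, rfl⟩
        change (QuotientGroup.mk (c (g • v)) : G ⧸ Nab G v) ∈ O
        rw [key]; exact hg
    rw [this]
    exact hopen v _ (hO.preimage QuotientGroup.continuous_mk)
  · intro O hO
    have : (fun y => (QuotientGroup.mk (c y) : G ⧸ Nab G v)) '' O =
        (fun g : G => (QuotientGroup.mk g : G ⧸ Nab G v)) '' ((fun g : G => g • v) ⁻¹' O) := by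
      ext y
      constructor
      · rintro ⟨z, hz, rfl⟩
        exact ⟨c z, by simpa [hc] using hz, rfl⟩
      · rintro ⟨g, hg, rfl⟩
        exact ⟨g • v, hg, key g⟩
    rw [this]
    refine QuotientGroup.isOpenMap_coe _ (hO.preimage ?_)
    exact continuous_id.smul continuous_const
  · intro p
    obtain ⟨g, rfl⟩ := QuotientGroup.mk_surjective p
    exact ⟨g • v, key g⟩

theorem hits {A : Set ℕ} (hA : IsReSequence A) [SecondCountableTopology Y] {a : G}
    (hgen : Subgroup.closure ({a} ∪ {c | Rooted c}) = (⊤ : Subgroup G))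
    (hopen : ∀ y : Y, IsOpenMap (fun g : G => g • y)) (htr : ∀ x y : Y, ∃ g : G, g • x = y)
    (hmin : ∀ v : Y, Dense {z : Y | ∃ n : ℕ, 1 ≤ n ∧ z = a ^ n • v})
    (s : ℕ) (hs : LC G (s + 1) = ⊥)
    {U V : Set Y} (hU : IsOpen U) (hV : IsOpen V) (hU0 : U.Nonempty) (hV0 : V.Nonempty) :
    ∃ n ∈ A, ∃ x ∈ U, a ^ n • x ∈ V := by
  obtain ⟨U', V', hU', hV', ⟨x₀, hx₀⟩, hV'0, n₀, hn₀⟩ :=
    descend hgen hopen htr hmin s hs hU hV hU0 hV0
  -- a large return time for the factor
  obtain ⟨N, hN1, hN2⟩ : ∃ N : ℕ, n₀ ≤ N ∧ a ^ N • x₀ ∈ V' := by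
    obtain ⟨z, hz, n, hn, rfl⟩ := (hmin (a ^ n₀ • x₀)).inter_open_nonempty _ hV' hV'0
    exact ⟨n + n₀, by omega, by rw [pow_add, mul_smul]; exact hz⟩
  -- the open set in the group
  set Ω : Set G := {g | ∃ l ∈ LC G 1, ∃ w ∈ V', g • x₀ = l • w} with hΩ
  have hΩo : IsOpen Ω := by
    have : Ω = ⋃ l ∈ LC G 1, {g : G | l⁻¹ • g • x₀ ∈ V'} := by
      ext g
      simp only [hΩ, Set.mem_ofPred_eq, Set.mem_iUnion, exists_prop]
      constructor
      · rintro ⟨l, hl, w, hw, h⟩
        exact ⟨l, hl, by rw [h, inv_smul_smul]; exact hw⟩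
      · rintro ⟨l, hl, h⟩
        exact ⟨l, hl, _, h, by rw [smul_inv_smul]⟩
    rw [this]
    refine isOpen_biUnion fun l _ => ?_
    have hc : Continuous (fun g : G => l⁻¹ • g • x₀) := by fun_prop
    exact hV'.preimage hc
  have hinv : ∀ x ∈ Ω, ∀ s ∈ LC G 1 ⊔ MulAction.stabilizer G x₀, x * s ∈ Ω := by
    rintro x ⟨l, hl, w, hw, hx⟩ s hs
    rw [← SetLike.mem_coe, Subgroup.normal_mul] at hs
    obtain ⟨k', hk', γ, hγ, rfl⟩ := Set.mem_mul.1 hs
    refine ⟨x * k' * x⁻¹ * l, mul_mem (Subgroup.Normal.conj_mem inferInstance _ hk' x) hl, w,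
      hw, ?_⟩
    rw [mul_smul _ l w, ← hx, ← mul_smul, ← mul_assoc, mul_smul, MulAction.mem_stabilizer_iff.1 hγ]
    congr 1; group
  have hΩN : ∀ x : G, (∃ g ∈ Ω, (QuotientGroup.mk g : G ⧸ Nab G x₀) = QuotientGroup.mk x) →
      x ∈ Ω := by
    rintro x ⟨g, hg, hgx⟩
    rw [QuotientGroup.eq] at hgx
    have hcl : g⁻¹ * x ∈ closure ((LC G 1 ⊔ MulAction.stabilizer G x₀ : Subgroup G) : Set G) := hgx
    have ho : IsOpen {y : G | x * y⁻¹ ∈ Ω} := by
      have hc : Continuous (fun y : G => x * y⁻¹) := by fun_prop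
      exact hΩo.preimage hc
    obtain ⟨s, hs1, hs2⟩ := mem_closure_iff.1 hcl _ ho (by simpa using hg)
    have := hinv _ hs1 s hs2
    rwa [inv_mul_cancel_right] at this
  obtain ⟨φ, hφc, hφo, hφs, hφ⟩ := exists_factor hopen htr x₀
  have hQc : CompactSpace (G ⧸ Nab G x₀) := by
    rw [← isCompact_univ_iff, ← Set.range_eq_univ.2 hφs]
    exact isCompact_range hφc
  have hQs : SecondCountableTopology (G ⧸ Nab G x₀) :=
    (hφo.isQuotientMap hφc hφs).secondCountableTopology hφo
  have hQt : T2Space (G ⧸ Nab G x₀) := inferInstance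
  -- the product with a cyclic group
  let _ : TopologicalSpace (ZMod (N + 1)) := ⊥
  have hd : DiscreteTopology (ZMod (N + 1)) := ⟨rfl⟩
  have hF : Finite (ZMod (N + 1)) := inferInstance
  have hF2 : Finite (Multiplicative (ZMod (N + 1))) := hF
  have hF3 : Countable (Multiplicative (ZMod (N + 1))) := Finite.to_countable
  have hF4 : SecondCountableTopology (Multiplicative (ZMod (N + 1))) := inferInstance
  let t : (G ⧸ Nab G x₀) × Multiplicative (ZMod (N + 1)) :=
    (QuotientGroup.mk a, Multiplicative.ofAdd 1)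
  let H : Subgroup ((G ⧸ Nab G x₀) × Multiplicative (ZMod (N + 1))) :=
    (Subgroup.zpowers t).topologicalClosure
  have htH : t ∈ H := Subgroup.le_topologicalClosure _ (Subgroup.mem_zpowers t)
  have hHc : CompactSpace H := isCompact_iff_compactSpace.1
    (Subgroup.isClosed_topologicalClosure _).isCompact
  have hdense : Dense (Subgroup.zpowers (⟨t, htH⟩ : H) : Set H) := by
    intro x
    rw [closure_subtype]
    have hx : (x : (G ⧸ Nab G x₀) × Multiplicative (ZMod (N + 1))) ∈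
      closure (Subgroup.zpowers t : Set _) := x.2
    refine closure_mono ?_ hx
    rintro _ ⟨k, rfl⟩
    exact ⟨(⟨t, htH⟩ : H) ^ k, ⟨k, rfl⟩, rfl⟩
  have hH2 : SecondCountableTopology H :=
    TopologicalSpace.Subtype.secondCountableTopology _
  obtain ⟨ξ, hξ⟩ := re_rotation hA hdense
  -- the target open set
  have hΩq : IsOpen ((fun g : G => (QuotientGroup.mk g : G ⧸ Nab G x₀)) '' Ω) :=
    QuotientGroup.isOpenMap_coe _ hΩo
  set W : Set H := {x : H | ((x * ξ⁻¹ : H) : (G ⧸ Nab G x₀) × Multiplicative (ZMod (N + 1))) ∈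
    ((fun g : G => (QuotientGroup.mk g : G ⧸ Nab G x₀)) '' Ω) ×ˢ
      ({Multiplicative.ofAdd (N : ZMod (N + 1))} : Set (Multiplicative (ZMod (N + 1))))} with hW
  have hWo : IsOpen W := by
    have hc : Continuous (fun x : H => ((x * ξ⁻¹ : H) :
      (G ⧸ Nab G x₀) × Multiplicative (ZMod (N + 1)))) := by fun_prop
    exact (hΩq.prod (isOpen_discrete _)).preimage hc
  have htn : ∀ n : ℕ, (((⟨t, htH⟩ : H) ^ n : H) :
      (G ⧸ Nab G x₀) × Multiplicative (ZMod (N + 1))) =
      (QuotientGroup.mk (a ^ n), Multiplicative.ofAdd (n : ZMod (N + 1))) := by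
    intro n
    rw [Subgroup.coe_pow]
    refine Prod.ext ?_ ?_
    · rw [Prod.pow_fst]; rfl
    · rw [Prod.pow_snd]
      change (Multiplicative.ofAdd (1 : ZMod (N + 1))) ^ n = _
      rw [← ofAdd_nsmul]; simp
  have hWne : W.Nonempty := by
    refine ⟨(⟨t, htH⟩ : H) ^ N * ξ, ?_⟩
    rw [hW, Set.mem_ofPred_eq, mul_inv_cancel_right, htn]
    exact ⟨⟨a ^ N, ⟨1, one_mem _, _, hN2, by rw [one_smul]⟩, rfl⟩, rfl⟩
  obtain ⟨z, hz, n, hnA, hzn⟩ := hξ.inter_open_nonempty W hWo hWne
  rw [hW, Set.mem_ofPred_eq, hzn, mul_inv_cancel_right, htn] at hz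
  obtain ⟨hz1, hz2⟩ := hz
  have hnN : n₀ ≤ n := by
    have h1 : (n : ZMod (N + 1)) = (N : ZMod (N + 1)) := by
      have := Set.mem_singleton_iff.1 hz2
      exact Multiplicative.ofAdd.injective this
    rw [ZMod.natCast_eq_natCast_iff', Nat.mod_eq_of_lt (Nat.lt_succ_self N)] at h1
    have := Nat.mod_le n (N + 1)
    omega
  have hmem : a ^ n ∈ Ω := by
    obtain ⟨g, hg, hgn⟩ := hz1
    exact hΩN _ ⟨g, hg, hgn⟩
  obtain ⟨l, hl, w, hw, h⟩ := hmem
  exact ⟨n, hnA, hn₀ n hnN ⟨x₀, hx₀, l, hl, w, hw, h⟩⟩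

/-- Dense orbits along `R_e`-sequences, for actions of topological groups generated by `a` and
elements with small roots. -/
theorem exists_dense {A : Set ℕ} (hA : IsReSequence A) [SecondCountableTopology Y] [T2Space Y]
    [Nonempty Y] {a : G}
    (hgen : Subgroup.closure ({a} ∪ {c | Rooted c}) = (⊤ : Subgroup G))
    (hopen : ∀ y : Y, IsOpenMap (fun g : G => g • y)) (htr : ∀ x y : Y, ∃ g : G, g • x = y)
    (hmin : ∀ v : Y, Dense {z : Y | ∃ n : ℕ, 1 ≤ n ∧ z = a ^ n • v})
    (s : ℕ) (hs : LC G (s + 1) = ⊥) :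
    ∃ y : Y, Dense {z : Y | ∃ n ∈ A, z = a ^ n • y} := by
  have hB := TopologicalSpace.isBasis_countableBasis Y
  have hdense : Dense (⋂ V ∈ TopologicalSpace.countableBasis Y, ⋃ n ∈ A, {y : Y | a ^ n • y ∈ V}) := by
    refine dense_biInter_of_isOpen ?_ (TopologicalSpace.countable_countableBasis Y) ?_
    · intro V hV
      refine isOpen_biUnion fun n _ => ?_
      exact (hB.isOpen hV).preimage (continuous_const_smul (a ^ n))
    · intro V hV
      rw [dense_iff_inter_open]
      intro U hU hU0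
      obtain ⟨n, hn, x, hx, hxV⟩ := hits hA hgen hopen htr hmin s hs hU (hB.isOpen hV) hU0
        (TopologicalSpace.nonempty_of_mem_countableBasis hV)
      exact ⟨x, hx, Set.mem_biUnion hn hxV⟩
  obtain ⟨y, hy⟩ := hdense.nonempty
  refine ⟨y, hB.dense_iff.2 ?_⟩
  intro V hV hV0
  have h1 := Set.mem_iInter₂.1 hy V hV
  obtain ⟨n, hn, h2⟩ := Set.mem_iUnion₂.1 h1
  exact ⟨_, h2, n, hn, rfl⟩

end Pool.Agent.V11106
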