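import Mathlib

/-! Local analysis: `n`-th roots near the identity for `C²` local multiplications. -/

namespace Pool.Agent.V11106

open Filter Topology Metric

section localgroup

variable {E : Type*} [NormedAddCommGroup E] [NormedSpace ℝ E]

theorem local_q {m : E × E → E} (hm : ContDiffAt ℝ 2 m 0)
    (h1 : ∀ᶠ x in 𝓝 (0 : E), m (x, 0) = x) (h2 : ∀ᶠ y in 𝓝 (0 : E), m (0, y) = y) :
    ∃ K : ℝ, 0 ≤ K ∧ ∃ r : ℝ, 0 < r ∧ ∀ x x' y y' : E, ‖x‖ ≤ r → ‖x'‖ ≤ r → ‖y‖ ≤ r → ‖y'‖ ≤ r →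
      ‖(m (x, y) - x - y) - (m (x', y') - x' - y')‖ ≤ K * ‖y‖ * ‖x - x'‖ + K * ‖x'‖ * ‖y - y'‖ := by
  set q : E × E → E := fun p => m p - p.1 - p.2 with hq
  have hqC : ContDiffAt ℝ 2 q 0 := (hm.sub contDiffAt_fst).sub contDiffAt_snd
  have hDC : ContDiffAt ℝ 1 (fderiv ℝ q) 0 := hqC.fderiv_right (by norm_num)
  obtain ⟨K, t, ht, hK⟩ := hDC.exists_lipschitzOnWith
  have hdiff : ∀ᶠ p in 𝓝 (0 : E × E), DifferentiableAt ℝ q p := by
    filter_upwards [hqC.eventually (by simp)] with p hp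
    exact hp.differentiableAt (by norm_num)
  obtain ⟨r, hr, hr2⟩ : ∃ r : ℝ, 0 < r ∧ (∀ p : E × E, ‖p‖ ≤ r → p ∈ t ∧ DifferentiableAt ℝ q p) ∧
      ∀ x : E, ‖x‖ ≤ r → (∀ᶠ x' in 𝓝 x, m (x', 0) = x') ∧ (∀ᶠ y' in 𝓝 x, m (0, y') = y') := by
    have e1 : ∀ᶠ p in 𝓝 (0 : E × E), p ∈ t ∧ DifferentiableAt ℝ q p := Filter.Eventually.and ht hdiff
    have e2 : ∀ᶠ x in 𝓝 (0 : E), (∀ᶠ x' in 𝓝 x, m (x', 0) = x') ∧
        (∀ᶠ y' in 𝓝 x, m (0, y') = y') := h1.eventually_nhds.and h2.eventually_nhds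
    obtain ⟨r1, hr1, h3⟩ := Metric.eventually_nhds_iff.1 e1
    obtain ⟨r2, hr2, h4⟩ := Metric.eventually_nhds_iff.1 e2
    refine ⟨min r1 r2 / 2, by positivity, fun p hp => h3 ?_, fun x hx => h4 ?_⟩
    · rw [dist_zero_right]
      have := min_le_left r1 r2
      have := lt_min hr1 hr2
      linarith
    · rw [dist_zero_right]
      have := min_le_right r1 r2
      have := lt_min hr1 hr2
      linarith
  refine ⟨K, K.2, r, hr, ?_⟩
  have hzero1 : ∀ x : E, ‖x‖ ≤ r → (fderiv ℝ q (x, 0)).comp (ContinuousLinearMap.inl ℝ E E) = 0 := by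
    intro x hx
    have hp : ‖((x, 0) : E × E)‖ ≤ r := by rw [Prod.norm_def]; exact max_le hx (by simpa using hr.le)
    have hd := (hr2.1 (x, 0) hp).2.hasFDerivAt
    have hc : HasFDerivAt (fun x' : E => ((x', 0) : E × E)) (ContinuousLinearMap.inl ℝ E E) x :=
      (ContinuousLinearMap.inl ℝ E E).hasFDerivAt
    have h3 := hd.comp x hc
    have h4 : HasFDerivAt (q ∘ fun x' : E => ((x', 0) : E × E)) (0 : E →L[ℝ] E) x := by
      refine (hasFDerivAt_const (0 : E) x).congr_of_eventuallyEq ?_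
      filter_upwards [(hr2.2 x hx).1] with x' hx'
      simp [hq, hx']
    exact h3.unique h4
  have hzero2 : ∀ y : E, ‖y‖ ≤ r → (fderiv ℝ q (0, y)).comp (ContinuousLinearMap.inr ℝ E E) = 0 := by
    intro y hy
    have hp : ‖((0, y) : E × E)‖ ≤ r := by rw [Prod.norm_def]; exact max_le (by simpa using hr.le) hy
    have hd := (hr2.1 (0, y) hp).2.hasFDerivAt
    have hc : HasFDerivAt (fun y' : E => ((0, y') : E × E)) (ContinuousLinearMap.inr ℝ E E) y :=
      (ContinuousLinearMap.inr ℝ E E).hasFDerivAt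
    have h3 := hd.comp y hc
    have h4 : HasFDerivAt (q ∘ fun y' : E => ((0, y') : E × E)) (0 : E →L[ℝ] E) y := by
      refine (hasFDerivAt_const (0 : E) y).congr_of_eventuallyEq ?_
      filter_upwards [(hr2.2 y hy).2] with y' hy'
      simp [hq, hy']
    exact h3.unique h4
  have hlip1 : ∀ x x' y : E, ‖x‖ ≤ r → ‖x'‖ ≤ r → ‖y‖ ≤ r →
      ‖q (x, y) - q (x', y)‖ ≤ K * ‖y‖ * ‖x - x'‖ := by
    intro x x' y hx hx' hy
    refine (convex_closedBall (0 : E) r).norm_image_sub_le_of_norm_hasFDerivWithin_le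
      (f := fun z => q (z, y))
      (f' := fun z => (fderiv ℝ q (z, y)).comp (ContinuousLinearMap.inl ℝ E E)) ?_ ?_
      (by simpa using hx') (by simpa using hx)
    · intro z hz
      have hz' : ‖z‖ ≤ r := by simpa using hz
      have hp : ‖((z, y) : E × E)‖ ≤ r := by rw [Prod.norm_def]; exact max_le hz' hy
      have hd := (hr2.1 (z, y) hp).2.hasFDerivAt
      have hc : HasFDerivAt (fun x' : E => ((x', y) : E × E)) (ContinuousLinearMap.inl ℝ E E) z :=
        hasFDerivAt_prodMk_left z y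
      exact (hd.comp z hc).hasFDerivWithinAt
    · intro z hz
      have hz' : ‖z‖ ≤ r := by simpa using hz
      have hp : ‖((z, y) : E × E)‖ ≤ r := by rw [Prod.norm_def]; exact max_le hz' hy
      have hp0 : ‖((z, 0) : E × E)‖ ≤ r := by rw [Prod.norm_def]; exact max_le hz' (by simpa using hr.le)
      have h3 : (fderiv ℝ q (z, y)).comp (ContinuousLinearMap.inl ℝ E E) =
          (fderiv ℝ q (z, y) - fderiv ℝ q (z, 0)).comp (ContinuousLinearMap.inl ℝ E E) := by
        rw [ContinuousLinearMap.sub_comp, hzero1 z hz', sub_zero]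
      rw [h3]
      refine (ContinuousLinearMap.opNorm_comp_le _ _).trans ?_
      have h4 := hK.dist_le_mul _ (hr2.1 _ hp).1 _ (hr2.1 _ hp0).1
      rw [dist_eq_norm, dist_eq_norm] at h4
      have h5 : ‖((z, y) : E × E) - (z, 0)‖ = ‖y‖ := by
        simp [Prod.norm_def]
      rw [h5] at h4
      calc _ ≤ (K * ‖y‖) * 1 := mul_le_mul h4 (ContinuousLinearMap.norm_inl_le_one ℝ E E)
            (norm_nonneg _) (by positivity)
        _ = K * ‖y‖ := mul_one _
  have hlip2 : ∀ x y y' : E, ‖x‖ ≤ r → ‖y‖ ≤ r → ‖y'‖ ≤ r →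
      ‖q (x, y) - q (x, y')‖ ≤ K * ‖x‖ * ‖y - y'‖ := by
    intro x y y' hx hy hy'
    refine (convex_closedBall (0 : E) r).norm_image_sub_le_of_norm_hasFDerivWithin_le
      (f := fun z => q (x, z))
      (f' := fun z => (fderiv ℝ q (x, z)).comp (ContinuousLinearMap.inr ℝ E E)) ?_ ?_
      (by simpa using hy') (by simpa using hy)
    · intro z hz
      have hz' : ‖z‖ ≤ r := by simpa using hz
      have hp : ‖((x, z) : E × E)‖ ≤ r := by rw [Prod.norm_def]; exact max_le hx hz'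
      have hd := (hr2.1 (x, z) hp).2.hasFDerivAt
      have hc : HasFDerivAt (fun x' : E => ((x, x') : E × E)) (ContinuousLinearMap.inr ℝ E E) z :=
        hasFDerivAt_prodMk_right x z
      exact (hd.comp z hc).hasFDerivWithinAt
    · intro z hz
      have hz' : ‖z‖ ≤ r := by simpa using hz
      have hp : ‖((x, z) : E × E)‖ ≤ r := by rw [Prod.norm_def]; exact max_le hx hz'
      have hp0 : ‖((0, z) : E × E)‖ ≤ r := by rw [Prod.norm_def]; exact max_le (by simpa using hr.le) hz'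
      have h3 : (fderiv ℝ q (x, z)).comp (ContinuousLinearMap.inr ℝ E E) =
          (fderiv ℝ q (x, z) - fderiv ℝ q (0, z)).comp (ContinuousLinearMap.inr ℝ E E) := by
        rw [ContinuousLinearMap.sub_comp, hzero2 z hz', sub_zero]
      rw [h3]
      refine (ContinuousLinearMap.opNorm_comp_le _ _).trans ?_
      have h4 := hK.dist_le_mul _ (hr2.1 _ hp).1 _ (hr2.1 _ hp0).1
      rw [dist_eq_norm, dist_eq_norm] at h4
      have h5 : ‖((x, z) : E × E) - (0, z)‖ = ‖x‖ := by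
        simp [Prod.norm_def]
      rw [h5] at h4
      calc _ ≤ (K * ‖x‖) * 1 := mul_le_mul h4 (ContinuousLinearMap.norm_inr_le_one ℝ E E)
            (norm_nonneg _) (by positivity)
        _ = K * ‖x‖ := mul_one _
  intro x x' y y' hx hx' hy hy'
  calc ‖(m (x, y) - x - y) - (m (x', y') - x' - y')‖
      = ‖(q (x, y) - q (x', y)) + (q (x', y) - q (x', y'))‖ := by rw [sub_add_sub_cancel]
    _ ≤ ‖q (x, y) - q (x', y)‖ + ‖q (x', y) - q (x', y')‖ := norm_add_le _ _
    _ ≤ _ := add_le_add (hlip1 x x' y hx hx' hy) (hlip2 x' y y' hx' hy hy')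

/-- local powers -/
def lpow (m : E × E → E) (k : ℕ) (x : E) : E := (fun w => m (w, x))^[k] 0

omit [NormedSpace ℝ E] in
theorem lpow_succ (m : E × E → E) (k : ℕ) (x : E) :
    lpow m (k + 1) x = m (lpow m k x, x) := by
  unfold lpow
  rw [Function.iterate_succ_apply']

omit [NormedSpace ℝ E] in
theorem lpow_zero (m : E × E → E) (x : E) : lpow m 0 x = 0 := rfl

theorem local_roots [CompleteSpace E] {m : E × E → E} {K r : ℝ} (hK : 0 ≤ K) (hr : 0 < r)
    (hq : ∀ x x' y y' : E, ‖x‖ ≤ r → ‖x'‖ ≤ r → ‖y‖ ≤ r → ‖y'‖ ≤ r →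
      ‖(m (x, y) - x - y) - (m (x', y') - x' - y')‖ ≤ K * ‖y‖ * ‖x - x'‖ + K * ‖x'‖ * ‖y - y'‖)
    (h0 : m (0, 0) = 0) :
    ∃ ρ : ℝ, 0 < ρ ∧ ∀ n : ℕ, 1 ≤ n → ∀ z : E, ‖z‖ ≤ ρ / 4 → ∃ x : E, ‖x‖ ≤ ρ / n ∧ ‖x‖ ≤ r ∧
      (∀ k ≤ n, ‖lpow m k x‖ ≤ r) ∧ lpow m n x = z := by
  set ρ : ℝ := min (r / 2) (1 / (8 * (K + 1))) with hρ
  have hρ0 : 0 < ρ := by
    refine lt_min (by positivity) (by positivity)
  have hρr : 2 * ρ ≤ r := by
    have := min_le_left (r / 2) (1 / (8 * (K + 1)))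
    rw [← hρ] at this
    linarith
  have hρK : 8 * K * ρ ≤ 1 := by
    have h1 := min_le_right (r / 2) (1 / (8 * (K + 1)))
    rw [← hρ] at h1
    rw [le_div_iff₀ (by positivity)] at h1
    nlinarith
  have hzero : ∀ k, lpow m k (0 : E) = 0 := by
    intro k
    induction k with
    | zero => rfl
    | succ k ih => rw [lpow_succ, ih, h0]
  refine ⟨ρ, hρ0, ?_⟩
  intro n hn z hz
  have hn0 : (0 : ℝ) < n := by exact_mod_cast hn
  have hle : ∀ x : E, ‖x‖ ≤ ρ / n → ‖x‖ ≤ ρ := by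
    intro x hx
    refine hx.trans (div_le_self hρ0.le ?_)
    exact_mod_cast hn
  -- main estimate
  have main : ∀ k : ℕ, k ≤ n → ∀ x x' : E, ‖x‖ ≤ ρ / n → ‖x'‖ ≤ ρ / n →
      ‖lpow m k x - lpow m k x' - (k : ℝ) • (x - x')‖ ≤ (k : ℝ) / 2 * ‖x - x'‖ := by
    intro k
    induction k with
    | zero => intro _ x x' _ _; simp [lpow_zero]
    | succ k ih =>
      intro hk x x' hx hx'
      have ihk := ih (by omega)
      have hkn : (k : ℝ) ≤ n := by exact_mod_cast (by omega : k ≤ n)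
      have hdiff : ∀ w w' : E, ‖w‖ ≤ ρ / n → ‖w'‖ ≤ ρ / n →
          ‖lpow m k w - lpow m k w'‖ ≤ 2 * k * ‖w - w'‖ := by
        intro w w' hw hw'
        have h1 := ihk w w' hw hw'
        have h2 : ‖(k : ℝ) • (w - w')‖ = k * ‖w - w'‖ := by
          rw [norm_smul, Real.norm_of_nonneg (by positivity)]
        have h3 : lpow m k w - lpow m k w' = (lpow m k w - lpow m k w' - (k : ℝ) • (w - w')) +
            (k : ℝ) • (w - w') := by abel
        rw [h3]
        refine (norm_add_le _ _).trans ?_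
        rw [h2]
        have h4 : 0 ≤ (k : ℝ) * ‖w - w'‖ := by positivity
        linarith
      have hbd : ∀ w : E, ‖w‖ ≤ ρ / n → ‖lpow m k w‖ ≤ 2 * ρ := by
        intro w hw
        have h1 := hdiff w 0 hw (by rw [norm_zero]; positivity)
        rw [hzero, sub_zero, sub_zero] at h1
        refine h1.trans ?_
        have h2 : (k : ℝ) * ‖w‖ ≤ n * (ρ / n) := by gcongr
        rw [mul_div_cancel₀ _ hn0.ne'] at h2
        linarith
      have hq' := hq (lpow m k x) (lpow m k x') x x' ((hbd x hx).trans hρr) ((hbd x' hx').trans hρr)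
        ((hle x hx).trans (by linarith)) ((hle x' hx').trans (by linarith))
      have h1 := ihk x x' hx hx'
      have h2 := hdiff x x' hx hx'
      have h3 := hbd x' hx'
      have e : lpow m (k + 1) x - lpow m (k + 1) x' - ((k + 1 : ℕ) : ℝ) • (x - x') =
          (lpow m k x - lpow m k x' - (k : ℝ) • (x - x')) +
          ((m (lpow m k x, x) - lpow m k x - x) - (m (lpow m k x', x') - lpow m k x' - x')) := by
        rw [lpow_succ, lpow_succ]
        push_cast
        rw [add_smul, one_smul]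
        abel
      rw [e]
      refine (norm_add_le _ _).trans ?_
      have h4 : K * ‖x‖ * ‖lpow m k x - lpow m k x'‖ ≤ 2 * K * ρ * ‖x - x'‖ := by
        calc K * ‖x‖ * ‖lpow m k x - lpow m k x'‖ ≤ K * (ρ / n) * (2 * k * ‖x - x'‖) := by gcongr
          _ ≤ K * (ρ / n) * (2 * n * ‖x - x'‖) := by gcongr
          _ = 2 * K * ρ * ‖x - x'‖ := by field_simp
      have h5 : K * ‖lpow m k x'‖ * ‖x - x'‖ ≤ K * (2 * ρ) * ‖x - x'‖ := by gcongr
      have h6 : 4 * K * ρ * ‖x - x'‖ ≤ 1 / 2 * ‖x - x'‖ := by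
        refine mul_le_mul_of_nonneg_right ?_ (norm_nonneg _)
        linarith
      push_cast
      linarith
  have hmainn := main n le_rfl
  have hbd : ∀ k ≤ n, ∀ w : E, ‖w‖ ≤ ρ / n → ‖lpow m k w‖ ≤ r := by
    intro k hk w hw
    have h1 := main k hk w 0 hw (by rw [norm_zero]; positivity)
    rw [hzero, sub_zero, sub_zero] at h1
    have h3 : lpow m k w = (lpow m k w - (k : ℝ) • w) + (k : ℝ) • w := by abel
    rw [h3]
    refine (norm_add_le _ _).trans ?_
    rw [norm_smul, Real.norm_of_nonneg (by positivity)]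
    have hkn : (k : ℝ) ≤ n := by exact_mod_cast hk
    have h2 : (k : ℝ) * ‖w‖ ≤ n * (ρ / n) := by gcongr
    rw [mul_div_cancel₀ _ hn0.ne'] at h2
    linarith
  -- the contraction
  set Ψ : E → E := fun x => x - (n : ℝ)⁻¹ • (lpow m n x - z) with hΨ
  have hΨlip : ∀ x x' : E, ‖x‖ ≤ ρ / n → ‖x'‖ ≤ ρ / n → ‖Ψ x - Ψ x'‖ ≤ 1 / 2 * ‖x - x'‖ := by
    intro x x' hx hx'
    have e : Ψ x - Ψ x' = -((n : ℝ)⁻¹ • (lpow m n x - lpow m n x' - (n : ℝ) • (x - x'))) := by
      simp only [hΨ, smul_sub, smul_smul, inv_mul_cancel₀ hn0.ne', one_smul]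
      abel
    rw [e, norm_neg, norm_smul, Real.norm_of_nonneg (by positivity)]
    calc (n : ℝ)⁻¹ * ‖lpow m n x - lpow m n x' - (n : ℝ) • (x - x')‖
        ≤ (n : ℝ)⁻¹ * ((n : ℝ) / 2 * ‖x - x'‖) := by
          gcongr
          exact hmainn x x' hx hx'
      _ = 1 / 2 * ‖x - x'‖ := by field_simp
  have hΨ0 : ‖Ψ 0‖ ≤ 1 / 4 * (ρ / n) := by
    have e : Ψ 0 = (n : ℝ)⁻¹ • z := by
      simp only [hΨ, hzero, zero_sub, smul_neg, neg_neg]
    rw [e, norm_smul, Real.norm_of_nonneg (by positivity)]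
    calc (n : ℝ)⁻¹ * ‖z‖ ≤ (n : ℝ)⁻¹ * (ρ / 4) := by gcongr
      _ = 1 / 4 * (ρ / n) := by field_simp
  have hmaps : Set.MapsTo Ψ (closedBall 0 (ρ / n)) (closedBall 0 (ρ / n)) := by
    intro x hx
    rw [mem_closedBall_zero_iff] at hx ⊢
    have h1 := hΨlip x 0 hx (by rw [norm_zero]; positivity)
    rw [sub_zero] at h1
    have h2 : Ψ x = (Ψ x - Ψ 0) + Ψ 0 := by abel
    rw [h2]
    refine (norm_add_le _ _).trans ?_
    have : 0 < ρ / n := by positivity
    linarith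
  have hcontr : ContractingWith (1 / 2) (hmaps.restrict Ψ _ _) := by
    refine ⟨by norm_num, LipschitzWith.of_dist_le_mul ?_⟩
    rintro ⟨x, hx⟩ ⟨y, hy⟩
    rw [Subtype.dist_eq, Subtype.dist_eq, dist_eq_norm, dist_eq_norm]
    have := hΨlip x y (by simpa using hx) (by simpa using hy)
    simpa using this
  obtain ⟨x, hx, hfix, -⟩ := hcontr.exists_fixedPoint' isClosed_closedBall.isComplete hmaps
    (x := 0) (by simp; positivity) (edist_ne_top _ _)
  have hx' : ‖x‖ ≤ ρ / n := by simpa using hx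
  refine ⟨x, hx', (hle x hx').trans (by linarith), fun k hk => hbd k hk x hx', ?_⟩
  have h1 : x - (n : ℝ)⁻¹ • (lpow m n x - z) = x := hfix
  have h2 : (n : ℝ)⁻¹ • (lpow m n x - z) = 0 := by
    have := sub_eq_self.1 h1
    exact this
  rcases smul_eq_zero.1 h2 with h3 | h3
  · exact absurd h3 (inv_ne_zero hn0.ne')
  · exact sub_eq_zero.1 h3

end localgroup

end Pool.Agent.V11106
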