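import Pool.Agent.V11106.Nil6
import Pool.Agent.V11106.Nil7

/-! In a Lie group every element near the identity has small roots. -/

namespace Pool.Agent.V11106

open Filter Topology Metric
open scoped Manifold ContDiff

variable {E : Type*} [NormedAddCommGroup E] [NormedSpace ℝ E] [CompleteSpace E]
variable {G : Type*} [TopologicalSpace G] [ChartedSpace E G] [Group G]

theorem rooted_nhds [LieGroup 𝓘(ℝ, E) ∞ G] [IsTopologicalGroup G] :
    ∀ᶠ g in 𝓝 (1 : G), Rooted g := by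
  set φ := extChartAt 𝓘(ℝ, E) (1 : G) with hφ
  set e0 : E := φ 1 with he0
  set ψ : E → G := fun x => φ.symm (x + e0) with hψ
  set m : E × E → E := fun p => φ (ψ p.1 * ψ p.2) - e0 with hm
  have hsrc : (1 : G) ∈ φ.source := mem_extChartAt_source (I := 𝓘(ℝ, E)) (1 : G)
  have hψ0 : ψ 0 = 1 := by
    simp only [hψ, zero_add, he0]
    exact φ.left_inv hsrc
  have htgt : φ.target ∈ 𝓝 e0 := extChartAt_target_mem_nhds (I := 𝓘(ℝ, E)) (1 : G)
  have hψs : ContMDiffAt 𝓘(ℝ, E) 𝓘(ℝ, E) ∞ ψ 0 := by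
    have h1 : ContMDiffAt 𝓘(ℝ, E) 𝓘(ℝ, E) ∞ φ.symm (0 + e0) := by
      rw [zero_add]
      exact (contMDiffOn_extChartAt_symm (I := 𝓘(ℝ, E)) (n := ∞) (1 : G)).contMDiffAt htgt
    have h2 : ContMDiffAt 𝓘(ℝ, E) 𝓘(ℝ, E) ∞ (fun x : E => x + e0) 0 :=
      (contDiff_id.add contDiff_const).contMDiff.contMDiffAt
    exact ContMDiffAt.comp (0 : E) h1 h2
  have hψc : ContinuousAt ψ 0 := hψs.continuousAt
  have hf : ContMDiffAt 𝓘(ℝ, E × E) 𝓘(ℝ, E) ∞ (fun p : E × E => ψ p.1) 0 := by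
    have h2 : ContMDiffAt 𝓘(ℝ, E × E) 𝓘(ℝ, E) ∞ (fun p : E × E => p.1) 0 :=
      contDiff_fst.contMDiff.contMDiffAt
    exact ContMDiffAt.comp (g := ψ) (0 : E × E) hψs h2
  have hg : ContMDiffAt 𝓘(ℝ, E × E) 𝓘(ℝ, E) ∞ (fun p : E × E => ψ p.2) 0 := by
    have h2 : ContMDiffAt 𝓘(ℝ, E × E) 𝓘(ℝ, E) ∞ (fun p : E × E => p.2) 0 :=
      contDiff_snd.contMDiff.contMDiffAt
    exact ContMDiffAt.comp (g := ψ) (0 : E × E) hψs h2
  have hfg : ContMDiffAt 𝓘(ℝ, E × E) 𝓘(ℝ, E) ∞ (fun p : E × E => ψ p.1 * ψ p.2) 0 := hf.mul hg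
  have hval : (fun p : E × E => ψ p.1 * ψ p.2) 0 = 1 := by
    simp [hψ0]
  have hφm : ContMDiffAt 𝓘(ℝ, E × E) 𝓘(ℝ, E) ∞ (fun p : E × E => φ (ψ p.1 * ψ p.2)) 0 := by
    have h1 : ContMDiffAt 𝓘(ℝ, E) 𝓘(ℝ, E) ∞ φ ((fun p : E × E => ψ p.1 * ψ p.2) 0) := by
      rw [hval]
      exact contMDiffAt_extChartAt
    exact ContMDiffAt.comp (0 : E × E) h1 hfg
  have hmC : ContDiffAt ℝ 2 m 0 := by
    have h1 : ContDiffAt ℝ ∞ (fun p : E × E => φ (ψ p.1 * ψ p.2)) 0 :=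
      contMDiffAt_iff_contDiffAt.1 hφm
    have h2 : ContDiffAt ℝ ∞ m 0 := h1.sub contDiffAt_const
    exact h2.of_le ENat.LEInfty.out
  have htr : ∀ᶠ x in 𝓝 (0 : E), x + e0 ∈ φ.target := by
    have hc : ContinuousAt (fun x : E => x + e0) 0 := by fun_prop
    exact hc.preimage_mem_nhds (by simpa using htgt)
  have h1 : ∀ᶠ x in 𝓝 (0 : E), m (x, 0) = x := by
    filter_upwards [htr] with x hx
    simp only [hm, hψ0, mul_one]
    simp only [hψ]
    rw [φ.right_inv hx, add_sub_cancel_right]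
  have h2 : ∀ᶠ x in 𝓝 (0 : E), m (0, x) = x := by
    filter_upwards [htr] with x hx
    simp only [hm, hψ0, one_mul]
    simp only [hψ]
    rw [φ.right_inv hx, add_sub_cancel_right]
  obtain ⟨K, hK, r1, hr1, hq⟩ := local_q hmC h1 h2
  have hsn : ∀ᶠ p in 𝓝 (0 : E × E), ψ p.1 * ψ p.2 ∈ φ.source := by
    refine hfg.continuousAt.preimage_mem_nhds ?_
    change φ.source ∈ 𝓝 ((fun p : E × E => ψ p.1 * ψ p.2) 0)
    rw [hval]
    exact extChartAt_source_mem_nhds (I := 𝓘(ℝ, E)) (1 : G)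
  obtain ⟨r2, hr2, hsn2⟩ := Metric.eventually_nhds_iff.1 hsn
  set r : ℝ := min r1 (r2 / 2) with hr
  have hr0 : 0 < r := lt_min hr1 (by positivity)
  have hmul : ∀ a b : E, ‖a‖ ≤ r → ‖b‖ ≤ r → ψ (m (a, b)) = ψ a * ψ b := by
    intro a b ha hb
    have hmem : ψ a * ψ b ∈ φ.source := by
      refine hsn2 (y := (a, b)) ?_
      rw [dist_zero_right, Prod.norm_def]
      have := min_le_right r1 (r2 / 2)
      refine max_lt ?_ ?_
      · simp only; linarith
      · simp only; linarith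
    simp only [hm]
    conv_lhs => rw [hψ]
    simp only [sub_add_cancel]
    exact φ.left_inv hmem
  have h0 : m (0, 0) = 0 := by
    simp only [hm, hψ0, mul_one, he0, sub_self]
  obtain ⟨ρ, hρ, hroots⟩ := local_roots hK hr0 (fun x x' y y' hx hx' hy hy' =>
    hq x x' y y' (hx.trans (min_le_left _ _)) (hx'.trans (min_le_left _ _))
      (hy.trans (min_le_left _ _)) (hy'.trans (min_le_left _ _))) h0
  have hnear : ∀ᶠ g in 𝓝 (1 : G), g ∈ φ.source ∧ ‖φ g - e0‖ ≤ ρ / 4 := by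
    have e1 : ∀ᶠ g in 𝓝 (1 : G), g ∈ φ.source := extChartAt_source_mem_nhds (I := 𝓘(ℝ, E)) (1 : G)
    have e2 : ∀ᶠ g in 𝓝 (1 : G), ‖φ g - e0‖ ≤ ρ / 4 := by
      have hc : ContinuousAt φ (1 : G) := continuousAt_extChartAt (I := 𝓘(ℝ, E)) (1 : G)
      have h3 := hc.eventually (Metric.closedBall_mem_nhds (φ 1) (by positivity : 0 < ρ / 4))
      filter_upwards [h3] with g hg
      rwa [dist_eq_norm] at hg
    exact e1.and e2
  filter_upwards [hnear] with g hg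
  obtain ⟨hgs, hgn⟩ := hg
  choose! x hx using fun n (hn : 1 ≤ n) => hroots n hn (φ g - e0) hgn
  refine ⟨fun n => ψ (x n), ?_, ?_⟩
  · have hx0 : Tendsto x atTop (𝓝 0) := by
      rw [tendsto_zero_iff_norm_tendsto_zero]
      refine squeeze_zero' (Eventually.of_forall fun n => norm_nonneg _) (g := fun n : ℕ => ρ / n)
        ?_ (tendsto_const_div_atTop_nhds_zero_nat ρ)
      filter_upwards [eventually_ge_atTop 1] with n hn
      exact (hx n hn).1
    have := hψc.tendsto.comp hx0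
    rwa [hψ0] at this
  · filter_upwards [eventually_ge_atTop 1] with n hn
    obtain ⟨-, h3, h4, h5⟩ := hx n hn
    have hk : ∀ k ≤ n, ψ (lpow m k (x n)) = ψ (x n) ^ k := by
      intro k
      induction k with
      | zero => intro _; rw [lpow_zero, hψ0, pow_zero]
      | succ k ih =>
        intro hk
        rw [lpow_succ, hmul _ _ (h4 k (by omega)) h3, ih (by omega), pow_succ]
    rw [← hk n le_rfl, h5]
    simp only [hψ, sub_add_cancel]
    exact φ.left_inv hgs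

end Pool.Agent.V11106
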