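import Pool.Agent.V11106.Nil8

/-! Assembly: minimal nilsystems have dense orbits along `R_e`-sequences. -/

namespace Pool.Agent.V11106

open Filter Topology
open scoped Manifold ContDiff

section second

variable {E : Type*} [NormedAddCommGroup E] [NormedSpace ℝ E] [FiniteDimensional ℝ E]
variable {G : Type*} [TopologicalSpace G] [ChartedSpace E G] [Group G] [IsTopologicalGroup G]

theorem secondCountable_quotient (E : Type*) [NormedAddCommGroup E] [NormedSpace ℝ E]
    [FiniteDimensional ℝ E] {G : Type*} [TopologicalSpace G] [ChartedSpace E G] [Group G]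
    [IsTopologicalGroup G] (Γ : Subgroup G) [CompactSpace (G ⧸ Γ)] :
    SecondCountableTopology (G ⧸ Γ) := by
  have hE : SecondCountableTopology E := by
    have : ProperSpace E := FiniteDimensional.proper ℝ E
    infer_instance
  let U : G → Set (G ⧸ Γ) := fun g => (fun x : G => (QuotientGroup.mk x : G ⧸ Γ)) ''
    (chartAt E g).source
  have hUo : ∀ g, IsOpen (U g) := fun g => QuotientGroup.isOpenMap_coe _ (chartAt E g).open_source
  have hUs : ∀ g, SecondCountableTopology (U g) := by
    intro g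
    have h1 : SecondCountableTopology (chartAt E g).source :=
      (chartAt E g).toHomeomorphSourceTarget.secondCountableTopology
    let f : (chartAt E g).source → G ⧸ Γ := fun x => QuotientGroup.mk (x : G)
    have hf : IsOpenMap f :=
      QuotientGroup.isOpenMap_coe.comp (chartAt E g).open_source.isOpenMap_subtype_val
    have hfc : Continuous f := QuotientGroup.continuous_mk.comp continuous_subtype_val
    have hmem : ∀ x, f x ∈ U g := fun x => ⟨x, x.2, rfl⟩
    have h2 : IsOpenMap (Set.codRestrict f (U g) hmem) := hf.codRestrict hmem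
    have h3 : Continuous (Set.codRestrict f (U g) hmem) := hfc.codRestrict hmem
    have h4 : Function.Surjective (Set.codRestrict f (U g) hmem) := by
      rintro ⟨y, x, hx, rfl⟩
      exact ⟨⟨x, hx⟩, rfl⟩
    exact (h2.isQuotientMap h3 h4).secondCountableTopology h2
  obtain ⟨t, ht⟩ := isCompact_univ.elim_finite_subcover U hUo (by
    intro y _
    obtain ⟨g, rfl⟩ := QuotientGroup.mk_surjective y
    exact Set.mem_iUnion.2 ⟨g, g, mem_chart_source E g, rfl⟩)
  have hs : ∀ i : t, SecondCountableTopology (U i) := fun i => hUs i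
  refine TopologicalSpace.secondCountableTopology_of_countable_cover (ι := t)
    (U := fun i => U i) (fun i => hUo i) ?_
  rw [Set.eq_univ_iff_forall]
  intro y
  obtain ⟨i, hi, hy⟩ := Set.mem_iUnion₂.1 (ht (Set.mem_univ y))
  exact Set.mem_iUnion.2 ⟨⟨i, hi⟩, hy⟩

end second

section main

variable {G : Type} [Group G] [TopologicalSpace G] [IsTopologicalGroup G]

theorem exists_dense_of_rooted_nhds {A : Set ℕ} (hA : IsReSequence A) (Γ : Subgroup G)
    [CompactSpace (G ⧸ Γ)] [T2Space (G ⧸ Γ)] [SecondCountableTopology (G ⧸ Γ)]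
    [hnil : Group.IsNilpotent G] (hroot : ∀ᶠ g in 𝓝 (1 : G), Rooted g) (a : G)
    (hmin : ∀ v : G ⧸ Γ, Dense {z : G ⧸ Γ | ∃ n : ℕ, 1 ≤ n ∧ z = a ^ n • v}) :
    ∃ y : G ⧸ Γ, Dense {z : G ⧸ Γ | ∃ n ∈ A, z = a ^ n • y} := by
  set H : Subgroup G := Subgroup.closure ({a} ∪ {c | Rooted c}) with hH
  have haH : a ∈ H := Subgroup.subset_closure (Or.inl rfl)
  have hHn : (H : Set G) ∈ 𝓝 (1 : G) := by
    filter_upwards [hroot] with g hg
    exact Subgroup.subset_closure (Or.inr hg)
  have hHo : IsOpen (H : Set G) := H.isOpen_of_mem_nhds hHn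
  -- generation
  have hrootH : ∀ c (hc : c ∈ H), Rooted c → Rooted (⟨c, hc⟩ : H) := by
    classical
    rintro c hc ⟨f, hf, hf2⟩
    have hev : ∀ᶠ n in atTop, f n ∈ H := hf.eventually hHn
    refine ⟨fun n => if h : f n ∈ H then ⟨f n, h⟩ else 1, ?_, ?_⟩
    · rw [tendsto_subtype_rng]
      refine hf.congr' ?_
      filter_upwards [hev] with n hn
      rw [dif_pos hn]
    · filter_upwards [hev, hf2] with n hn hn2
      rw [dif_pos hn]
      exact Subtype.ext hn2
  have hgen : Subgroup.closure ({(⟨a, haH⟩ : H)} ∪ {c : H | Rooted c}) = (⊤ : Subgroup H) := by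
    rw [eq_top_iff]
    rintro ⟨x, hx⟩ -
    have hx' : x ∈ Subgroup.closure ({a} ∪ {c : G | Rooted c}) := hx
    induction hx' using Subgroup.closure_induction with
    | mem y hy =>
      refine Subgroup.subset_closure ?_
      rcases hy with hy | hy
      · rw [Set.mem_singleton_iff] at hy
        subst hy
        exact Or.inl rfl
      · exact Or.inr (hrootH y hx hy)
    | one => exact one_mem _
    | mul x y hx1 hy1 h1 h2 => exact mul_mem (h1 hx1) (h2 hy1)
    | inv x hx1 h1 => exact inv_mem (h1 hx1)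
  have hopenG : ∀ y : G ⧸ Γ, IsOpenMap (fun g : G => g • y) := by
    intro y
    obtain ⟨h, rfl⟩ := QuotientGroup.mk_surjective y
    have : (fun g : G => g • (QuotientGroup.mk h : G ⧸ Γ)) =
        (fun x : G => (QuotientGroup.mk x : G ⧸ Γ)) ∘ (fun g : G => g * h) := rfl
    rw [this]
    exact QuotientGroup.isOpenMap_coe.comp (isOpenMap_mul_right h)
  have hopen : ∀ y : G ⧸ Γ, IsOpenMap (fun g : H => g • y) := fun y =>
    (hopenG y).comp hHo.isOpenMap_subtype_val
  have hmin' : ∀ v : G ⧸ Γ, Dense {z : G ⧸ Γ | ∃ n : ℕ, 1 ≤ n ∧ z = (⟨a, haH⟩ : H) ^ n • v} := by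
    intro v
    exact hmin v
  have htr : ∀ x y : G ⧸ Γ, ∃ g : H, g • x = y := by
    intro x y
    have hcl : IsClosed {z : G ⧸ Γ | ∃ g : H, g • x = z} := by
      rw [← isOpen_compl_iff]
      have : {z : G ⧸ Γ | ∃ g : H, g • x = z}ᶜ = ⋃ w ∈ {z : G ⧸ Γ | ∃ g : H, g • x = z}ᶜ,
          Set.range (fun g : H => g • w) := by
        ext z
        constructor
        · intro hz
          exact Set.mem_biUnion hz ⟨1, one_smul _ _⟩
        · intro hz
          obtain ⟨w, hw, g, rfl⟩ := Set.mem_iUnion₂.1 hz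
          rintro ⟨g', hg'⟩
          refine hw ⟨g⁻¹ * g', ?_⟩
          rw [mul_smul, hg', inv_smul_smul]
      rw [this]
      exact isOpen_biUnion fun w _ => (hopen w).isOpen_range
    have hsub : {z : G ⧸ Γ | ∃ n : ℕ, 1 ≤ n ∧ z = a ^ n • x} ⊆ {z : G ⧸ Γ | ∃ g : H, g • x = z} := by
      rintro z ⟨n, -, rfl⟩
      exact ⟨(⟨a, haH⟩ : H) ^ n, rfl⟩
    have := hcl.closure_subset_iff.2 hsub
    rw [(hmin x).closure_eq] at this
    exact this (Set.mem_univ y)
  obtain ⟨s, hs⟩ := (Subgroup.nilpotent_iff_lowerCentralSeries (G := H)).1 inferInstance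
  have hs' : LC H (s + 1) = ⊥ := by
    rw [eq_bot_iff, ← hs]
    exact LC_anti (Nat.le_succ s)
  have hsmG : ContinuousSMul G (G ⧸ Γ) := inferInstance
  have hsm : ContinuousSMul H (G ⧸ Γ) := by
    refine ⟨?_⟩
    have h1 : Continuous (fun p : H × (G ⧸ Γ) => ((p.1 : G), p.2)) := by fun_prop
    exact (continuous_smul (M := G) (X := G ⧸ Γ)).comp h1
  obtain ⟨y, hy⟩ := exists_dense hA hgen hopen htr hmin' s hs'
  exact ⟨y, hy⟩

end main

end Pool.Agent.V11106
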